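import Mathlib
set_option autoImplicit false
set_option maxHeartbeats 1000000
namespace Pool.Agent.SR871
open Finset

/-- play operator (lazy follower) with half-width `r`, started at 0 -/
noncomputable def play (r : ℝ) (x : ℕ → ℝ) : ℕ → ℝ
  | 0 => 0
  | t+1 => max (x (t+1) - r) (min (x (t+1) + r) (play r x t))

/-- total variation up to time `N` -/
noncomputable def tv (N : ℕ) (g : ℕ → ℝ) : ℝ := ∑ t ∈ range N, |g (t+1) - g t|

noncomputable def V (N : ℕ) (r : ℝ) (x : ℕ → ℝ) : ℝ := tv N (play r x)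

/-- a chain `0 = s 0 < s 1 < ... < s m ≤ N` -/
def IsFam (N m : ℕ) (s : ℕ → ℕ) : Prop := s 0 = 0 ∧ (∀ i < m, s i < s (i+1)) ∧ s m ≤ N

/-- alternating sum of increments along a chain -/
noncomputable def fam (m : ℕ) (s : ℕ → ℕ) (e : ℝ) (x : ℕ → ℝ) : ℝ :=
  ∑ i ∈ range m, e * (-1)^i * (x (s (i+1)) - x (s i))

/-- Schmitt trigger of `x - play r x` with thresholds `±θ` -/
noncomputable def st (r θ : ℝ) (x : ℕ → ℝ) : ℕ → ℤ
  | 0 => 0
  | t+1 => if θ ≤ x (t+1) - play r x (t+1) then 1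
           else if x (t+1) - play r x (t+1) ≤ -θ then -1 else st r θ x t

/-- up-flips of the trigger (the down-flips of `x` are the up-flips of `-x`) -/
noncomputable def Up (N : ℕ) (r θ : ℝ) (x : ℕ → ℝ) : Finset ℕ :=
  (Icc 1 N).filter (fun t => st r θ x t = 1 ∧ st r θ x (t-1) ≠ 1)

/-- `Sel W R n`: there are `n` rules, each picks for every strictly increasing sequence `x 0 < ... < x W`
a number in `(x 0, x W]`, and for all interleaved `x 0 < y 0 < x 1 < y 1 < ... < x W < y W` of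
total length `< R` some two of the rules agree: one on `x`, one on `y`. -/
def Sel (W R n : ℕ) : Prop := ∃ z : Fin n → (ℕ → ℕ) → ℕ,
  (∀ i x, (∀ j < W, x j < x (j+1)) → x 0 < z i x ∧ z i x ≤ x W) ∧
  (∀ x y : ℕ → ℕ, (∀ j ≤ W, x j < y j) → (∀ j < W, y j < x (j+1)) → y W < x 0 + R →
    ∃ i j, z i x = z j y)

/-- times in `1..N` at which `q` changes -/
def flips (N : ℕ) (q : ℕ → ℤ) : Finset ℕ := (Icc 1 N).filter (fun t => q t ≠ q (t-1))

/-- interval `(lo,hi]` is good for `q` with sign `σ`: exactly one flip, and it ends in state `σ` -/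
def GoodI (N : ℕ) (q : ℕ → ℤ) (lo hi : ℕ) (σ : ℤ) : Prop :=
  ((flips N q ∩ Ioc lo hi).card = 1) ∧ q hi = σ

/-- square of the norm -/
noncomputable def nsq (N : ℕ) (x : ℕ → ℝ) : ℝ := ∫ r in Set.Ioi (0:ℝ), V N r x

/-- number of flips, as the cost `2n-1` -/
noncomputable def nfl (N : ℕ) (r θ : ℝ) (x : ℕ → ℝ) : ℝ :=
  ((2 * ((Up N r θ x).card + (Up N r θ (fun u => - x u)).card) - 1 : ℕ) : ℝ)

/-- expected truncated variation over one step -/
noncomputable def F1 {α : Type} [Fintype α] (K : α → α → ℝ) (f : α → ℕ → ℝ) (N : ℕ) (r : ℝ) : ℝ :=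
  ∑ u, ∑ v, K u v * V N r (fun t => f v t - f u t)

/-- expected truncated variation over three steps -/
noncomputable def F3 {α : Type} [Fintype α] (K : α → α → ℝ) (f : α → ℕ → ℝ) (N : ℕ) (r : ℝ) : ℝ :=
  ∑ u, ∑ a, ∑ b, ∑ v, K u a * K a b * K b v * V N r (fun t => f v t - f u t)

/-- exactly one element of `P` and none of `Q` in `(lo,hi]` -/
def One (P Q : Finset ℕ) (lo hi : ℕ) : Prop := (P ∩ Ioc lo hi).card = 1 ∧ Q ∩ Ioc lo hi = ∅

open Classical in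
/-- block structure of three consecutive edges with up-flips `P i` and down-flips `Q i` -/
def PS (N : ℕ) (P₁ Q₁ P₂ Q₂ P₃ Q₃ : Finset ℕ) (D : ℝ) : Prop :=
  ∃ (m : ℕ) (s : ℕ → ℕ) (τ : ℕ → Bool) (B : Finset ℕ), IsFam N m s ∧ (∀ i, τ (i+1) = !(τ i)) ∧
    B ⊆ range m ∧
    (∀ i < m, i ∉ B →
      (τ i = true → One P₁ Q₁ (s i) (s (i+1)) ∧ One P₂ Q₂ (s i) (s (i+1)) ∧ One P₃ Q₃ (s i) (s (i+1))) ∧
      (τ i = false → One Q₁ P₁ (s i) (s (i+1)) ∧ One Q₂ P₂ (s i) (s (i+1)) ∧ One Q₃ P₃ (s i) (s (i+1)))) ∧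
    (B.card : ℝ) + (((P₁ ∪ Q₁ ∪ P₂ ∪ Q₂ ∪ P₃ ∪ Q₃).filter
      (fun t => ∀ i < m, i ∉ B → t ∉ Ioc (s i) (s (i+1)))).card : ℝ) ≤ D

/-- alternating sets: between two elements of `a` there is one of `b` and vice versa; disjoint -/
def Alt (a b : Finset ℕ) : Prop := Disjoint a b ∧
  (∀ y ∈ a, ∀ y' ∈ a, y < y' → ∃ w ∈ b, y < w ∧ w < y') ∧
  (∀ y ∈ b, ∀ y' ∈ b, y < y' → ∃ w ∈ a, y < w ∧ w < y')

end Pool.Agent.SR871
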