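import Mathlib
import Pool.Agent.SR871.Defs
set_option autoImplicit false
set_option maxHeartbeats 1000000
namespace Pool.Agent.SR871
open Finset















theorem a2_fam_succ (m : ℕ) (s : ℕ → ℕ) (e : ℝ) (x : ℕ → ℝ) :
    fam (m + 1) s e x = fam m s e x + e * (-1) ^ m * (x (s (m + 1)) - x (s m)) := by
  unfold fam
  rw [Finset.sum_range_succ]

theorem a2_fam_congr (m : ℕ) (s s' : ℕ → ℕ) (e : ℝ) (x : ℕ → ℝ) (h : ∀ i ≤ m, s' i = s i) :
    fam m s' e x = fam m s e x := by
  unfold fam
  refine Finset.sum_congr rfl fun i hi => ?_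
  rw [Finset.mem_range] at hi
  rw [h i (by omega), h (i + 1) (by omega)]

theorem a2_mono {N m : ℕ} {s : ℕ → ℕ} (h : IsFam N m s) {i : ℕ} (hi : i ≤ m) : s i ≤ s m := by
  obtain ⟨k, rfl⟩ := Nat.exists_eq_add_of_le hi
  clear hi
  have : ∀ j ≤ k, s i ≤ s (i + j) := by
    intro j
    induction j with
    | zero => intro _; exact le_rfl
    | succ j ih =>
      intro hj
      exact (ih (by omega)).trans (h.2.1 (i + j) (by omega)).le
  exact this k le_rfl

/-- invariant -/
def A2P (r : ℝ) (x : ℕ → ℝ) (N : ℕ) : Prop :=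
  ∃ (m : ℕ) (s : ℕ → ℕ) (e : ℝ), IsFam N m s ∧ (e = 1 ∨ e = -1) ∧
      V N r x = fam m s e x - r * ((2*m-1 : ℕ) : ℝ) ∧ (m = 0 → play r x N = 0) ∧
      ∀ k, m = k + 1 → play r x N = x (s m) - e * (-1) ^ k * r

theorem a2_step {r : ℝ} {x : ℕ → ℝ} (hx : x 0 = 0) {N : ℕ} (h : A2P r x N) {τ : ℝ}
    (hτ : τ = 1 ∨ τ = -1) (h1 : play r x (N + 1) = x (N + 1) - τ * r)
    (h2 : |play r x (N + 1) - play r x N| = τ * (play r x (N + 1) - play r x N)) :
    A2P r x (N + 1) := by
  have hττ : τ * τ = 1 := by rcases hτ with rfl | rfl <;> norm_num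
  obtain ⟨m, s, e, hs, he, hV, h0, hk⟩ := h
  have hV' : V (N + 1) r x = V N r x + τ * (play r x (N + 1) - play r x N) := by
    unfold V tv
    rw [Finset.sum_range_succ, h2]
  obtain ⟨hs0, hs1, hs2⟩ := hs
  rcases m with _ | k
  · refine ⟨1, fun i => if i = 1 then N + 1 else 0, τ, ⟨by simp, ?_, by simp⟩, hτ, ?_, ?_, ?_⟩
    · intro i hi
      obtain rfl : i = 0 := by omega
      simp
    · rw [hV', hV, h0 rfl, h1, a2_fam_succ]
      unfold fam
      simp [hx]
      linear_combination (-r) * hττ
    · intro h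
      omega
    · intro k hk
      obtain rfl : k = 0 := by omega
      simp [h1]
  · have hg := hk k rfl
    have hσ : e * (-1) ^ k = τ ∨ e * (-1) ^ k = -τ := by
      rcases he with rfl | rfl <;> rcases hτ with rfl | rfl <;>
        rcases neg_one_pow_eq_or ℝ k with h | h <;> rw [h] <;> norm_num
    rcases hσ with hσ | hσ
    · refine ⟨k + 1, fun i => if i = k + 1 then N + 1 else s i, e, ⟨by simp [hs0], ?_, by simp⟩,
        he, ?_, ?_, ?_⟩
      · intro i hi
        beta_reduce
        rw [if_neg (by omega)]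
        by_cases h : i + 1 = k + 1
        · rw [if_pos h]
          have h3 := hs1 i (by omega)
          rw [h] at h3
          omega
        · rw [if_neg h]
          exact hs1 i hi
      · rw [hV', hV, a2_fam_succ, a2_fam_succ, a2_fam_congr k s (fun i => if i = k + 1 then N + 1 else s i) e x
          (fun i hi => if_neg (by omega)), if_pos rfl, if_neg (by omega), hg, h1, hσ]
        ring
      · intro h
        omega
      · intro k' hk'
        obtain rfl : k' = k := by omega
        beta_reduce
        rw [if_pos rfl, hσ, h1]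
    · refine ⟨k + 2, fun i => if i = k + 2 then N + 1 else s i, e, ⟨by simp [hs0], ?_, by simp⟩,
        he, ?_, ?_, ?_⟩
      · intro i hi
        beta_reduce
        rw [if_neg (by omega)]
        by_cases h : i + 1 = k + 2
        · rw [if_pos h]
          have h3 : i = k + 1 := by omega
          rw [h3]
          omega
        · rw [if_neg h]
          exact hs1 i (by omega)
      · rw [hV', hV, a2_fam_succ (k + 1) (fun i => if i = k + 2 then N + 1 else s i),
          a2_fam_congr (k + 1) s (fun i => if i = k + 2 then N + 1 else s i) e x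
          (fun i hi => if_neg (by omega)), if_pos rfl, if_neg (by omega), hg, h1, pow_succ, hσ]
        have e1 : ((2 * (k + 1) - 1 : ℕ) : ℝ) = 2 * k + 1 := by
          rw [show 2 * (k + 1) - 1 = 2 * k + 1 by omega]
          push_cast
          ring
        have e2 : ((2 * (k + 2) - 1 : ℕ) : ℝ) = 2 * k + 3 := by
          rw [show 2 * (k + 2) - 1 = 2 * k + 3 by omega]
          push_cast
          ring
        rw [e1, e2]
        linear_combination (-2 * r) * hττ + (x (N + 1) - x (s (k + 1))) * hσ
      · intro h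
        omega
      · intro k' hk'
        obtain rfl : k' = k + 1 := by omega
        beta_reduce
        rw [if_pos rfl, h1, pow_succ]
        linear_combination (-r) * hσ

theorem a2_all (r : ℝ) (hr : 0 ≤ r) (x : ℕ → ℝ) (hx : x 0 = 0) (N : ℕ) : A2P r x N := by
  induction N with
  | zero =>
    refine ⟨0, fun _ => 0, 1, ⟨rfl, fun i hi => absurd hi (Nat.not_lt_zero i), le_rfl⟩, Or.inl rfl,
      ?_, fun _ => rfl, fun k hk => by omega⟩
    unfold V tv fam
    simp
  | succ N ih =>
    have hg : play r x (N + 1) = max (x (N + 1) - r) (min (x (N + 1) + r) (play r x N)) := rfl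
    rcases lt_trichotomy (play r x (N + 1)) (play r x N) with h | h | h
    · have h1 : play r x (N + 1) = x (N + 1) + r := by
        rw [hg] at h ⊢
        have h3 := (le_max_right _ _).trans_lt h
        rw [min_lt_iff] at h3
        rcases h3 with h3 | h3
        · rw [min_eq_left h3.le, max_eq_right (by linarith)]
        · exact absurd h3 (lt_irrefl _)
      refine a2_step hx ih (τ := -1) (Or.inr rfl) (by rw [h1]; ring) ?_
      rw [abs_of_neg (by linarith)]
      ring
    · obtain ⟨m, s, e, ⟨hs0, hs1, hs2⟩, he, hV, h0, hk⟩ := ih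
      refine ⟨m, s, e, ⟨hs0, hs1, by omega⟩, he, ?_, ?_, ?_⟩
      · rw [← hV]
        unfold V tv
        rw [Finset.sum_range_succ, h]
        simp
      · intro hm
        rw [h, h0 hm]
      · intro k hm
        rw [h, hk k hm]
    · have h1 : play r x (N + 1) = x (N + 1) - r := by
        rw [hg] at h ⊢
        rw [lt_max_iff] at h
        rcases h with h3 | h3
        · apply max_eq_left
          exact (min_le_right _ _).trans h3.le
        · exact absurd (h3.trans_le (min_le_right _ _)) (lt_irrefl _)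
      refine a2_step hx ih (τ := 1) (Or.inl rfl) (by rw [h1]; ring) ?_
      rw [abs_of_pos (by linarith)]
      ring

theorem a2_tv {g : ℕ → ℝ} {a b : ℕ} (h : a ≤ b) : |g b - g a| ≤ tv b g - tv a g := by
  obtain ⟨k, rfl⟩ := Nat.exists_eq_add_of_le h
  clear h
  induction k with
  | zero => simp
  | succ k ih =>
    have h1 : tv (a + (k + 1)) g = tv (a + k) g + |g (a + k + 1) - g (a + k)| := by
      unfold tv
      rw [show a + (k + 1) = (a + k) + 1 by ring, Finset.sum_range_succ]
    rw [h1, show a + (k + 1) = a + k + 1 by ring]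
    have h2 := abs_sub_le (g (a + k + 1)) (g (a + k)) (g a)
    linarith

theorem a2_fam_tv {g : ℕ → ℝ} (s : ℕ → ℕ) {e : ℝ} (he : e = 1 ∨ e = -1) (m : ℕ)
    (hs : ∀ i < m, s i < s (i + 1)) : fam m s e g ≤ tv (s m) g := by
  induction m with
  | zero =>
    unfold fam tv
    simp only [Finset.range_zero, Finset.sum_empty]
    exact Finset.sum_nonneg fun _ _ => abs_nonneg _
  | succ m ih =>
    rw [a2_fam_succ]
    have h1 := ih fun i hi => hs i (by omega)
    have h2 := a2_tv (g := g) (hs m (by omega)).le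
    have h3 : e * (-1) ^ m * (g (s (m + 1)) - g (s m)) ≤ |g (s (m + 1)) - g (s m)| := by
      refine (le_abs_self _).trans (le_of_eq ?_)
      rw [abs_mul, abs_mul, abs_pow]
      rcases he with rfl | rfl <;> simp
    linarith

theorem a2_fam_d {d : ℕ → ℝ} (s : ℕ → ℕ) (e : ℝ) (h0 : d (s 0) = 0) (m : ℕ) :
    fam (m + 1) s e d = ∑ i ∈ range m, 2 * (e * (-1) ^ i * d (s (i + 1)))
      + e * (-1) ^ m * d (s (m + 1)) := by
  induction m with
  | zero =>
    unfold fam
    simp [h0]
  | succ m ih =>
    rw [a2_fam_succ, ih, Finset.sum_range_succ]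
    ring

/-- strong duality: the total variation of the play operator is attained by an alternating chain -/
theorem strong (N : ℕ) (r : ℝ) (hr : 0 ≤ r) (x : ℕ → ℝ) (hx : x 0 = 0) :
    ∃ (m : ℕ) (s : ℕ → ℕ) (e : ℝ), IsFam N m s ∧ (e = 1 ∨ e = -1) ∧
      V N r x = fam m s e x - r * ((2*m-1 : ℕ) : ℝ) := by
  obtain ⟨m, s, e, hs, he, hV, _, _⟩ := a2_all r hr x hx N
  exact ⟨m, s, e, hs, he, hV⟩

/-- weak duality with the loss estimate -/
theorem weak_loss (N : ℕ) (r θ : ℝ) (hθ : θ ≤ r) (x g : ℕ → ℝ) (hx : x 0 = 0) (hg0 : g 0 = 0)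
    (hg : ∀ t ≤ N, |g t - x t| ≤ r) (m : ℕ) (s : ℕ → ℕ) (e : ℝ) (hs : IsFam N m s)
    (he : e = 1 ∨ e = -1) :
    (r - θ) * (((range m).filter (fun i => e * (-1)^i * (x (s (i+1)) - g (s (i+1))) < θ)).card : ℝ)
      ≤ tv N g - (fam m s e x - r * ((2*m-1 : ℕ) : ℝ)) := by
  have hs' := hs
  obtain ⟨hs0, hs1, hs2⟩ := hs
  have hfg : fam m s e g ≤ tv N g := by
    refine (a2_fam_tv s he m hs1).trans ?_
    unfold tv
    exact Finset.sum_le_sum_of_subset_of_nonneg (Finset.range_mono hs2) fun _ _ _ => abs_nonneg _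
  have hsplit : fam m s e x = fam m s e g + fam m s e (fun t => x t - g t) := by
    unfold fam
    rw [← Finset.sum_add_distrib]
    refine Finset.sum_congr rfl fun i _ => ?_
    ring
  rcases m with _ | m
  · simp only [Finset.range_zero, Finset.filter_empty, Finset.card_empty, Nat.cast_zero, mul_zero]
    have h1 : fam 0 s e x = 0 := by
      unfold fam
      simp
    have h2 : fam 0 s e g = 0 := by
      unfold fam
      simp
    rw [h1]
    rw [h2] at hfg
    simp
    exact hfg
  · have hd := a2_fam_d (d := fun t => x t - g t) s e (by simp [hs0, hx, hg0]) m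
    obtain ⟨b, hb⟩ : ∃ b : ℕ → ℝ, b = fun i => if e * (-1)^i * (x (s (i+1)) - g (s (i+1))) < θ
      then 1 else 0 := ⟨_, rfl⟩
    have hb0 : ∀ i, 0 ≤ b i := by
      intro i
      rw [hb]
      dsimp only
      split_ifs <;> norm_num
    have hcard : (((range (m + 1)).filter (fun i => e * (-1)^i * (x (s (i+1)) - g (s (i+1))) < θ)).card : ℝ)
        = ∑ i ∈ range (m + 1), b i := by
      rw [hb, Finset.sum_boole]
    have hu : ∀ i < m + 1, e * (-1)^i * (x (s (i+1)) - g (s (i+1))) ≤ r - (r - θ) * b i := by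
      intro i hi
      rw [hb]
      dsimp only
      split_ifs with h
      · linarith
      · rw [mul_zero, sub_zero]
        have h1 := hg (s (i + 1)) ((a2_mono hs' (by omega)).trans hs2)
        refine (le_abs_self _).trans ?_
        rw [abs_mul, abs_mul, abs_pow, abs_sub_comm]
        rcases he with rfl | rfl <;> simpa using h1
    have hsum : ∑ i ∈ range m, 2 * (e * (-1) ^ i * (x (s (i + 1)) - g (s (i + 1)))) ≤
        ∑ i ∈ range m, (2 * r - (r - θ) * b i) := by
      refine Finset.sum_le_sum fun i hi => ?_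
      rw [Finset.mem_range] at hi
      have h1 := hu i (by omega)
      have h2 := mul_nonneg (sub_nonneg.2 hθ) (hb0 i)
      linarith
    have e2 : ∑ i ∈ range m, (2 * r - (r - θ) * b i) = m * (2 * r) - (r - θ) * ∑ i ∈ range m, b i := by
      rw [Finset.sum_sub_distrib, Finset.mul_sum, Finset.sum_const, Finset.card_range, nsmul_eq_mul]
    rw [e2] at hsum
    have hlast := hu m (by omega)
    rw [hcard, Finset.sum_range_succ, hsplit, hd]
    have e1 : ((2 * (m + 1) - 1 : ℕ) : ℝ) = 2 * m + 1 := by
      rw [show 2 * (m + 1) - 1 = 2 * m + 1 by omega]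
      push_cast
      ring
    rw [e1]
    linarith

end Pool.Agent.SR871
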