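import Mathlib
import Pool.Agent.SR871.A2
set_option autoImplicit false
set_option maxHeartbeats 1000000
namespace Pool.Agent.SR871
open Finset



















/- TO PROVE: everything below -/
theorem play_near (r : ℝ) (hr : 0 ≤ r) (x : ℕ → ℝ) (t : ℕ) :
    |play r x (t+1) - x (t+1)| ≤ r := by
  have h : play r x (t+1) = max (x (t+1) - r) (min (x (t+1) + r) (play r x t)) := rfl
  rw [h, abs_le]
  constructor
  · have := le_max_left (x (t+1) - r) (min (x (t+1) + r) (play r x t))
    linarith
  · have h1 : max (x (t+1) - r) (min (x (t+1) + r) (play r x t)) ≤ x (t+1) + r :=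
      max_le (by linarith) (min_le_left _ _)
    linarith

theorem play_near' (r : ℝ) (hr : 0 ≤ r) (x : ℕ → ℝ) (hx : x 0 = 0) (t : ℕ) :
    |play r x t - x t| ≤ r := by
  cases t with
  | zero =>
    show |(0 : ℝ) - x 0| ≤ r
    rw [hx]
    simpa using hr
  | succ t => exact play_near r hr x t

theorem play_neg (r : ℝ) (hr : 0 ≤ r) (x : ℕ → ℝ) (t : ℕ) :
    play r (fun u => - x u) t = - play r x t := by
  induction t with
  | zero => show (0 : ℝ) = -0; simp
  | succ t ih =>
    show max (-x (t+1) - r) (min (-x (t+1) + r) (play r (fun u => - x u) t)) =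
      -max (x (t+1) - r) (min (x (t+1) + r) (play r x t))
    rw [ih]
    generalize play r x t = p
    generalize x (t+1) = y
    rcases le_total p (y + r) with h1 | h1
    · rcases le_total p (y - r) with h2 | h2
      · rw [min_eq_right h1, max_eq_left h2, min_eq_left (by linarith), max_eq_right (by linarith)]
        ring
      · rw [min_eq_right h1, max_eq_right h2, min_eq_right (by linarith),
          max_eq_right (by linarith)]
    · rw [min_eq_left h1, max_eq_right (by linarith : y - r ≤ y + r), min_eq_right (by linarith),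
        max_eq_left (by linarith)]
      ring

theorem play_smul (r c : ℝ) (hc : 0 ≤ c) (x : ℕ → ℝ) (t : ℕ) :
    play (c * r) (fun u => c * x u) t = c * play r x t := by
  induction t with
  | zero => show (0 : ℝ) = c * 0; simp
  | succ t ih =>
    show max (c * x (t+1) - c * r) (min (c * x (t+1) + c * r) (play (c * r) (fun u => c * x u) t)) =
      c * max (x (t+1) - r) (min (x (t+1) + r) (play r x t))
    rw [ih, mul_max_of_nonneg _ _ hc, mul_min_of_nonneg _ _ hc, mul_sub, mul_add]

theorem play_zero (N : ℕ) (r : ℝ) (x : ℕ → ℝ) (h : ∀ t ≤ N, |x t| ≤ r) (t : ℕ) (ht : t ≤ N) :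
    play r x t = 0 := by
  induction t with
  | zero => rfl
  | succ t ih =>
    show max (x (t+1) - r) (min (x (t+1) + r) (play r x t)) = 0
    rw [ih (by omega)]
    obtain ⟨h1, h2⟩ := abs_le.mp (h (t+1) ht)
    rw [min_eq_right (by linarith), max_eq_right (by linarith)]

theorem play_cont (x : ℕ → ℝ) (t : ℕ) : Continuous (fun r => play r x t) := by
  induction t with
  | zero => exact continuous_const
  | succ t ih =>
    show Continuous fun r => max (x (t+1) - r) (min (x (t+1) + r) (play r x t))
    exact (continuous_const.sub continuous_id).max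
      ((continuous_const.add continuous_id).min ih)

theorem st_neg (r θ : ℝ) (hr : 0 ≤ r) (hθ : 0 < θ) (x : ℕ → ℝ) (t : ℕ) :
    st r θ (fun u => - x u) t = - st r θ x t := by
  induction t with
  | zero => show (0 : ℤ) = -0; simp
  | succ t ih =>
    have h1 : st r θ (fun u => - x u) (t+1) =
      (if θ ≤ -x (t+1) - play r (fun u => - x u) (t+1) then 1
           else if -x (t+1) - play r (fun u => - x u) (t+1) ≤ -θ then -1
           else st r θ (fun u => - x u) t) := rfl
    have h2 : st r θ x (t+1) = (if θ ≤ x (t+1) - play r x (t+1) then 1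
           else if x (t+1) - play r x (t+1) ≤ -θ then -1 else st r θ x t) := rfl
    rw [h1, h2, play_neg r hr x (t+1), ih]
    generalize play r x (t+1) = p
    generalize x (t+1) = y
    split_ifs with a b c d e f g
    all_goals first | rfl | (exfalso; linarith) | simp

/-- `V` only depends on the values of `x` at times `1..N` -/
theorem V_congr (N : ℕ) (r : ℝ) (x y : ℕ → ℝ) (h : ∀ t, 1 ≤ t → t ≤ N → x t = y t) :
    V N r x = V N r y := by
  have hp : ∀ t, t ≤ N → play r x t = play r y t := by
    intro t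
    induction t with
    | zero => intro _; rfl
    | succ t ih =>
      intro ht
      show max (x (t+1) - r) (min (x (t+1) + r) (play r x t)) =
        max (y (t+1) - r) (min (y (t+1) + r) (play r y t))
      rw [ih (by omega), h (t+1) (by omega) ht]
  unfold V tv
  apply Finset.sum_congr rfl
  intro t ht
  have ht' := Finset.mem_range.mp ht
  rw [hp t (by omega), hp (t+1) (by omega)]

theorem V_nonneg (N : ℕ) (r : ℝ) (x : ℕ → ℝ) : 0 ≤ V N r x := by
  unfold V tv
  exact Finset.sum_nonneg fun _ _ => abs_nonneg _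

theorem V_neg (N : ℕ) (r : ℝ) (hr : 0 ≤ r) (x : ℕ → ℝ) : V N r (fun u => - x u) = V N r x := by
  unfold V tv
  apply Finset.sum_congr rfl
  intro t _
  rw [play_neg r hr, play_neg r hr, ← abs_neg]
  congr 1
  ring

theorem V_smul (N : ℕ) (r c : ℝ) (hc : 0 ≤ c) (x : ℕ → ℝ) :
    V N (c * r) (fun u => c * x u) = c * V N r x := by
  unfold V tv
  rw [Finset.mul_sum]
  apply Finset.sum_congr rfl
  intro t _
  rw [play_smul r c hc, play_smul r c hc, ← mul_sub, abs_mul, abs_of_nonneg hc]

theorem V_zero (N : ℕ) (r : ℝ) (x : ℕ → ℝ) (h : ∀ t ≤ N, |x t| ≤ r) : V N r x = 0 := by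
  unfold V tv
  apply Finset.sum_eq_zero
  intro t ht
  have ht' := Finset.mem_range.mp ht
  rw [play_zero N r x h (t+1) (by omega), play_zero N r x h t (by omega)]
  simp

theorem V_cont (N : ℕ) (x : ℕ → ℝ) : Continuous (fun r => V N r x) := by
  unfold V tv
  apply continuous_finset_sum
  intro t _
  exact ((play_cont x (t+1)).sub (play_cont x t)).abs

theorem V_min (N : ℕ) (r : ℝ) (hr : 0 ≤ r) (x g : ℕ → ℝ) (hx : x 0 = 0) (hg0 : g 0 = 0)
    (hg : ∀ t ≤ N, |g t - x t| ≤ r) : V N r x ≤ tv N g := by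
  obtain ⟨m, s, e, hs, he, hV⟩ := strong N r hr x hx
  have h := weak_loss N r r le_rfl x g hx hg0 hg m s e hs he
  rw [sub_self, zero_mul] at h
  linarith

theorem V_fam_le (N : ℕ) (r : ℝ) (hr : 0 ≤ r) (x : ℕ → ℝ) (hx : x 0 = 0)
    (m : ℕ) (s : ℕ → ℕ) (e : ℝ) (hs : IsFam N m s) (he : e = 1 ∨ e = -1) :
    fam m s e x - r * ((2*m-1 : ℕ) : ℝ) ≤ V N r x := by
  have h := weak_loss N r r le_rfl x (play r x) hx rfl (fun t _ => play_near' r hr x hx t) m s e
    hs he
  rw [sub_self, zero_mul] at h
  unfold V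
  linarith

theorem V_add (N : ℕ) (r₁ r₂ : ℝ) (h1 : 0 ≤ r₁) (h2 : 0 ≤ r₂) (x y : ℕ → ℝ) (hx : x 0 = 0)
    (hy : y 0 = 0) : V N (r₁ + r₂) (fun t => x t + y t) ≤ V N r₁ x + V N r₂ y := by
  have h := V_min N (r₁ + r₂) (add_nonneg h1 h2) (fun t => x t + y t)
    (fun t => play r₁ x t + play r₂ y t) (by simp [hx, hy]) (by
      show (0 : ℝ) + 0 = 0
      simp) (by
      intro t _
      have ha := play_near' r₁ h1 x hx t
      have hb := play_near' r₂ h2 y hy t
      calc |play r₁ x t + play r₂ y t - (x t + y t)|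
          = |(play r₁ x t - x t) + (play r₂ y t - y t)| := by congr 1; ring
        _ ≤ |play r₁ x t - x t| + |play r₂ y t - y t| := abs_add_le _ _
        _ ≤ r₁ + r₂ := add_le_add ha hb)
  refine h.trans ?_
  unfold V tv
  rw [← Finset.sum_add_distrib]
  apply Finset.sum_le_sum
  intro t _
  calc |play r₁ x (t+1) + play r₂ y (t+1) - (play r₁ x t + play r₂ y t)|
      = |(play r₁ x (t+1) - play r₁ x t) + (play r₂ y (t+1) - play r₂ y t)| := by congr 1; ring
    _ ≤ _ := abs_add_le _ _

theorem V_anti (N : ℕ) (r₁ r₂ : ℝ) (h1 : 0 ≤ r₁) (h2 : r₁ ≤ r₂) (x : ℕ → ℝ) (hx : x 0 = 0) :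
    V N r₂ x ≤ V N r₁ x :=
  V_min N r₂ (h1.trans h2) x (play r₁ x) hx rfl
    (fun t _ => (play_near' r₁ h1 x hx t).trans h2)

theorem V_convex (N : ℕ) (x : ℕ → ℝ) (hx : x 0 = 0) :
    ConvexOn ℝ (Set.Ici 0) (fun r => V N r x) := by
  refine ⟨convex_Ici 0, ?_⟩
  intro r₁ h1 r₂ h2 a b ha hb hab
  simp only [smul_eq_mul]
  have h := V_add N (a * r₁) (b * r₂) (mul_nonneg ha h1) (mul_nonneg hb h2)
    (fun t => a * x t) (fun t => b * x t) (by simp [hx]) (by simp [hx])
  rw [V_smul N r₁ a ha x, V_smul N r₂ b hb x] at h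
  have he : (fun t => a * x t + b * x t) = x := by
    funext t
    rw [← add_mul, hab, one_mul]
  rw [he] at h
  exact h

theorem V_lower (N : ℕ) (r : ℝ) (hr : 0 ≤ r) (x : ℕ → ℝ) (hx : x 0 = 0) (t : ℕ) (ht : t ≤ N) :
    |x t| - r ≤ V N r x := by
  rcases Nat.eq_zero_or_pos t with rfl | htp
  · rw [hx, abs_zero]
    have := V_nonneg N r x
    linarith
  · have key : ∀ e : ℝ, (e = 1 ∨ e = -1) → e * x t - r ≤ V N r x := by
      intro e he
      have h := V_fam_le N r hr x hx 1 (fun i => if i = 0 then 0 else t) e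
        ⟨rfl, by
          intro i hi
          have : i = 0 := by omega
          subst this
          simpa using htp, by simpa using ht⟩ he
      have hf : fam 1 (fun i => if i = 0 then 0 else t) e x = e * x t := by
        unfold fam
        simp [hx]
      rw [hf] at h
      norm_num at h
      linarith
    rcases abs_cases (x t) with ⟨h, _⟩ | ⟨h, _⟩
    · have := key 1 (Or.inl rfl)
      rw [h]
      linarith
    · have := key (-1) (Or.inr rfl)
      rw [h]
      linarith

end Pool.Agent.SR871
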