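import Mathlib
import Pool.Agent.SR871.A1
set_option autoImplicit false
set_option maxHeartbeats 1000000
namespace Pool.Agent.SR871
open Finset



















/- TO PROVE -/
theorem b1_bound (N : ℕ) (x : ℕ → ℝ) : ∃ M : ℝ, 0 ≤ M ∧ ∀ t ≤ N, |x t| ≤ M := by
  refine ⟨∑ t ∈ range (N + 1), |x t|, Finset.sum_nonneg (fun _ _ => abs_nonneg _), fun t ht => ?_⟩
  exact Finset.single_le_sum (f := fun t => |x t|) (fun _ _ => abs_nonneg _)
    (Finset.mem_range.2 (Nat.lt_succ_of_le ht))

theorem V_integrable (N : ℕ) (x : ℕ → ℝ) :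
    MeasureTheory.IntegrableOn (fun r => V N r x) (Set.Ioi (0:ℝ)) := by
  obtain ⟨M, hM, hx⟩ := b1_bound N x
  rw [← Set.Ioc_union_Ioi_eq_Ioi hM]
  apply MeasureTheory.IntegrableOn.union
  · exact (V_cont N x).integrableOn_Ioc
  · apply (MeasureTheory.integrableOn_zero (s := Set.Ioi M)).congr_fun _ measurableSet_Ioi
    intro r hr
    exact (V_zero N r x (fun t ht => (hx t ht).trans (le_of_lt hr))).symm

theorem nsq_nonneg (N : ℕ) (x : ℕ → ℝ) : 0 ≤ nsq N x :=
  MeasureTheory.integral_nonneg (fun r => V_nonneg N r x)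

theorem nsq_congr (N : ℕ) (x y : ℕ → ℝ) (h : ∀ t, 1 ≤ t → t ≤ N → x t = y t) :
    nsq N x = nsq N y := by
  unfold nsq
  congr 1
  funext r
  exact V_congr N r x y h

theorem b1_smul_pos (N : ℕ) (c : ℝ) (hc : 0 < c) (x : ℕ → ℝ) :
    nsq N (fun t => c * x t) = c^2 * nsq N x := by
  have h := MeasureTheory.integral_comp_mul_left_Ioi (fun r => V N r (fun t => c * x t)) 0 hc
  rw [mul_zero] at h
  have h2 : ∫ u in Set.Ioi (0:ℝ), V N (c * u) (fun t => c * x t) = c * nsq N x := by
    unfold nsq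
    rw [← MeasureTheory.integral_const_mul]
    congr 1
    funext u
    exact V_smul N u c hc.le x
  rw [h2, smul_eq_mul] at h
  have h3 : nsq N (fun t => c * x t) = c * (c⁻¹ * nsq N (fun t => c * x t)) := by
    field_simp
  rw [h3]
  change c * (c⁻¹ * ∫ r in Set.Ioi (0:ℝ), V N r (fun t => c * x t)) = _
  rw [← h]; ring

theorem nsq_smul (N : ℕ) (c : ℝ) (x : ℕ → ℝ) : nsq N (fun t => c * x t) = c^2 * nsq N x := by
  rcases lt_trichotomy c 0 with hc | hc | hc
  · have h := b1_smul_pos N (-c) (by linarith) x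
    have h2 : nsq N (fun t => c * x t) = nsq N (fun t => -c * x t) := by
      unfold nsq
      apply MeasureTheory.setIntegral_congr_fun measurableSet_Ioi
      intro r hr
      have := V_neg N r (le_of_lt hr) (fun t => -c * x t)
      have e : (fun u => -((fun t => -c * x t) u)) = fun t => c * x t := by
        funext u; ring
      rw [e] at this
      exact this
    rw [h2, h]; ring
  · subst hc
    have : nsq N (fun t => (0:ℝ) * x t) = 0 := by
      unfold nsq
      apply MeasureTheory.setIntegral_eq_zero_of_forall_eq_zero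
      intro r hr
      apply V_zero
      intro t ht
      rw [zero_mul, abs_zero]; exact le_of_lt hr
    rw [this]; ring
  · exact b1_smul_pos N c hc x

theorem nsq_lower (N : ℕ) (x : ℕ → ℝ) (hx : x 0 = 0) (t : ℕ) (ht : t ≤ N) :
    (x t)^2 / 2 ≤ nsq N x := by
  have h1 : ∫ r in Set.Ioc (0:ℝ) |x t|, V N r x ≤ nsq N x := by
    apply MeasureTheory.setIntegral_mono_set (V_integrable N x)
    · exact Filter.Eventually.of_forall (fun r => V_nonneg N r x)
    · exact (Set.Ioc_subset_Ioi_self).eventuallyLE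
  have h2 : ∫ r in (0:ℝ)..|x t|, (|x t| - r) ≤ ∫ r in (0:ℝ)..|x t|, V N r x := by
    apply intervalIntegral.integral_mono_on (abs_nonneg _)
    · exact (continuous_const.sub continuous_id).intervalIntegrable _ _
    · exact (V_cont N x).intervalIntegrable _ _
    · intro r hr
      exact V_lower N r hr.1 x hx t ht
  rw [← intervalIntegral.integral_of_le (abs_nonneg _)] at h1
  have h3 : ∫ r in (0:ℝ)..|x t|, (|x t| - r) = (x t)^2 / 2 := by
    rw [intervalIntegral.integral_sub (by simp) (by simp)]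
    simp only [intervalIntegral.integral_const, integral_id, smul_eq_mul]
    have := sq_abs (x t)
    nlinarith
  linarith

theorem b1_add_pos (N : ℕ) (x y : ℕ → ℝ) (hx : x 0 = 0) (hy : y 0 = 0)
    (ha : 0 < nsq N x) (hb : 0 < nsq N y) :
    Real.sqrt (nsq N (fun t => x t + y t)) ≤ Real.sqrt (nsq N x) + Real.sqrt (nsq N y) := by
  set a := Real.sqrt (nsq N x) with hadef
  set b := Real.sqrt (nsq N y) with hbdef
  have ha' : 0 < a := Real.sqrt_pos.2 ha
  have hb' : 0 < b := Real.sqrt_pos.2 hb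
  have ha2 : a ^ 2 = nsq N x := Real.sq_sqrt ha.le
  have hb2 : b ^ 2 = nsq N y := Real.sq_sqrt hb.le
  have hab : 0 < a + b := add_pos ha' hb'
  have e1 := MeasureTheory.integral_comp_mul_left_Ioi (fun r => V N r (fun t => x t + y t)) 0 hab
  have e2 := MeasureTheory.integral_comp_mul_left_Ioi (fun r => V N r x) 0 ha'
  have e3 := MeasureTheory.integral_comp_mul_left_Ioi (fun r => V N r y) 0 hb'
  have i1 : MeasureTheory.IntegrableOn (fun u => V N ((a + b) * u) (fun t => x t + y t)) (Set.Ioi (0:ℝ)) := by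
    have := (MeasureTheory.integrableOn_Ioi_comp_mul_left_iff (fun r => V N r (fun t => x t + y t)) 0 hab)
    rw [this, mul_zero]; exact V_integrable N _
  have i2 : MeasureTheory.IntegrableOn (fun u => V N (a * u) x) (Set.Ioi (0:ℝ)) := by
    have := (MeasureTheory.integrableOn_Ioi_comp_mul_left_iff (fun r => V N r x) 0 ha')
    rw [this, mul_zero]; exact V_integrable N _
  have i3 : MeasureTheory.IntegrableOn (fun u => V N (b * u) y) (Set.Ioi (0:ℝ)) := by
    have := (MeasureTheory.integrableOn_Ioi_comp_mul_left_iff (fun r => V N r y) 0 hb')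
    rw [this, mul_zero]; exact V_integrable N _
  rw [mul_zero, smul_eq_mul] at e1 e2 e3
  have h1 : ∫ u in Set.Ioi (0:ℝ), V N ((a + b) * u) (fun t => x t + y t) ≤
      ∫ u in Set.Ioi (0:ℝ), (V N (a * u) x + V N (b * u) y) := by
    apply MeasureTheory.setIntegral_mono_on i1 (i2.add i3) measurableSet_Ioi
    intro u hu
    have hu' : (0:ℝ) < u := hu
    have := V_add N (a * u) (b * u) (by positivity) (by positivity) x y hx hy
    rwa [← add_mul] at this
  rw [MeasureTheory.integral_add i2 i3, e2, e3] at h1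
  have h2 : (a + b)⁻¹ * nsq N (fun t => x t + y t) ≤ a⁻¹ * nsq N x + b⁻¹ * nsq N y := by
    have h3 : (a + b)⁻¹ * nsq N (fun t => x t + y t) =
        ∫ u in Set.Ioi (0:ℝ), V N ((a + b) * u) (fun t => x t + y t) := e1.symm
    rw [h3]; exact h1
  rw [← ha2, ← hb2] at h2
  have h4 : a⁻¹ * a ^ 2 + b⁻¹ * b ^ 2 = a + b := by field_simp
  rw [h4] at h2
  have h5 : nsq N (fun t => x t + y t) ≤ (a + b) ^ 2 := by
    rw [inv_mul_le_iff₀ hab] at h2
    nlinarith
  calc Real.sqrt (nsq N (fun t => x t + y t)) ≤ Real.sqrt ((a + b) ^ 2) := Real.sqrt_le_sqrt h5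
    _ = a + b := Real.sqrt_sq hab.le

theorem b1_zero (N : ℕ) (x : ℕ → ℝ) (hx : x 0 = 0) (h : nsq N x = 0) (t : ℕ) (ht : t ≤ N) :
    x t = 0 := by
  have h1 := nsq_lower N x hx t ht
  rw [h] at h1
  have h2 := sq_nonneg (x t)
  have h3 : (x t) ^ 2 = 0 := by linarith
  exact pow_eq_zero_iff (two_ne_zero) |>.1 h3

theorem nsq_add (N : ℕ) (x y : ℕ → ℝ) (hx : x 0 = 0) (hy : y 0 = 0) :
    Real.sqrt (nsq N (fun t => x t + y t)) ≤ Real.sqrt (nsq N x) + Real.sqrt (nsq N y) := by
  rcases (nsq_nonneg N x).eq_or_lt with ha | ha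
  · have h1 : nsq N (fun t => x t + y t) = nsq N y := by
      apply nsq_congr
      intro t _ ht
      rw [b1_zero N x hx ha.symm t ht, zero_add]
    rw [h1]
    linarith [Real.sqrt_nonneg (nsq N x)]
  rcases (nsq_nonneg N y).eq_or_lt with hb | hb
  · have h1 : nsq N (fun t => x t + y t) = nsq N x := by
      apply nsq_congr
      intro t _ ht
      rw [b1_zero N y hy hb.symm t ht, add_zero]
    rw [h1]
    linarith [Real.sqrt_nonneg (nsq N y)]
  exact b1_add_pos N x y hx hy ha hb

theorem nsq_upper (N : ℕ) (x : ℕ → ℝ) (hx : x 0 = 0) (a b : ℝ) (hb : ∀ t ≤ N, |x t| ≤ b)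
    (ha : tv N x ≤ a) : nsq N x ≤ a * b := by
  have hb0 : 0 ≤ b := (abs_nonneg _).trans (hb 0 (Nat.zero_le _))
  have hint := V_integrable N x
  unfold nsq
  have h1 : ∫ r in Set.Ioi (0:ℝ), V N r x =
      (∫ r in Set.Ioc (0:ℝ) b, V N r x) + ∫ r in Set.Ioi b, V N r x := by
    rw [← MeasureTheory.setIntegral_union (Set.Ioc_disjoint_Ioi le_rfl) measurableSet_Ioi
      (V_cont N x).integrableOn_Ioc (hint.mono_set (Set.Ioi_subset_Ioi hb0)),
      Set.Ioc_union_Ioi_eq_Ioi hb0]
  have h2 : ∫ r in Set.Ioi b, V N r x = 0 := by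
    apply MeasureTheory.setIntegral_eq_zero_of_forall_eq_zero
    intro r hr
    exact V_zero N r x (fun t ht => (hb t ht).trans (le_of_lt hr))
  rw [h1, h2, add_zero, ← intervalIntegral.integral_of_le hb0]
  have h3 : ∫ r in (0:ℝ)..b, V N r x ≤ ∫ r in (0:ℝ)..b, a := by
    apply intervalIntegral.integral_mono_on hb0
    · exact (V_cont N x).intervalIntegrable _ _
    · simp
    · intro r hr
      have := V_min N r hr.1 x x hx hx (fun t _ => by rw [sub_self, abs_zero]; exact hr.1)
      exact this.trans ha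
  rw [intervalIntegral.integral_const, smul_eq_mul] at h3
  linarith

end Pool.Agent.SR871
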