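import Mathlib
set_option autoImplicit false
set_option maxHeartbeats 1000000
namespace Pool.Agent.SR871
open Finset

/-- dyadic trees with separated siblings obstruct uniformly convex renormings -/
theorem not_UC_of_trees (X : Type) [NormedAddCommGroup X] [NormedSpace ℝ X] (δ : ℝ) (hδ : 0 < δ)
    (h : ∀ n : ℕ, ∃ x : ℕ → ℕ → X,
      (∀ j < n, ∀ i < 2^j, x j i = (1/2:ℝ) • (x (j+1) (2*i) + x (j+1) (2*i+1))) ∧
      (∀ j ≤ n, ∀ i < 2^j, ‖x j i‖ ≤ 1) ∧
      (∀ j < n, ∀ i < 2^j, δ ≤ ‖x (j+1) (2*i) - x (j+1) (2*i+1)‖)) :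
    ¬ ∃ (Y : Type) (_ : NormedAddCommGroup Y) (_ : NormedSpace ℝ Y)
        (_ : UniformConvexSpace Y), Nonempty (X ≃L[ℝ] Y) := by
  rintro ⟨Y, _, _, _, ⟨T⟩⟩
  obtain ⟨M, hM1, hT, hT'⟩ : ∃ M : ℝ, 1 ≤ M ∧ (∀ x, ‖T x‖ ≤ M * ‖x‖) ∧
      (∀ y, ‖T.symm y‖ ≤ M * ‖y‖) := by
    refine ⟨max (max ‖(T : X →L[ℝ] Y)‖ ‖(T.symm : Y →L[ℝ] X)‖) 1, le_max_right _ _,
      fun x => ?_, fun y => ?_⟩
    · exact ((T : X →L[ℝ] Y).le_opNorm x).trans (mul_le_mul_of_nonneg_right
        ((le_max_left _ _).trans (le_max_left _ _)) (norm_nonneg _))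
    · exact ((T.symm : Y →L[ℝ] X).le_opNorm y).trans (mul_le_mul_of_nonneg_right
        ((le_max_right _ _).trans (le_max_left _ _)) (norm_nonneg _))
  have hM0 : 0 < M := by linarith
  have hε : 0 < δ / M^2 := by positivity
  obtain ⟨d0, hd0, huc⟩ := exists_forall_closed_ball_dist_add_le_two_sub Y hε
  obtain ⟨d, hd, hd1, huc⟩ : ∃ d : ℝ, 0 < d ∧ d ≤ 1 ∧ ∀ ⦃x : Y⦄, ‖x‖ ≤ 1 → ∀ ⦃y : Y⦄, ‖y‖ ≤ 1 →
      δ / M^2 ≤ ‖x - y‖ → ‖x + y‖ ≤ 2 - d := by
    refine ⟨min d0 1, lt_min hd0 one_pos, min_le_right _ _, fun x hx y hy hxy => ?_⟩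
    have := huc hx hy hxy
    have := min_le_left d0 1
    linarith
  set q : ℝ := 1 - d/2 with hq
  have hq0 : 0 < q := by linarith
  have hq1 : q < 1 := by linarith
  obtain ⟨N, hN⟩ := exists_pow_lt_of_lt_one (show (0:ℝ) < δ / (2 * M^2) by positivity) hq1
  obtain ⟨x, hx1, hx2, hx3⟩ := h (N + 1)
  have hsep : ∀ u v : X, δ ≤ ‖u - v‖ → δ / M ≤ ‖T u - T v‖ := by
    intro u v huv
    have h1 := hT' (T u - T v)
    rw [← map_sub, T.symm_apply_apply] at h1
    rw [← map_sub, div_le_iff₀ hM0, mul_comm]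
    exact huv.trans h1
  have key : ∀ m : ℕ, ∀ j : ℕ, j + m = N + 1 → ∀ i < 2^j, ‖T (x j i)‖ ≤ q^m * M := by
    intro m
    induction m with
    | zero =>
      intro j hj i hi
      rw [pow_zero, one_mul]
      refine (hT _).trans ?_
      have := hx2 j (by omega) i hi
      nlinarith [norm_nonneg (x j i)]
    | succ m ih =>
      intro j hj i hi
      have hjn : j < N + 1 := by omega
      have hia : 2 * i < 2^(j+1) := by rw [pow_succ]; omega
      have hib : 2 * i + 1 < 2^(j+1) := by rw [pow_succ]; omega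
      have ha := ih (j+1) (by omega) (2*i) hia
      have hb := ih (j+1) (by omega) (2*i+1) hib
      set r : ℝ := q^m * M with hr
      have hr0 : 0 < r := by positivity
      have hrM : r ≤ M := by
        rw [hr]
        have : q^m ≤ 1 := pow_le_one₀ hq0.le hq1.le
        nlinarith
      have hab := hsep _ _ (hx3 j hjn i hi)
      set a := T (x (j+1) (2*i)) with hadef
      set b := T (x (j+1) (2*i+1)) with hbdef
      have hra : ‖(1/r) • a‖ ≤ 1 := by
        rw [norm_smul, Real.norm_of_nonneg (by positivity), one_div, inv_mul_le_iff₀ hr0, mul_one]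
        exact ha
      have hrb : ‖(1/r) • b‖ ≤ 1 := by
        rw [norm_smul, Real.norm_of_nonneg (by positivity), one_div, inv_mul_le_iff₀ hr0, mul_one]
        exact hb
      have hrab : δ / M^2 ≤ ‖(1/r) • a - (1/r) • b‖ := by
        rw [← smul_sub, norm_smul, Real.norm_of_nonneg (by positivity), one_div,
          le_inv_mul_iff₀ hr0]
        calc r * (δ / M^2) ≤ M * (δ / M^2) := mul_le_mul_of_nonneg_right hrM hε.le
          _ = δ / M := by field_simp
          _ ≤ _ := hab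
      have h5 := huc hra hrb hrab
      rw [← smul_add, norm_smul, Real.norm_of_nonneg (by positivity), one_div,
        inv_mul_le_iff₀ hr0] at h5
      rw [hx1 j hjn i hi, map_smul, map_add, norm_smul]
      have h6 : ‖(1/2:ℝ)‖ = 1/2 := by norm_num
      rw [h6, pow_succ]
      calc (1/2) * ‖a + b‖ ≤ (1/2) * (r * (2 - d)) := by linarith
        _ = q^m * q * M := by rw [hr, hq]; ring
  have h0 := key N 1 (by omega) 0 (by norm_num)
  have h1 := key N 1 (by omega) 1 (by norm_num)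
  have h2 := hsep _ _ (hx3 0 (by omega) 0 (by norm_num))
  simp only [zero_add, mul_zero] at h2
  have h3 : δ / M ≤ 2 * (q^N * M) := by
    refine h2.trans ((norm_sub_le _ _).trans ?_)
    linarith
  have h4 : 2 * (q^N * M) < δ / M := by
    calc 2 * (q^N * M) = q^N * (2 * M) := by ring
      _ < δ / (2 * M^2) * (2 * M) := mul_lt_mul_of_pos_right hN (by positivity)
      _ = δ / M := by field_simp
  linarith

end Pool.Agent.SR871
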