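import Mathlib
import Pool.Agent.SR871.B1
import Pool.Agent.SR871.B3
set_option autoImplicit false
set_option maxHeartbeats 1000000
namespace Pool.Agent.SR871
open Finset



















/- auxiliary: the finite dimensional spaces -/

def XN (N : ℕ) : Type := Fin N → ℝ

noncomputable instance (N : ℕ) : AddCommGroup (XN N) := inferInstanceAs (AddCommGroup (Fin N → ℝ))
noncomputable instance (N : ℕ) : Module ℝ (XN N) := inferInstanceAs (Module ℝ (Fin N → ℝ))
instance (N : ℕ) : Module.Finite ℝ (XN N) := inferInstanceAs (Module.Finite ℝ (Fin N → ℝ))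

noncomputable def extX (N : ℕ) (x : XN N) (t : ℕ) : ℝ :=
  if h : 1 ≤ t ∧ t ≤ N then (x : Fin N → ℝ) ⟨t-1, by omega⟩ else 0

theorem extX_zero (N : ℕ) (x : XN N) : extX N x 0 = 0 := by simp [extX]

theorem extX_add (N : ℕ) (x y : XN N) (t : ℕ) : extX N (x + y) t = extX N x t + extX N y t := by
  unfold extX
  split
  · rfl
  · simp

theorem extX_sub (N : ℕ) (x y : XN N) (t : ℕ) : extX N (x - y) t = extX N x t - extX N y t := by
  unfold extX
  split
  · rfl
  · simp

theorem extX_smul (N : ℕ) (c : ℝ) (x : XN N) (t : ℕ) : extX N (c • x) t = c * extX N x t := by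
  unfold extX
  split
  · rfl
  · simp

noncomputable instance (N : ℕ) : Norm (XN N) := ⟨fun x => Real.sqrt (nsq N (extX N x))⟩

theorem normX_def (N : ℕ) (x : XN N) : ‖x‖ = Real.sqrt (nsq N (extX N x)) := rfl

theorem coreX (N : ℕ) : NormedSpace.Core ℝ (XN N) where
  norm_nonneg x := Real.sqrt_nonneg _
  norm_smul c x := by
    rw [normX_def, normX_def]
    have : extX N (c • x) = fun t => c * extX N x t := funext (extX_smul N c x)
    rw [this, nsq_smul, Real.sqrt_mul (sq_nonneg c), Real.sqrt_sq_eq_abs, Real.norm_eq_abs]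
  norm_triangle x y := by
    rw [normX_def, normX_def, normX_def]
    have : extX N (x + y) = fun t => extX N x t + extX N y t := funext (extX_add N x y)
    rw [this]
    exact nsq_add N _ _ (extX_zero N x) (extX_zero N y)
  norm_eq_zero_iff x := by
    constructor
    · intro h
      rw [normX_def, Real.sqrt_eq_zero (nsq_nonneg _ _)] at h
      funext i
      have h1 := nsq_lower N (extX N x) (extX_zero N x) (i.1+1) (by omega)
      rw [h] at h1
      have h2 : extX N x (i.1+1) = x i := by
        unfold extX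
        rw [dif_pos ⟨by omega, by omega⟩]
        rfl
      rw [h2] at h1
      have h3 : (x i)^2 = 0 := le_antisymm (by linarith) (sq_nonneg _)
      have h4 : x i = 0 := by
        exact pow_eq_zero_iff (n := 2) (by norm_num) |>.1 h3
      rw [h4]; rfl
    · rintro rfl
      rw [normX_def]
      have : extX N (0 : XN N) = fun t => (0:ℝ) * extX N (0 : XN N) t := by
        funext t
        rw [zero_mul]
        unfold extX
        split
        · rfl
        · rfl
      rw [this, nsq_smul]
      simp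

noncomputable instance (N : ℕ) : NormedAddCommGroup (XN N) := NormedAddCommGroup.ofCore (coreX N)
noncomputable instance (N : ℕ) : NormedSpace ℝ (XN N) := NormedSpace.ofCore (coreX N)
instance (N : ℕ) : CompleteSpace (XN N) := FiniteDimensional.complete ℝ (XN N)

instance fact12 : Fact ((1:ENNReal) ≤ 2) := ⟨by norm_num⟩

/-- clamp to `[0,1]` -/
noncomputable def clamp (v : ℝ) : ℝ := max 0 (min 1 v)

theorem clamp_mono {a b : ℝ} (h : a ≤ b) : clamp a ≤ clamp b := by
  unfold clamp; gcongr

theorem clamp_nonneg (v : ℝ) : 0 ≤ clamp v := le_max_left _ _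
theorem clamp_le_one (v : ℝ) : clamp v ≤ 1 := max_le (by norm_num) (min_le_left _ _)

theorem clamp_id (v : ℝ) : clamp v + clamp (v - 1) = 2 * clamp (v / 2) := by
  unfold clamp
  rcases le_total v 0 with h | h
  · rw [min_eq_right (by linarith), max_eq_left h, min_eq_right (by linarith),
      max_eq_left (by linarith), min_eq_right (by linarith), max_eq_left (by linarith)]
    norm_num
  · rcases le_total v 1 with h1 | h1
    · rw [min_eq_right h1, max_eq_right h, min_eq_right (by linarith),
        max_eq_left (by linarith), min_eq_right (by linarith), max_eq_right (by linarith)]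
      ring
    · rcases le_total v 2 with h2 | h2
      · rw [min_eq_left h1, max_eq_right (by norm_num), min_eq_right (by linarith),
          max_eq_right (by linarith), min_eq_right (by linarith), max_eq_right (by linarith)]
        ring
      · rw [min_eq_left h1, max_eq_right (by norm_num), min_eq_left (by linarith),
          max_eq_right (by linarith), min_eq_left (by linarith), max_eq_right (by linarith)]
        ring

/-- ramp function -/
noncomputable def ramp (n j i : ℕ) (t : ℕ) : ℝ := clamp (((t:ℝ) - i * 2^(n-j)) / 2^(n-j))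

theorem ramp_zero (n j i : ℕ) : ramp n j i 0 = 0 := by
  unfold ramp clamp
  have h : ((0:ℕ):ℝ) - i * 2^(n-j) ≤ 0 := by
    have : (0:ℝ) ≤ i * 2^(n-j) := by positivity
    simp only [Nat.cast_zero]; linarith
  have h2 : (((0:ℕ):ℝ) - i * 2^(n-j)) / 2^(n-j) ≤ 0 := div_nonpos_of_nonpos_of_nonneg h (by positivity)
  rw [min_eq_right (by linarith), max_eq_left h2]

theorem ramp_mono (n j i : ℕ) (t : ℕ) : ramp n j i t ≤ ramp n j i (t+1) := by
  unfold ramp
  apply clamp_mono
  apply div_le_div_of_nonneg_right _ (by positivity)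
  push_cast; linarith

noncomputable def rampX (n j i : ℕ) : XN (2^n) := fun k : Fin (2^n) => ramp n j i (k.1+1)

theorem ext_rampX (n j i t : ℕ) (ht : t ≤ 2^n) : extX (2^n) (rampX n j i) t = ramp n j i t := by
  unfold extX
  split
  · rename_i h
    show ramp n j i (t-1+1) = _
    rw [Nat.sub_add_cancel h.1]
  · rename_i h
    have : t = 0 := by omega
    subst this
    rw [ramp_zero]

theorem norm_rampX (n j i : ℕ) : ‖rampX n j i‖ ≤ 1 := by
  rw [normX_def]
  have h := nsq_upper (2^n) (extX (2^n) (rampX n j i)) (extX_zero _ _) 1 1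
    (by
      intro t ht
      rw [ext_rampX n j i t ht]
      unfold ramp
      rw [abs_of_nonneg (clamp_nonneg _)]
      exact clamp_le_one _)
    (by
      unfold tv
      have : ∀ t ∈ range (2^n), |extX (2^n) (rampX n j i) (t+1) - extX (2^n) (rampX n j i) t|
          = ramp n j i (t+1) - ramp n j i t := by
        intro t ht
        rw [mem_range] at ht
        rw [ext_rampX n j i t ht.le, ext_rampX n j i (t+1) ht]
        exact abs_of_nonneg (by linarith [ramp_mono n j i t])
      rw [sum_congr rfl this, sum_range_sub, ramp_zero]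
      have := clamp_le_one ((((2^n:ℕ):ℝ) - i * 2^(n-j)) / 2^(n-j))
      show ramp n j i (2^n) - 0 ≤ 1
      unfold ramp
      linarith)
  rw [one_mul] at h
  calc Real.sqrt _ ≤ Real.sqrt 1 := Real.sqrt_le_sqrt h
    _ = 1 := Real.sqrt_one

theorem ramp_split (n j i t : ℕ) (hj : j < n) :
    ramp n j i t = (1/2) * (ramp n (j+1) (2*i) t + ramp n (j+1) (2*i+1) t) := by
  unfold ramp
  have hL : (2:ℝ)^(n-j) = 2 * 2^(n-(j+1)) := by
    rw [← pow_succ']; congr 1; omega
  set L : ℝ := 2^(n-(j+1)) with hLdef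
  have hLpos : 0 < L := by positivity
  have e1 : ((t:ℝ) - ((2*i:ℕ):ℝ) * L) / L = ((t:ℝ) - 2 * i * L)/L := by push_cast; ring
  have e2 : ((t:ℝ) - ((2*i+1:ℕ):ℝ) * L) / L = ((t:ℝ) - 2 * i * L)/L - 1 := by
    push_cast; field_simp; ring
  have e3 : ((t:ℝ) - i * (2^(n-j))) / (2^(n-j)) = (((t:ℝ) - 2 * i * L)/L)/2 := by
    rw [hL]; field_simp
  rw [e1, e2, e3]
  have := clamp_id (((t:ℝ) - 2 * i * L)/L)
  linarith

theorem rampX_split (n j i : ℕ) (hj : j < n) :
    rampX n j i = (1/2:ℝ) • (rampX n (j+1) (2*i) + rampX n (j+1) (2*i+1)) := by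
  funext k
  exact ramp_split n j i (k.1+1) hj

theorem rampX_diff (n j i : ℕ) (hj : j < n) (hi : i < 2^j) :
    1/2 ≤ ‖rampX n (j+1) (2*i) - rampX n (j+1) (2*i+1)‖ := by
  rw [normX_def]
  set t : ℕ := (2*i+1) * 2^(n-(j+1)) with ht
  have htN : t ≤ 2^n := by
    have h1 : 2*i+1 ≤ 2^(j+1) := by rw [pow_succ]; omega
    calc t ≤ 2^(j+1) * 2^(n-(j+1)) := Nat.mul_le_mul_right _ h1
      _ = 2^n := by rw [← pow_add]; congr 1; omega
  have h := nsq_lower (2^n) (extX (2^n) (rampX n (j+1) (2*i) - rampX n (j+1) (2*i+1)))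
    (extX_zero _ _) t htN
  rw [extX_sub, ext_rampX _ _ _ _ htN, ext_rampX _ _ _ _ htN] at h
  have hLpos : (0:ℝ) < 2^(n-(j+1)) := by positivity
  have h1 : ramp n (j+1) (2*i) t = 1 := by
    unfold ramp
    have : ((t:ℝ) - ((2*i:ℕ):ℝ) * 2^(n-(j+1))) / 2^(n-(j+1)) = 1 := by
      rw [ht]; push_cast; field_simp; ring
    rw [this]; unfold clamp; simp
  have h2 : ramp n (j+1) (2*i+1) t = 0 := by
    unfold ramp
    have : ((t:ℝ) - ((2*i+1:ℕ):ℝ) * 2^(n-(j+1))) / 2^(n-(j+1)) = 0 := by
      rw [ht]; push_cast; field_simp; ring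
    rw [this]; unfold clamp; simp
  rw [h1, h2] at h
  apply Real.le_sqrt_of_sq_le
  nlinarith

/-- the Banach space: l2-sum over `N` of `{x : {1..N} → ℝ}` with norm `sqrt (nsq N x)` -/
theorem space_exists : ∃ (X : Type) (_ : NormedAddCommGroup X) (_ : NormedSpace ℝ X)
    (_ : CompleteSpace X),
    (¬ ∃ (Y : Type) (_ : NormedAddCommGroup Y) (_ : NormedSpace ℝ Y)
        (_ : UniformConvexSpace Y), Nonempty (X ≃L[ℝ] Y)) ∧
    ∃ φ : ℕ → X → ℕ → ℝ, (∀ N x, φ N x 0 = 0) ∧
      (∀ N x y t, φ N (x - y) t = φ N x t - φ N y t) ∧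
      (∀ x, HasSum (fun N => nsq N (φ N x)) (‖x‖^2)) := by
  refine ⟨lp (fun N => XN N) 2, inferInstance, inferInstance, inferInstance, ?_, ?_⟩
  · apply not_UC_of_trees _ (1/2) (by norm_num)
    intro n
    refine ⟨fun j i => lp.single 2 (2^n) (rampX n j i), ?_, ?_, ?_⟩
    · intro j hj i hi
      show lp.single 2 (2^n) (rampX n j i) = (1/2:ℝ) • (lp.single 2 (2^n) (rampX n (j+1) (2*i)) + lp.single 2 (2^n) (rampX n (j+1) (2*i+1)))
      rw [← lp.single_add, ← lp.single_smul, ← rampX_split n j i hj]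
    · intro j hj i hi
      show ‖lp.single (E := fun N => XN N) 2 (2^n) (rampX n j i)‖ ≤ 1
      rw [lp.norm_single (by norm_num)]
      exact norm_rampX n j i
    · intro j hj i hi
      show 1/2 ≤ ‖lp.single (E := fun N => XN N) 2 (2^n) (rampX n (j+1) (2*i)) - lp.single (E := fun N => XN N) 2 (2^n) (rampX n (j+1) (2*i+1))‖
      rw [← lp.single_sub, lp.norm_single (by norm_num)]
      exact rampX_diff n j i hj hi
  · refine ⟨fun N x => extX N (x N), fun N x => extX_zero _ _, ?_, ?_⟩
    · intro N x y t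
      exact extX_sub N (x N) (y N) t
    · intro x
      have h := lp.hasSum_norm (p := 2) (by norm_num) x
      have e : (2:ENNReal).toReal = 2 := by norm_num
      rw [e] at h
      have e2 : ‖x‖ ^ (2:ℝ) = ‖x‖^2 := by norm_cast
      rw [e2] at h
      convert h using 2 with N
      have e3 : ‖x N‖ ^ (2:ℝ) = ‖x N‖^2 := by norm_cast
      rw [e3, normX_def, Real.sq_sqrt (nsq_nonneg _ _)]

end Pool.Agent.SR871
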