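import Mathlib
set_option autoImplicit false
set_option maxHeartbeats 1000000
namespace Pool.Agent.SR871
open Finset Classical

/-- edge boundary of a finite vertex set (ordered pairs) -/
noncomputable def bdy {Ω : Type} [Fintype Ω] (G : SimpleGraph Ω) (S : Finset Ω) : ℕ :=
  ((S ×ˢ Sᶜ).filter (fun p => G.Adj p.1 p.2)).card

/-- lazy simple random walk of a `k`-regular graph -/
noncomputable def lazyP {Ω : Type} [Fintype Ω] (G : SimpleGraph Ω) (k : ℕ) : Matrix Ω Ω ℝ :=
  fun u v => if u = v then 1/2 else if G.Adj u v then 1/(2*k) else 0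

/-- the chain on `S`: proposed moves out of `S` are suppressed -/
noncomputable def chS {Ω : Type} [Fintype Ω] (G : SimpleGraph Ω) (k : ℕ) (S : Finset Ω) :
    Matrix S S ℝ :=
  fun u v => if u = v then 1 - ((S.filter (fun w => G.Adj u w)).card : ℝ)/(2*k)
    else if G.Adj u v then 1/(2*k) else 0

/-- energy -/
noncomputable def En {α : Type} [Fintype α] {X : Type} [NormedAddCommGroup X]
    (Q : Matrix α α ℝ) (F : α → X) : ℝ := ∑ u, ∑ v, Q u v * ‖F u - F v‖^2

/-- number of scales available for a set of size `n` -/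
def lam (n : ℕ) : ℕ := Nat.sqrt (Nat.log 2 (Nat.log 2 n))

end Pool.Agent.SR871
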