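import Mathlib
import Pool.Agent.SR871.DefsD
set_option autoImplicit false
set_option maxHeartbeats 1000000
namespace Pool.Agent.SR871
open Finset Classical









/-- sets smaller than the girth expand -/
theorem small_expand {Ω : Type} [Fintype Ω] (G : SimpleGraph Ω) (k : ℕ) (hk : 3 ≤ k)
    (hreg : ∀ v, (G.neighborSet v).ncard = k) (S : Finset Ω) (hS : ((S.card : ℕ) : ℕ∞) < G.egirth) :
    S.card ≤ bdy G S := by
  rcases S.eq_empty_or_nonempty with rfl | hne
  · simp
  have hac : (G.induce (S : Set Ω)).IsAcyclic := by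
    by_contra hna
    obtain ⟨a, w, hw, hwl⟩ := SimpleGraph.exists_egirth_eq_length.mpr hna
    have h1 : G.egirth ≤ (G.induce (S : Set Ω)).egirth :=
      SimpleGraph.IsContained.egirth_le ⟨(SimpleGraph.Embedding.induce (S : Set Ω)).toCopy⟩
    have h2 : w.length ≤ S.card := by
      have := hw.support_nodup.length_le_card
      rw [List.length_tail, SimpleGraph.Walk.length_support] at this
      simpa using this
    rw [hwl] at h1
    exact absurd (hS.trans_le (h1.trans (by exact_mod_cast h2))) (lt_irrefl _)
  haveI : Nonempty ((S : Set Ω) : Type) := ⟨⟨hne.choose, hne.choose_spec⟩⟩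
  obtain ⟨T, hHT, -, hT⟩ := (SimpleGraph.connected_top
    (V := ((S : Set Ω) : Type))).exists_isTree_le_of_le_of_isAcyclic
    (H := G.induce (S : Set Ω)) le_top hac
  have hcard := hT.card_edgeFinset
  have hle : (G.induce (S : Set Ω)).edgeFinset.card ≤ T.edgeFinset.card :=
    Finset.card_le_card (SimpleGraph.edgeFinset_mono hHT)
  have hsum := (G.induce (S : Set Ω)).sum_degrees_eq_twice_card_edges
  have hc2 : Fintype.card ((S : Set Ω) : Type) = S.card := by simp
  have hdeg : ∑ v : ((S : Set Ω) : Type), (G.induce (S : Set Ω)).degree v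
      = ∑ v ∈ S, (S.filter (fun w => G.Adj v w)).card := by
    have e1 : ∀ v : ((S : Set Ω) : Type), (G.induce (S : Set Ω)).degree v
        = (S.filter (fun w => G.Adj v w)).card := by
      intro v
      rw [← SimpleGraph.card_neighborFinset_eq_degree]
      rw [← Finset.card_map (Function.Embedding.subtype (· ∈ (S : Set Ω)))]
      congr 1
      ext u
      simp only [Finset.mem_map, SimpleGraph.mem_neighborFinset, SimpleGraph.comap_adj,
        Function.Embedding.subtype_apply, Finset.mem_filter]
      constructor
      · rintro ⟨x, hx, rfl⟩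
        exact ⟨x.2, hx⟩
      · rintro ⟨h1, h2⟩
        exact ⟨⟨u, h1⟩, h2, rfl⟩
    rw [Finset.sum_congr rfl (fun v _ => e1 v)]
    exact Finset.sum_coe_sort S (fun v => (S.filter (fun w => G.Adj v w)).card)
  have hb : bdy G S = ∑ v ∈ S, (Sᶜ.filter (fun w => G.Adj v w)).card := by
    unfold bdy
    rw [Finset.card_filter, Finset.sum_product]
    refine Finset.sum_congr rfl fun v _ => ?_
    rw [Finset.card_filter]
  have hk2 : ∀ v, (S.filter (fun w => G.Adj v w)).card + (Sᶜ.filter (fun w => G.Adj v w)).card
      = k := by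
    intro v
    rw [← hreg v, Set.ncard_eq_toFinset_card']
    rw [← Finset.card_union_of_disjoint]
    · congr 1
      ext u
      simp only [Finset.mem_union, Finset.mem_filter, Finset.mem_compl, Set.mem_toFinset,
        SimpleGraph.mem_neighborSet]
      tauto
    · rw [Finset.disjoint_left]
      intro u hu hu'
      rw [Finset.mem_filter] at hu hu'
      exact (Finset.mem_compl.mp hu'.1) hu.1
  have htot : ∑ v ∈ S, (S.filter (fun w => G.Adj v w)).card + bdy G S = k * S.card := by
    rw [hb, ← Finset.sum_add_distrib, Finset.sum_congr rfl (fun v _ => hk2 v), Finset.sum_const,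
      smul_eq_mul, mul_comm]
  rw [← hdeg, hsum] at htot
  rw [hc2] at hcard
  have : 3 * S.card ≤ k * S.card := Nat.mul_le_mul_right _ hk
  have e : 2 * (G.induce (S : Set Ω)).edgeFinset.card ≤ 2 * S.card := by
    have : (G.induce (S : Set Ω)).edgeFinset.card ≤ S.card := by
      refine hle.trans ?_
      have h9 : T.edgeFinset.card + 1 = S.card := by
        convert hcard
      omega
    omega
  have htot' : 2 * (G.induce (S : Set Ω)).edgeFinset.card + bdy G S = k * S.card := by
    convert htot
  omega

/-- balls have at most `k^(ρ+1)` points -/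
theorem ball_card {Ω : Type} [Fintype Ω] (G : SimpleGraph Ω) (hG : G.Connected) (k : ℕ) (hk : 3 ≤ k)
    (hreg : ∀ v, (G.neighborSet v).ncard = k) (x : Ω) (ρ : ℕ) :
    (univ.filter (fun y => G.dist x y ≤ ρ)).card ≤ k^(ρ+1) := by
  have hnb : ∀ v, (univ.filter (fun w => G.Adj v w)).card = k := by
    intro v
    rw [← hreg v, Set.ncard_eq_toFinset_card']
    congr 1
    ext u
    simp
  have key : ∀ ρ : ℕ, ∀ y, G.dist x y = ρ + 1 → ∃ z, G.dist x z ≤ ρ ∧ G.Adj z y := by
    intro ρ y hy
    obtain ⟨p, hp⟩ := hG.exists_walk_length_eq_dist y x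
    rw [SimpleGraph.dist_comm, hy] at hp
    cases p with
    | nil => simp at hp
    | cons h q =>
      rename_i z
      refine ⟨z, ?_, h.symm⟩
      rw [SimpleGraph.Walk.length_cons] at hp
      rw [SimpleGraph.dist_comm]
      exact (SimpleGraph.dist_le q).trans (by omega)
  have hstep : ∀ ρ : ℕ, (univ.filter (fun y => G.dist x y ≤ ρ + 1)).card
      ≤ 1 + k * (univ.filter (fun y => G.dist x y ≤ ρ)).card := by
    intro ρ
    have hsub : (univ.filter (fun y => G.dist x y ≤ ρ + 1)) ⊆
        insert x ((univ.filter (fun y => G.dist x y ≤ ρ)).biUnion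
          (fun z => univ.filter (fun w => G.Adj z w))) := by
      intro y hy
      rw [Finset.mem_filter] at hy
      rw [Finset.mem_insert, Finset.mem_biUnion]
      rcases Nat.eq_zero_or_pos (G.dist x y) with h0 | h0
      · left
        exact ((hG.dist_eq_zero_iff).mp h0).symm
      · right
        obtain ⟨r, hr⟩ : ∃ r, G.dist x y = r + 1 := ⟨G.dist x y - 1, by omega⟩
        obtain ⟨z, hz, hadj⟩ := key r y hr
        exact ⟨z, by simp; omega, by simpa using hadj⟩
    refine (Finset.card_le_card hsub).trans ((Finset.card_insert_le _ _).trans ?_)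
    rw [add_comm]
    refine Nat.add_le_add_left ?_ 1
    refine (Finset.card_biUnion_le).trans ?_
    rw [Finset.sum_congr rfl (fun z _ => hnb z), Finset.sum_const, smul_eq_mul, mul_comm]
  -- stronger: card + 1 ≤ k ^ (ρ+1)
  have hmain : ∀ ρ : ℕ, (univ.filter (fun y => G.dist x y ≤ ρ)).card + 1 ≤ k^(ρ+1) := by
    intro ρ
    induction ρ with
    | zero =>
      have : (univ.filter (fun y => G.dist x y ≤ 0)) ⊆ {x} := by
        intro y hy
        rw [Finset.mem_filter] at hy
        rw [Finset.mem_singleton]
        exact ((hG.dist_eq_zero_iff).mp (by omega)).symm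
      have := Finset.card_le_card this
      rw [Finset.card_singleton] at this
      simp only [zero_add, pow_one]
      omega
    | succ n ih =>
      have h1 := hstep n
      have h2 : k * ((univ.filter (fun y => G.dist x y ≤ n)).card + 1) ≤ k ^ (n + 1 + 1) := by
        rw [pow_succ' k (n+1)]
        exact Nat.mul_le_mul_left k ih
      rw [mul_add, mul_one] at h2
      omega
  exact (Nat.le_succ _).trans (hmain ρ)

end Pool.Agent.SR871
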