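import Mathlib
import Pool.Agent.SR871.DefsD
set_option autoImplicit false
set_option maxHeartbeats 1000000
namespace Pool.Agent.SR871
open Finset Classical









/-- the edge boundary as a double sum -/
theorem bdy_eq_sum {Ω : Type} [Fintype Ω] (G : SimpleGraph Ω) (A : Finset Ω) :
    (bdy G A : ℝ) = ∑ x, ∑ y, if G.Adj x y then (if x ∈ A ∧ y ∉ A then (1:ℝ) else 0) else 0 := by
  have h1 : (A ×ˢ Aᶜ).filter (fun p => G.Adj p.1 p.2) =
      (univ : Finset (Ω × Ω)).filter (fun p => G.Adj p.1 p.2 ∧ (p.1 ∈ A ∧ p.2 ∉ A)) := by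
    ext p
    simp only [mem_filter, mem_product, mem_compl, mem_univ, true_and]
    tauto
  unfold bdy
  rw [h1, card_filter, Fintype.sum_prod_type]
  push_cast
  refine sum_congr rfl (fun x _ => sum_congr rfl (fun y _ => ?_))
  by_cases h : G.Adj x y <;> by_cases h' : x ∈ A ∧ y ∉ A <;> simp [h, h']

theorem bdy_eq_sum' {Ω : Type} [Fintype Ω] (G : SimpleGraph Ω) (A : Finset Ω) :
    (bdy G A : ℝ) = ∑ x, ∑ y, if G.Adj x y then (if y ∈ A ∧ x ∉ A then (1:ℝ) else 0) else 0 := by
  rw [bdy_eq_sum, sum_comm]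
  refine sum_congr rfl (fun x _ => sum_congr rfl (fun y _ => ?_))
  by_cases h : G.Adj x y
  · rw [if_pos h, if_pos h.symm]
  · rw [if_neg h, if_neg (fun h' => h h'.symm)]

theorem coarea_aux {Ω : Type} [Fintype Ω] (G : SimpleGraph Ω) (n₀ : ℕ) (φ₀ : ℝ)
    (hφ : ∀ A : Finset Ω, A.Nonempty → A.card ≤ n₀ → φ₀ * A.card ≤ bdy G A) (m : ℕ) :
    ∀ (h : Ω → ℝ), (∀ x, 0 ≤ h x) → (univ.filter (fun x => h x ≠ 0)).card = m → m ≤ n₀ →
    2 * φ₀ * ∑ x, h x ≤ ∑ x, ∑ y, if G.Adj x y then |h x - h y| else 0 := by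
  induction m using Nat.strong_induction_on with
  | _ m ih =>
  intro h hpos hcard hm
  set A := univ.filter (fun x => h x ≠ 0) with hA
  have memA : ∀ x, x ∈ A ↔ h x ≠ 0 := fun x => by simp [hA]
  by_cases hne : A.Nonempty
  · obtain ⟨x0, hx0, hmin⟩ := exists_min_image A h hne
    set c := h x0 with hc
    have hcpos : 0 < c := lt_of_le_of_ne (hpos x0) (Ne.symm ((memA x0).1 hx0))
    set h' : Ω → ℝ := fun x => if x ∈ A then h x - c else 0 with hh'
    have hpos' : ∀ x, 0 ≤ h' x := by
      intro x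
      simp only [hh']
      split_ifs with hx
      · linarith [hmin x hx]
      · exact le_refl _
    have hss : (univ.filter (fun x => h' x ≠ 0)) ⊂ A := by
      rw [Finset.ssubset_iff_of_subset]
      · refine ⟨x0, hx0, ?_⟩
        simp only [mem_filter, mem_univ, true_and, hh', not_not, if_pos hx0]
        ring
      · intro x hx
        simp only [mem_filter, mem_univ, true_and, hh'] at hx
        by_contra hxA
        exact hx (if_neg hxA)
    have hlt := card_lt_card hss
    have IH := ih _ (by omega) h' hpos' rfl (by omega)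
    have hsum : ∑ x, h x = ∑ x, h' x + c * A.card := by
      have e1 : ∀ x, h x = h' x + (if x ∈ A then c else 0) := by
        intro x
        simp only [hh']
        split_ifs with hx
        · ring
        · have := (memA x).not.1 hx
          push Not at this
          rw [this]; ring
      calc ∑ x, h x = ∑ x, (h' x + (if x ∈ A then c else 0)) := sum_congr rfl (fun x _ => e1 x)
        _ = _ := by
          have e2 : (∑ x, if x ∈ A then c else 0) = c * A.card := by
            rw [sum_ite_mem, univ_inter, sum_const, nsmul_eq_mul]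
            ring
          rw [sum_add_distrib, e2]
    have hdiff : ∀ x y, |h x - h y| = |h' x - h' y| + c * (if x ∈ A ∧ y ∉ A then (1:ℝ) else 0) +
        c * (if y ∈ A ∧ x ∉ A then (1:ℝ) else 0) := by
      intro x y
      by_cases hx : x ∈ A <;> by_cases hy : y ∈ A
      · simp [hh', hx, hy]
      · have h2 : h y = 0 := by simpa using (memA y).not.1 hy
        have h3 : 0 ≤ h x - c := by linarith [hmin x hx]
        simp only [hh', hx, hy, h2, if_true, if_false, sub_zero, not_true, not_false_iff, and_true,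
          and_false, mul_one, mul_zero, add_zero]
        rw [abs_of_nonneg (hpos x), abs_of_nonneg h3]
        ring
      · have h2 : h x = 0 := by simpa using (memA x).not.1 hx
        have h3 : 0 ≤ h y - c := by linarith [hmin y hy]
        simp only [hh', hx, hy, h2, if_true, if_false, zero_sub, not_true, not_false_iff, and_true,
          and_false, mul_one, mul_zero, add_zero, abs_neg]
        rw [abs_of_nonneg (hpos y), abs_of_nonneg h3]
        ring
      · have h2 : h x = 0 := by simpa using (memA x).not.1 hx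
        have h3 : h y = 0 := by simpa using (memA y).not.1 hy
        simp [hh', hx, hy, h2, h3]
    have hS : (∑ x, ∑ y, if G.Adj x y then |h x - h y| else 0) =
        (∑ x, ∑ y, if G.Adj x y then |h' x - h' y| else 0) + c * bdy G A + c * bdy G A := by
      nth_rewrite 1 [bdy_eq_sum]
      rw [bdy_eq_sum', mul_sum, mul_sum, ← sum_add_distrib, ← sum_add_distrib]
      refine sum_congr rfl (fun x _ => ?_)
      rw [mul_sum, mul_sum, ← sum_add_distrib, ← sum_add_distrib]
      refine sum_congr rfl (fun y _ => ?_)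
      by_cases hxy : G.Adj x y
      · simp only [if_pos hxy]
        exact hdiff x y
      · simp only [if_neg hxy]
        ring
    have hb := hφ A hne (by omega)
    rw [hS, hsum]
    nlinarith [mul_le_mul_of_nonneg_left hb hcpos.le]
  · rw [not_nonempty_iff_eq_empty] at hne
    have h0 : ∀ x, h x = 0 := by
      intro x
      have : x ∉ A := by rw [hne]; exact notMem_empty x
      simpa using (memA x).not.1 this
    simp [h0]

/-- co-area inequality -/
theorem coarea {Ω : Type} [Fintype Ω] (G : SimpleGraph Ω) (n₀ : ℕ) (φ₀ : ℝ) (h0 : 0 ≤ φ₀)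
    (hφ : ∀ A : Finset Ω, A.Nonempty → A.card ≤ n₀ → φ₀ * A.card ≤ bdy G A)
    (h : Ω → ℝ) (hpos : ∀ x, 0 ≤ h x) (hsupp : (univ.filter (fun x => h x ≠ 0)).card ≤ n₀) :
    2 * φ₀ * ∑ x, h x ≤ ∑ x, ∑ y, if G.Adj x y then |h x - h y| else 0 :=
  coarea_aux G n₀ φ₀ hφ _ h hpos rfl hsupp


/-- Cheeger inequality for functions with small support -/
theorem cheeger {Ω : Type} [Fintype Ω] (G : SimpleGraph Ω) (k : ℕ) (hk : 3 ≤ k)
    (hreg : ∀ v, (G.neighborSet v).ncard = k) (n₀ : ℕ) (φ₀ : ℝ) (h0 : 0 ≤ φ₀)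
    (hφ : ∀ A : Finset Ω, A.Nonempty → A.card ≤ n₀ → φ₀ * A.card ≤ bdy G A)
    (g : Ω → ℝ) (hsupp : (univ.filter (fun x => g x ≠ 0)).card ≤ n₀) :
    φ₀^2 * ∑ x, (g x)^2 ≤ k * ∑ x, ∑ y, if G.Adj x y then (g x - g y)^2 else 0 := by
  set S := ∑ x, (g x)^2 with hS
  set E := ∑ x, ∑ y, (if G.Adj x y then (g x - g y)^2 else 0) with hE
  set T := ∑ x, ∑ y, (if G.Adj x y then |(g x)^2 - (g y)^2| else 0) with hT
  set P := ∑ x, ∑ y, (if G.Adj x y then (g x + g y)^2 else 0) with hP
  have hS0 : 0 ≤ S := sum_nonneg (fun x _ => sq_nonneg _)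
  have hE0 : 0 ≤ E := sum_nonneg (fun x _ => sum_nonneg (fun y _ => by
    split_ifs
    · exact sq_nonneg _
    · exact le_refl _))
  have h1 : 2 * φ₀ * S ≤ T := by
    refine coarea G n₀ φ₀ h0 hφ (fun x => (g x)^2) (fun x => sq_nonneg _) ?_
    refine le_trans (le_of_eq ?_) hsupp
    congr 1
    ext x
    simp
  have hT0 : 0 ≤ T := le_trans (by positivity) h1
  have h2 : T^2 ≤ E * P := by
    have cs := sum_mul_sq_le_sq_mul_sq (univ : Finset (Ω × Ω))
      (fun p => if G.Adj p.1 p.2 then |g p.1 - g p.2| else 0)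
      (fun p => if G.Adj p.1 p.2 then |g p.1 + g p.2| else 0)
    rw [Fintype.sum_prod_type, Fintype.sum_prod_type, Fintype.sum_prod_type] at cs
    have e1 : (∑ x, ∑ y, (if G.Adj x y then |g x - g y| else 0) *
        (if G.Adj x y then |g x + g y| else 0)) = T := by
      refine sum_congr rfl (fun x _ => sum_congr rfl (fun y _ => ?_))
      by_cases hxy : G.Adj x y
      · rw [if_pos hxy, if_pos hxy, if_pos hxy, ← abs_mul]
        congr 1
        ring
      · rw [if_neg hxy, if_neg hxy, if_neg hxy, mul_zero]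
    have e2 : (∑ x, ∑ y, (if G.Adj x y then |g x - g y| else 0)^2) = E := by
      refine sum_congr rfl (fun x _ => sum_congr rfl (fun y _ => ?_))
      by_cases hxy : G.Adj x y
      · rw [if_pos hxy, if_pos hxy, sq_abs]
      · rw [if_neg hxy, if_neg hxy]
        norm_num
    have e3 : (∑ x, ∑ y, (if G.Adj x y then |g x + g y| else 0)^2) = P := by
      refine sum_congr rfl (fun x _ => sum_congr rfl (fun y _ => ?_))
      by_cases hxy : G.Adj x y
      · rw [if_pos hxy, if_pos hxy, sq_abs]
      · rw [if_neg hxy, if_neg hxy]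
        norm_num
    simp only [] at cs
    rw [e1, e2, e3] at cs
    exact cs
  have hdeg : ∀ x, ((univ.filter (fun y => G.Adj x y)).card : ℝ) = k := by
    intro x
    rw [← hreg x, Set.ncard_eq_toFinset_card']
    congr 2
    ext y
    simp
  have hsum1 : (∑ x, ∑ y, (if G.Adj x y then (g x)^2 else 0)) = k * S := by
    rw [hS, mul_sum]
    refine sum_congr rfl (fun x _ => ?_)
    rw [← sum_filter, sum_const, nsmul_eq_mul, hdeg]
  have hsum2 : (∑ x, ∑ y, (if G.Adj x y then (g y)^2 else 0)) = k * S := by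
    rw [← hsum1, sum_comm]
    refine sum_congr rfl (fun x _ => sum_congr rfl (fun y _ => ?_))
    by_cases hxy : G.Adj x y
    · rw [if_pos hxy, if_pos hxy.symm]
    · rw [if_neg hxy, if_neg (fun h' => hxy h'.symm)]
  have h3 : P ≤ 4 * k * S := by
    have : P ≤ 2 * (∑ x, ∑ y, (if G.Adj x y then (g x)^2 else 0)) +
        2 * (∑ x, ∑ y, (if G.Adj x y then (g y)^2 else 0)) := by
      rw [mul_sum, mul_sum, ← sum_add_distrib]
      refine sum_le_sum (fun x _ => ?_)
      rw [mul_sum, mul_sum, ← sum_add_distrib]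
      refine sum_le_sum (fun y _ => ?_)
      by_cases hxy : G.Adj x y
      · rw [if_pos hxy, if_pos hxy, if_pos hxy]
        nlinarith [sq_nonneg (g x - g y)]
      · rw [if_neg hxy, if_neg hxy, if_neg hxy]
        norm_num
    rw [hsum1, hsum2] at this
    linarith
  have h4 : (2 * φ₀ * S)^2 ≤ E * (4 * k * S) := by
    calc (2 * φ₀ * S)^2 ≤ T^2 := pow_le_pow_left₀ (by positivity) h1 2
      _ ≤ E * P := h2
      _ ≤ E * (4 * k * S) := mul_le_mul_of_nonneg_left h3 hE0
  rcases hS0.eq_or_lt with h5 | h5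
  · rw [← h5]
    simp only [mul_zero]
    positivity
  · have h6 : (φ₀^2 * S) * S ≤ (k * E) * S := by nlinarith
    exact le_of_mul_le_mul_right h6 h5


end Pool.Agent.SR871
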