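import Mathlib
import Pool.Agent.SR871.D1
import Pool.Agent.SR871.D2
set_option autoImplicit false
set_option maxHeartbeats 1000000
namespace Pool.Agent.SR871
open Finset Classical











/- TO PROVE -/
theorem lz_nb {Ω : Type} [Fintype Ω] (G : SimpleGraph Ω) (k : ℕ)
    (hreg : ∀ v, (G.neighborSet v).ncard = k) (u : Ω) :
    (univ.filter (fun v => G.Adj u v)).card = k := by
  rw [← hreg u, ← Set.ncard_coe_finset]
  congr 1
  ext v
  simp

theorem lz_apply {Ω : Type} [Fintype Ω] (G : SimpleGraph Ω) (k : ℕ) (u v : Ω) :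
    lazyP G k u v = (if u = v then 1/2 else 0) + (if G.Adj u v then 1/(2*(k:ℝ)) else 0) := by
  by_cases h : u = v
  · subst h
    simp [lazyP]
  · simp [lazyP, h]

theorem lz_sum {Ω : Type} [Fintype Ω] (G : SimpleGraph Ω) (k : ℕ) (g : Ω → ℝ) (u : Ω) :
    ∑ v, lazyP G k u v * g v = g u / 2 + (∑ v, if G.Adj u v then g v else 0) / (2 * k) := by
  simp only [lz_apply, add_mul, Finset.sum_add_distrib, ite_mul, zero_mul]
  congr 1
  · rw [Finset.sum_ite_eq Finset.univ u]
    simp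
    ring
  · rw [Finset.sum_div]
    refine Finset.sum_congr rfl (fun v _ => ?_)
    split_ifs
    · ring
    · simp

theorem lz_symm {Ω : Type} [Fintype Ω] (G : SimpleGraph Ω) (k : ℕ) :
    (lazyP G k).transpose = lazyP G k := by
  ext u v
  rw [Matrix.transpose_apply, lz_apply, lz_apply]
  congr 1
  · simp only [eq_comm]
  · simp only [G.adj_comm]

theorem lz_nonneg {Ω : Type} [Fintype Ω] (G : SimpleGraph Ω) (k : ℕ) (u v : Ω) :
    0 ≤ lazyP G k u v := by
  rw [lz_apply]
  apply add_nonneg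
  · split_ifs <;> norm_num
  · split_ifs
    · positivity
    · exact le_rfl

theorem lz_row {Ω : Type} [Fintype Ω] (G : SimpleGraph Ω) (k : ℕ) (hk : 3 ≤ k)
    (hreg : ∀ v, (G.neighborSet v).ncard = k) (u : Ω) : ∑ v, lazyP G k u v = 1 := by
  have h := lz_sum G k (fun _ => 1) u
  simp only [mul_one] at h
  rw [h, Finset.sum_boole, lz_nb G k hreg u]
  have hk0 : (k : ℝ) ≠ 0 := by
    have : k ≠ 0 := by omega
    exact_mod_cast this
  field_simp
  norm_num

theorem lazyP_basic {Ω : Type} [Fintype Ω] (G : SimpleGraph Ω) (k : ℕ) (hk : 3 ≤ k)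
    (hreg : ∀ v, (G.neighborSet v).ncard = k) (t : ℕ) :
    (∀ u v, 0 ≤ (lazyP G k ^ t) u v) ∧ (∀ u v, (lazyP G k ^ t) u v = (lazyP G k ^ t) v u) ∧
    (∀ u, ∑ v, (lazyP G k ^ t) u v = 1) := by
  refine ⟨?_, ?_, ?_⟩
  · induction t with
    | zero =>
      intro u v
      rw [pow_zero, Matrix.one_apply]
      split_ifs <;> norm_num
    | succ t ih =>
      intro u v
      rw [pow_succ, Matrix.mul_apply]
      exact Finset.sum_nonneg (fun w _ => mul_nonneg (ih u w) (lz_nonneg G k w v))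
  · intro u v
    have h : (lazyP G k ^ t).transpose = lazyP G k ^ t := by
      rw [Matrix.transpose_pow, lz_symm]
    calc (lazyP G k ^ t) u v = (lazyP G k ^ t).transpose v u := rfl
      _ = _ := by rw [h]
  · induction t with
    | zero =>
      intro u
      simp [Matrix.one_apply]
    | succ t ih =>
      intro u
      simp only [pow_succ, Matrix.mul_apply]
      rw [Finset.sum_comm]
      have : ∀ w, ∑ v, (lazyP G k ^ t) u w * lazyP G k w v = (lazyP G k ^ t) u w := by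
        intro w
        rw [← Finset.mul_sum, lz_row G k hk hreg, mul_one]
      simp only [this]
      exact ih u

theorem lz_dbl {Ω : Type} [Fintype Ω] (G : SimpleGraph Ω) (k : ℕ)
    (hreg : ∀ v, (G.neighborSet v).ncard = k) (f : Ω → ℝ) :
    ∑ x, ∑ y, (if G.Adj x y then f x else 0) = k * ∑ x, f x := by
  rw [Finset.mul_sum]
  refine Finset.sum_congr rfl (fun x _ => ?_)
  rw [← Finset.sum_filter, Finset.sum_const, lz_nb G k hreg x, nsmul_eq_mul]

theorem lz_dbl' {Ω : Type} [Fintype Ω] (G : SimpleGraph Ω) (k : ℕ)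
    (hreg : ∀ v, (G.neighborSet v).ncard = k) (f : Ω → ℝ) :
    ∑ x, ∑ y, (if G.Adj x y then f y else 0) = k * ∑ x, f x := by
  rw [Finset.sum_comm, ← lz_dbl G k hreg f]
  refine Finset.sum_congr rfl (fun x _ => Finset.sum_congr rfl (fun y _ => ?_))
  rw [G.adj_comm]

theorem lz_contr {Ω : Type} [Fintype Ω] (G : SimpleGraph Ω) (k : ℕ) (hk : 3 ≤ k)
    (hreg : ∀ v, (G.neighborSet v).ncard = k) (n₀ : ℕ) (φ₀ : ℝ) (h0 : 0 ≤ φ₀)
    (hφ : ∀ A : Finset Ω, A.Nonempty → A.card ≤ n₀ → φ₀ * A.card ≤ bdy G A)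
    (g : Ω → ℝ) (hsupp : (univ.filter (fun x => g x ≠ 0)).card ≤ n₀) :
    ∑ u, (∑ v, lazyP G k u v * g v) ^ 2 ≤ (1 - φ₀^2/(4*k^2)) * ∑ u, (g u)^2 := by
  have hk0 : (0 : ℝ) < k := by
    have : 0 < k := by omega
    exact_mod_cast this
  have hc := cheeger G k hk hreg n₀ φ₀ h0 hφ g hsupp
  obtain ⟨S, hS⟩ : ∃ S : Ω → ℝ, ∀ u, S u = ∑ v, if G.Adj u v then g v else 0 := ⟨_, fun u => rfl⟩
  have hA : ∑ u, (S u) ^ 2 ≤ k ^ 2 * ∑ u, (g u) ^ 2 := by
    have h1 : ∀ u, (S u) ^ 2 ≤ k * ∑ v, (if G.Adj u v then (g v) ^ 2 else 0) := by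
      intro u
      rw [hS, ← Finset.sum_filter, ← Finset.sum_filter]
      have := sq_sum_le_card_mul_sum_sq (s := univ.filter (fun v => G.Adj u v)) (f := g)
      rwa [lz_nb G k hreg u] at this
    calc ∑ u, (S u) ^ 2 ≤ ∑ u, (k : ℝ) * ∑ v, (if G.Adj u v then (g v) ^ 2 else 0) :=
          Finset.sum_le_sum (fun u _ => h1 u)
      _ = k ^ 2 * ∑ u, (g u) ^ 2 := by
          rw [← Finset.mul_sum, lz_dbl' G k hreg (fun v => (g v) ^ 2)]
          ring
  have hB : ∑ x, ∑ y, (if G.Adj x y then (g x - g y)^2 else 0) =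
      2 * k * ∑ u, (g u) ^ 2 - 2 * ∑ u, g u * S u := by
    have h1 : ∀ x y, (if G.Adj x y then (g x - g y)^2 else 0) =
        (if G.Adj x y then (g x) ^ 2 else 0) + (if G.Adj x y then (g y) ^ 2 else 0) -
          2 * (g x * (if G.Adj x y then g y else 0)) := by
      intro x y
      split_ifs
      · ring
      · ring
    simp only [h1, Finset.sum_sub_distrib, Finset.sum_add_distrib]
    rw [lz_dbl G k hreg (fun v => (g v) ^ 2), lz_dbl' G k hreg (fun v => (g v) ^ 2)]
    have h2 : ∑ x, ∑ y, 2 * (g x * (if G.Adj x y then g y else 0)) = 2 * ∑ u, g u * S u := by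
      rw [Finset.mul_sum]
      refine Finset.sum_congr rfl (fun x _ => ?_)
      rw [← Finset.mul_sum, ← Finset.mul_sum, hS]
    rw [h2]
    ring
  rw [hB] at hc
  have hT : ∑ u, (∑ v, lazyP G k u v * g v) ^ 2 =
      (1/4) * ∑ u, (g u) ^ 2 + (1/(2*k)) * ∑ u, g u * S u + (1/(4*k^2)) * ∑ u, (S u)^2 := by
    rw [Finset.mul_sum, Finset.mul_sum, Finset.mul_sum, ← Finset.sum_add_distrib,
      ← Finset.sum_add_distrib]
    refine Finset.sum_congr rfl (fun u _ => ?_)
    rw [lz_sum, ← hS]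
    field_simp
    ring
  rw [hT]
  generalize ∑ u, (g u) ^ 2 = a at *
  generalize ∑ u, (S u) ^ 2 = b at *
  generalize ∑ u, g u * S u = c at *
  have e1 : (1/(2*k)) * c = (1/(4*(k:ℝ)^2)) * (2 * k * c) := by
    field_simp
    ring
  have e2 : (1 - φ₀^2/(4*(k:ℝ)^2)) * a = (1/4) * a + (1/(4*(k:ℝ)^2)) * (2 * k^2 * a - φ₀^2 * a) +
      (1/(4*(k:ℝ)^2)) * (k^2 * a) := by
    field_simp
    ring
  rw [e1, e2]
  have hpos : 0 < 1/(4*(k:ℝ)^2) := by positivity
  have i1 : 2 * k * c ≤ 2 * k^2 * a - φ₀^2 * a := by nlinarith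
  have i2 := mul_le_mul_of_nonneg_left i1 hpos.le
  have i3 := mul_le_mul_of_nonneg_left hA hpos.le
  linarith

theorem lz_supp {Ω : Type} [Fintype Ω] (G : SimpleGraph Ω) (hG : G.Connected) (k : ℕ) (x : Ω)
    (j : ℕ) : ∀ y, (lazyP G k ^ j) x y ≠ 0 → G.dist x y ≤ j := by
  induction j with
  | zero =>
    intro y h
    rw [pow_zero, Matrix.one_apply] at h
    split_ifs at h with hxy
    · subst hxy
      simp
    · exact absurd rfl h
  | succ j ih =>
    intro y h
    rw [pow_succ, Matrix.mul_apply] at h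
    obtain ⟨z, _, hz⟩ := Finset.exists_ne_zero_of_sum_ne_zero h
    have h1 := ih z (left_ne_zero_of_mul hz)
    have h2 := right_ne_zero_of_mul hz
    have h3 : G.dist z y ≤ 1 := by
      by_cases hzy : z = y
      · subst hzy
        simp
      · have : G.Adj z y := by
          by_contra hn
          apply h2
          simp [lazyP, hzy, hn]
        exact (SimpleGraph.dist_eq_one_iff_adj.2 this).le
    have h4 := hG.dist_triangle (u := x) (v := z) (w := y)
    omega

/-- heat kernel decay as long as small sets expand -/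
theorem heat {Ω : Type} [Fintype Ω] (G : SimpleGraph Ω) (hG : G.Connected) (k : ℕ) (hk : 3 ≤ k)
    (hreg : ∀ v, (G.neighborSet v).ncard = k) (t : ℕ) (φ₀ : ℝ) (h0 : 0 ≤ φ₀) (h1 : φ₀ ≤ 1)
    (hφ : ∀ A : Finset Ω, A.Nonempty → A.card ≤ k^(t+1) → φ₀ * A.card ≤ bdy G A) (x y : Ω) :
    ((lazyP G k ^ t) x y)^2 ≤ (1 - φ₀^2/(4*k^2))^t := by
  have hκ : 0 ≤ 1 - φ₀^2/(4*(k:ℝ)^2) := by
    have hk1 : (1 : ℝ) ≤ k := by
      have : 1 ≤ k := by omega
      exact_mod_cast this
    rw [sub_nonneg, div_le_one (by positivity)]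
    nlinarith
  have hind : ∀ j ≤ t, ∑ z, ((lazyP G k ^ j) x z) ^ 2 ≤ (1 - φ₀^2/(4*(k:ℝ)^2)) ^ j := by
    intro j
    induction j with
    | zero =>
      intro _
      simp [Matrix.one_apply]
    | succ j ih =>
      intro hj
      have h1 := ih (by omega)
      have hsupp : (univ.filter (fun z => (lazyP G k ^ j) x z ≠ 0)).card ≤ k ^ (t + 1) := by
        calc (univ.filter (fun z => (lazyP G k ^ j) x z ≠ 0)).card
            ≤ (univ.filter (fun y => G.dist x y ≤ j)).card := by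
              apply Finset.card_le_card
              intro z hz
              rw [Finset.mem_filter] at hz ⊢
              exact ⟨hz.1, lz_supp G hG k x j z hz.2⟩
          _ ≤ k ^ (j + 1) := ball_card G hG k hk hreg x j
          _ ≤ k ^ (t + 1) := Nat.pow_le_pow_right (by omega) (by omega)
      have h2 := lz_contr G k hk hreg (k ^ (t + 1)) φ₀ h0 hφ (fun z => (lazyP G k ^ j) x z) hsupp
      have h3 : ∀ u, (lazyP G k ^ (j + 1)) x u = ∑ v, lazyP G k u v * (lazyP G k ^ j) x v := by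
        intro u
        rw [pow_succ, Matrix.mul_apply]
        refine Finset.sum_congr rfl (fun v _ => ?_)
        have : lazyP G k v u = lazyP G k u v := by
          have h4 := congrFun (congrFun (lz_symm G k) u) v
          rw [Matrix.transpose_apply] at h4
          exact h4
        rw [this, mul_comm]
      simp only [h3]
      calc _ ≤ _ := h2
        _ ≤ (1 - φ₀^2/(4*(k:ℝ)^2)) * (1 - φ₀^2/(4*(k:ℝ)^2)) ^ j :=
            mul_le_mul_of_nonneg_left h1 hκ
        _ = _ := by rw [pow_succ]; ring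
  calc ((lazyP G k ^ t) x y)^2 ≤ ∑ z, ((lazyP G k ^ t) x z) ^ 2 :=
        Finset.single_le_sum (f := fun z => ((lazyP G k ^ t) x z) ^ 2)
          (fun z _ => sq_nonneg _) (Finset.mem_univ y)
    _ ≤ _ := hind t le_rfl

end Pool.Agent.SR871
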