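import Mathlib
import Pool.Agent.SR871.D3
set_option autoImplicit false
set_option maxHeartbeats 1000000
namespace Pool.Agent.SR871
open Finset Classical











/- TO PROVE -/

theorem chS_aux_nonneg {α : Type} [Fintype α] [DecidableEq α] (Q : Matrix α α ℝ)
    (h : ∀ u v, 0 ≤ Q u v) (t : ℕ) : ∀ u v, 0 ≤ (Q ^ t) u v := by
  induction t with
  | zero =>
    intro u v
    rw [pow_zero, Matrix.one_apply]
    split_ifs <;> norm_num
  | succ t ih =>
    intro u v
    rw [pow_succ, Matrix.mul_apply]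
    exact Finset.sum_nonneg fun w _ => mul_nonneg (ih u w) (h w v)

theorem chS_aux_symm {α : Type} [Fintype α] [DecidableEq α] (Q : Matrix α α ℝ)
    (h : ∀ u v, Q u v = Q v u) (t : ℕ) : ∀ u v, (Q ^ t) u v = (Q ^ t) v u := by
  have h1 : Q.IsSymm := by
    ext u v
    exact (h u v).symm
  have h2 := h1.pow t
  intro u v
  exact (h2.apply u v).symm

theorem chS_aux_row {α : Type} [Fintype α] [DecidableEq α] (Q : Matrix α α ℝ)
    (h : ∀ u, ∑ v, Q u v = 1) (t : ℕ) : ∀ u, ∑ v, (Q ^ t) u v = 1 := by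
  induction t with
  | zero =>
    intro u
    simp [Matrix.one_apply]
  | succ t ih =>
    intro u
    rw [pow_succ]
    simp only [Matrix.mul_apply]
    rw [Finset.sum_comm]
    calc ∑ w, ∑ v, (Q ^ t) u w * Q w v = ∑ w, (Q ^ t) u w := by
          apply Finset.sum_congr rfl
          intro w _
          rw [← Finset.mul_sum, h, mul_one]
      _ = 1 := ih u

theorem chS_aux_low {α : Type} [Fintype α] [DecidableEq α] (Q : Matrix α α ℝ)
    (h : ∀ u v, 0 ≤ Q u v) (c : ℝ) (hc : 0 ≤ c) (hQ : ∀ u v, Q u v ≠ 0 → c ≤ Q u v) (t : ℕ) :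
    ∀ u v, (Q ^ t) u v ≠ 0 → c ^ t ≤ (Q ^ t) u v := by
  induction t with
  | zero =>
    intro u v
    rw [pow_zero, pow_zero, Matrix.one_apply]
    split_ifs
    · intro _; exact le_rfl
    · intro hh; exact absurd rfl hh
  | succ t ih =>
    intro u v huv
    rw [pow_succ, Matrix.mul_apply] at huv
    rw [pow_succ, pow_succ, Matrix.mul_apply]
    obtain ⟨w, _, hw⟩ := Finset.exists_ne_zero_of_sum_ne_zero huv
    have h1 : (Q ^ t) u w ≠ 0 := left_ne_zero_of_mul hw
    have h2 : Q w v ≠ 0 := right_ne_zero_of_mul hw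
    calc c ^ t * c ≤ (Q ^ t) u w * Q w v :=
          mul_le_mul (ih u w h1) (hQ w v h2) hc (chS_aux_nonneg Q h t u w)
      _ ≤ ∑ w, (Q ^ t) u w * Q w v :=
          Finset.single_le_sum (f := fun w => (Q ^ t) u w * Q w v)
            (fun w _ => mul_nonneg (chS_aux_nonneg Q h t u w) (h w v)) (Finset.mem_univ w)

theorem chS_aux_mono {α : Type} [Fintype α] [DecidableEq α] (R Q : Matrix α α ℝ)
    (h : ∀ u v, 0 ≤ R u v) (h' : ∀ u v, R u v ≤ Q u v) (t : ℕ) :
    ∀ u v, (R ^ t) u v ≤ (Q ^ t) u v := by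
  induction t with
  | zero => intro u v; rw [pow_zero, pow_zero]
  | succ t ih =>
    intro u v
    rw [pow_succ, pow_succ, Matrix.mul_apply, Matrix.mul_apply]
    apply Finset.sum_le_sum
    intro w _
    exact mul_le_mul (ih u w) (h' w v) (h w v)
      ((chS_aux_nonneg R h t u w).trans (ih u w))

theorem chS_aux_deg {Ω : Type} [Fintype Ω] (G : SimpleGraph Ω) (k : ℕ)
    (hreg : ∀ v, (G.neighborSet v).ncard = k) (S : Finset Ω) (u : Ω) :
    (S.filter (fun w => G.Adj u w)).card ≤ k := by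
  rw [← hreg u, Set.ncard_eq_toFinset_card']
  apply Finset.card_le_card
  intro w hw
  rw [Finset.mem_filter] at hw
  rw [Set.mem_toFinset]
  exact hw.2

theorem chS_aux_one {Ω : Type} [Fintype Ω] (G : SimpleGraph Ω) (k : ℕ) (hk : 3 ≤ k)
    (hreg : ∀ v, (G.neighborSet v).ncard = k) (S : Finset Ω) :
    (∀ u v, 0 ≤ chS G k S u v) ∧ (∀ u v, chS G k S u v = chS G k S v u) ∧
    (∀ u, ∑ v, chS G k S u v = 1) ∧
    (∀ u v, chS G k S u v ≠ 0 → (1/(2*k : ℝ)) ≤ chS G k S u v) := by
  have hk' : (3 : ℝ) ≤ k := by exact_mod_cast hk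
  have hk0 : (0 : ℝ) < 2 * k := by linarith
  have hdiag : ∀ u : Ω, (1 : ℝ) / 2 ≤ 1 - ((S.filter (fun w => G.Adj u w)).card : ℝ) / (2 * k) := by
    intro u
    have h1 : ((S.filter (fun w => G.Adj u w)).card : ℝ) ≤ k := by
      exact_mod_cast chS_aux_deg G k hreg S u
    have h2 : ((S.filter (fun w => G.Adj u w)).card : ℝ) / (2 * k) ≤ 1 / 2 := by
      rw [div_le_iff₀ hk0]
      linarith
    linarith
  have hsmall : (1 : ℝ) / (2 * k) ≤ 1 / 2 := by
    rw [div_le_div_iff₀ hk0 (by norm_num)]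
    linarith
  have hpos : (0 : ℝ) < 1 / (2 * k) := by positivity
  refine ⟨?_, ?_, ?_, ?_⟩
  · intro u v
    unfold chS
    split_ifs
    · have := hdiag u; linarith
    · exact hpos.le
    · exact le_rfl
  · intro u v
    unfold chS
    by_cases huv : u = v
    · subst huv; rfl
    · rw [if_neg huv, if_neg (Ne.symm huv)]
      by_cases h : G.Adj u v
      · rw [if_pos h, if_pos h.symm]
      · rw [if_neg h, if_neg (fun h' => h h'.symm)]
  · intro u
    have h1 : ∀ v : S, chS G k S u v = (if u = v then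
        1 - ((S.filter (fun w => G.Adj u w)).card : ℝ)/(2*k) else 0) +
        (if G.Adj u v then 1/(2*k : ℝ) else 0) := by
      intro v
      unfold chS
      by_cases huv : u = v
      · subst huv
        rw [if_pos rfl, if_pos rfl, if_neg (G.loopless.irrefl _), add_zero]
      · rw [if_neg huv, if_neg huv, zero_add]
    rw [Finset.sum_congr rfl (fun v _ => h1 v), Finset.sum_add_distrib]
    have h2 : ∑ v : S, (if u = v then
        1 - ((S.filter (fun w => G.Adj u w)).card : ℝ)/(2*k) else 0) =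
        1 - ((S.filter (fun w => G.Adj u w)).card : ℝ)/(2*k) := by
      rw [Finset.sum_ite_eq]
      simp
    have h3 : ∑ v : S, (if G.Adj u v then 1/(2*k : ℝ) else 0) =
        ((S.filter (fun w => G.Adj u w)).card : ℝ)/(2*k) := by
      rw [Finset.sum_coe_sort S (fun v => if G.Adj u v then 1/(2*k : ℝ) else 0),
        ← Finset.sum_filter, Finset.sum_const, nsmul_eq_mul]
      ring
    rw [h2, h3]
    ring
  · intro u v
    unfold chS
    split_ifs
    · intro _; have := hdiag u; linarith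
    · intro _; exact le_rfl
    · intro h; exact absurd rfl h

theorem chS_basic {Ω : Type} [Fintype Ω] (G : SimpleGraph Ω) (k : ℕ) (hk : 3 ≤ k)
    (hreg : ∀ v, (G.neighborSet v).ncard = k) (S : Finset Ω) (t : ℕ) :
    (∀ u v, 0 ≤ (chS G k S ^ t) u v) ∧ (∀ u v, (chS G k S ^ t) u v = (chS G k S ^ t) v u) ∧
    (∀ u, ∑ v, (chS G k S ^ t) u v = 1) ∧
    (∀ u v, (chS G k S ^ t) u v ≠ 0 → (1/(2*k : ℝ))^t ≤ (chS G k S ^ t) u v) := by
  obtain ⟨h1, h2, h3, h4⟩ := chS_aux_one G k hk hreg S
  exact ⟨chS_aux_nonneg _ h1 t, chS_aux_symm _ h2 t, chS_aux_row _ h3 t,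
    chS_aux_low _ h1 _ (by positivity) h4 t⟩

/-- the killed walk -/
noncomputable def chS_R {Ω : Type} [Fintype Ω] (G : SimpleGraph Ω) (k : ℕ) (S : Finset Ω) :
    Matrix S S ℝ := fun u v => lazyP G k u v

theorem chS_aux_lazy_nonneg {Ω : Type} [Fintype Ω] (G : SimpleGraph Ω) (k : ℕ) :
    ∀ u v, 0 ≤ lazyP G k u v := by
  intro u v
  unfold lazyP
  split_ifs
  · norm_num
  · positivity
  · exact le_rfl

theorem chS_aux_Rle {Ω : Type} [Fintype Ω] (G : SimpleGraph Ω) (k : ℕ) (hk : 3 ≤ k)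
    (hreg : ∀ v, (G.neighborSet v).ncard = k) (S : Finset Ω) :
    ∀ u v, chS_R G k S u v ≤ chS G k S u v := by
  intro u v
  have hk' : (3 : ℝ) ≤ k := by exact_mod_cast hk
  have hk0 : (0 : ℝ) < 2 * k := by linarith
  unfold chS_R lazyP chS
  by_cases huv : u = v
  · subst huv
    rw [if_pos rfl, if_pos rfl]
    have h1 : ((S.filter (fun w => G.Adj u w)).card : ℝ) ≤ k := by
      exact_mod_cast chS_aux_deg G k hreg S u
    have h2 : ((S.filter (fun w => G.Adj u w)).card : ℝ) / (2 * k) ≤ 1 / 2 := by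
      rw [div_le_iff₀ hk0]
      linarith
    linarith
  · have huv' : (u : Ω) ≠ v := fun h => huv (Subtype.ext h)
    rw [if_neg huv, if_neg huv']

theorem chS_aux_Rlazy {Ω : Type} [Fintype Ω] (G : SimpleGraph Ω) (k : ℕ) (S : Finset Ω) (t : ℕ) :
    ∀ u v : S, (chS_R G k S ^ t) u v ≤ (lazyP G k ^ t) (u : Ω) (v : Ω) := by
  induction t with
  | zero =>
    intro u v
    rw [pow_zero, pow_zero, Matrix.one_apply, Matrix.one_apply]
    by_cases huv : u = v
    · subst huv
      rw [if_pos rfl, if_pos rfl]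
    · have huv' : (u : Ω) ≠ v := fun h => huv (Subtype.ext h)
      rw [if_neg huv, if_neg huv']
  | succ t ih =>
    intro u v
    rw [pow_succ, pow_succ, Matrix.mul_apply, Matrix.mul_apply]
    calc ∑ w : S, (chS_R G k S ^ t) u w * chS_R G k S w v
        ≤ ∑ w : S, (lazyP G k ^ t) (u : Ω) (w : Ω) * lazyP G k (w : Ω) (v : Ω) := by
          apply Finset.sum_le_sum
          intro w _
          exact mul_le_mul_of_nonneg_right (ih u w) (chS_aux_lazy_nonneg G k _ _)
      _ = ∑ w ∈ S, (lazyP G k ^ t) (u : Ω) w * lazyP G k w (v : Ω) :=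
          Finset.sum_coe_sort S (fun w => (lazyP G k ^ t) (u : Ω) w * lazyP G k w (v : Ω))
      _ ≤ ∑ w, (lazyP G k ^ t) (u : Ω) w * lazyP G k w (v : Ω) := by
          apply Finset.sum_le_sum_of_subset_of_nonneg (Finset.subset_univ S)
          intro w _ _
          exact mul_nonneg (chS_aux_nonneg _ (chS_aux_lazy_nonneg G k) t _ _)
            (chS_aux_lazy_nonneg G k _ _)

theorem chS_aux_bdy {Ω : Type} [Fintype Ω] (G : SimpleGraph Ω) (k : ℕ) (hk : 3 ≤ k)
    (hreg : ∀ v, (G.neighborSet v).ncard = k) (S : Finset Ω) :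
    ∑ w : S, (1 - ∑ v : S, chS_R G k S w v) = (bdy G S : ℝ) / (2 * k) := by
  have hrow : ∀ w : Ω, ∑ v, lazyP G k w v = 1 := by
    have := (lazyP_basic G k hk hreg 1).2.2
    simpa using this
  have h1 : ∀ w ∈ S, 1 - ∑ v ∈ S, lazyP G k w v =
      ∑ v ∈ Sᶜ, (if G.Adj w v then 1/(2*k : ℝ) else 0) := by
    intro w hw
    have h2 : ∑ v ∈ S, lazyP G k w v + ∑ v ∈ Sᶜ, lazyP G k w v = 1 := by
      rw [Finset.sum_add_sum_compl]; exact hrow w
    have h3 : ∑ v ∈ Sᶜ, lazyP G k w v = ∑ v ∈ Sᶜ, (if G.Adj w v then 1/(2*k : ℝ) else 0) := by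
      apply Finset.sum_congr rfl
      intro v hv
      have hne : w ≠ v := by
        rintro rfl
        exact (Finset.mem_compl.mp hv) hw
      unfold lazyP
      rw [if_neg hne]
    linarith
  calc ∑ w : S, (1 - ∑ v : S, chS_R G k S w v) = ∑ w : S, (1 - ∑ v ∈ S, lazyP G k w v) := by
        apply Finset.sum_congr rfl
        intro w _
        congr 1
        exact Finset.sum_coe_sort S (fun v => lazyP G k w v)
    _ = ∑ w ∈ S, (1 - ∑ v ∈ S, lazyP G k w v) :=
        Finset.sum_coe_sort S (fun w => 1 - ∑ v ∈ S, lazyP G k w v)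
    _ = ∑ w ∈ S, ∑ v ∈ Sᶜ, (if G.Adj w v then 1/(2*k : ℝ) else 0) :=
        Finset.sum_congr rfl h1
    _ = ∑ p ∈ S ×ˢ Sᶜ, (if G.Adj p.1 p.2 then 1/(2*k : ℝ) else 0) := by
        rw [Finset.sum_product]
    _ = (bdy G S : ℝ) / (2 * k) := by
        rw [← Finset.sum_filter, Finset.sum_const, nsmul_eq_mul]
        unfold bdy
        ring

theorem chS_aux_tot {Ω : Type} [Fintype Ω] (G : SimpleGraph Ω) (k : ℕ) (hk : 3 ≤ k)
    (hreg : ∀ v, (G.neighborSet v).ncard = k) (S : Finset Ω) (t : ℕ) :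
    (S.card : ℝ) - ∑ u : S, ∑ v : S, (chS_R G k S ^ t) u v ≤ (t : ℝ) * bdy G S / (2 * k) := by
  obtain ⟨hc0, hcs, hcr, _⟩ := chS_aux_one G k hk hreg S
  have hR0 : ∀ u v, 0 ≤ chS_R G k S u v := fun u v => chS_aux_lazy_nonneg G k _ _
  have hRs : ∀ u v, chS_R G k S u v = chS_R G k S v u := by
    intro u v
    have h := (lazyP_basic G k hk hreg 1).2.1 u v
    rw [pow_one] at h
    exact h
  have hRle := chS_aux_Rle G k hk hreg S
  induction t with
  | zero =>
    have : ∑ u : S, ∑ v : S, (chS_R G k S ^ 0) u v = (S.card : ℝ) := by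
      simp [Matrix.one_apply]
    rw [this]
    simp
  | succ t ih =>
    have hcol : ∀ w : S, ∑ u : S, (chS_R G k S ^ t) u w ≤ 1 := by
      intro w
      calc ∑ u : S, (chS_R G k S ^ t) u w = ∑ u : S, (chS_R G k S ^ t) w u :=
            Finset.sum_congr rfl fun u _ => chS_aux_symm _ hRs t u w
        _ ≤ ∑ u : S, (chS G k S ^ t) w u :=
            Finset.sum_le_sum fun u _ => chS_aux_mono _ _ hR0 hRle t w u
        _ = 1 := chS_aux_row _ hcr t w
    have hrow : ∀ w : S, 0 ≤ 1 - ∑ v : S, chS_R G k S w v := by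
      intro w
      have : ∑ v : S, chS_R G k S w v ≤ ∑ v : S, chS G k S w v :=
        Finset.sum_le_sum fun v _ => hRle w v
      rw [hcr w] at this
      linarith
    have h1 : ∑ u : S, ∑ v : S, (chS_R G k S ^ (t + 1)) u v =
        ∑ w : S, (∑ u : S, (chS_R G k S ^ t) u w) * ∑ v : S, chS_R G k S w v := by
      calc ∑ u : S, ∑ v : S, (chS_R G k S ^ (t + 1)) u v
          = ∑ u : S, ∑ v : S, ∑ w : S, (chS_R G k S ^ t) u w * chS_R G k S w v := by
            rw [pow_succ]; rfl
        _ = ∑ u : S, ∑ w : S, ∑ v : S, (chS_R G k S ^ t) u w * chS_R G k S w v := by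
            apply Finset.sum_congr rfl
            intro u _
            rw [Finset.sum_comm]
        _ = ∑ w : S, ∑ u : S, ∑ v : S, (chS_R G k S ^ t) u w * chS_R G k S w v := by
            rw [Finset.sum_comm]
        _ = _ := by
            apply Finset.sum_congr rfl
            intro w _
            rw [Finset.sum_mul]
            apply Finset.sum_congr rfl
            intro u _
            rw [Finset.mul_sum]
    have h2 : ∑ u : S, ∑ v : S, (chS_R G k S ^ t) u v =
        ∑ w : S, (∑ u : S, (chS_R G k S ^ t) u w) := by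
      rw [Finset.sum_comm]
    have h3 : ∑ u : S, ∑ v : S, (chS_R G k S ^ t) u v -
        ∑ u : S, ∑ v : S, (chS_R G k S ^ (t + 1)) u v ≤ (bdy G S : ℝ) / (2 * k) := by
      rw [h1, h2, ← Finset.sum_sub_distrib, ← chS_aux_bdy G k hk hreg S]
      apply Finset.sum_le_sum
      intro w _
      have ha := hcol w
      have hb := hrow w
      nlinarith
    have h4 : ((t + 1 : ℕ) : ℝ) * bdy G S / (2 * k) =
        (t : ℝ) * bdy G S / (2 * k) + (bdy G S : ℝ) / (2 * k) := by
      push_cast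
      ring
    rw [h4]
    linarith

/-- comparison of the chain on `S` with the walk on the whole graph -/
theorem chS_compare {Ω : Type} [Fintype Ω] (G : SimpleGraph Ω) (k : ℕ) (hk : 3 ≤ k)
    (hreg : ∀ v, (G.neighborSet v).ncard = k) (S : Finset Ω) (t : ℕ) (E : Ω → Ω → Prop) :
    ∑ u : S, ∑ v : S, (if E u v then (chS G k S ^ t) u v else 0) ≤
      (t : ℝ) * bdy G S / (2*k) + ∑ u ∈ S, ∑ v, (if E u v then (lazyP G k ^ t) u v else 0) := by
  obtain ⟨hc0, hcs, hcr, _⟩ := chS_aux_one G k hk hreg S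
  have hR0 : ∀ u v, 0 ≤ chS_R G k S u v := fun u v => chS_aux_lazy_nonneg G k _ _
  have hRle := chS_aux_Rle G k hk hreg S
  have hmono := chS_aux_mono _ _ hR0 hRle t
  have h1 : ∑ u : S, ∑ v : S, (if E u v then (chS G k S ^ t) u v else 0) ≤
      ∑ u : S, ∑ v : S, (((chS G k S ^ t) u v - (chS_R G k S ^ t) u v) +
        (if E u v then (chS_R G k S ^ t) u v else 0)) := by
    apply Finset.sum_le_sum
    intro u _
    apply Finset.sum_le_sum
    intro v _
    have := hmono u v
    split_ifs <;> linarith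
  have h2 : ∑ u : S, ∑ v : S, (((chS G k S ^ t) u v - (chS_R G k S ^ t) u v) +
        (if E u v then (chS_R G k S ^ t) u v else 0)) =
      ((S.card : ℝ) - ∑ u : S, ∑ v : S, (chS_R G k S ^ t) u v) +
        ∑ u : S, ∑ v : S, (if E u v then (chS_R G k S ^ t) u v else 0) := by
    simp only [Finset.sum_add_distrib, Finset.sum_sub_distrib]
    congr 2
    rw [Finset.sum_congr rfl (fun u _ => chS_aux_row _ hcr t u)]
    simp
  have h3 := chS_aux_tot G k hk hreg S t
  have h4 : ∑ u : S, ∑ v : S, (if E u v then (chS_R G k S ^ t) u v else 0) ≤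
      ∑ u ∈ S, ∑ v, (if E u v then (lazyP G k ^ t) u v else 0) := by
    calc ∑ u : S, ∑ v : S, (if E u v then (chS_R G k S ^ t) u v else 0)
        ≤ ∑ u : S, ∑ v, (if E u v then (lazyP G k ^ t) (u : Ω) v else 0) := by
          apply Finset.sum_le_sum
          intro u _
          calc ∑ v : S, (if E u v then (chS_R G k S ^ t) u v else 0)
              ≤ ∑ v : S, (if E u v then (lazyP G k ^ t) (u : Ω) (v : Ω) else 0) := by
                apply Finset.sum_le_sum
                intro v _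
                have := chS_aux_Rlazy G k S t u v
                split_ifs <;> linarith
            _ = ∑ v ∈ S, (if E u v then (lazyP G k ^ t) (u : Ω) v else 0) :=
                Finset.sum_coe_sort S (fun v => if E u v then (lazyP G k ^ t) (u : Ω) v else 0)
            _ ≤ ∑ v, (if E u v then (lazyP G k ^ t) (u : Ω) v else 0) := by
                apply Finset.sum_le_sum_of_subset_of_nonneg (Finset.subset_univ S)
                intro v _ _
                have := chS_aux_nonneg _ (chS_aux_lazy_nonneg G k) t (u : Ω) v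
                split_ifs <;> linarith
      _ = ∑ u ∈ S, ∑ v, (if E u v then (lazyP G k ^ t) u v else 0) :=
          Finset.sum_coe_sort S (fun u => ∑ v, (if E u v then (lazyP G k ^ t) u v else 0))
  linarith

/-- the chain moves far -/
theorem chS_energy {Ω : Type} [Fintype Ω] (G : SimpleGraph Ω) (hG : G.Connected) (k : ℕ) (hk : 3 ≤ k)
    (hreg : ∀ v, (G.neighborSet v).ncard = k) (S : Finset Ω) (t ρ : ℕ) (q : ℝ) (hq : 0 ≤ q)
    (hheat : ∀ x y, ((lazyP G k ^ t) x y)^2 ≤ q^2) (hqρ : (k:ℝ)^(ρ+1) * q ≤ 1/2)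
    (hS : (t : ℝ) * bdy G S ≤ (k/2 : ℝ) * S.card)
    {X : Type} [NormedAddCommGroup X] (f : Ω → X) (hf : ∀ u v, (G.dist u v : ℝ) ≤ ‖f u - f v‖) :
    (1/4 : ℝ) * S.card * (ρ+1)^2 ≤ En (chS G k S ^ t) (fun u : S => f u) := by
  have hk' : (3 : ℝ) ≤ k := by exact_mod_cast hk
  have hk0 : (0 : ℝ) < 2 * k := by linarith
  obtain ⟨hc0, hcs, hcr, _⟩ := chS_basic G k hk hreg S t
  obtain ⟨hl0, hls, hlr⟩ := lazyP_basic G k hk hreg t
  have hcomp := chS_compare G k hk hreg S t (fun u v => G.dist u v ≤ ρ)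
  have hq' : ∀ x y, (lazyP G k ^ t) x y ≤ q := by
    intro x y
    exact (pow_le_pow_iff_left₀ (hl0 x y) hq two_ne_zero).mp (hheat x y)
  have h1 : (t : ℝ) * bdy G S / (2*k) ≤ S.card / 4 := by
    rw [div_le_iff₀ hk0]
    nlinarith
  have h2 : ∑ u ∈ S, ∑ v, (if G.dist u v ≤ ρ then (lazyP G k ^ t) u v else 0) ≤ S.card / 2 := by
    calc ∑ u ∈ S, ∑ v, (if G.dist u v ≤ ρ then (lazyP G k ^ t) u v else 0)
        ≤ ∑ u ∈ S, (1 / 2 : ℝ) := by
          apply Finset.sum_le_sum
          intro u _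
          calc ∑ v, (if G.dist u v ≤ ρ then (lazyP G k ^ t) u v else 0)
              ≤ ∑ v, (if G.dist u v ≤ ρ then q else 0) := by
                apply Finset.sum_le_sum
                intro v _
                have := hq' u v
                split_ifs <;> linarith
            _ = ((univ.filter (fun y => G.dist u y ≤ ρ)).card : ℝ) * q := by
                rw [← Finset.sum_filter, Finset.sum_const, nsmul_eq_mul]
            _ ≤ (k : ℝ) ^ (ρ + 1) * q := by
                apply mul_le_mul_of_nonneg_right _ hq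
                exact_mod_cast ball_card G hG k hk hreg u ρ
            _ ≤ 1 / 2 := hqρ
      _ = S.card / 2 := by
          rw [Finset.sum_const, nsmul_eq_mul]; ring
  have h3 : ∑ u : S, ∑ v : S, (chS G k S ^ t) u v = S.card := by
    rw [Finset.sum_congr rfl (fun u _ => hcr u)]
    simp
  have hcomp' : ∑ u : S, ∑ v : S, (if G.dist u v ≤ ρ then (chS G k S ^ t) u v else 0) ≤
      S.card / 4 + S.card / 2 := by
    refine le_trans (le_of_eq ?_) (hcomp.trans (add_le_add h1 (le_trans (le_of_eq ?_) h2)))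
    · apply Finset.sum_congr rfl; intro u _
      apply Finset.sum_congr rfl; intro v _
      congr
    · apply Finset.sum_congr rfl; intro u _
      apply Finset.sum_congr rfl; intro v _
      congr
  have h4 : ((ρ : ℝ) + 1) ^ 2 * ∑ u : S, ∑ v : S, ((chS G k S ^ t) u v -
      (if G.dist u v ≤ ρ then (chS G k S ^ t) u v else 0)) ≤
      En (chS G k S ^ t) (fun u : S => f u) := by
    unfold En
    rw [Finset.mul_sum]
    apply Finset.sum_le_sum
    intro u _
    rw [Finset.mul_sum]
    apply Finset.sum_le_sum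
    intro v _
    have hc := hc0 u v
    split_ifs with hd
    · rw [sub_self, mul_zero]
      positivity
    · rw [sub_zero, mul_comm]
      apply mul_le_mul_of_nonneg_left _ hc
      apply pow_le_pow_left₀ (by positivity)
      have h5 := hf u v
      have h6 : (ρ : ℝ) + 1 ≤ G.dist (u : Ω) (v : Ω) := by
        have : ρ + 1 ≤ G.dist (u : Ω) (v : Ω) := by omega
        exact_mod_cast this
      linarith
  have h5 : ∑ u : S, ∑ v : S, ((chS G k S ^ t) u v -
      (if G.dist u v ≤ ρ then (chS G k S ^ t) u v else 0)) =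
      S.card - ∑ u : S, ∑ v : S, (if G.dist u v ≤ ρ then (chS G k S ^ t) u v else 0) := by
    simp only [Finset.sum_sub_distrib]
    rw [h3]
  rw [h5] at h4
  refine le_trans ?_ h4
  have h6 : (1 / 4 : ℝ) * S.card ≤ S.card -
      ∑ u : S, ∑ v : S, (if G.dist u v ≤ ρ then (chS G k S ^ t) u v else 0) := by linarith
  calc (1/4 : ℝ) * S.card * (ρ+1)^2 = (ρ+1)^2 * ((1/4 : ℝ) * S.card) := by ring
    _ ≤ _ := mul_le_mul_of_nonneg_left h6 (by positivity)

end Pool.Agent.SR871
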