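import Mathlib
import Pool.Agent.SR871.DefsD
set_option autoImplicit false
set_option maxHeartbeats 1000000
namespace Pool.Agent.SR871
open Finset Classical









theorem En_cube_eq {α : Type} [Fintype α] {X : Type} [NormedAddCommGroup X]
    (Q : Matrix α α ℝ) (F : α → X) :
    En (Q^3) F = ∑ u, ∑ a, ∑ b, ∑ v, Q u a * Q a b * Q b v * ‖F u - F v‖^2 := by
  unfold En
  refine Finset.sum_congr rfl fun u _ => ?_
  have h1 : ∀ v, (Q ^ 3) u v * ‖F u - F v‖ ^ 2 =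
      ∑ b, ∑ a, Q u a * Q a b * Q b v * ‖F u - F v‖ ^ 2 := by
    intro v
    rw [pow_succ, pow_two, Matrix.mul_apply, Finset.sum_mul]
    refine Finset.sum_congr rfl fun b _ => ?_
    rw [Matrix.mul_apply, Finset.sum_mul, Finset.sum_mul]
  rw [Finset.sum_congr rfl fun v _ => h1 v, Finset.sum_comm]
  have h2 : ∀ b : α, ∑ v, ∑ a, Q u a * Q a b * Q b v * ‖F u - F v‖ ^ 2 =
      ∑ a, ∑ v, Q u a * Q a b * Q b v * ‖F u - F v‖ ^ 2 := fun b => Finset.sum_comm
  rw [Finset.sum_congr rfl fun b _ => h2 b, Finset.sum_comm]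

theorem x975_nsq {X : Type} [NormedAddCommGroup X] (x y z w : X) :
    ‖x - w‖ ^ 2 ≤ 3 * (‖x - y‖ ^ 2 + ‖y - z‖ ^ 2 + ‖z - w‖ ^ 2) := by
  have h1 : ‖x - w‖ ≤ ‖x - y‖ + ‖y - z‖ + ‖z - w‖ := by
    have h : x - w = (x - y) + (y - z) + (z - w) := by abel
    rw [h]
    exact norm_add₃_le
  have h2 := norm_nonneg (x - w)
  have h3 : ‖x - w‖ ^ 2 ≤ (‖x - y‖ + ‖y - z‖ + ‖z - w‖) ^ 2 := by
    exact pow_le_pow_left₀ h2 h1 2
  nlinarith [sq_nonneg (‖x - y‖ - ‖y - z‖), sq_nonneg (‖y - z‖ - ‖z - w‖),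
    sq_nonneg (‖x - y‖ - ‖z - w‖)]

theorem En_cube_le {α : Type} [Fintype α] {X : Type} [NormedAddCommGroup X]
    (Q : Matrix α α ℝ) (F : α → X) (h0 : ∀ u v, 0 ≤ Q u v) (hs : ∀ u v, Q u v = Q v u)
    (h1 : ∀ u, ∑ v, Q u v = 1) : En (Q^3) F ≤ 9 * En Q F := by
  have h1' : ∀ v, ∑ u, Q u v = 1 := by
    intro v
    rw [← h1 v]
    exact Finset.sum_congr rfl fun u _ => hs u v
  rw [En_cube_eq]
  have hb : (∑ u, ∑ a, ∑ b, ∑ v, Q u a * Q a b * Q b v * ‖F u - F v‖^2) ≤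
      ∑ u, ∑ a, ∑ b, ∑ v, (3 * (Q u a * Q a b * Q b v * ‖F u - F a‖ ^ 2) +
        3 * (Q u a * Q a b * Q b v * ‖F a - F b‖ ^ 2) +
        3 * (Q u a * Q a b * Q b v * ‖F b - F v‖ ^ 2)) := by
    refine Finset.sum_le_sum fun u _ => Finset.sum_le_sum fun a _ => Finset.sum_le_sum fun b _ =>
      Finset.sum_le_sum fun v _ => ?_
    have hw : 0 ≤ Q u a * Q a b * Q b v := mul_nonneg (mul_nonneg (h0 _ _) (h0 _ _)) (h0 _ _)
    have := mul_le_mul_of_nonneg_left (x975_nsq (F u) (F a) (F b) (F v)) hw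
    calc _ ≤ _ := this
      _ = _ := by ring
  have e1 : (∑ u, ∑ a, ∑ b, ∑ v, Q u a * Q a b * Q b v * ‖F u - F a‖ ^ 2) = En Q F := by
    unfold En
    refine Finset.sum_congr rfl fun u _ => Finset.sum_congr rfl fun a _ => ?_
    have : ∀ b : α, ∑ v, Q u a * Q a b * Q b v * ‖F u - F a‖ ^ 2 =
        Q u a * ‖F u - F a‖ ^ 2 * Q a b := by
      intro b
      have : ∀ v, Q u a * Q a b * Q b v * ‖F u - F a‖ ^ 2 =
        (Q u a * ‖F u - F a‖ ^ 2 * Q a b) * Q b v := fun v => by ring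
      rw [Finset.sum_congr rfl fun v _ => this v, ← Finset.mul_sum, h1, mul_one]
    rw [Finset.sum_congr rfl fun b _ => this b, ← Finset.mul_sum, h1, mul_one]
  have e2 : (∑ u, ∑ a, ∑ b, ∑ v, Q u a * Q a b * Q b v * ‖F a - F b‖ ^ 2) = En Q F := by
    rw [Finset.sum_comm]
    unfold En
    refine Finset.sum_congr rfl fun a _ => ?_
    rw [Finset.sum_comm]
    refine Finset.sum_congr rfl fun b _ => ?_
    have : ∀ u : α, ∑ v, Q u a * Q a b * Q b v * ‖F a - F b‖ ^ 2 =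
        (Q a b * ‖F a - F b‖ ^ 2) * Q u a := by
      intro u
      have : ∀ v, Q u a * Q a b * Q b v * ‖F a - F b‖ ^ 2 =
        ((Q a b * ‖F a - F b‖ ^ 2) * Q u a) * Q b v := fun v => by ring
      rw [Finset.sum_congr rfl fun v _ => this v, ← Finset.mul_sum, h1, mul_one]
    rw [Finset.sum_congr rfl fun u _ => this u, ← Finset.mul_sum, h1', mul_one]
  have e3 : (∑ u, ∑ a, ∑ b, ∑ v, Q u a * Q a b * Q b v * ‖F b - F v‖ ^ 2) = En Q F := by
    have s1 : (∑ u, ∑ a, ∑ b, ∑ v, Q u a * Q a b * Q b v * ‖F b - F v‖ ^ 2) =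
        ∑ a, ∑ b, ∑ v, Q a b * (Q b v * ‖F b - F v‖ ^ 2) := by
      rw [Finset.sum_comm]
      refine Finset.sum_congr rfl fun a _ => ?_
      rw [Finset.sum_comm]
      refine Finset.sum_congr rfl fun b _ => ?_
      rw [Finset.sum_comm]
      refine Finset.sum_congr rfl fun v _ => ?_
      have : ∀ u, Q u a * Q a b * Q b v * ‖F b - F v‖ ^ 2 =
        (Q a b * (Q b v * ‖F b - F v‖ ^ 2)) * Q u a := fun u => by ring
      rw [Finset.sum_congr rfl fun u _ => this u, ← Finset.mul_sum, h1', mul_one]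
    rw [s1, Finset.sum_comm]
    unfold En
    refine Finset.sum_congr rfl fun b _ => ?_
    rw [Finset.sum_comm]
    refine Finset.sum_congr rfl fun v _ => ?_
    rw [← Finset.sum_mul, h1', one_mul]
  refine hb.trans (le_of_eq ?_)
  simp only [Finset.sum_add_distrib, ← Finset.mul_sum]
  rw [e1, e2, e3]
  ring

theorem x975_pow {α : Type} [Fintype α] (Q : Matrix α α ℝ) (h0 : ∀ u v, 0 ≤ Q u v)
    (hs : ∀ u v, Q u v = Q v u) (h1 : ∀ u, ∑ v, Q u v = 1) (n : ℕ) :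
    (∀ u v, 0 ≤ (Q ^ n) u v) ∧ (∀ u v, (Q ^ n) u v = (Q ^ n) v u) ∧ (∀ u, ∑ v, (Q ^ n) u v = 1) := by
  refine ⟨?_, ?_, ?_⟩
  · induction n with
    | zero =>
      intro u v
      rw [pow_zero, Matrix.one_apply]
      split_ifs <;> norm_num
    | succ n ih =>
      intro u v
      rw [pow_succ, Matrix.mul_apply]
      exact Finset.sum_nonneg fun a _ => mul_nonneg (ih _ _) (h0 _ _)
  · intro u v
    have hT : Q.transpose = Q := by
      ext a b
      exact hs b a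
    have : (Q ^ n).transpose = Q ^ n := by rw [Matrix.transpose_pow, hT]
    conv_lhs => rw [← this]
    rfl
  · induction n with
    | zero =>
      intro u
      simp [Matrix.one_apply]
    | succ n ih =>
      intro u
      have : ∀ v, (Q ^ (n + 1)) u v = ∑ a, (Q ^ n) u a * Q a v := by
        intro v
        rw [pow_succ, Matrix.mul_apply]
      rw [Finset.sum_congr rfl fun v _ => this v, Finset.sum_comm, ← ih u]
      refine Finset.sum_congr rfl fun a _ => ?_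
      rw [← Finset.mul_sum, h1, mul_one]

/-- pigeonhole over scales -/
theorem En_scale {α : Type} [Fintype α] {X : Type} [NormedAddCommGroup X]
    (Q : Matrix α α ℝ) (F : α → X) (h0 : ∀ u v, 0 ≤ Q u v) (hs : ∀ u v, Q u v = Q v u)
    (h1 : ∀ u, ∑ v, Q u v = 1) (J : ℕ) (hJ : 1 ≤ J) (ε : ℝ) (hε : 0 < ε) (hε1 : ε < 1)
    (hbig : (9 * (1 - ε))^J * En Q F < En (Q^(3^J)) F) :
    ∃ j < J, 0 < En (Q^(3^j)) F ∧ 9 * (1 - ε) * En (Q^(3^j)) F ≤ En ((Q^(3^j))^3) F := by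
  by_contra hcon
  push Not at hcon
  have hnn : ∀ j, 0 ≤ En (Q ^ (3 ^ j)) F := by
    intro j
    unfold En
    exact Finset.sum_nonneg fun u _ => Finset.sum_nonneg fun v _ =>
      mul_nonneg ((x975_pow Q h0 hs h1 (3 ^ j)).1 u v) (sq_nonneg _)
  have hstep : ∀ j < J, En (Q ^ (3 ^ (j + 1))) F ≤ 9 * (1 - ε) * En (Q ^ (3 ^ j)) F := by
    intro j hj
    have e : Q ^ (3 ^ (j + 1)) = (Q ^ (3 ^ j)) ^ 3 := by rw [← pow_mul, pow_succ]
    rw [e]
    rcases (hnn j).lt_or_eq with h | h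
    · exact (hcon j hj h).le
    · obtain ⟨p0, p1, p2⟩ := x975_pow Q h0 hs h1 (3 ^ j)
      have := En_cube_le (Q ^ (3 ^ j)) F p0 p1 p2
      rw [← h] at this ⊢
      simpa using this
  have hall : ∀ j ≤ J, En (Q ^ (3 ^ j)) F ≤ (9 * (1 - ε)) ^ j * En Q F := by
    intro j
    induction j with
    | zero => intro _; simp
    | succ j ih =>
      intro hj
      have h2 := ih (by omega)
      have h3 := hstep j (by omega)
      have h4 : 0 ≤ 9 * (1 - ε) := by linarith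
      calc En (Q ^ (3 ^ (j + 1))) F ≤ 9 * (1 - ε) * En (Q ^ (3 ^ j)) F := h3
        _ ≤ 9 * (1 - ε) * ((9 * (1 - ε)) ^ j * En Q F) := mul_le_mul_of_nonneg_left h2 h4
        _ = _ := by rw [pow_succ]; ring
  exact absurd (hall J le_rfl) (not_le.mpr hbig)

end Pool.Agent.SR871
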