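import Mathlib
import Pool.Agent.SR871.D1
import Pool.Agent.SR871.D3
import Pool.Agent.SR871.D4
import Pool.Agent.SR871.D5
set_option autoImplicit false
set_option maxHeartbeats 1000000
namespace Pool.Agent.SR871
open Finset Classical











/- TO PROVE -/



/-- extremal set: a nonempty set of minimal size with `|∂S| ≤ 3^(-lam|S|-1) |S|` -/
theorem exists_minimal {Ω : Type} [Fintype Ω] [Nonempty Ω] (G : SimpleGraph Ω) (k : ℕ) (hk : 3 ≤ k)
    (hreg : ∀ v, (G.neighborSet v).ncard = k) :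
    ∃ S : Finset Ω, S.Nonempty ∧ (bdy G S : ℝ) * 3^(lam S.card + 1) ≤ S.card ∧
      G.egirth ≤ (S.card : ℕ∞) ∧
      ∀ A : Finset Ω, A.Nonempty → A.card < S.card → (A.card : ℝ) ≤ (bdy G A : ℝ) * 3^(lam A.card + 1) := by
  classical
  have hu : (univ : Finset Ω).Nonempty ∧
      (bdy G univ : ℝ) * 3^(lam (univ : Finset Ω).card + 1) ≤ (univ : Finset Ω).card := by
    refine ⟨univ_nonempty, ?_⟩
    have h0 : bdy G univ = 0 := by simp [bdy]
    rw [h0]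
    simp
  obtain ⟨S, hS, hmin⟩ := Finset.exists_min_image
    ((univ : Finset (Finset Ω)).filter (fun S => S.Nonempty ∧
      (bdy G S : ℝ) * 3^(lam S.card + 1) ≤ S.card)) (fun S => S.card)
    ⟨univ, by simpa using hu⟩
  rw [mem_filter] at hS
  obtain ⟨-, hne, hb⟩ := hS
  refine ⟨S, hne, hb, ?_, ?_⟩
  · by_contra hc
    rw [not_le] at hc
    have h1 := small_expand G k hk hreg S hc
    have h2 : (S.card : ℝ) ≤ bdy G S := by exact_mod_cast h1
    have h3 : (3 : ℝ) ≤ 3^(lam S.card + 1) := by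
      rw [pow_succ]
      have : (1 : ℝ) ≤ 3 ^ lam S.card := one_le_pow₀ (by norm_num)
      linarith
    have h4 : (0 : ℝ) ≤ bdy G S := Nat.cast_nonneg _
    have h5 : (0 : ℝ) < S.card := by exact_mod_cast hne.card_pos
    nlinarith
  · intro A hA hlt
    by_contra hc
    rw [not_le] at hc
    have h1 := hmin A (by
      rw [mem_filter]
      exact ⟨mem_univ _, hA, hc.le⟩)
    omega

theorem lam_upper (s : ℕ) : s < 2^(2^((lam s + 1)^2)) := by
  have h1 : Nat.log 2 (Nat.log 2 s) < (lam s + 1)^2 := by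
    have := Nat.lt_succ_sqrt (Nat.log 2 (Nat.log 2 s))
    unfold lam
    rw [sq]
    exact this
  have h2 : Nat.log 2 s < 2^(Nat.log 2 (Nat.log 2 s) + 1) := Nat.lt_pow_succ_log_self (by norm_num) _
  have h3 : s < 2^(Nat.log 2 s + 1) := Nat.lt_pow_succ_log_self (by norm_num) _
  refine h3.trans_le (Nat.pow_le_pow_right (by norm_num) ?_)
  exact (Nat.succ_le_of_lt h2).trans (Nat.pow_le_pow_right (by norm_num) h1)

theorem lam_lower (s : ℕ) (h : 1 ≤ lam s) : 2^(2^((lam s)^2)) ≤ s := by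
  have h1 : (lam s)^2 ≤ Nat.log 2 (Nat.log 2 s) := Nat.sqrt_le' _
  have hL : 1 ≤ Nat.log 2 (Nat.log 2 s) := by nlinarith
  have h2 : Nat.log 2 s ≠ 0 := by
    intro h0
    rw [h0] at hL
    simp at hL
  have h3 : s ≠ 0 := by
    intro h0
    rw [h0] at h2
    simp at h2
  have h4 : 2^(Nat.log 2 (Nat.log 2 s)) ≤ Nat.log 2 s := Nat.pow_log_le_self 2 h2
  have h5 : 2^(Nat.log 2 s) ≤ s := Nat.pow_log_le_self 2 h3
  refine le_trans (Nat.pow_le_pow_right (by norm_num) ?_) h5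
  exact (Nat.pow_le_pow_right (by norm_num) h1).trans h4

theorem lam_large (J s : ℕ) (h : 2^(2^(J^2)) ≤ s) : J ≤ lam s := by
  have h1 : 2^(J^2) ≤ Nat.log 2 s := Nat.le_log_of_pow_le (by norm_num) h
  have h2 : J^2 ≤ Nat.log 2 (Nat.log 2 s) := Nat.le_log_of_pow_le (by norm_num) h1
  unfold lam
  rw [Nat.le_sqrt']
  exact h2

theorem lam_small (s m : ℕ) (h : s ≤ 2^(2^m)) : lam s ≤ Nat.sqrt m := by
  have h1 : Nat.log 2 s ≤ 2^m := by
    have := Nat.log_mono_right (b := 2) h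
    rwa [Nat.log_pow (by norm_num)] at this
  have h2 : Nat.log 2 (Nat.log 2 s) ≤ m := by
    have := Nat.log_mono_right (b := 2) h1
    rwa [Nat.log_pow (by norm_num)] at this
  exact Nat.sqrt_le_sqrt h2

theorem kpow_le (k J : ℕ) : k^(3^J+1) ≤ 2^(2^(2*J+k+1)) := by
  have h1 : k ≤ 2^k := Nat.lt_two_pow_self.le
  calc k^(3^J+1) ≤ (2^k)^(3^J+1) := Nat.pow_le_pow_left h1 _
    _ = 2^(k*(3^J+1)) := by rw [pow_mul]
    _ ≤ 2^(2^(2*J+k+1)) := by
        refine Nat.pow_le_pow_right (by norm_num) ?_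
        have h2 : 3^J + 1 ≤ 2^(2*J+1) := by
          have h3 : 3^J ≤ 4^J := Nat.pow_le_pow_left (by norm_num) _
          have h4 : 1 ≤ 4^J := Nat.one_le_pow _ _ (by norm_num)
          have h5 : (2:ℕ)^(2*J+1) = 2 * 4^J := by
            rw [pow_succ, pow_mul]; norm_num; ring
          omega
        calc k*(3^J+1) ≤ 2^k * 2^(2*J+1) := Nat.mul_le_mul h1 h2
          _ = 2^(2*J+k+1) := by rw [← pow_add]; congr 1; ring

theorem twok_le (k J : ℕ) (hk : 3 ≤ k) : (2*k)^(3^J) ≤ 2^(2^(2*J+k+1)) := by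
  have h1 : k ≤ 2^k := Nat.lt_two_pow_self.le
  have h0 : 2*k ≤ 2^k := by
    obtain ⟨m, rfl⟩ := Nat.exists_eq_add_of_le hk
    induction m with
    | zero => norm_num
    | succ m ih =>
      have h2 := ih (by omega) Nat.lt_two_pow_self.le
      have h3 : (2:ℕ)^(3 + (m+1)) = 2 * 2^(3+m) := by rw [← add_assoc, pow_succ]; ring
      rw [h3]
      omega
  calc (2*k)^(3^J) ≤ (2^k)^(3^J) := Nat.pow_le_pow_left h0 _
    _ = 2^(k*3^J) := by rw [pow_mul]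
    _ ≤ 2^(2^(2*J+k+1)) := by
        refine Nat.pow_le_pow_right (by norm_num) ?_
        have h3 : 3^J ≤ 4^J := Nat.pow_le_pow_left (by norm_num) _
        have h5 : (2:ℕ)^(2*J+k+1) = 2^k * 4^J * 2 := by
          rw [show 2*J+k+1 = k + 2*J + 1 by ring, pow_succ, pow_add, pow_mul]; norm_num
        rw [h5]
        have h6 := Nat.mul_le_mul h1 h3
        omega

theorem big_pow (k J : ℕ) (hJ : 12*k+24 ≤ J) :
    32*k^3 * 9^(Nat.sqrt (2*J+k+1) + 1) ≤ 3^J := by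
  set r := Nat.sqrt (2*J+k+1) with hr
  have h1 : r^2 ≤ 2*J+k+1 := Nat.sqrt_le' _
  have h2 : 2*r + 6 + 3*k ≤ J := by
    obtain ⟨x, rfl⟩ := Nat.exists_eq_add_of_le hJ
    by_contra hc
    push Not at hc
    have h3 : 9*k+19+x ≤ 2*r := by omega
    have h4 : (9*k+19+x)^2 ≤ (2*r)^2 := Nat.pow_le_pow_left h3 2
    nlinarith
  have h3 : k ≤ 3^k := (Nat.lt_pow_self (by norm_num)).le
  calc 32*k^3 * 9^(r+1) ≤ 3^4 * (3^k)^3 * (3^2)^(r+1) := by
        refine Nat.mul_le_mul (Nat.mul_le_mul (by norm_num) (Nat.pow_le_pow_left h3 3)) ?_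
        norm_num
    _ = 3^(2*r+6+3*k) := by
        rw [← pow_mul, ← pow_mul, ← pow_add, ← pow_add]; congr 1; ring
    _ ≤ 3^J := Nat.pow_le_pow_right (by norm_num) h2

theorem sq_big (k J : ℕ) (hJ : 12*k+24 ≤ J) : 2*J+k+1 < J^2 := by
  nlinarith

theorem chS_basic' {Ω : Type} [Fintype Ω] (G : SimpleGraph Ω) (k : ℕ) (hk : 3 ≤ k)
    (hreg : ∀ v, (G.neighborSet v).ncard = k) (S : Finset Ω) [i : DecidableEq S] (t : ℕ) :
    (∀ u v, 0 ≤ (chS G k S ^ t) u v) ∧ (∀ u v, (chS G k S ^ t) u v = (chS G k S ^ t) v u) ∧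
    (∀ u, ∑ v, (chS G k S ^ t) u v = 1) ∧
    (∀ u v, (chS G k S ^ t) u v ≠ 0 → (1/(2*k : ℝ))^t ≤ (chS G k S ^ t) u v) := by
  convert chS_basic G k hk hreg S t

theorem En_scale' {α : Type} [Fintype α] [i : DecidableEq α] {X : Type} [NormedAddCommGroup X]
    (Q : Matrix α α ℝ) (F : α → X) (h0 : ∀ u v, 0 ≤ Q u v) (hs : ∀ u v, Q u v = Q v u)
    (h1 : ∀ u, ∑ v, Q u v = 1) (J : ℕ) (hJ : 1 ≤ J) (ε : ℝ) (hε : 0 < ε) (hε1 : ε < 1)
    (hbig : (9 * (1 - ε))^J * En Q F < En (Q^(3^J)) F) :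
    ∃ j < J, 0 < En (Q^(3^j)) F ∧ 9 * (1 - ε) * En (Q^(3^j)) F ≤ En ((Q^(3^j))^3) F := by
  have e : i = (fun a b => Classical.propDecidable (a = b)) := Subsingleton.elim _ _
  subst e
  exact En_scale Q F h0 hs h1 J hJ ε hε hε1 hbig

theorem En_cube_eq' {α : Type} [Fintype α] [i : DecidableEq α] {X : Type} [NormedAddCommGroup X]
    (Q : Matrix α α ℝ) (F : α → X) :
    En (Q^3) F = ∑ u, ∑ a, ∑ b, ∑ v, Q u a * Q a b * Q b v * ‖F u - F v‖^2 := by
  have e : i = (fun a b => Classical.propDecidable (a = b)) := Subsingleton.elim _ _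
  subst e
  exact En_cube_eq Q F

theorem energy_one {Ω : Type} [Fintype Ω] (G : SimpleGraph Ω) (k : ℕ)
    (S : Finset Ω) (C : ℝ)
    {X : Type} [NormedAddCommGroup X] (f : Ω → X)
    (hf : ∀ u v, ‖f u - f v‖ ≤ C * G.dist u v)
    (h0 : ∀ u v : S, 0 ≤ chS G k S u v) (h1 : ∀ u : S, ∑ v, chS G k S u v = 1) :
    En (chS G k S) (fun u : S => f u) ≤ S.card * C^2 := by
  unfold En
  have hterm : ∀ u v : S, chS G k S u v * ‖f u - f v‖^2 ≤ chS G k S u v * C^2 := by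
    intro u v
    by_cases huv : u = v
    · subst huv
      rw [sub_self, norm_zero]
      have := mul_nonneg (h0 u u) (sq_nonneg C)
      simpa using this
    · by_cases hadj : G.Adj u v
      · refine mul_le_mul_of_nonneg_left ?_ (h0 u v)
        refine pow_le_pow_left₀ (norm_nonneg _) ?_ 2
        have h2 := hf u v
        rw [SimpleGraph.dist_eq_one_iff_adj.2 hadj] at h2
        simpa using h2
      · have : chS G k S u v = 0 := by
          unfold chS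
          rw [if_neg huv, if_neg hadj]
        rw [this, zero_mul, zero_mul]
  calc ∑ u : S, ∑ v : S, chS G k S u v * ‖f u - f v‖^2
      ≤ ∑ u : S, ∑ v : S, chS G k S u v * C^2 :=
        Finset.sum_le_sum fun u _ => Finset.sum_le_sum fun v _ => hterm u v
    _ = ∑ u : S, C^2 := by
        refine Finset.sum_congr rfl fun u _ => ?_
        rw [← Finset.sum_mul, h1 u, one_mul]
    _ = S.card * C^2 := by
        rw [Finset.sum_const, Finset.card_univ, Fintype.card_coe, nsmul_eq_mul]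

theorem chS_one {Ω : Type} [Fintype Ω] (G : SimpleGraph Ω) (k : ℕ) (hk : 3 ≤ k)
    (hreg : ∀ v, (G.neighborSet v).ncard = k) (S : Finset Ω) :
    (∀ u v : S, 0 ≤ chS G k S u v) ∧ (∀ u v : S, chS G k S u v = chS G k S v u) ∧
      ∀ u : S, ∑ v, chS G k S u v = 1 := by
  have h := chS_basic G k hk hreg S 1
  have e : chS G k S ^ 1 = chS G k S := pow_one _
  rw [e] at h
  exact ⟨h.1, h.2.1, h.2.2.1⟩

theorem expo_bound (k J : ℕ) (hk : 3 ≤ k) (C : ℝ) (hC : 1 ≤ C) (hJpos : 1 ≤ J) :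
    C^2 * Real.exp (-((Real.log (4096 * C^2 * (k:ℝ)^6) + 4 * Real.log 3 * (Real.sqrt (k+3) + 1) + 1)
      * Real.sqrt J)) < ((1 / 3^(Nat.sqrt (2*J+k+1)+1))^2/(4*k^2))^2/(256*(k:ℝ)^2) := by
  have hkR : (3:ℝ) ≤ k := by exact_mod_cast hk
  have hk0 : (0:ℝ) < k := by linarith
  set a : ℝ := Real.log (4096 * C^2 * (k:ℝ)^6) with ha
  have hC2 : (1:ℝ) ≤ C^2 := one_le_pow₀ hC
  have hk6 : (1:ℝ) ≤ (k:ℝ)^6 := one_le_pow₀ (by linarith)
  have ha0 : 0 ≤ a := Real.log_nonneg (by nlinarith)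
  set b : ℝ := Real.sqrt (k+3) with hb
  have hb0 : 0 ≤ b := Real.sqrt_nonneg _
  have hlog3 : 0 < Real.log 3 := Real.log_pos (by norm_num)
  set r := Nat.sqrt (2*J+k+1) with hr
  have hJ1 : (1:ℝ) ≤ J := by exact_mod_cast hJpos
  have hsqJ1 : 1 ≤ Real.sqrt J := by rw [Real.one_le_sqrt]; exact hJ1
  have hkey : a + 4 * ((r:ℝ)+1) * Real.log 3 < (a + 4 * Real.log 3 * (b + 1) + 1) * Real.sqrt J := by
    have h1 : (r:ℝ) ≤ b * Real.sqrt J := by
      have h2 : (r:ℝ) ≤ Real.sqrt ((2*J+k+1 : ℕ) : ℝ) := Real.nat_sqrt_le_real_sqrt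
      refine h2.trans ?_
      rw [hb, ← Real.sqrt_mul (by positivity)]
      refine Real.sqrt_le_sqrt ?_
      push_cast
      nlinarith
    have h3 : a * 1 ≤ a * Real.sqrt J := mul_le_mul_of_nonneg_left hsqJ1 ha0
    have h4 : 4 * ((r:ℝ)+1) * Real.log 3 ≤ 4 * (b * Real.sqrt J + Real.sqrt J) * Real.log 3 := by
      refine mul_le_mul_of_nonneg_right ?_ hlog3.le
      linarith
    have h5 : (a + 4 * Real.log 3 * (b + 1) + 1) * Real.sqrt J = a * Real.sqrt J +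
        4 * (b * Real.sqrt J + Real.sqrt J) * Real.log 3 + Real.sqrt J := by
      ring
    linarith
  have h1 : Real.exp a = 4096 * C^2 * (k:ℝ)^6 := by
    rw [ha, Real.exp_log (by positivity)]
  have h2 : (1 / (3:ℝ)^(r+1))^4 = Real.exp (-(4 * ((r:ℝ)+1) * Real.log 3)) := by
    rw [one_div, inv_pow, ← pow_mul, Real.exp_neg]
    congr 1
    have : 4 * ((r:ℝ)+1) * Real.log 3 = (((r+1)*4 : ℕ) : ℝ) * Real.log 3 := by
      push_cast; ring
    rw [this, Real.exp_nat_mul, Real.exp_log (by norm_num)]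
  have h3 : ((1 / (3:ℝ)^(r+1))^2/(4*k^2))^2/(256*(k:ℝ)^2) =
      (1 / (3:ℝ)^(r+1))^4 / (4096 * (k:ℝ)^6) := by
    generalize (1 / (3:ℝ)^(r+1)) = φ
    field_simp
    ring
  rw [h3, lt_div_iff₀ (by positivity), h2]
  calc C^2 * Real.exp (-((a + 4 * Real.log 3 * (b + 1) + 1) * Real.sqrt J)) * (4096 * (k:ℝ)^6)
      = Real.exp a * Real.exp (-((a + 4 * Real.log 3 * (b + 1) + 1) * Real.sqrt J)) := by
        rw [h1]; ring
    _ = Real.exp (a - (a + 4 * Real.log 3 * (b + 1) + 1) * Real.sqrt J) := by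
        rw [← Real.exp_add]; congr 1
    _ < Real.exp (-(4 * ((r:ℝ)+1) * Real.log 3)) := by
        rw [Real.exp_lt_exp]; linarith

theorem radius (k : ℕ) (hk : 3 ≤ k) (κ t q : ℝ) (hκ0 : 0 < κ) (ht0 : 0 < t) (hq0 : 0 ≤ q)
    (hqe : q ≤ Real.exp (-(κ*t/2))) (hκt : 8 * k ≤ κ * t) :
    ∃ ρ : ℕ, κ*t/(8*k) ≤ (ρ:ℝ)+1 ∧ (k:ℝ)^(ρ+1) * q ≤ 1/2 := by
  have hkR : (3:ℝ) ≤ k := by exact_mod_cast hk
  have hk0 : (0:ℝ) < k := by linarith
  have hfl : 2 ≤ κ*t/(4*k) := by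
    rw [le_div_iff₀ (by positivity)]
    linarith
  have hfl1 : 1 ≤ ⌊κ*t/(4*k)⌋₊ := by
    rw [Nat.one_le_floor_iff]
    linarith
  refine ⟨⌊κ*t/(4*k)⌋₊ - 1, ?_⟩
  set ρ : ℕ := ⌊κ*t/(4*k)⌋₊ - 1 with hρ
  have hρ1 : ((ρ:ℝ)+1) = (⌊κ*t/(4*k)⌋₊ : ℝ) := by
    have : ρ + 1 = ⌊κ*t/(4*k)⌋₊ := by omega
    rw [← this]; push_cast; ring
  have hρle : ((ρ:ℝ)+1) ≤ κ*t/(4*k) := by
    rw [hρ1]
    exact Nat.floor_le (by positivity)
  constructor
  · rw [hρ1]
    have h1 := Nat.lt_floor_add_one (κ*t/(4*k))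
    have h2 : κ*t/(8*k) = κ*t/(4*k)/2 := by field_simp; ring
    rw [h2]
    linarith
  · have h1 : (k:ℝ)^(ρ+1) ≤ Real.exp (κ*t/4) := by
      have h2 : (k:ℝ) ≤ Real.exp k := by
        have := Real.add_one_le_exp (k:ℝ)
        linarith
      calc (k:ℝ)^(ρ+1) ≤ (Real.exp k)^(ρ+1) := pow_le_pow_left₀ hk0.le h2 _
        _ = Real.exp (((ρ+1 : ℕ):ℝ) * k) := by rw [← Real.exp_nat_mul]
        _ ≤ Real.exp (κ*t/4) := by
          rw [Real.exp_le_exp]
          push_cast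
          have := mul_le_mul_of_nonneg_right hρle hk0.le
          have h3 : κ*t/(4*k)*k = κ*t/4 := by field_simp
          linarith
    calc (k:ℝ)^(ρ+1) * q ≤ Real.exp (κ*t/4) * Real.exp (-(κ*t/2)) :=
          mul_le_mul h1 hqe hq0 (Real.exp_pos _).le
      _ = Real.exp (-(κ*t/4)) := by rw [← Real.exp_add]; congr 1; ring
      _ ≤ Real.exp (-1) := by
          rw [Real.exp_le_exp]
          linarith
      _ ≤ 1/2 := by
          rw [Real.exp_neg, one_div]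
          refine inv_anti₀ (by norm_num) ?_
          have := Real.add_one_le_exp (1:ℝ)
          linarith

theorem q_bound (κ : ℝ) (hκ1 : κ ≤ 1) (J : ℕ) :
    Real.sqrt ((1-κ)^(3^J)) ≤ Real.exp (-(κ*(3:ℝ)^J/2)) := by
  rw [Real.sqrt_le_left (Real.exp_pos _).le, ← Real.exp_nat_mul]
  have h1 : 1 - κ ≤ Real.exp (-κ) := by
    have := Real.add_one_le_exp (-κ)
    linarith
  calc (1-κ)^(3^J) ≤ (Real.exp (-κ))^(3^J) := pow_le_pow_left₀ (by linarith) h1 _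
    _ = Real.exp (((3^J : ℕ) : ℝ) * (-κ)) := by rw [← Real.exp_nat_mul]
    _ = Real.exp (((2:ℕ):ℝ) * (-(κ*(3:ℝ)^J/2))) := by congr 1; push_cast; ring
    _ ≤ _ := le_rfl

theorem kt_bound (k J : ℕ) (hk : 3 ≤ k) (hJk : 12*k+24 ≤ J) :
    8 * (k:ℝ) ≤ (1 / (3:ℝ)^(Nat.sqrt (2*J+k+1)+1))^2/(4*k^2) * 3^J := by
  have hk0 : (0:ℝ) < k := by exact_mod_cast (by omega : 0 < k)
  set r := Nat.sqrt (2*J+k+1) with hr
  have h1 : (32 * (k:ℝ)^3 * 9^(r+1)) ≤ 3^J := by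
    exact_mod_cast big_pow k J hJk
  have h2 : (1 / (3:ℝ)^(r+1))^2 = 1/9^(r+1) := by
    rw [div_pow, one_pow, ← pow_mul, mul_comm (r+1) 2, pow_mul]; norm_num
  rw [h2]
  have h9 : (0:ℝ) < 9^(r+1) := by positivity
  rw [div_div, div_mul_eq_mul_div, le_div_iff₀ (by positivity)]
  nlinarith

theorem eps_pow (c : ℝ) (J : ℕ) (hJ : 1 ≤ J) (h1 : c / Real.sqrt J < 1) :
    (1 - c / Real.sqrt J)^J ≤ Real.exp (-(c * Real.sqrt J)) := by
  have hJR : (0:ℝ) < J := by exact_mod_cast hJ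
  have hsqJ : 0 < Real.sqrt J := Real.sqrt_pos.2 hJR
  set ε := c / Real.sqrt J with hε
  have h2 : 1 - ε ≤ Real.exp (-ε) := by
    have := Real.add_one_le_exp (-ε)
    linarith
  calc (1-ε)^J ≤ (Real.exp (-ε))^J := pow_le_pow_left₀ (by linarith) h2 _
    _ = Real.exp ((J:ℝ) * (-ε)) := by rw [← Real.exp_nat_mul]
    _ = Real.exp (-(c * Real.sqrt J)) := by
        congr 1
        have h3 : (J:ℝ) = Real.sqrt J * Real.sqrt J := (Real.mul_self_sqrt hJR.le).symm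
        have h4 : (J:ℝ) * ε = c * Real.sqrt J := by
          rw [hε, mul_div_assoc', div_eq_iff hsqJ.ne']
          nth_rewrite 1 [h3]
          ring
        linarith

theorem main_ineq (J : ℕ) (s C κ t k ρ ε E : ℝ) (c : ℝ) (hs0 : 0 < s) (hk0 : 0 < k) (hκ0 : 0 < κ)
    (ht0 : 0 < t) (ht : t = 3^J) (hε1 : ε < 1) (hεJ : (1-ε)^J ≤ Real.exp (-c))
    (hE : E ≤ s * C^2) (hρge : κ*t/(8*k) ≤ ρ+1)
    (hexpo : C^2 * Real.exp (-c) < κ^2/(256*k^2)) :
    (9 * (1 - ε))^J * E < (1/4 : ℝ) * s * (ρ+1)^2 := by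
  have h1 : (κ*t/(8*k))^2 ≤ (ρ+1)^2 := pow_le_pow_left₀ (by positivity) hρge 2
  have h2 : t^2 = 9^J := by rw [ht, ← pow_mul, mul_comm, pow_mul]; norm_num
  have h3 : (κ*t/(8*k))^2 = 9^J * (κ^2/(64*k^2)) := by
    rw [div_pow, mul_pow, h2]; field_simp; ring
  have h9 : (0:ℝ) < 9^J := by positivity
  calc (9 * (1 - ε))^J * E
      ≤ (9 * (1 - ε))^J * (s * C^2) :=
        mul_le_mul_of_nonneg_left hE (pow_nonneg (by linarith) _)
    _ = 9^J * s * (C^2 * (1-ε)^J) := by rw [mul_pow]; ring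
    _ ≤ 9^J * s * (C^2 * Real.exp (-c)) := by
        refine mul_le_mul_of_nonneg_left ?_ (by positivity)
        exact mul_le_mul_of_nonneg_left hεJ (sq_nonneg C)
    _ < 9^J * s * (κ^2/(256*k^2)) := by
        exact mul_lt_mul_of_pos_left hexpo (by positivity)
    _ = (1/4 : ℝ) * s * (9^J * (κ^2/(64*k^2))) := by field_simp; ring
    _ ≤ (1/4 : ℝ) * s * (ρ+1)^2 := by
        rw [← h3]
        exact mul_le_mul_of_nonneg_left h1 (by positivity)

theorem transport {α : Type} [Fintype α] [DecidableEq α] {X : Type} [NormedAddCommGroup X] (s : ℕ)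
    (e : Fin s ≃ α) (Q : Matrix α α ℝ) (F : α → X) (w : ℝ)
    (hpos : 0 < En Q F) (hineq : w * En Q F ≤ En (Q^3) F) :
    0 < ∑ u : Fin s, ∑ v : Fin s, Q (e u) (e v) * ‖F (e u) - F (e v)‖^2 ∧
    w * ∑ u : Fin s, ∑ v : Fin s, Q (e u) (e v) * ‖F (e u) - F (e v)‖^2 ≤
      ∑ u : Fin s, ∑ a : Fin s, ∑ b : Fin s, ∑ v : Fin s,
        Q (e u) (e a) * Q (e a) (e b) * Q (e b) (e v) * ‖F (e u) - F (e v)‖^2 := by
  have hsum1 : ∀ g : α → ℝ, ∑ v : Fin s, g (e v) = ∑ v : α, g v := fun g => Equiv.sum_comp e g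
  have h1 : ∑ u : Fin s, ∑ v : Fin s, Q (e u) (e v) * ‖F (e u) - F (e v)‖^2 = En Q F := by
    unfold En
    rw [← hsum1]
    refine Finset.sum_congr rfl fun u _ => ?_
    rw [← hsum1]
  have h2 : ∑ u : Fin s, ∑ a : Fin s, ∑ b : Fin s, ∑ v : Fin s,
        Q (e u) (e a) * Q (e a) (e b) * Q (e b) (e v) * ‖F (e u) - F (e v)‖^2 = En (Q^3) F := by
    rw [En_cube_eq', ← hsum1]
    refine Finset.sum_congr rfl fun u _ => ?_
    rw [← hsum1]
    refine Finset.sum_congr rfl fun a' _ => ?_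
    rw [← hsum1]
    refine Finset.sum_congr rfl fun b' _ => ?_
    rw [← hsum1]
  rw [h1, h2]
  exact ⟨hpos, hineq⟩

theorem walk_main (k : ℕ) (hk : 3 ≤ k) (C : ℝ) (hC : 1 ≤ C) : ∃ c : ℝ, 0 < c ∧
    ∀ J₀ : ℕ, ∃ M : ℕ, ∀ (n : ℕ) (G : SimpleGraph (Fin n)), G.Connected →
      (∀ v, (G.neighborSet v).ncard = k) → (M : ℕ∞) < G.egirth →
      ∀ (X : Type) [NormedAddCommGroup X] (f : Fin n → X),
      (∀ u v, (G.dist u v : ℝ) ≤ ‖f u - f v‖ ∧ ‖f u - f v‖ ≤ C * G.dist u v) →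
      ∃ (J s : ℕ) (K : Fin s → Fin s → ℝ) (ι : Fin s → Fin n), J₀ ≤ J ∧
        s ≤ 2^(2^((J+1)^2)) ∧ (∀ u v, K u v = K v u) ∧ (∀ u v, 0 ≤ K u v) ∧
        (∀ u, ∑ v, K u v = 1) ∧ (∀ u v, K u v ≠ 0 → 1 ≤ s * K u v) ∧
        0 < ∑ u, ∑ v, K u v * ‖f (ι u) - f (ι v)‖^2 ∧
        9 * (1 - c / Real.sqrt J) * ∑ u, ∑ v, K u v * ‖f (ι u) - f (ι v)‖^2 ≤
          ∑ u, ∑ a, ∑ b, ∑ v, K u a * K a b * K b v * ‖f (ι u) - f (ι v)‖^2 := by
  have hkR : (3:ℝ) ≤ k := by exact_mod_cast hk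
  have hk0 : (0:ℝ) < k := by linarith
  set c : ℝ := Real.log (4096 * C^2 * (k:ℝ)^6) + 4 * Real.log 3 * (Real.sqrt (k+3) + 1) + 1 with hc
  have hc0 : 0 < c := by
    have h1 : (1:ℝ) ≤ C^2 := one_le_pow₀ hC
    have h2 : (1:ℝ) ≤ (k:ℝ)^6 := one_le_pow₀ (by linarith)
    have h3 : 0 ≤ Real.log (4096 * C^2 * (k:ℝ)^6) := Real.log_nonneg (by nlinarith)
    have h4 : 0 < Real.log 3 := Real.log_pos (by norm_num)
    positivity
  refine ⟨c, hc0, ?_⟩
  intro J₀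
  obtain ⟨Jc, hJc⟩ := exists_nat_gt (c^2)
  set J1 : ℕ := max J₀ (max (12*k+24) Jc) with hJ1
  refine ⟨2^(2^(J1^2)), ?_⟩
  intro n G hG hreg hgirth X _ f hf
  have : Nonempty (Fin n) := hG.nonempty
  obtain ⟨S, hSne, hSb, hSg, hSmin⟩ := exists_minimal G k hk hreg
  have hsM : 2^(2^(J1^2)) < S.card := by
    have := lt_of_lt_of_le hgirth hSg
    exact_mod_cast this
  set s := S.card with hs
  set J := lam s with hJ
  have hJ1J : J1 ≤ J := lam_large J1 s hsM.le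
  have hJ0 : J₀ ≤ J := (le_max_left _ _).trans hJ1J
  have hJk : 12*k+24 ≤ J := ((le_max_left _ _).trans (le_max_right _ _)).trans hJ1J
  have hJcJ : Jc ≤ J := ((le_max_right _ _).trans (le_max_right _ _)).trans hJ1J
  have hJpos : 1 ≤ J := by omega
  have hslow : 2^(2^(J^2)) ≤ s := lam_lower s hJpos
  have hsup : s ≤ 2^(2^((J+1)^2)) := (lam_upper s).le
  have hJR : (0:ℝ) < J := by exact_mod_cast hJpos
  have hsqJ : 0 < Real.sqrt J := Real.sqrt_pos.2 hJR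
  -- the number phi0
  set φ₀ : ℝ := 1 / 3^(Nat.sqrt (2*J+k+1)+1) with hφ₀
  have hφ0 : 0 < φ₀ := by positivity
  have hφ1 : φ₀ ≤ 1 := by
    rw [hφ₀, div_le_one (by positivity)]
    exact one_le_pow₀ (by norm_num)
  have hkJs : k^(3^J+1) < s := by
    refine lt_of_lt_of_le ?_ hslow
    refine lt_of_le_of_lt (kpow_le k J) ?_
    exact Nat.pow_lt_pow_right (by norm_num) (Nat.pow_lt_pow_right (by norm_num) (sq_big k J hJk))
  have hexp : ∀ A : Finset (Fin n), A.Nonempty → A.card ≤ k^(3^J+1) → φ₀ * A.card ≤ bdy G A := by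
    intro A hA hAc
    have h1 := hSmin A hA (lt_of_le_of_lt hAc hkJs)
    have h2 : lam A.card ≤ Nat.sqrt (2*J+k+1) := lam_small _ _ (hAc.trans (kpow_le k J))
    have h3 : (3:ℝ)^(lam A.card + 1) ≤ 3^(Nat.sqrt (2*J+k+1)+1) :=
      pow_le_pow_right₀ (by norm_num) (by omega)
    have h4 : (A.card : ℝ) ≤ bdy G A * 3^(Nat.sqrt (2*J+k+1)+1) :=
      h1.trans (mul_le_mul_of_nonneg_left h3 (Nat.cast_nonneg _))
    rw [hφ₀, one_div, inv_mul_le_iff₀ (by positivity), mul_comm]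
    exact h4
  have hκt' := kt_bound k J hk hJk
  have hexpo := expo_bound k J hk C hC hJpos
  rw [← hφ₀] at hκt' hexpo
  rw [← hc] at hexpo
  set κ : ℝ := φ₀^2/(4*k^2) with hκ
  have hκ0 : 0 < κ := by positivity
  have hκ1 : κ ≤ 1 := by
    rw [hκ, div_le_one (by positivity)]
    have : φ₀^2 ≤ 1 := pow_le_one₀ hφ0.le hφ1
    nlinarith
  have hheat := heat G hG k hk hreg (3^J) φ₀ hφ0.le hφ1 hexp
  rw [← hκ] at hheat
  obtain ⟨ρ, hρge, hkq⟩ := radius k hk κ (3^J) _ hκ0 (by positivity) (Real.sqrt_nonneg _)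
    (q_bound κ hκ1 J) hκt'
  have hSt : (((3^J : ℕ) : ℝ)) * bdy G S ≤ (k/2 : ℝ) * S.card := by
    have h1 : (bdy G S : ℝ) * 3^(J+1) ≤ s := hSb
    rw [pow_succ] at h1
    have h4 : ((3^J : ℕ) : ℝ) * bdy G S * 3 ≤ s := by push_cast; linarith
    have h5 : (0:ℝ) ≤ ((3^J : ℕ) : ℝ) * bdy G S := by positivity
    nlinarith
  have hlower := chS_energy G hG k hk hreg S (3^J) ρ _ (Real.sqrt_nonneg _) (fun x y => by
    rw [Real.sq_sqrt (pow_nonneg (by linarith) _)]; exact hheat x y) hkq hSt f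
    (fun u v => (hf u v).1)
  obtain ⟨hQ0, hQs, hQ1⟩ := chS_one G k hk hreg S
  have hupper := energy_one G k S C f (fun u v => (hf u v).2) hQ0 hQ1
  have hlower' : (1/4 : ℝ) * S.card * (ρ+1)^2 ≤ En (chS G k S ^ (3^J)) (fun u : S => f u) := by
    convert hlower
  have hε0 : 0 < c / Real.sqrt J := by positivity
  have hε1 : c / Real.sqrt J < 1 := by
    rw [div_lt_one hsqJ, Real.lt_sqrt hc0.le]
    have : (Jc : ℝ) ≤ J := by exact_mod_cast hJcJ
    linarith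
  have hs0 : (0:ℝ) < s := by
    have : 0 < s := hSne.card_pos
    exact_mod_cast this
  have hbig : (9 * (1 - c / Real.sqrt J))^J * En (chS G k S) (fun u : S => f u) <
      En (chS G k S ^ (3^J)) (fun u : S => f u) :=
    lt_of_lt_of_le (main_ineq J s C κ (3^J) k ρ _ _ (c * Real.sqrt J) hs0 hk0 hκ0 (by positivity)
      rfl hε1 (eps_pow c J hJpos hε1) hupper hρge hexpo) hlower'
  obtain ⟨j, hjJ, hpos, hineq⟩ := En_scale' (chS G k S) (fun u : S => f u) hQ0 hQs hQ1 J hJpos _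
    hε0 hε1 hbig
  obtain ⟨hb0, hbs, hb1, hbe⟩ := chS_basic' G k hk hreg S (3^j)
  obtain ⟨g1, g2⟩ := transport s S.equivFin.symm _ _ _ hpos hineq
  refine ⟨J, s, fun u v => (chS G k S ^ (3^j)) (S.equivFin.symm u) (S.equivFin.symm v),
    fun u => (S.equivFin.symm u : Fin n), hJ0, hsup,
    fun u v => hbs _ _, fun u v => hb0 _ _, ?_, ?_, g1, g2⟩
  · intro u
    exact (Equiv.sum_comp S.equivFin.symm
      (fun v => (chS G k S ^ (3^j)) (S.equivFin.symm u) v)).trans (hb1 _)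
  · intro u v huv
    have h1 := hbe _ _ huv
    have h2 : (((2*k)^(3^J) : ℕ) : ℝ) ≤ s := by
      have := (twok_le k J hk).trans ((Nat.pow_le_pow_right (by norm_num)
        (Nat.pow_le_pow_right (by norm_num) (sq_big k J hJk).le)).trans hslow)
      exact_mod_cast this
    push_cast at h2
    have h3 : (2*(k:ℝ))^(3^j) ≤ (2*(k:ℝ))^(3^J) :=
      pow_le_pow_right₀ (by linarith) (Nat.pow_le_pow_right (by norm_num) hjJ.le)
    have h4 : (0:ℝ) < (2*(k:ℝ))^(3^j) := by positivity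
    have h5 : (1:ℝ) ≤ s * (1/(2*k : ℝ))^(3^j) := by
      rw [div_pow, one_pow, mul_one_div, le_div_iff₀ h4]
      linarith
    exact h5.trans (mul_le_mul_of_nonneg_left h1 hs0.le)

end Pool.Agent.SR871
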