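import Mathlib
import Pool.Agent.SR871.Defs
set_option autoImplicit false
set_option maxHeartbeats 1000000
namespace Pool.Agent.SR871
open Finset Classical

/-- plus block for a path: `a` and `Q` have exactly one element in `(lo,hi]`, `b`, `P` none -/
def Blk (P a b Q : Finset ℕ) (lo hi : ℕ) : Prop :=
  (a ∩ Ioc lo hi).card = 1 ∧ b ∩ Ioc lo hi = ∅ ∧ (Q ∩ Ioc lo hi).card = 1 ∧ P ∩ Ioc lo hi = ∅

/-- block structure with data; `Blk P a b Q` on good `+`-blocks, `Blk Q b a P` on good `-`-blocks -/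
def BSdata (N : ℕ) (P a b Q : Finset ℕ) (m : ℕ) (s : ℕ → ℕ) (τ : ℕ → Bool) (B : Finset ℕ) : Prop :=
  IsFam N m s ∧ (∀ i, τ (i+1) = !(τ i)) ∧ B ⊆ range m ∧
  (∀ i < m, i ∉ B → (τ i = true → Blk P a b Q (s i) (s (i+1))) ∧
                    (τ i = false → Blk Q b a P (s i) (s (i+1))))

/-- the defects: bad blocks and flips outside good blocks number at most `D` -/
def BS (N : ℕ) (P a b Q : Finset ℕ) (D : ℝ) : Prop := ∃ m s τ B, BSdata N P a b Q m s τ B ∧
  (B.card : ℝ) + (((P ∪ a ∪ b ∪ Q).filter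
      (fun t => ∀ i < m, i ∉ B → t ∉ Ioc (s i) (s (i+1)))).card : ℝ) ≤ D

/-- `a` is strictly adjacent to time `t` from the left or from the right among the `P j` -/
def LR {n : ℕ} (a : Finset ℕ) (P : Fin n → Finset ℕ) (t : ℕ) : Prop :=
  (∃ y ∈ a, y ≤ t ∧ ∀ j, ∀ y' ∈ P j, y' ≤ t → y' < y) ∨
  (∃ y ∈ a, t < y ∧ ∀ j, ∀ y' ∈ P j, t < y' → y < y')

/-- the time picked by rule `z` on the window of `P` that starts at the `i`-th element -/
noncomputable def tk (c : ℕ → ℕ) (z : (ℕ → ℕ) → ℕ) (P : Finset ℕ) (i : ℕ) : ℕ :=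
  sInf {t | z (fun j => c (Nat.nth (· ∈ P) (i+j))) ≤ c t}

end Pool.Agent.SR871
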