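import Mathlib
import Pool.Agent.SR871.DefsE
set_option autoImplicit false
set_option maxHeartbeats 1000000
namespace Pool.Agent.SR871
open Finset Classical













/-- at most two of the sets are strictly adjacent to `t` -/
theorem LR_two {n : ℕ} (P : Fin (n+1) → Finset ℕ) (t : ℕ) :
    ((univ.filter (fun i : Fin (n+1) => LR (P i) (fun j : Fin n => P (i.succAbove j)) t)).card) ≤ 2 := by
  have h1 : ((univ.filter (fun i : Fin (n+1) => ∃ y ∈ P i, y ≤ t ∧
      ∀ j : Fin n, ∀ y' ∈ P (i.succAbove j), y' ≤ t → y' < y)).card) ≤ 1 := by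
    rw [Finset.card_le_one]
    intro a ha b hb
    rw [Finset.mem_filter] at ha hb
    obtain ⟨_, y, hy, hyt, hyj⟩ := ha
    obtain ⟨_, z, hz, hzt, hzj⟩ := hb
    by_contra hne
    obtain ⟨j, hj⟩ := Fin.exists_succAbove_eq (x := a) (y := b) hne
    obtain ⟨k, hk⟩ := Fin.exists_succAbove_eq (x := b) (y := a) (Ne.symm hne)
    have h1 := hzj j y (by rw [hj]; exact hy) hyt
    have h2 := hyj k z (by rw [hk]; exact hz) hzt
    omega
  have h2 : ((univ.filter (fun i : Fin (n+1) => ∃ y ∈ P i, t < y ∧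
      ∀ j : Fin n, ∀ y' ∈ P (i.succAbove j), t < y' → y < y')).card) ≤ 1 := by
    rw [Finset.card_le_one]
    intro a ha b hb
    rw [Finset.mem_filter] at ha hb
    obtain ⟨_, y, hy, hyt, hyj⟩ := ha
    obtain ⟨_, z, hz, hzt, hzj⟩ := hb
    by_contra hne
    obtain ⟨j, hj⟩ := Fin.exists_succAbove_eq (x := a) (y := b) hne
    obtain ⟨k, hk⟩ := Fin.exists_succAbove_eq (x := b) (y := a) (Ne.symm hne)
    have h1 := hzj j y (by rw [hj]; exact hy) hyt
    have h2 := hyj k z (by rw [hk]; exact hz) hzt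
    omega
  have h3 : (univ.filter (fun i : Fin (n+1) => LR (P i) (fun j : Fin n => P (i.succAbove j)) t)) ⊆
      (univ.filter (fun i : Fin (n+1) => ∃ y ∈ P i, y ≤ t ∧
        ∀ j : Fin n, ∀ y' ∈ P (i.succAbove j), y' ≤ t → y' < y)) ∪
      (univ.filter (fun i : Fin (n+1) => ∃ y ∈ P i, t < y ∧
        ∀ j : Fin n, ∀ y' ∈ P (i.succAbove j), t < y' → y < y')) := by
    intro i hi
    rw [Finset.mem_filter] at hi
    rw [Finset.mem_union, Finset.mem_filter, Finset.mem_filter]
    rcases hi.2 with h | h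
    · exact Or.inl ⟨hi.1, h⟩
    · exact Or.inr ⟨hi.1, h⟩
  have h4 := (Finset.card_le_card h3).trans (Finset.card_union_le _ _)
  omega

/-- total mass of product weights -/
theorem prod_mass {α : Type} [Fintype α] (p : α → ℝ) (hp : ∑ w, p w = 1) (n : ℕ) :
    ∑ ω : Fin n → α, ∏ i, p (ω i) = 1 := by
  have h := Finset.prod_univ_sum (fun _ : Fin n => (Finset.univ : Finset α)) (fun _ w => p w)
  rw [Fintype.piFinset_univ] at h
  rw [← h]
  simp [hp]

/-- marginals of product weights -/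
theorem prod_marginal {α : Type} [Fintype α] (p : α → ℝ) (hp : ∑ w, p w = 1) (n : ℕ) (j : Fin n)
    (F : α → ℝ) : ∑ ω : Fin n → α, (∏ i, p (ω i)) * F (ω j) = ∑ w, p w * F w := by
  have h := Finset.prod_univ_sum (fun _ : Fin n => (Finset.univ : Finset α))
    (fun i w => p w * (if i = j then F w else 1))
  rw [Fintype.piFinset_univ] at h
  have h1 : ∀ ω : Fin n → α, ∏ i, (p (ω i) * (if i = j then F (ω i) else 1)) =
      (∏ i, p (ω i)) * F (ω j) := by
    intro ω
    rw [Finset.prod_mul_distrib]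
    congr 1
    rw [Finset.prod_ite_eq' Finset.univ j (fun i => F (ω i)), if_pos (Finset.mem_univ _)]
  rw [Finset.sum_congr rfl fun ω _ => h1 ω] at h
  rw [← h]
  have h2 : ∀ i : Fin n, ∑ w, p w * (if i = j then F w else 1) =
      if i = j then ∑ w, p w * F w else 1 := by
    intro i
    by_cases hij : i = j
    · simp [hij]
    · simp [hij, hp]
  rw [Finset.prod_congr rfl fun i _ => h2 i, Finset.prod_ite_eq' Finset.univ j (fun _ => _),
    if_pos (Finset.mem_univ _)]

/-- exchangeability bound -/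
theorem exch {α : Type} [Fintype α] (p : α → ℝ) (hp0 : ∀ w, 0 ≤ p w) (hp : ∑ w, p w = 1) (n : ℕ)
    (P : α → Finset ℕ) (t : ℕ) :
    ∑ u, p u * ∑ ω : Fin n → α, (∏ i, p (ω i)) *
      (if LR (P u) (fun j => P (ω j)) t then (1:ℝ) else 0) ≤ 2 / (n+1) := by
  have key : ∀ i : Fin (n + 1), ∑ ω : Fin (n + 1) → α, (∏ k, p (ω k)) *
      (if LR (P (ω i)) (fun j : Fin n => P (ω (i.succAbove j))) t then (1:ℝ) else 0) =
      ∑ u, p u * ∑ ω : Fin n → α, (∏ i, p (ω i)) *
      (if LR (P u) (fun j => P (ω j)) t then (1:ℝ) else 0) := by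
    intro i
    rw [← (Fin.insertNthEquiv (fun _ => α) i).sum_comp, Fintype.sum_prod_type]
    refine Finset.sum_congr rfl fun u _ => ?_
    rw [Finset.mul_sum]
    refine Finset.sum_congr rfl fun ω _ => ?_
    rw [Fin.prod_univ_succAbove _ i]
    simp only [Fin.insertNthEquiv_apply, Fin.insertNth_apply_same,
      Fin.insertNth_apply_succAbove]
    ring
  have hsum : ∑ i : Fin (n + 1), ∑ ω : Fin (n + 1) → α, (∏ k, p (ω k)) *
      (if LR (P (ω i)) (fun j : Fin n => P (ω (i.succAbove j))) t then (1:ℝ) else 0) ≤ 2 := by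
    rw [Finset.sum_comm]
    calc ∑ ω : Fin (n + 1) → α, ∑ i : Fin (n + 1), (∏ k, p (ω k)) *
        (if LR (P (ω i)) (fun j : Fin n => P (ω (i.succAbove j))) t then (1:ℝ) else 0)
        ≤ ∑ ω : Fin (n + 1) → α, (∏ k, p (ω k)) * 2 := by
          refine Finset.sum_le_sum fun ω _ => ?_
          rw [← Finset.mul_sum]
          refine mul_le_mul_of_nonneg_left ?_ (Finset.prod_nonneg fun k _ => hp0 _)
          rw [Finset.sum_boole]
          have := LR_two (fun k => P (ω k)) t
          exact_mod_cast this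
      _ = 2 := by
          rw [← Finset.sum_mul, prod_mass p hp, one_mul]
  rw [Finset.sum_congr rfl fun i _ => key i, Finset.sum_const, Finset.card_univ,
    Fintype.card_fin, nsmul_eq_mul] at hsum
  rw [le_div_iff₀ (by positivity)]
  push_cast at hsum
  linarith

end Pool.Agent.SR871
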