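import Mathlib
import Pool.Agent.SR871.DefsE
set_option autoImplicit false
set_option maxHeartbeats 1000000
namespace Pool.Agent.SR871
open Finset Classical













theorem adj_claim_emp {S : Finset ℕ} {lo hi y : ℕ} (h : S ∩ Ioc lo hi = ∅) (hy : y ∈ S)
    (h1 : lo < y) (h2 : y ≤ hi) : False := by
  have h3 : y ∈ S ∩ Ioc lo hi := by
    rw [mem_inter, mem_Ioc]
    exact ⟨hy, h1, h2⟩
  rw [h] at h3
  simp at h3

theorem adj_claim_one {S : Finset ℕ} {lo hi : ℕ} (h : (S ∩ Ioc lo hi).card = 1) :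
    ∃ y ∈ S, lo < y ∧ y ≤ hi ∧ ∀ z ∈ S, lo < z → z ≤ hi → z = y := by
  obtain ⟨y, hy⟩ := Finset.card_eq_one.1 h
  have hm : y ∈ S ∩ Ioc lo hi := by
    rw [hy]
    exact mem_singleton_self _
  rw [mem_inter, mem_Ioc] at hm
  refine ⟨y, hm.1, hm.2.1, hm.2.2, fun z hz h1 h2 => ?_⟩
  have h3 : z ∈ S ∩ Ioc lo hi := by
    rw [mem_inter, mem_Ioc]
    exact ⟨hz, h1, h2⟩
  rw [hy, mem_singleton] at h3
  exact h3

theorem adj_claim_aux {n : ℕ} (a b : Finset ℕ) (hab : Alt a b) (P Q : Fin n → Finset ℕ)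
    (t : ℕ) (h : ∀ j l, ∃ lo hi, lo < t ∧ t ≤ hi ∧
      (Blk (P j) a b (Q l) lo hi ∨ Blk (Q l) b a (P j) lo hi))
    (α : ℕ) (hα : α ∈ a) (hαt : α ≤ t) (hmax : ∀ y ∈ a ∪ b, y ≤ t → y ≤ α) :
    LR a P t ∨ LR b Q t := by
  by_cases hL : ∀ j, ∀ y' ∈ P j, y' ≤ t → y' < α
  · exact Or.inl (Or.inl ⟨α, hα, hαt, hL⟩)
  push Not at hL
  obtain ⟨j0, y0, hy0, hy0t, hy0α⟩ := hL
  have key : ∀ l, ∃ β ∈ b, t < β ∧ ∀ y' ∈ Q l, t < y' → β < y' := by
    intro l
    obtain ⟨lo, hi, hlo, hhi, hB | hB⟩ := h j0 l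
    · exfalso
      obtain ⟨h1, h2, h3, h4⟩ := hB
      obtain ⟨α', hm1, hm2, hm3, -⟩ := adj_claim_one h1
      have hαlo : lo < α := by
        by_cases hle : α' ≤ t
        · have := hmax α' (mem_union_left _ hm1) hle
          omega
        · push Not at hle
          exfalso
          obtain ⟨w, hw, hw1, hw2⟩ := hab.2.1 α hα α' hm1 (by omega)
          have hwt : t < w := by
            by_contra hc
            have := hmax w (mem_union_right _ hw) (by omega)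
            omega
          exact adj_claim_emp h2 hw (by omega) (by omega)
      exact adj_claim_emp h4 hy0 (by omega) (by omega)
    · obtain ⟨h1, h2, h3, h4⟩ := hB
      obtain ⟨β, hm1, hm2, hm3, -⟩ := adj_claim_one h1
      have hβt : t < β := by
        by_contra hc
        have h5 := hmax β (mem_union_right _ hm1) (by omega)
        exact adj_claim_emp h2 hα (by omega) (by omega)
      refine ⟨β, hm1, hβt, fun y' hy' hty' => ?_⟩
      by_contra hc
      exact adj_claim_emp h4 hy' (by omega) (by omega)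
  obtain ⟨β0, hβ0, hβ0t, _⟩ := key j0
  have hne : (b.filter (fun y => t < y)).Nonempty := ⟨β0, mem_filter.2 ⟨hβ0, hβ0t⟩⟩
  refine Or.inr (Or.inr ⟨(b.filter (fun y => t < y)).min' hne, ?_, ?_, ?_⟩)
  · exact (mem_filter.1 (min'_mem _ hne)).1
  · exact (mem_filter.1 (min'_mem _ hne)).2
  · intro l y' hy' hty'
    obtain ⟨β, hβ, hβt, hβ'⟩ := key l
    exact lt_of_le_of_lt (min'_le _ _ (mem_filter.2 ⟨hβ, hβt⟩)) (hβ' y' hy' hty')

theorem adj_claim_aux2 {n : ℕ} (hn : 1 ≤ n) (a b : Finset ℕ) (P Q : Fin n → Finset ℕ)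
    (t : ℕ) (h : ∀ j l, ∃ lo hi, lo < t ∧ t ≤ hi ∧
      (Blk (P j) a b (Q l) lo hi ∨ Blk (Q l) b a (P j) lo hi))
    (γ : ℕ) (hγ : γ ∈ a) (hγt : t < γ) (hmin : ∀ y ∈ a ∪ b, γ ≤ y) : LR a P t := by
  refine Or.inr ⟨γ, hγ, hγt, fun j y' hy' hty' => ?_⟩
  obtain ⟨lo, hi, hlo, hhi, hB | hB⟩ := h j ⟨0, hn⟩
  · obtain ⟨h1, h2, h3, h4⟩ := hB
    obtain ⟨α, hm1, hm2, hm3, -⟩ := adj_claim_one h1
    have h5 := hmin α (mem_union_left _ hm1)
    by_contra hc
    exact adj_claim_emp h4 hy' (by omega) (by omega)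
  · exfalso
    obtain ⟨h1, h2, h3, h4⟩ := hB
    obtain ⟨β, hm1, hm2, hm3, -⟩ := adj_claim_one h1
    have h5 := hmin β (mem_union_right _ hm1)
    exact adj_claim_emp h2 hγ (by omega) (by omega)

theorem adj_claim {n : ℕ} (hn : 1 ≤ n) (a b : Finset ℕ) (hab : Alt a b) (P Q : Fin n → Finset ℕ)
    (t : ℕ) (h : ∀ j l, ∃ lo hi, lo < t ∧ t ≤ hi ∧
      (Blk (P j) a b (Q l) lo hi ∨ Blk (Q l) b a (P j) lo hi)) :
    LR a P t ∨ LR b Q t := by
  have hsw : ∀ l j, ∃ lo hi, lo < t ∧ t ≤ hi ∧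
      (Blk (Q l) b a (P j) lo hi ∨ Blk (P j) a b (Q l) lo hi) := by
    intro l j
    obtain ⟨lo, hi, h1, h2, h3⟩ := h j l
    exact ⟨lo, hi, h1, h2, h3.symm⟩
  have hba : Alt b a := ⟨hab.1.symm, hab.2.2, hab.2.1⟩
  by_cases hS : ((a ∪ b).filter (fun y => y ≤ t)).Nonempty
  · have hmem := mem_filter.1 (max'_mem _ hS)
    have hmax : ∀ y ∈ a ∪ b, y ≤ t → y ≤ ((a ∪ b).filter (fun y => y ≤ t)).max' hS := by
      intro y hy hyt
      exact le_max' _ _ (mem_filter.2 ⟨hy, hyt⟩)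
    rcases mem_union.1 hmem.1 with h1 | h1
    · exact adj_claim_aux a b hab P Q t h _ h1 hmem.2 hmax
    · exact (adj_claim_aux b a hba Q P t hsw _ h1 hmem.2 (by
        rw [union_comm b a]
        exact hmax)).symm
  · have hbig : ∀ y ∈ a ∪ b, t < y := by
      intro y hy
      by_contra hc
      exact hS ⟨y, mem_filter.2 ⟨hy, by omega⟩⟩
    have hne : (a ∪ b).Nonempty := by
      obtain ⟨lo, hi, hlo, hhi, hB | hB⟩ := h ⟨0, hn⟩ ⟨0, hn⟩
      · obtain ⟨y, hy, -⟩ := adj_claim_one hB.1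
        exact ⟨y, mem_union_left _ hy⟩
      · obtain ⟨y, hy, -⟩ := adj_claim_one hB.1
        exact ⟨y, mem_union_right _ hy⟩
    have hmem := min'_mem _ hne
    have hmin : ∀ y ∈ a ∪ b, (a ∪ b).min' hne ≤ y := fun y hy => min'_le _ _ hy
    have hgt := hbig _ hmem
    rcases mem_union.1 hmem with h1 | h1
    · exact Or.inl (adj_claim_aux2 hn a b P Q t h _ h1 hgt hmin)
    · exact Or.inr (adj_claim_aux2 hn b a Q P t hsw _ h1 hgt (by
        rw [union_comm b a]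
        exact hmin))

theorem clean_all_mono (m : ℕ) (s : ℕ → ℕ) (h : ∀ i < m, s i < s (i+1)) :
    ∀ i j, i ≤ j → j ≤ m → s i ≤ s j := by
  intro i j hij
  induction j, hij using Nat.le_induction with
  | base => intro _; exact le_rfl
  | succ j hij ih =>
    intro hj
    exact (ih (by omega)).trans (h j (by omega)).le

/-- every time in a clean window that contains a point in a good block is in a good block -/
theorem clean_all (N : ℕ) (P a b Q : Finset ℕ) (m : ℕ) (s : ℕ → ℕ) (τ : ℕ → Bool) (B : Finset ℕ)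
    (h : BSdata N P a b Q m s τ B) (lo hi y : ℕ) (hlo : 1 ≤ lo) (hy1 : lo ≤ y) (hy2 : y ≤ hi)
    (i₀ : ℕ) (hi0 : i₀ < m) (hi0B : i₀ ∉ B) (hyi : y ∈ Ioc (s i₀) (s (i₀+1)))
    (hB : ∀ i ∈ B, s i ∉ Icc lo hi ∧ s (i+1) ∉ Icc lo hi) (hm : s m ∉ Icc lo hi)
    (t : ℕ) (ht : t ∈ Icc lo hi) : ∃ i < m, i ∉ B ∧ t ∈ Ioc (s i) (s (i+1)) := by
  obtain ⟨⟨hs0, hsm, hsN⟩, hτ, hBm, hblk⟩ := h
  have mono := clean_all_mono m s hsm
  rw [mem_Icc] at ht
  rw [mem_Ioc] at hyi
  have h1 := mono (i₀ + 1) m (by omega) le_rfl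
  have h2 : hi < s m := by
    by_contra hc
    exact hm (mem_Icc.2 ⟨by omega, by omega⟩)
  have hex : ∃ i, t ≤ s (i + 1) := ⟨m - 1, by
    rw [Nat.sub_add_cancel (by omega)]
    omega⟩
  have hspec := Nat.find_spec hex
  have hmin : ∀ i, i < Nat.find hex → s (i + 1) < t := by
    intro i hi'
    have := Nat.find_min hex hi'
    omega
  have hle : Nat.find hex ≤ m - 1 := Nat.find_min' hex (by
    rw [Nat.sub_add_cancel (by omega)]
    omega)
  have hlt : s (Nat.find hex) < t := by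
    rcases Nat.eq_zero_or_pos (Nat.find hex) with h0 | h0
    · rw [h0, hs0]
      omega
    · have := hmin (Nat.find hex - 1) (by omega)
      rwa [Nat.sub_add_cancel (by omega)] at this
  refine ⟨Nat.find hex, by omega, ?_, mem_Ioc.2 ⟨hlt, hspec⟩⟩
  intro hB'
  have hB2 := hB _ hB'
  rcases lt_trichotomy (Nat.find hex) i₀ with h3 | h3 | h3
  · have h4 := mono (Nat.find hex + 1) i₀ (by omega) (by omega)
    exact hB2.2 (mem_Icc.2 ⟨by omega, by omega⟩)
  · rw [h3] at hB'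
    exact hi0B hB'
  · have h4 := mono (i₀ + 1) (Nat.find hex) (by omega) (by omega)
    exact hB2.1 (mem_Icc.2 ⟨by omega, by omega⟩)

theorem interleave_step (N : ℕ) (P a b Q : Finset ℕ) (m : ℕ) (s : ℕ → ℕ) (τ : ℕ → Bool)
    (B : Finset ℕ) (h : BSdata N P a b Q m s τ B) (x x' : ℕ) (hx : x ∈ P) (hx' : x' ∈ P)
    (hxx : x < x') (hcons : ∀ z ∈ P, x < z → x' ≤ z)
    (hclean : ∀ t, x ≤ t → t ≤ x' → ∃ k < m, k ∉ B ∧ t ∈ Ioc (s k) (s (k+1))) :
    ∃ y ∈ Q, x < y ∧ y < x' ∧ (∀ q ∈ Q, x ≤ q → q ≤ x' → q = y) ∧ ∃ z ∈ a, x < z ∧ z < x' := by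
  obtain ⟨⟨hs0, hsm, hsN⟩, hτ, hBm, hblk⟩ := h
  have mono := clean_all_mono m s hsm
  obtain ⟨k, hkm, hkB, hk⟩ := hclean x le_rfl hxx.le
  obtain ⟨k', hk'm, hk'B, hk'⟩ := hclean x' hxx.le le_rfl
  rw [mem_Ioc] at hk hk'
  have hτk : τ k = false := by
    by_contra hc
    exact adj_claim_emp ((hblk k hkm hkB).1 (by simpa using hc)).2.2.2 hx hk.1 hk.2
  have hτk' : τ k' = false := by
    by_contra hc
    exact adj_claim_emp ((hblk k' hk'm hk'B).1 (by simpa using hc)).2.2.2 hx' hk'.1 hk'.2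
  have hkk' : k ≤ k' := by
    by_contra hc
    have := mono (k'+1) k (by omega) (by omega)
    omega
  have hne : k ≠ k' := by
    intro e
    rw [← e] at hk'
    obtain ⟨w, -, -, -, hw⟩ := adj_claim_one ((hblk k hkm hkB).2 hτk).2.2.1
    have e1 := hw x hx hk.1 hk.2
    have e2 := hw x' hx' hk'.1 hk'.2
    omega
  have hne1 : k' ≠ k + 1 := by
    intro e
    rw [e, hτ k, hτk] at hτk'
    simp at hτk'
  have good : ∀ r, k < r → r < k' → r ∉ B := by
    intro r hr1 hr2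
    have h1 := mono (k+1) r (by omega) (by omega)
    have h2 := mono (r+1) k' (by omega) (by omega)
    have h3 := hsm r (by omega)
    obtain ⟨r', hr'm, hr'B, hr'⟩ := hclean (s (r+1)) (by omega) (by omega)
    rw [mem_Ioc] at hr'
    have hrr : r' = r := by
      rcases lt_trichotomy r' r with h | h | h
      · have := mono (r'+1) r (by omega) (by omega)
        omega
      · exact h
      · have := mono (r+1) r' (by omega) (by omega)
        omega
    rwa [hrr] at hr'B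
  have hk2 : k' = k + 2 := by
    by_contra hc
    have hg := good (k+2) (by omega) (by omega)
    have hτ2 : τ (k+2) = false := by
      rw [hτ (k+1), hτ k, hτk]
      rfl
    obtain ⟨w, hw1, hw2, hw3, -⟩ := adj_claim_one ((hblk (k+2) (by omega) hg).2 hτ2).2.2.1
    have h2 := mono (k+1) (k+2) (by omega) (by omega)
    have h3 := mono (k+2+1) k' (by omega) (by omega)
    have := hcons w hw1 (by omega)
    omega
  have hg := good (k+1) (by omega) (by omega)
  have hτ1 : τ (k+1) = true := by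
    rw [hτ k, hτk]
    rfl
  have hp := (hblk (k+1) (by omega) hg).1 hτ1
  obtain ⟨y, hy1, hy2, hy3, hy4⟩ := adj_claim_one hp.2.2.1
  obtain ⟨z, hz1, hz2, hz3, -⟩ := adj_claim_one hp.1
  have hk3 : s (k + 1 + 1) = s k' := by rw [hk2]
  refine ⟨y, hy1, by omega, by omega, ?_, z, hz1, by omega, by omega⟩
  intro q hq hq1 hq2
  by_cases h1 : q ≤ s (k + 1)
  · exact absurd (adj_claim_emp ((hblk k hkm hkB).2 hτk).2.2.2 hq (by omega) h1) id
  by_cases h2 : q ≤ s (k + 1 + 1)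
  · exact hy4 q hq (by omega) h2
  · exact absurd (adj_claim_emp ((hblk k' hk'm hk'B).2 hτk').2.2.2 hq (by omega) (by omega)) id

theorem interleave_count (Q : Finset ℕ) (x x' : ℕ) (hxx : x ≤ x') :
    (Q.filter (fun q => q < x')).card =
      (Q.filter (fun q => q < x)).card + (Q.filter (fun q => x ≤ q ∧ q < x')).card := by
  rw [← card_union_of_disjoint]
  · congr 1
    ext q
    simp only [mem_union, mem_filter]
    constructor
    · rintro ⟨h1, h2⟩
      by_cases h3 : q < x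
      · exact Or.inl ⟨h1, h3⟩
      · exact Or.inr ⟨h1, by omega, h2⟩
    · rintro (⟨h1, h2⟩ | ⟨h1, h2, h3⟩)
      · exact ⟨h1, by omega⟩
      · exact ⟨h1, h3⟩
  · rw [disjoint_left]
    intro q h1 h2
    simp only [mem_filter] at h1 h2
    omega

theorem interleave_nth (Q : Finset ℕ) (y : ℕ) (hy : y ∈ Q) :
    Nat.nth (· ∈ Q) (Q.filter (fun q => q < y)).card = y := by
  have h1 : (Q.filter (fun q => q < y)).card = Nat.count (· ∈ Q) y := by
    rw [Nat.count_eq_card_filter_range]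
    congr 1
    ext q
    simp only [mem_filter, mem_range]
    exact and_comm
  rw [h1]
  exact Nat.nth_count hy

/-- interleaving of `P` and `Q` on a clean window of consecutive elements of `P` -/
theorem interleave (N : ℕ) (P a b Q : Finset ℕ) (m : ℕ) (s : ℕ → ℕ) (τ : ℕ → Bool) (B : Finset ℕ)
    (h : BSdata N P a b Q m s τ B) (hP : ∀ t ∈ P, 1 ≤ t) (W i : ℕ) (hi : i + W + 1 < P.card)
    (hclean : ∀ t ∈ Icc (Nat.nth (· ∈ P) i) (Nat.nth (· ∈ P) (i+W+1)),
      ∃ i' < m, i' ∉ B ∧ t ∈ Ioc (s i') (s (i'+1))) :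
    ∃ i', i' + W < Q.card ∧ (∀ j ≤ W, Nat.nth (· ∈ P) (i+j) < Nat.nth (· ∈ Q) (i'+j)) ∧
      (∀ j ≤ W, Nat.nth (· ∈ Q) (i'+j) < Nat.nth (· ∈ P) (i+j+1)) ∧
      (∃ y ∈ a, y ∈ Icc (Nat.nth (· ∈ P) i) (Nat.nth (· ∈ P) (i+W+1))) := by
  have hfin : ({x | x ∈ P} : Set ℕ).Finite := P.finite_toSet
  have hcard : hfin.toFinset.card = P.card := by
    congr 1
    ext z
    simp
  have hmem : ∀ j, j < P.card → Nat.nth (· ∈ P) j ∈ P := fun j hj =>
    Nat.nth_mem_of_lt_card hfin (lt_of_lt_of_eq hj hcard.symm)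
  have hlt : ∀ j l, j < l → l < P.card → Nat.nth (· ∈ P) j < Nat.nth (· ∈ P) l := fun j l hjl hl =>
    Nat.nth_lt_nth_of_lt_card hfin hjl (lt_of_lt_of_eq hl hcard.symm)
  have hle : ∀ j l, j ≤ l → l < P.card → Nat.nth (· ∈ P) j ≤ Nat.nth (· ∈ P) l := by
    intro j l hjl hl
    rcases Nat.lt_or_ge j l with h1 | h1
    · exact (hlt j l h1 hl).le
    · rw [le_antisymm hjl h1]
  have hstep : ∀ j, j ≤ W → ∃ y ∈ Q, Nat.nth (· ∈ P) (i+j) < y ∧ y < Nat.nth (· ∈ P) (i+j+1) ∧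
      (∀ q ∈ Q, Nat.nth (· ∈ P) (i+j) ≤ q → q ≤ Nat.nth (· ∈ P) (i+j+1) → q = y) ∧
      ∃ z ∈ a, Nat.nth (· ∈ P) (i+j) < z ∧ z < Nat.nth (· ∈ P) (i+j+1) := by
    intro j hj
    apply interleave_step N P a b Q m s τ B h _ _ (hmem _ (by omega)) (hmem _ (by omega))
      (hlt _ _ (by omega) (by omega))
    · intro z hz hz1
      by_contra hc
      push Not at hc
      have := Nat.le_nth_of_lt_nth_succ hc hz
      omega
    · intro t ht1 ht2
      apply hclean
      rw [mem_Icc]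
      exact ⟨(hle i (i+j) (by omega) (by omega)).trans ht1,
        ht2.trans (hle (i+j+1) (i+W+1) (by omega) (by omega))⟩
  choose! y hyQ hy1 hy2 hy3 hy4 using hstep
  obtain ⟨i', hi'⟩ : ∃ i', i' = (Q.filter (fun q => q < Nat.nth (· ∈ P) i)).card := ⟨_, rfl⟩
  have hcount : ∀ j, j ≤ W + 1 → (Q.filter (fun q => q < Nat.nth (· ∈ P) (i+j))).card = i' + j := by
    intro j
    induction j with
    | zero => intro _; rw [hi']; rfl
    | succ j ih =>
      intro hj
      have h1 := ih (by omega)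
      have h2 := interleave_count Q _ _ (hle (i+j) (i+j+1) (by omega) (by omega))
      have h3 : Q.filter (fun q => Nat.nth (· ∈ P) (i+j) ≤ q ∧ q < Nat.nth (· ∈ P) (i+j+1)) =
          {y j} := by
        ext q
        rw [mem_filter, mem_singleton]
        constructor
        · rintro ⟨h4, h5, h6⟩
          exact hy3 j (by omega) q h4 h5 h6.le
        · rintro rfl
          exact ⟨hyQ j (by omega), (hy1 j (by omega)).le, hy2 j (by omega)⟩
      rw [h3, card_singleton, h1] at h2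
      exact h2
  have hcy : ∀ j, j ≤ W → (Q.filter (fun q => q < y j)).card = i' + j := by
    intro j hj
    have h2 := interleave_count Q _ _ (hy1 j hj).le
    have h3 : Q.filter (fun q => Nat.nth (· ∈ P) (i+j) ≤ q ∧ q < y j) = ∅ := by
      rw [filter_eq_empty_iff]
      rintro q hq ⟨h4, h5⟩
      have h6 := hy3 j hj q hq h4 (h5.le.trans (hy2 j hj).le)
      omega
    rw [h3, card_empty, hcount j (by omega)] at h2
    exact h2
  have hnth : ∀ j, j ≤ W → Nat.nth (· ∈ Q) (i' + j) = y j := by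
    intro j hj
    rw [← hcy j hj]
    exact interleave_nth Q _ (hyQ j hj)
  refine ⟨i', ?_, ?_, ?_, ?_⟩
  · rw [← hcy W le_rfl]
    apply card_lt_card
    rw [filter_ssubset]
    exact ⟨y W, hyQ W le_rfl, lt_irrefl _⟩
  · intro j hj
    rw [hnth j hj]
    exact hy1 j hj
  · intro j hj
    rw [hnth j hj]
    exact hy2 j hj
  · obtain ⟨z, hz, hz1, hz2⟩ := hy4 0 (Nat.zero_le _)
    refine ⟨z, hz, mem_Icc.2 ⟨hz1.le, hz2.le.trans (hle (i+0+1) (i+W+1) (by omega) (by omega))⟩⟩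

end Pool.Agent.SR871
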