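import Mathlib
import Pool.Agent.SR871.E2a
set_option autoImplicit false
set_option maxHeartbeats 1000000
namespace Pool.Agent.SR871
open Finset Classical















/- TO PROVE -/




theorem nth_mem' (S : Finset ℕ) (i : ℕ) (h : i < S.card) : Nat.nth (· ∈ S) i ∈ S := by
  have hf : {x : ℕ | x ∈ S}.Finite := S.finite_toSet
  have hc : hf.toFinset = S := by ext x; simp [Set.Finite.mem_toFinset]
  exact Nat.nth_mem_of_lt_card hf (by rw [hc]; exact h)

theorem nth_lt' (S : Finset ℕ) (i j : ℕ) (hij : i < j) (h : j < S.card) :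
    Nat.nth (· ∈ S) i < Nat.nth (· ∈ S) j := by
  have hf : {x : ℕ | x ∈ S}.Finite := S.finite_toSet
  have hc : hf.toFinset = S := by ext x; simp [Set.Finite.mem_toFinset]
  exact Nat.nth_lt_nth_of_lt_card hf hij (by rw [hc]; exact h)

theorem nth_le' (S : Finset ℕ) (i j : ℕ) (hij : i ≤ j) (h : j < S.card) :
    Nat.nth (· ∈ S) i ≤ Nat.nth (· ∈ S) j := by
  rcases hij.eq_or_lt with h1 | h1
  · rw [h1]
  · exact (nth_lt' S i j h1 h).le

theorem card_win (P0 : Finset ℕ) (W p : ℕ) :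
    ((range P0.card).filter (fun i => i + W + 1 < P0.card ∧ Nat.nth (· ∈ P0) i ≤ p ∧
      p ≤ Nat.nth (· ∈ P0) (i+W+1))).card ≤ W + 2 := by
  by_cases hne : ((range P0.card).filter (fun i => i + W + 1 < P0.card ∧ Nat.nth (· ∈ P0) i ≤ p ∧
      p ≤ Nat.nth (· ∈ P0) (i+W+1))).Nonempty
  · obtain ⟨i1, hi1⟩ : ∃ i1, i1 = ((range P0.card).filter (fun i => i + W + 1 < P0.card ∧
      Nat.nth (· ∈ P0) i ≤ p ∧ p ≤ Nat.nth (· ∈ P0) (i+W+1))).min' hne := ⟨_, rfl⟩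
    have hmem := Finset.min'_mem _ hne
    rw [← hi1] at hmem
    have hmin : ∀ i ∈ ((range P0.card).filter (fun i => i + W + 1 < P0.card ∧
      Nat.nth (· ∈ P0) i ≤ p ∧ p ≤ Nat.nth (· ∈ P0) (i+W+1))), i1 ≤ i := by
      intro i hi
      rw [hi1]
      exact Finset.min'_le _ _ hi
    have hsub : ((range P0.card).filter (fun i => i + W + 1 < P0.card ∧ Nat.nth (· ∈ P0) i ≤ p ∧
      p ≤ Nat.nth (· ∈ P0) (i+W+1))) ⊆ Finset.Icc i1 (i1 + W + 1) := by
      intro i hi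
      rw [Finset.mem_Icc]
      refine ⟨hmin i hi, ?_⟩
      by_contra hcon
      push Not at hcon
      rw [Finset.mem_filter] at hi hmem
      have h1 := nth_lt' P0 (i1 + W + 1) i hcon (by omega)
      have h2 := hi.2.2.1
      have h3 := hmem.2.2.2
      omega
    refine (Finset.card_le_card hsub).trans ?_
    rw [Nat.card_Icc]; omega
  · rw [Finset.not_nonempty_iff_eq_empty] at hne
    rw [hne]; simp

theorem bad_set (N : ℕ) (P a b Q : Finset ℕ) (D : ℝ) (h : BS N P a b Q D) :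
    ∃ Bad : Finset ℕ, (Bad.card : ℝ) ≤ 2 * D + 1 ∧
      ∀ lo hi y, 1 ≤ lo → lo ≤ y → y ≤ hi → y ∈ P ∪ a ∪ b ∪ Q →
        (∀ p ∈ Bad, p ∉ Finset.Icc lo hi) →
        ∃ m s τ B, BSdata N P a b Q m s τ B ∧
          ∀ t ∈ Finset.Icc lo hi, ∃ i < m, i ∉ B ∧ t ∈ Finset.Ioc (s i) (s (i+1)) := by
  obtain ⟨m, s, τ, B, hdata, hcard⟩ := h
  refine ⟨B.image s ∪ B.image (fun i => s (i+1)) ∪ {s m} ∪ ((P ∪ a ∪ b ∪ Q).filter
      (fun t => ∀ i < m, i ∉ B → t ∉ Finset.Ioc (s i) (s (i+1)))), ?_, ?_⟩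
  · have h1 : (B.image s ∪ B.image (fun i => s (i+1)) ∪ {s m} ∪ ((P ∪ a ∪ b ∪ Q).filter
      (fun t => ∀ i < m, i ∉ B → t ∉ Finset.Ioc (s i) (s (i+1))))).card ≤
      B.card + B.card + 1 + ((P ∪ a ∪ b ∪ Q).filter
      (fun t => ∀ i < m, i ∉ B → t ∉ Finset.Ioc (s i) (s (i+1)))).card := by
      refine (Finset.card_union_le _ _).trans ?_
      refine Nat.add_le_add_right ?_ _
      refine (Finset.card_union_le _ _).trans ?_
      refine Nat.add_le_add ?_ (by simp)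
      refine (Finset.card_union_le _ _).trans ?_
      exact Nat.add_le_add Finset.card_image_le Finset.card_image_le
    have h2 : ((B.image s ∪ B.image (fun i => s (i+1)) ∪ {s m} ∪ ((P ∪ a ∪ b ∪ Q).filter
      (fun t => ∀ i < m, i ∉ B → t ∉ Finset.Ioc (s i) (s (i+1))))).card : ℝ) ≤
      (B.card : ℝ) + B.card + 1 + (((P ∪ a ∪ b ∪ Q).filter
      (fun t => ∀ i < m, i ∉ B → t ∉ Finset.Ioc (s i) (s (i+1)))).card : ℝ) := by
      exact_mod_cast h1
    have h3 : (0:ℝ) ≤ (((P ∪ a ∪ b ∪ Q).filter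
      (fun t => ∀ i < m, i ∉ B → t ∉ Finset.Ioc (s i) (s (i+1)))).card : ℝ) := Nat.cast_nonneg _
    refine h2.trans ?_
    linarith
  · intro lo hi y hlo hy1 hy2 hy hBad
    have hyb : ∃ i₀ < m, i₀ ∉ B ∧ y ∈ Finset.Ioc (s i₀) (s (i₀+1)) := by
      by_contra hcon
      push Not at hcon
      refine hBad y ?_ (Finset.mem_Icc.2 ⟨hy1, hy2⟩)
      refine Finset.mem_union_right _ ?_
      rw [Finset.mem_filter]
      exact ⟨hy, hcon⟩
    obtain ⟨i₀, hi0, hi0B, hyi⟩ := hyb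
    refine ⟨m, s, τ, B, hdata, ?_⟩
    intro t ht
    apply clean_all N P a b Q m s τ B hdata lo hi y hlo hy1 hy2 i₀ hi0 hi0B hyi _ _ t ht
    · intro i hi
      constructor
      · apply hBad
        apply Finset.mem_union_left
        apply Finset.mem_union_left
        apply Finset.mem_union_left
        exact Finset.mem_image_of_mem _ hi
      · apply hBad
        apply Finset.mem_union_left
        apply Finset.mem_union_left
        apply Finset.mem_union_right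
        exact Finset.mem_image.2 ⟨i, hi, rfl⟩
    · apply hBad
      apply Finset.mem_union_left
      apply Finset.mem_union_right
      simp

theorem good_window (N W R n ns : ℕ) (hW : 1 ≤ W) (hn : 1 ≤ n) (z : Fin ns → (ℕ → ℕ) → ℕ)
    (hz1 : ∀ κ x, (∀ j < W, x j < x (j+1)) → x 0 < z κ x ∧ z κ x ≤ x W)
    (hz2 : ∀ x y : ℕ → ℕ, (∀ j ≤ W, x j < y j) → (∀ j < W, y j < x (j+1)) → y W < x 0 + R →
      ∃ κ κ', z κ x = z κ' y)
    (c : ℕ → ℕ) (hc : Monotone c) (P0 Q0 a b : Finset ℕ) (P Q : Fin n → Finset ℕ)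
    (hab : Alt a b) (hP0 : ∀ t ∈ P0, 1 ≤ t)
    (hcP : ∀ t ∈ P0, ∀ t' < t, c t' < c t) (hcQ : ∀ t ∈ Q0, ∀ t' < t, c t' < c t)
    (Bad0 : Finset ℕ) (BadJ : Fin n → Fin n → Finset ℕ)
    (h0 : ∀ lo hi y, 1 ≤ lo → lo ≤ y → y ≤ hi → y ∈ P0 ∪ a ∪ b ∪ Q0 →
        (∀ p ∈ Bad0, p ∉ Finset.Icc lo hi) →
        ∃ m s τ B, BSdata N P0 a b Q0 m s τ B ∧
          ∀ t ∈ Finset.Icc lo hi, ∃ i < m, i ∉ B ∧ t ∈ Finset.Ioc (s i) (s (i+1)))
    (h : ∀ j l, ∀ lo hi y, 1 ≤ lo → lo ≤ y → y ≤ hi → y ∈ P j ∪ a ∪ b ∪ Q l →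
        (∀ p ∈ BadJ j l, p ∉ Finset.Icc lo hi) →
        ∃ m s τ B, BSdata N (P j) a b (Q l) m s τ B ∧
          ∀ t ∈ Finset.Icc lo hi, ∃ i < m, i ∉ B ∧ t ∈ Finset.Ioc (s i) (s (i+1)))
    (i : ℕ) (hi : i + W + 1 < P0.card)
    (hb0 : ∀ p ∈ Bad0, p ∉ Finset.Icc (Nat.nth (· ∈ P0) i) (Nat.nth (· ∈ P0) (i+W+1)))
    (hbJ : ∀ j l, ∀ p ∈ BadJ j l,
      p ∉ Finset.Icc (Nat.nth (· ∈ P0) i) (Nat.nth (· ∈ P0) (i+W+1)))
    (hR : c (Nat.nth (· ∈ P0) (i+W+1)) < c (Nat.nth (· ∈ P0) i) + R) :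
    (∃ κ, LR a P (tk c (z κ) P0 i)) ∨
      (∃ i', i' < Q0.card ∧ Nat.nth (· ∈ P0) i < Nat.nth (· ∈ Q0) i' ∧
        Nat.nth (· ∈ Q0) i' < Nat.nth (· ∈ P0) (i+1) ∧ ∃ κ', LR b Q (tk c (z κ') Q0 i')) := by
  have hx0 : Nat.nth (· ∈ P0) i ∈ P0 := nth_mem' P0 i (by omega)
  have hlo : 1 ≤ Nat.nth (· ∈ P0) i := hP0 _ hx0
  have hle : Nat.nth (· ∈ P0) i ≤ Nat.nth (· ∈ P0) (i+W+1) := nth_le' P0 _ _ (by omega) hi
  obtain ⟨m, s, τ, B, hdata, hclean⟩ := h0 (Nat.nth (· ∈ P0) i) (Nat.nth (· ∈ P0) (i+W+1))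
    (Nat.nth (· ∈ P0) i) hlo le_rfl hle
    (by simp only [Finset.mem_union]; exact Or.inl (Or.inl (Or.inl hx0))) hb0
  obtain ⟨i', hi', hPQ, hQP, α, hα, hαI⟩ := interleave N P0 a b Q0 m s τ B hdata hP0 W i hi hclean
  have hαI' := Finset.mem_Icc.1 hαI
  have hall : ∀ j l, ∃ m s τ B, BSdata N (P j) a b (Q l) m s τ B ∧
      ∀ t ∈ Finset.Icc (Nat.nth (· ∈ P0) i) (Nat.nth (· ∈ P0) (i+W+1)),
        ∃ i < m, i ∉ B ∧ t ∈ Finset.Ioc (s i) (s (i+1)) := by
    intro j l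
    exact h j l _ _ α hlo hαI'.1 hαI'.2
      (by simp only [Finset.mem_union]; exact Or.inl (Or.inl (Or.inr hα))) (hbJ j l)
  -- apply hz2
  have hxs : ∀ j < W, c (Nat.nth (· ∈ P0) (i+j)) < c (Nat.nth (· ∈ P0) (i+(j+1))) := by
    intro j hj
    exact hcP _ (nth_mem' P0 _ (by omega)) _ (nth_lt' P0 _ _ (by omega) (by omega))
  obtain ⟨κ, κ', hκ⟩ := hz2 (fun j => c (Nat.nth (· ∈ P0) (i+j)))
    (fun j => c (Nat.nth (· ∈ Q0) (i'+j)))
    (by
      intro j hj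
      exact hcQ _ (nth_mem' Q0 _ (by omega)) _ (hPQ j hj))
    (by
      intro j hj
      exact hcP _ (nth_mem' P0 _ (by omega)) _ (hQP j hj.le))
    (by
      have h1 : c (Nat.nth (· ∈ Q0) (i'+W)) < c (Nat.nth (· ∈ P0) (i+W+1)) :=
        hcP _ (nth_mem' P0 _ (by omega)) _ (hQP W le_rfl)
      exact h1.trans hR)
  have hz := hz1 κ (fun j => c (Nat.nth (· ∈ P0) (i+j))) hxs
  have htk : tk c (z κ) P0 i = tk c (z κ') Q0 i' := by
    unfold tk
    rw [hκ]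
  have hne : {t | z κ (fun j => c (Nat.nth (· ∈ P0) (i+j))) ≤ c t}.Nonempty :=
    ⟨Nat.nth (· ∈ P0) (i+W), hz.2⟩
  have hmem : z κ (fun j => c (Nat.nth (· ∈ P0) (i+j))) ≤ c (tk c (z κ) P0 i) := Nat.sInf_mem hne
  have ht1 : Nat.nth (· ∈ P0) i < tk c (z κ) P0 i := by
    by_contra hcon
    push Not at hcon
    have h1 := hc hcon
    have h2 := hz.1
    simp only [add_zero] at h2
    omega
  have ht2 : tk c (z κ) P0 i ≤ Nat.nth (· ∈ P0) (i+W) := Nat.sInf_le hz.2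
  have ht3 : Nat.nth (· ∈ P0) (i+W) ≤ Nat.nth (· ∈ P0) (i+W+1) := nth_le' P0 _ _ (by omega) hi
  have hLR := adj_claim hn a b hab P Q (tk c (z κ) P0 i) (by
    intro j l
    obtain ⟨m, s, τ, B, hd, hcl⟩ := hall j l
    obtain ⟨i1, hi1, hi1B, ht⟩ := hcl (tk c (z κ) P0 i)
      (Finset.mem_Icc.2 ⟨ht1.le, ht2.trans ht3⟩)
    rw [Finset.mem_Ioc] at ht
    refine ⟨s i1, s (i1+1), ht.1, ht.2, ?_⟩
    have h3 := hd.2.2.2 i1 hi1 hi1B
    cases hτ : τ i1 with
    | true => exact Or.inl (h3.1 hτ)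
    | false => exact Or.inr (h3.2 hτ))
  rcases hLR with h1 | h1
  · exact Or.inl ⟨κ, h1⟩
  · refine Or.inr ⟨i', by omega, ?_, ?_, κ', ?_⟩
    · have := hPQ 0 (Nat.zero_le _)
      simpa using this
    · have := hQP 0 (Nat.zero_le _)
      simpa using this
    · rw [← htk]; exact h1

theorem card_ex_le {ns : ℕ} (M : ℕ) (p : Fin ns → ℕ → Prop) :
    (((range M).filter (fun i => ∃ κ, p κ i)).card : ℝ) ≤
      ∑ κ : Fin ns, ∑ i ∈ range M, (if p κ i then (1:ℝ) else 0) := by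
  rw [Finset.sum_comm]
  rw [Finset.card_filter]
  push_cast
  apply Finset.sum_le_sum
  intro i _
  have hnn : ∀ κ ∈ (Finset.univ : Finset (Fin ns)), (0:ℝ) ≤ (if p κ i then (1:ℝ) else 0) := by
    intro κ _
    split_ifs <;> norm_num
  split_ifs with h
  · obtain ⟨κ, hκ⟩ := h
    have := Finset.single_le_sum hnn (Finset.mem_univ κ)
    rw [if_pos hκ] at this
    exact this
  · exact Finset.sum_nonneg hnn

/-- deterministic counting inequality for one configuration -/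
theorem det_count (N W R n ns : ℕ) (hW : 1 ≤ W) (hn : 1 ≤ n) (z : Fin ns → (ℕ → ℕ) → ℕ)
    (hz1 : ∀ κ x, (∀ j < W, x j < x (j+1)) → x 0 < z κ x ∧ z κ x ≤ x W)
    (hz2 : ∀ x y : ℕ → ℕ, (∀ j ≤ W, x j < y j) → (∀ j < W, y j < x (j+1)) → y W < x 0 + R →
      ∃ κ κ', z κ x = z κ' y)
    (c : ℕ → ℕ) (hc : Monotone c) (P0 Q0 a b : Finset ℕ) (P Q : Fin n → Finset ℕ)
    (hab : Alt a b) (hP0 : ∀ t ∈ P0, 1 ≤ t)
    (hcP : ∀ t ∈ P0, ∀ t' < t, c t' < c t) (hcQ : ∀ t ∈ Q0, ∀ t' < t, c t' < c t)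
    (D0 : ℝ) (D : Fin n → Fin n → ℝ) (hD0 : 0 ≤ D0) (hD : ∀ j l, 0 ≤ D j l)
    (h0 : BS N P0 a b Q0 D0) (h : ∀ j l, BS N (P j) a b (Q l) (D j l)) :
    ((P0.card - (W+1) : ℕ) : ℝ) ≤
      ∑ κ : Fin ns, ∑ i ∈ range P0.card, (if LR a P (tk c (z κ) P0 i) then (1:ℝ) else 0) +
      ∑ κ : Fin ns, ∑ i ∈ range Q0.card, (if LR b Q (tk c (z κ) Q0 i) then (1:ℝ) else 0) +
      (W+2) * (2 * (D0 + ∑ j, ∑ l, D j l) + (n^2+1) * (if P0.Nonempty then (1:ℝ) else 0)) +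
      (((range P0.card).filter (fun i => i + W + 1 < P0.card ∧
        c (Nat.nth (· ∈ P0) i) + R ≤ c (Nat.nth (· ∈ P0) (i+W+1)))).card : ℝ) := by
  by_cases hne : P0.Nonempty
  swap
  · rw [Finset.not_nonempty_iff_eq_empty] at hne
    have hnn1 : ∀ (M : ℕ) (p : Fin ns → ℕ → Prop), (0:ℝ) ≤
      ∑ κ : Fin ns, ∑ i ∈ range M, (if p κ i then (1:ℝ) else 0) := by
      intro M p
      apply Finset.sum_nonneg; intro κ _
      apply Finset.sum_nonneg; intro i _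
      split_ifs <;> norm_num
    have h1 := hnn1 P0.card (fun κ i => LR a P (tk c (z κ) P0 i))
    have h2 := hnn1 Q0.card (fun κ i => LR b Q (tk c (z κ) Q0 i))
    have h3 : (0:ℝ) ≤ (W+2) * (2 * (D0 + ∑ j, ∑ l, D j l) +
        (n^2+1) * (if P0.Nonempty then (1:ℝ) else 0)) := by
      have h4 : 0 ≤ ∑ j, ∑ l, D j l :=
        Finset.sum_nonneg fun j _ => Finset.sum_nonneg fun l _ => hD j l
      have h5 : (0:ℝ) ≤ (if P0.Nonempty then (1:ℝ) else 0) := by split_ifs <;> norm_num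
      positivity
    have h4 : (0:ℝ) ≤ (((range P0.card).filter (fun i => i + W + 1 < P0.card ∧
        c (Nat.nth (· ∈ P0) i) + R ≤ c (Nat.nth (· ∈ P0) (i+W+1)))).card : ℝ) := Nat.cast_nonneg _
    have h5 : ((P0.card - (W+1) : ℕ) : ℝ) = 0 := by rw [hne]; simp
    rw [h5]
    linarith
  rw [if_pos hne, mul_one]
  obtain ⟨Bad0, hBad0, hB0⟩ := bad_set N P0 a b Q0 D0 h0
  choose BadJ hBadJ hBJ using fun j l => bad_set N (P j) a b (Q l) (D j l) (h j l)
  obtain ⟨All, hAll⟩ : ∃ All : Finset ℕ, All = Bad0 ∪ Finset.univ.biUnion (fun j =>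
    Finset.univ.biUnion (fun l => BadJ j l)) := ⟨_, rfl⟩
  have hAllc : (All.card : ℝ) ≤ 2 * (D0 + ∑ j, ∑ l, D j l) + (n^2+1) := by
    have h1 : All.card ≤ Bad0.card + ∑ j, ∑ l, (BadJ j l).card := by
      rw [hAll]
      refine (Finset.card_union_le _ _).trans (Nat.add_le_add_left ?_ _)
      refine Finset.card_biUnion_le.trans ?_
      exact Finset.sum_le_sum fun j _ => Finset.card_biUnion_le
    have h2 : (All.card : ℝ) ≤ (Bad0.card : ℝ) + ∑ j, ∑ l, ((BadJ j l).card : ℝ) := by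
      exact_mod_cast h1
    have h3 : ∑ j, ∑ l, ((BadJ j l).card : ℝ) ≤ ∑ j : Fin n, ∑ l : Fin n, (2 * D j l + 1) :=
      Finset.sum_le_sum fun j _ => Finset.sum_le_sum fun l _ => hBadJ j l
    have h4 : ∑ j : Fin n, ∑ l : Fin n, (2 * D j l + 1) = 2 * (∑ j, ∑ l, D j l) + (n:ℝ)^2 := by
      simp only [Finset.sum_add_distrib, Finset.mul_sum, Finset.sum_const, Finset.card_univ,
        Fintype.card_fin, nsmul_eq_mul, mul_one]
      ring
    rw [h4] at h3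
    linarith
  obtain ⟨win, hwin⟩ : ∃ win : ℕ → Finset ℕ, win = fun p => ((range P0.card).filter (fun i =>
    i + W + 1 < P0.card ∧ Nat.nth (· ∈ P0) i ≤ p ∧ p ≤ Nat.nth (· ∈ P0) (i+W+1))) := ⟨_, rfl⟩
  have hwinc : ∀ p, (win p).card ≤ W + 2 := by
    intro p; rw [hwin]; exact card_win P0 W p
  have hB1 : (All.biUnion win).card ≤ All.card * (W + 2) := by
    refine Finset.card_biUnion_le.trans ?_
    refine (Finset.sum_le_sum fun p _ => hwinc p).trans ?_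
    rw [Finset.sum_const, smul_eq_mul]
  obtain ⟨BAD2, hBAD2⟩ : ∃ S : Finset ℕ, S = (range P0.card).filter (fun i => i + W + 1 < P0.card ∧
        c (Nat.nth (· ∈ P0) i) + R ≤ c (Nat.nth (· ∈ P0) (i+W+1))) := ⟨_, rfl⟩
  obtain ⟨G1, hG1⟩ : ∃ S : Finset ℕ, S = (range P0.card).filter (fun i =>
        ∃ κ, LR a P (tk c (z κ) P0 i)) := ⟨_, rfl⟩
  obtain ⟨G2', hG2'⟩ : ∃ S : Finset ℕ, S = (range Q0.card).filter (fun i' =>
        ∃ κ, LR b Q (tk c (z κ) Q0 i')) := ⟨_, rfl⟩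
  obtain ⟨G2, hG2⟩ : ∃ S : Finset ℕ, S = (range P0.card).filter (fun i =>
        i + 1 < P0.card ∧ ∃ i' ∈ G2', Nat.nth (· ∈ P0) i < Nat.nth (· ∈ Q0) i' ∧
        Nat.nth (· ∈ Q0) i' < Nat.nth (· ∈ P0) (i+1)) := ⟨_, rfl⟩
  have hc1 : (G1.card : ℝ) ≤ ∑ κ : Fin ns, ∑ i ∈ range P0.card,
      (if LR a P (tk c (z κ) P0 i) then (1:ℝ) else 0) := by
    rw [hG1]; exact card_ex_le P0.card (fun κ i => LR a P (tk c (z κ) P0 i))
  have hc2' : (G2'.card : ℝ) ≤ ∑ κ : Fin ns, ∑ i ∈ range Q0.card,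
      (if LR b Q (tk c (z κ) Q0 i) then (1:ℝ) else 0) := by
    rw [hG2']; exact card_ex_le Q0.card (fun κ i => LR b Q (tk c (z κ) Q0 i))
  have hc2 : G2.card ≤ G2'.card := by
    have hex : ∀ i ∈ G2, ∃ i' ∈ G2', Nat.nth (· ∈ P0) i < Nat.nth (· ∈ Q0) i' ∧
        Nat.nth (· ∈ Q0) i' < Nat.nth (· ∈ P0) (i+1) := by
      intro i hi
      rw [hG2, Finset.mem_filter] at hi
      exact hi.2.2
    have hcd : ∀ i ∈ G2, i + 1 < P0.card := by
      intro i hi
      rw [hG2, Finset.mem_filter] at hi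
      exact hi.2.1
    choose! f hf1 hf2 hf3 using hex
    apply Finset.card_le_card_of_injOn f (fun i hi => hf1 i hi)
    have hlt : ∀ i1 ∈ G2, ∀ i2 ∈ G2, i1 < i2 → f i1 ≠ f i2 := by
      intro i1 h1 i2 h2 hlt heq
      have h3 := hf3 i1 h1
      have h4 := hf2 i2 h2
      have h5 := nth_le' P0 (i1+1) i2 hlt (by have := hcd i2 h2; omega)
      rw [heq] at h3
      omega
    intro i1 h1 i2 h2 heq
    rcases lt_trichotomy i1 i2 with h | h | h
    · exact absurd heq (hlt i1 h1 i2 h2 h)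
    · exact h
    · exact absurd heq.symm (hlt i2 h2 i1 h1 h)
  have hV : Finset.range (P0.card - (W+1)) ⊆ ((G1 ∪ G2) ∪ All.biUnion win) ∪ BAD2 := by
    intro i hi
    rw [Finset.mem_range] at hi
    have hi' : i + W + 1 < P0.card := by omega
    have hir : i ∈ range P0.card := by rw [Finset.mem_range]; omega
    by_cases h2 : i ∈ BAD2
    · exact Finset.mem_union_right _ h2
    · apply Finset.mem_union_left
      by_cases h1 : i ∈ All.biUnion win
      · exact Finset.mem_union_right _ h1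
      · apply Finset.mem_union_left
        have hRlt : c (Nat.nth (· ∈ P0) (i+W+1)) < c (Nat.nth (· ∈ P0) i) + R := by
          by_contra hcon
          push Not at hcon
          apply h2
          rw [hBAD2, Finset.mem_filter]
          exact ⟨hir, hi', hcon⟩
        have hnotin : ∀ p ∈ All, p ∉ Finset.Icc (Nat.nth (· ∈ P0) i)
            (Nat.nth (· ∈ P0) (i+W+1)) := by
          intro p hp hcon
          rw [Finset.mem_Icc] at hcon
          apply h1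
          rw [Finset.mem_biUnion]
          refine ⟨p, hp, ?_⟩
          rw [hwin]
          simp only [Finset.mem_filter]
          exact ⟨hir, hi', hcon.1, hcon.2⟩
        have hg := good_window N W R n ns hW hn z hz1 hz2 c hc P0 Q0 a b P Q hab hP0 hcP hcQ
          Bad0 BadJ hB0 hBJ i hi'
          (fun p hp => hnotin p (by rw [hAll]; exact Finset.mem_union_left _ hp))
          (fun j l p hp => hnotin p (by
            rw [hAll]
            apply Finset.mem_union_right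
            rw [Finset.mem_biUnion]
            refine ⟨j, Finset.mem_univ _, ?_⟩
            rw [Finset.mem_biUnion]
            exact ⟨l, Finset.mem_univ _, hp⟩)) hRlt
        rcases hg with hg | ⟨i', hi'c, hg1, hg2, hg3⟩
        · apply Finset.mem_union_left
          rw [hG1, Finset.mem_filter]
          exact ⟨hir, hg⟩
        · apply Finset.mem_union_right
          rw [hG2, Finset.mem_filter]
          refine ⟨hir, by omega, i', ?_, hg1, hg2⟩
          rw [hG2', Finset.mem_filter, Finset.mem_range]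
          exact ⟨hi'c, hg3⟩
  have hcount : P0.card - (W+1) ≤ G1.card + G2.card + (All.biUnion win).card + BAD2.card := by
    have h1 := Finset.card_le_card hV
    rw [Finset.card_range] at h1
    refine h1.trans ?_
    refine (Finset.card_union_le _ _).trans (Nat.add_le_add_right ?_ _)
    refine (Finset.card_union_le _ _).trans (Nat.add_le_add_right ?_ _)
    exact Finset.card_union_le _ _
  have hcount2 : P0.card - (W+1) ≤ G1.card + G2'.card + All.card * (W+2) + BAD2.card := by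
    omega
  have hcount3 : ((P0.card - (W+1) : ℕ) : ℝ) ≤
      (G1.card : ℝ) + G2'.card + All.card * (W+2) + BAD2.card := by
    exact_mod_cast hcount2
  have hfin : (All.card : ℝ) * (W+2) ≤ (W+2) * (2 * (D0 + ∑ j, ∑ l, D j l) + (n^2+1)) := by
    rw [mul_comm]
    exact mul_le_mul_of_nonneg_left hAllc (by positivity)
  rw [← hBAD2]
  linarith

end Pool.Agent.SR871
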