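import Mathlib
import Pool.Agent.SR871.DefsE
set_option autoImplicit false
set_option maxHeartbeats 1000000
namespace Pool.Agent.SR871
open Finset Classical







/-- the first element of `P ∪ Q` is in `P` -/
def te_F (P Q : Finset ℕ) : Prop := ∃ t ∈ P, ∀ t' ∈ Q, t < t'

theorem te_mono {N m : ℕ} {s : ℕ → ℕ} (h : IsFam N m s) : ∀ i ≤ m, ∀ j ≤ i, s j ≤ s i := by
  intro i
  induction i with
  | zero =>
    intro _ j hj
    rw [Nat.le_zero.1 hj]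
  | succ i ih =>
    intro hi j hj
    rcases Nat.lt_or_ge j (i+1) with h1 | h1
    · exact (ih (by omega) j (by omega)).trans (h.2.1 i (by omega)).le
    · rw [le_antisymm hj h1]

theorem te_block {P Q : Finset ℕ} {s : ℕ → ℕ} {N m : ℕ} (h : IsFam N m s) (hm : 0 < m)
    (hO : One P Q (s 0) (s (0+1)))
    (hQ : ∀ t ∈ Q, ∃ i < m, t ∈ Ioc (s i) (s (i+1))) : te_F P Q ∧ ¬ te_F Q P := by
  obtain ⟨h1, h2⟩ := hO
  obtain ⟨t0, ht0⟩ := Finset.card_pos.1 (by rw [h1]; exact Nat.one_pos)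
  rw [Finset.mem_inter, Finset.mem_Ioc] at ht0
  have key : ∀ t ∈ Q, t0 < t := by
    intro t ht
    obtain ⟨i, hi, hti⟩ := hQ t ht
    rcases Nat.eq_zero_or_pos i with h3 | h3
    · exfalso
      subst h3
      have : t ∈ Q ∩ Ioc (s 0) (s (0+1)) := Finset.mem_inter.2 ⟨ht, hti⟩
      rw [h2] at this
      exact absurd this (Finset.notMem_empty t)
    · have h4 := te_mono h i hi.le (0+1) (by omega)
      have h5 := (Finset.mem_Ioc.1 hti).1
      omega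
  refine ⟨⟨t0, ht0.1, key⟩, ?_⟩
  rintro ⟨t, ht, h3⟩
  have := key t ht
  have := h3 t0 ht0.1
  omega

theorem te_key {N : ℕ} {P₁ Q₁ P₂ Q₂ P₃ Q₃ : Finset ℕ} {D : ℝ} (h : PS N P₁ Q₁ P₂ Q₂ P₃ Q₃ D)
    (hD : D < 1) (hne : (P₁ ∪ Q₁).Nonempty) :
    (te_F P₁ Q₁ ∧ te_F P₂ Q₂ ∧ ¬ te_F Q₁ P₁ ∧ ¬ te_F Q₂ P₂) ∨
    (te_F Q₁ P₁ ∧ te_F Q₂ P₂ ∧ ¬ te_F P₁ Q₁ ∧ ¬ te_F P₂ Q₂) := by
  obtain ⟨m, s, τ, B, hf, hτ, hB, hg, hc⟩ := h
  have hc' : B.card + ((P₁ ∪ Q₁ ∪ P₂ ∪ Q₂ ∪ P₃ ∪ Q₃).filter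
      (fun t => ∀ i < m, i ∉ B → t ∉ Ioc (s i) (s (i+1)))).card < 1 := by
    have h1 : ((B.card + ((P₁ ∪ Q₁ ∪ P₂ ∪ Q₂ ∪ P₃ ∪ Q₃).filter
      (fun t => ∀ i < m, i ∉ B → t ∉ Ioc (s i) (s (i+1)))).card : ℕ) : ℝ) < 1 := by
      push_cast
      linarith
    exact_mod_cast h1
  have hB0 : B = ∅ := Finset.card_eq_zero.1 (by omega)
  have hF0 : ((P₁ ∪ Q₁ ∪ P₂ ∪ Q₂ ∪ P₃ ∪ Q₃).filter
      (fun t => ∀ i < m, i ∉ B → t ∉ Ioc (s i) (s (i+1)))) = ∅ := Finset.card_eq_zero.1 (by omega)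
  have hcov : ∀ t ∈ P₁ ∪ Q₁ ∪ P₂ ∪ Q₂ ∪ P₃ ∪ Q₃, ∃ i < m, t ∈ Ioc (s i) (s (i+1)) := by
    intro t ht
    by_contra hcon
    have : t ∈ ((P₁ ∪ Q₁ ∪ P₂ ∪ Q₂ ∪ P₃ ∪ Q₃).filter
      (fun t => ∀ i < m, i ∉ B → t ∉ Ioc (s i) (s (i+1)))) := by
      refine Finset.mem_filter.2 ⟨ht, fun i hi _ hti => hcon ⟨i, hi, hti⟩⟩
    rw [hF0] at this
    exact absurd this (Finset.notMem_empty t)
  have hP1 : ∀ t ∈ P₁, ∃ i < m, t ∈ Ioc (s i) (s (i+1)) := fun t ht => hcov t (by simp [ht])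
  have hQ1 : ∀ t ∈ Q₁, ∃ i < m, t ∈ Ioc (s i) (s (i+1)) := fun t ht => hcov t (by simp [ht])
  have hP2 : ∀ t ∈ P₂, ∃ i < m, t ∈ Ioc (s i) (s (i+1)) := fun t ht => hcov t (by simp [ht])
  have hQ2 : ∀ t ∈ Q₂, ∃ i < m, t ∈ Ioc (s i) (s (i+1)) := fun t ht => hcov t (by simp [ht])
  have hm : 0 < m := by
    obtain ⟨t, ht⟩ := hne
    obtain ⟨i, hi, -⟩ := hcov t (by
      rcases Finset.mem_union.1 ht with h1 | h1 <;> simp [h1])
    omega
  have hg0 := hg 0 hm (by rw [hB0]; exact Finset.notMem_empty 0)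
  cases hτ0 : τ 0 with
  | true =>
    obtain ⟨o1, o2, -⟩ := hg0.1 hτ0
    obtain ⟨a1, a2⟩ := te_block hf hm o1 hQ1
    obtain ⟨b1, b2⟩ := te_block hf hm o2 hQ2
    exact Or.inl ⟨a1, b1, a2, b2⟩
  | false =>
    obtain ⟨o1, o2, -⟩ := hg0.2 hτ0
    obtain ⟨a1, a2⟩ := te_block hf hm o1 hP1
    obtain ⟨b1, b2⟩ := te_block hf hm o2 hP2
    exact Or.inr ⟨a1, b1, a2, b2⟩

theorem te_ne1 {P Q : Finset ℕ} (h : te_F P Q) : (P ∪ Q).Nonempty := by
  obtain ⟨t, ht, -⟩ := h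
  exact ⟨t, Finset.mem_union_left _ ht⟩

theorem te_ne2 {P Q : Finset ℕ} (h : te_F P Q) : (Q ∪ P).Nonempty := by
  obtain ⟨t, ht, -⟩ := h
  exact ⟨t, Finset.mem_union_right _ ht⟩

theorem ae_const {α : Type} [Fintype α] (μ : α → ℝ) (h : ∑ x, μ x = 1) (c : ℝ) :
    ∑ x, μ x * c = c := by
  rw [← Finset.sum_mul, h, one_mul]

/-- averaging an inequality -/
theorem ae_avg {α : Type} [Fintype α] (μ : α → ℝ) (h0 : ∀ x, 0 ≤ μ x) (h : ∑ x, μ x = 1) (c d : ℝ)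
    (f : α → ℝ) (hc : ∀ x, c ≤ d + f x) : c ≤ d + ∑ x, μ x * f x := by
  calc c = ∑ x, μ x * c := (ae_const μ h c).symm
    _ ≤ ∑ x, μ x * (d + f x) := Finset.sum_le_sum fun x _ => mul_le_mul_of_nonneg_left (hc x) (h0 x)
    _ = ∑ x, (μ x * d + μ x * f x) := Finset.sum_congr rfl fun x _ => by ring
    _ = d + ∑ x, μ x * f x := by rw [Finset.sum_add_distrib, ae_const μ h d]

/-- three edges at a vertex cannot all be pairwise perfectly matched -/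
theorem three_edges (N : ℕ) (A1 A1' A2 A2' A3 A3' X X' Y Y' Z Z' : Finset ℕ) (D1 D2 D3 : ℝ)
    (h12 : PS N A1' A1 A2 A2' X X' D1) (h13 : PS N A1' A1 A3 A3' Y Y' D2)
    (h23 : PS N A2' A2 A3 A3' Z Z' D3)
    (hd1 : Disjoint A1 A1') (hd2 : Disjoint A2 A2') (hd3 : Disjoint A3 A3') (hA : A1.Nonempty) :
    1 ≤ D1 ∨ 1 ≤ D2 ∨ 1 ≤ D3 := by
  by_contra hcon
  push Not at hcon
  obtain ⟨c1, c2, c3⟩ := hcon
  have hne : (A1' ∪ A1).Nonempty := by
    obtain ⟨t, ht⟩ := hA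
    exact ⟨t, Finset.mem_union_right _ ht⟩
  have k12 := te_key h12 c1 hne
  have k13 := te_key h13 c2 hne
  have hne2 : (A2' ∪ A2).Nonempty := by
    rcases k12 with h | h
    · exact te_ne2 h.2.1
    · exact te_ne1 h.2.1
  have k23 := te_key h23 c3 hne2
  tauto

/-- probability that an edge is active is at most three times the expected defect -/
theorem active_le {α : Type} [Fintype α] (K : α → α → ℝ) (hs : ∀ u v, K u v = K v u)
    (h0 : ∀ u v, 0 ≤ K u v) (h1 : ∀ u, ∑ v, K u v = 1) (N : ℕ) (A : α → α → Finset ℕ)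
    (hdis : ∀ u v, Disjoint (A u v) (A v u))
    (D : α → α → α → α → ℝ) (hD0 : ∀ a b c d, 0 ≤ D a b c d)
    (hPS : ∀ a b c d, PS N (A a b) (A b a) (A b c) (A c b) (A c d) (A d c) (D a b c d)) :
    ∑ v, ∑ w, K v w * (if (A v w).Nonempty then (1:ℝ) else 0) ≤
      3 * ∑ a, ∑ b, ∑ c, ∑ d, K a b * K b c * K c d * D a b c d := by
  have hswap : ∑ a, ∑ b, ∑ c, ∑ d, K a b * K b c * K c d * D a b c d =
      ∑ v, ∑ a, ∑ c, ∑ d, K a v * K v c * K c d * D a v c d := Finset.sum_comm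
  rw [hswap, Finset.mul_sum]
  refine Finset.sum_le_sum fun v _ => ?_
  have hpt : ∀ w1 w2 w3 x x', (if (A v w1).Nonempty then (1:ℝ) else 0) ≤
      D w1 v w2 x + (D w1 v w3 x' + D w2 v w3 x') := by
    intro w1 w2 w3 x x'
    have e1 := hD0 w1 v w2 x
    have e2 := hD0 w1 v w3 x'
    have e3 := hD0 w2 v w3 x'
    split_ifs with hA
    · rcases three_edges N (A v w1) (A w1 v) (A v w2) (A w2 v) (A v w3) (A w3 v) (A w2 x) (A x w2)
        (A w3 x') (A x' w3) (A w3 x') (A x' w3) _ _ _ (hPS w1 v w2 x) (hPS w1 v w3 x')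
        (hPS w2 v w3 x') (hdis _ _) (hdis _ _) (hdis _ _) hA with h | h | h <;> linarith
    · linarith
  -- average over x
  have h2 : ∀ w1 w2 w3 x', (if (A v w1).Nonempty then (1:ℝ) else 0) ≤
      (∑ x, K w2 x * D w1 v w2 x) + (D w1 v w3 x' + D w2 v w3 x') := by
    intro w1 w2 w3 x'
    have := ae_avg (K w2) (h0 w2) (h1 w2) _ (D w1 v w3 x' + D w2 v w3 x') (fun x => D w1 v w2 x)
      (fun x => by rw [add_comm]; exact hpt w1 w2 w3 x x')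
    linarith
  -- average over x'
  have h3 : ∀ w1 w2 w3, (if (A v w1).Nonempty then (1:ℝ) else 0) ≤
      (∑ x, K w2 x * D w1 v w2 x) + ((∑ x, K w3 x * D w1 v w3 x) + ∑ x, K w3 x * D w2 v w3 x) := by
    intro w1 w2 w3
    have := ae_avg (K w3) (h0 w3) (h1 w3) _ (∑ x, K w2 x * D w1 v w2 x)
      (fun x' => D w1 v w3 x' + D w2 v w3 x') (fun x' => h2 w1 w2 w3 x')
    have e : ∑ x, K w3 x * (D w1 v w3 x + D w2 v w3 x) =
        (∑ x, K w3 x * D w1 v w3 x) + ∑ x, K w3 x * D w2 v w3 x := by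
      rw [← Finset.sum_add_distrib]
      exact Finset.sum_congr rfl fun x _ => by ring
    linarith
  set E : α → α → ℝ := fun a c => ∑ x, K c x * D a v c x with hE
  have h3' : ∀ w1 w2 w3, (if (A v w1).Nonempty then (1:ℝ) else 0) ≤
      E w1 w2 + (E w1 w3 + E w2 w3) := h3
  have h4 : ∀ w1 w2, (if (A v w1).Nonempty then (1:ℝ) else 0) ≤
      E w1 w2 + ((∑ c, K v c * E w1 c) + ∑ c, K v c * E w2 c) := by
    intro w1 w2
    have := ae_avg (K v) (h0 v) (h1 v) _ (E w1 w2) (fun w3 => E w1 w3 + E w2 w3)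
      (fun w3 => h3' w1 w2 w3)
    have e : ∑ c, K v c * (E w1 c + E w2 c) = (∑ c, K v c * E w1 c) + ∑ c, K v c * E w2 c := by
      rw [← Finset.sum_add_distrib]
      exact Finset.sum_congr rfl fun x _ => by ring
    linarith
  set F : α → ℝ := fun a => ∑ c, K v c * E a c with hF
  have h4' : ∀ w1 w2, (if (A v w1).Nonempty then (1:ℝ) else 0) ≤ F w1 + (E w1 w2 + F w2) := by
    intro w1 w2
    have := h4 w1 w2
    have e : F w1 = ∑ c, K v c * E w1 c := rfl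
    have e' : F w2 = ∑ c, K v c * E w2 c := rfl
    linarith
  have h5 : ∀ w1, (if (A v w1).Nonempty then (1:ℝ) else 0) ≤
      F w1 + (F w1 + ∑ c, K v c * F c) := by
    intro w1
    have := ae_avg (K v) (h0 v) (h1 v) _ (F w1) (fun w2 => E w1 w2 + F w2) (fun w2 => h4' w1 w2)
    have e : ∑ c, K v c * (E w1 c + F c) = F w1 + ∑ c, K v c * F c := by
      rw [← Finset.sum_add_distrib]
      exact Finset.sum_congr rfl fun x _ => by ring
    linarith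
  have h6 : ∑ w, K v w * (if (A v w).Nonempty then (1:ℝ) else 0) ≤
      ∑ w, K v w * (F w + (F w + ∑ c, K v c * F c)) :=
    Finset.sum_le_sum fun w _ => mul_le_mul_of_nonneg_left (h5 w) (h0 v w)
  have h7 : ∑ w, K v w * (F w + (F w + ∑ c, K v c * F c)) = 3 * ∑ c, K v c * F c := by
    have e : ∀ w, K v w * (F w + (F w + ∑ c, K v c * F c)) =
        2 * (K v w * F w) + K v w * (∑ c, K v c * F c) := fun w => by ring
    rw [Finset.sum_congr rfl fun w _ => e w, Finset.sum_add_distrib, ae_const (K v) (h1 v),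
      ← Finset.mul_sum]
    ring
  have h8 : ∑ c, K v c * F c = ∑ a, ∑ c, ∑ d, K a v * K v c * K c d * D a v c d := by
    refine Finset.sum_congr rfl fun a _ => ?_
    show K v a * (∑ c, K v c * ∑ x, K c x * D a v c x) = _
    rw [Finset.mul_sum]
    refine Finset.sum_congr rfl fun c _ => ?_
    rw [Finset.mul_sum, Finset.mul_sum]
    refine Finset.sum_congr rfl fun d _ => ?_
    rw [hs v a]
    ring
  rw [← h8]
  linarith

end Pool.Agent.SR871
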