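import Mathlib
import Pool.Agent.SR871.E2c
import Pool.Agent.SR871.E1
import Pool.Agent.SR871.E3
set_option autoImplicit false
set_option maxHeartbeats 1000000
namespace Pool.Agent.SR871
open Finset Classical























/- TO PROVE -/
theorem PS.toBS {N : ℕ} {P₁ Q₁ P₂ Q₂ P₃ Q₃ : Finset ℕ} {D : ℝ} (h : PS N P₁ Q₁ P₂ Q₂ P₃ Q₃ D) :
    BS N Q₁ P₂ Q₂ P₃ D := by
  obtain ⟨m, s, τ, B, h1, h2, h3, h4, h5⟩ := h
  refine ⟨m, s, τ, B, ⟨h1, h2, h3, ?_⟩, ?_⟩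
  · intro i hi hB
    obtain ⟨ht, hf⟩ := h4 i hi hB
    refine ⟨fun h => ?_, fun h => ?_⟩
    · obtain ⟨⟨a1, a2⟩, ⟨b1, b2⟩, ⟨c1, c2⟩⟩ := ht h
      exact ⟨b1, b2, c1, a2⟩
    · obtain ⟨⟨a1, a2⟩, ⟨b1, b2⟩, ⟨c1, c2⟩⟩ := hf h
      exact ⟨b1, b2, a1, c2⟩
  · refine le_trans ?_ h5
    have h6 : ((Q₁ ∪ P₂ ∪ Q₂ ∪ P₃).filter
        (fun t => ∀ i < m, i ∉ B → t ∉ Ioc (s i) (s (i+1)))).card ≤
        ((P₁ ∪ Q₁ ∪ P₂ ∪ Q₂ ∪ P₃ ∪ Q₃).filter
        (fun t => ∀ i < m, i ∉ B → t ∉ Ioc (s i) (s (i+1)))).card := by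
      apply Finset.card_le_card
      apply Finset.filter_subset_filter
      intro t ht
      simp only [Finset.mem_union] at ht ⊢
      tauto
    have h7 : (((Q₁ ∪ P₂ ∪ Q₂ ∪ P₃).filter
        (fun t => ∀ i < m, i ∉ B → t ∉ Ioc (s i) (s (i+1)))).card : ℝ) ≤
        (((P₁ ∪ Q₁ ∪ P₂ ∪ Q₂ ∪ P₃ ∪ Q₃).filter
        (fun t => ∀ i < m, i ∉ B → t ∉ Ioc (s i) (s (i+1)))).card : ℝ) := by
      exact_mod_cast h6
    linarith

/-- the expectation over one side of the configuration -/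
noncomputable def Es {α : Type} [Fintype α] (K : α → α → ℝ) (n : ℕ) (v : α)
    (G : α → (Fin n → α) → ℝ) : ℝ :=
  ∑ w0, K v w0 * ∑ ω : Fin n → α, (∏ i, K v (ω i)) * G w0 ω

theorem Es_mono {α : Type} [Fintype α] (K : α → α → ℝ) (h0 : ∀ u v, 0 ≤ K u v) (n : ℕ) (v : α)
    (G G' : α → (Fin n → α) → ℝ) (h : ∀ w0 ω, K v w0 ≠ 0 → G w0 ω ≤ G' w0 ω) :
    Es K n v G ≤ Es K n v G' := by
  unfold Es
  refine Finset.sum_le_sum (fun w0 _ => ?_)
  by_cases hw : K v w0 = 0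
  · rw [hw, zero_mul, zero_mul]
  · refine mul_le_mul_of_nonneg_left (Finset.sum_le_sum (fun ω _ => ?_)) (h0 v w0)
    exact mul_le_mul_of_nonneg_left (h w0 ω hw) (Finset.prod_nonneg (fun i _ => h0 v (ω i)))

theorem Es_add {α : Type} [Fintype α] (K : α → α → ℝ) (n : ℕ) (v : α)
    (G G' : α → (Fin n → α) → ℝ) :
    Es K n v (fun w0 ω => G w0 ω + G' w0 ω) = Es K n v G + Es K n v G' := by
  unfold Es
  rw [← Finset.sum_add_distrib]
  refine Finset.sum_congr rfl (fun w0 _ => ?_)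
  rw [← mul_add, ← Finset.sum_add_distrib]
  congr 1
  refine Finset.sum_congr rfl (fun ω _ => ?_)
  rw [mul_add]

theorem Es_smul {α : Type} [Fintype α] (K : α → α → ℝ) (n : ℕ) (v : α) (c : ℝ)
    (G : α → (Fin n → α) → ℝ) :
    Es K n v (fun w0 ω => c * G w0 ω) = c * Es K n v G := by
  unfold Es
  rw [Finset.mul_sum]
  refine Finset.sum_congr rfl (fun w0 _ => ?_)
  rw [mul_left_comm, Finset.mul_sum (s := Finset.univ) (a := c)]
  congr 1
  refine Finset.sum_congr rfl (fun ω _ => ?_)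
  rw [mul_left_comm]

theorem Es_sum {α : Type} [Fintype α] (K : α → α → ℝ) (n : ℕ) (v : α) {ι : Type} (s : Finset ι)
    (G : ι → α → (Fin n → α) → ℝ) :
    Es K n v (fun w0 ω => ∑ j ∈ s, G j w0 ω) = ∑ j ∈ s, Es K n v (G j) := by
  induction s using Finset.induction_on with
  | empty =>
    simp only [Finset.sum_empty]
    unfold Es
    simp
  | insert a s ha ih =>
    rw [Finset.sum_insert ha, ← ih, ← Es_add]
    congr 1
    funext w0 ω
    rw [Finset.sum_insert ha]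

theorem Es_fst {α : Type} [Fintype α] (K : α → α → ℝ) (h1 : ∀ u, ∑ v, K u v = 1) (n : ℕ) (v : α)
    (g : α → ℝ) : Es K n v (fun w0 _ => g w0) = ∑ w, K v w * g w := by
  unfold Es
  refine Finset.sum_congr rfl (fun w0 _ => ?_)
  rw [← Finset.sum_mul, prod_mass (K v) (h1 v) n, one_mul]

theorem Es_const {α : Type} [Fintype α] (K : α → α → ℝ) (h1 : ∀ u, ∑ v, K u v = 1) (n : ℕ) (v : α)
    (c : ℝ) : Es K n v (fun _ _ => c) = c := by
  rw [Es_fst K h1 n v (fun _ => c), ← Finset.sum_mul, h1, one_mul]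

theorem Es_snd {α : Type} [Fintype α] (K : α → α → ℝ) (h1 : ∀ u, ∑ v, K u v = 1) (n : ℕ) (v : α)
    (j : Fin n) (g : α → ℝ) : Es K n v (fun _ ω => g (ω j)) = ∑ w, K v w * g w := by
  unfold Es
  rw [← Finset.sum_mul, h1, one_mul]
  exact prod_marginal (K v) (h1 v) n j g

/-- a telescoping bound -/
theorem tel_bound (f : ℕ → ℝ) (C : ℝ) (h0 : ∀ i, 0 ≤ f i) (hC : ∀ i, f i ≤ C) (m k : ℕ) :
    ∑ i ∈ range m, (f (i + k) - f i) ≤ k * C := by
  induction k with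
  | zero => simp
  | succ k ih =>
    have h1 : ∑ i ∈ range m, (f (i + (k + 1)) - f i) =
        ∑ i ∈ range m, (f (i + k) - f i) + ∑ i ∈ range m, (f (i + 1 + k) - f (i + k)) := by
      rw [← Finset.sum_add_distrib]
      refine Finset.sum_congr rfl (fun i _ => ?_)
      rw [show i + (k + 1) = i + 1 + k by ring]
      ring
    have h2 := Finset.sum_range_sub (fun i => f (i + k)) m
    beta_reduce at h2
    rw [h1, h2, Nat.cast_succ, add_mul, one_mul]
    have := h0 (0 + k)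
    have := hC (m + k)
    linarith

theorem F4_bound (P : Finset ℕ) (c : ℕ → ℕ) (hc : Monotone c) (C : ℝ) (hC : ∀ t, (c t : ℝ) ≤ C)
    (W R : ℕ) :
    (R : ℝ) * (((range P.card).filter (fun i => i + W + 1 < P.card ∧
        c (Nat.nth (· ∈ P) i) + R ≤ c (Nat.nth (· ∈ P) (i+W+1)))).card : ℝ) ≤ ((W : ℝ) + 1) * C := by
  have htel := tel_bound (fun i => (c (Nat.nth (· ∈ P) i) : ℝ)) C (fun i => Nat.cast_nonneg _)
    (fun i => hC _) (P.card - (W + 1)) (W + 1)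
  beta_reduce at htel
  rw [Nat.cast_succ] at htel
  refine le_trans ?_ htel
  have hfin : (setOf (fun x => x ∈ P)).Finite := P.finite_toSet
  have hcard : ∀ h : (setOf (fun x => x ∈ P)).Finite, h.toFinset.card = P.card := by
    intro h
    congr 1
    ext x
    rw [Set.Finite.mem_toFinset]
    exact Iff.rfl
  have hmon : ∀ i, i + (W + 1) < P.card →
      c (Nat.nth (· ∈ P) i) ≤ c (Nat.nth (· ∈ P) (i + (W + 1))) := by
    intro i hi
    apply hc
    exact (Nat.nth_lt_nth_of_lt_card hfin (by omega) (lt_of_lt_of_eq hi (hcard hfin).symm)).le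
  have hsub : (range P.card).filter (fun i => i + W + 1 < P.card ∧
        c (Nat.nth (· ∈ P) i) + R ≤ c (Nat.nth (· ∈ P) (i+W+1))) ⊆ range (P.card - (W + 1)) := by
    intro i hi
    have := (Finset.mem_filter.1 hi).2.1
    rw [Finset.mem_range]
    omega
  have h1 : ∑ i ∈ (range P.card).filter (fun i => i + W + 1 < P.card ∧
        c (Nat.nth (· ∈ P) i) + R ≤ c (Nat.nth (· ∈ P) (i+W+1))),
        ((c (Nat.nth (· ∈ P) (i + (W + 1))) : ℝ) - (c (Nat.nth (· ∈ P) i) : ℝ)) ≤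
      ∑ i ∈ range (P.card - (W + 1)),
        ((c (Nat.nth (· ∈ P) (i + (W + 1))) : ℝ) - (c (Nat.nth (· ∈ P) i) : ℝ)) := by
    refine Finset.sum_le_sum_of_subset_of_nonneg hsub (fun i hi _ => ?_)
    have h2 := hmon i (by have := Finset.mem_range.1 hi; omega)
    have h3 : (c (Nat.nth (· ∈ P) i) : ℝ) ≤ (c (Nat.nth (· ∈ P) (i + (W + 1))) : ℝ) := by
      exact_mod_cast h2
    linarith
  refine le_trans ?_ h1
  have h4 : (R : ℝ) * (((range P.card).filter (fun i => i + W + 1 < P.card ∧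
        c (Nat.nth (· ∈ P) i) + R ≤ c (Nat.nth (· ∈ P) (i+W+1)))).card : ℝ) =
      ∑ i ∈ (range P.card).filter (fun i => i + W + 1 < P.card ∧
        c (Nat.nth (· ∈ P) i) + R ≤ c (Nat.nth (· ∈ P) (i+W+1))), (R : ℝ) := by
    rw [Finset.sum_const, nsmul_eq_mul, mul_comm]
  rw [h4]
  refine Finset.sum_le_sum (fun i hi => ?_)
  have h5 := (Finset.mem_filter.1 hi).2.2
  have h6 : (c (Nat.nth (· ∈ P) i) : ℝ) + R ≤ (c (Nat.nth (· ∈ P) (i + (W + 1))) : ℝ) := by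
    exact_mod_cast h5
  linarith

/-- the sum over the rules -/
noncomputable def SS {α : Type} (A : α → α → Finset ℕ) (ns n : ℕ) (z : Fin ns → (ℕ → ℕ) → ℕ)
    (c : ℕ → ℕ) (v u w0 : α) (ω : Fin n → α) : ℝ :=
  ∑ κ : Fin ns, ∑ i ∈ range (A v w0).card,
    (if LR (A v u) (fun j => A v (ω j)) (tk c (z κ) (A v w0) i) then (1:ℝ) else 0)

theorem SS_bound {α : Type} [Fintype α] (K : α → α → ℝ)
    (h0 : ∀ u v, 0 ≤ K u v) (h1 : ∀ u, ∑ v, K u v = 1) (A : α → α → Finset ℕ) (ns n : ℕ)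
    (z : Fin ns → (ℕ → ℕ) → ℕ) (c : ℕ → ℕ) (v : α) :
    ∑ u, K v u * Es K n v (fun w0 ω => SS A ns n z c v u w0 ω) ≤
      (ns * (2 / (n + 1))) * ∑ w, K v w * ((A v w).card : ℝ) := by
  have e1 : ∀ u, Es K n v (fun w0 ω => SS A ns n z c v u w0 ω) =
      ∑ w0, K v w0 * ∑ κ : Fin ns, ∑ i ∈ range (A v w0).card,
        ∑ ω : Fin n → α, (∏ i, K v (ω i)) *
        (if LR (A v u) (fun j => A v (ω j)) (tk c (z κ) (A v w0) i) then (1:ℝ) else 0) := by
    intro u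
    unfold Es SS
    refine Finset.sum_congr rfl (fun w0 _ => ?_)
    congr 1
    simp only [Finset.mul_sum]
    rw [Finset.sum_comm]
    refine Finset.sum_congr rfl (fun κ _ => ?_)
    rw [Finset.sum_comm]
  have e2 : ∑ u, K v u * Es K n v (fun w0 ω => SS A ns n z c v u w0 ω) =
      ∑ w0, K v w0 * ∑ κ : Fin ns, ∑ i ∈ range (A v w0).card, ∑ u, K v u *
        ∑ ω : Fin n → α, (∏ i, K v (ω i)) *
        (if LR (A v u) (fun j => A v (ω j)) (tk c (z κ) (A v w0) i) then (1:ℝ) else 0) := by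
    have e3 : ∀ u, K v u * Es K n v (fun w0 ω => SS A ns n z c v u w0 ω) =
        ∑ w0, K v w0 * ∑ κ : Fin ns, ∑ i ∈ range (A v w0).card, K v u *
        ∑ ω : Fin n → α, (∏ i, K v (ω i)) *
        (if LR (A v u) (fun j => A v (ω j)) (tk c (z κ) (A v w0) i) then (1:ℝ) else 0) := by
      intro u
      rw [e1, Finset.mul_sum]
      refine Finset.sum_congr rfl (fun w0 _ => ?_)
      rw [mul_left_comm, Finset.mul_sum (s := Finset.univ) (a := K v u)]
      congr 1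
      refine Finset.sum_congr rfl (fun κ _ => ?_)
      rw [Finset.mul_sum]
    rw [Finset.sum_congr rfl (fun u _ => e3 u), Finset.sum_comm]
    refine Finset.sum_congr rfl (fun w0 _ => ?_)
    rw [← Finset.mul_sum]
    congr 1
    rw [Finset.sum_comm]
    refine Finset.sum_congr rfl (fun κ _ => ?_)
    rw [Finset.sum_comm]
  rw [e2, Finset.mul_sum]
  refine Finset.sum_le_sum (fun w0 _ => ?_)
  have e4 : ∑ κ : Fin ns, ∑ i ∈ range (A v w0).card, ∑ u, K v u *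
        ∑ ω : Fin n → α, (∏ i, K v (ω i)) *
        (if LR (A v u) (fun j => A v (ω j)) (tk c (z κ) (A v w0) i) then (1:ℝ) else 0) ≤
      ∑ κ : Fin ns, ∑ i ∈ range (A v w0).card, (2 / ((n : ℝ) + 1)) :=
    Finset.sum_le_sum (fun κ _ => Finset.sum_le_sum (fun i _ =>
      exch (K v) (h0 v) (h1 v) n (A v) (tk c (z κ) (A v w0) i)))
  have e5 : ∑ κ : Fin ns, ∑ i ∈ range (A v w0).card, (2 / ((n : ℝ) + 1)) =
      (ns * (2 / (n + 1))) * ((A v w0).card : ℝ) := by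
    rw [Finset.sum_const, Finset.sum_const, Finset.card_range, Finset.card_univ, Fintype.card_fin,
      nsmul_eq_mul, nsmul_eq_mul]
    ring
  rw [e5] at e4
  calc K v w0 * _ ≤ K v w0 * ((ns * (2 / (n + 1))) * ((A v w0).card : ℝ)) :=
        mul_le_mul_of_nonneg_left e4 (h0 v w0)
    _ = _ := by ring

/-- the global counter -/
noncomputable def cc {α : Type} [Fintype α] (K : α → α → ℝ) (A : α → α → Finset ℕ) (t : ℕ) : ℕ :=
  ∑ u, ∑ w, (if K u w ≠ 0 then ((A u w).filter (fun x => x ≤ t)).card else 0)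

theorem cc_term {α : Type} (K : α → α → ℝ) (A : α → α → Finset ℕ) (u w : α) {t t' : ℕ}
    (h : t ≤ t') :
    (if K u w ≠ 0 then ((A u w).filter (fun x => x ≤ t)).card else 0) ≤
      (if K u w ≠ 0 then ((A u w).filter (fun x => x ≤ t')).card else 0) := by
  by_cases hK : K u w ≠ 0
  · rw [if_pos hK, if_pos hK]
    apply Finset.card_le_card
    intro x hx
    rw [Finset.mem_filter] at hx ⊢
    exact ⟨hx.1, hx.2.trans h⟩
  · rw [if_neg hK, if_neg hK]

theorem cc_mono {α : Type} [Fintype α] (K : α → α → ℝ) (A : α → α → Finset ℕ) :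
    Monotone (cc K A) := by
  intro t t' h
  unfold cc
  exact Finset.sum_le_sum (fun u _ => Finset.sum_le_sum (fun w _ => cc_term K A u w h))

theorem cc_strict {α : Type} [Fintype α] (K : α → α → ℝ) (A : α → α → Finset ℕ) (v w : α)
    (hK : K v w ≠ 0) (t : ℕ) (ht : t ∈ A v w) (t' : ℕ) (h : t' < t) : cc K A t' < cc K A t := by
  unfold cc
  refine Finset.sum_lt_sum (fun u _ => Finset.sum_le_sum (fun w _ => cc_term K A u w h.le))
    ⟨v, Finset.mem_univ v, ?_⟩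
  refine Finset.sum_lt_sum (fun w _ => cc_term K A v w h.le) ⟨w, Finset.mem_univ w, ?_⟩
  rw [if_pos hK, if_pos hK]
  apply Finset.card_lt_card
  rw [Finset.ssubset_iff_of_subset]
  · refine ⟨t, Finset.mem_filter.2 ⟨ht, le_rfl⟩, ?_⟩
    intro hx
    have := (Finset.mem_filter.1 hx).2
    omega
  · intro x hx
    rw [Finset.mem_filter] at hx ⊢
    exact ⟨hx.1, hx.2.trans h.le⟩

theorem cc_le {α : Type} [Fintype α] (K : α → α → ℝ) (ℓ : ℝ) (hℓ : 0 < ℓ)
    (h0 : ∀ u v, 0 ≤ K u v) (hℓK : ∀ u v, K u v ≠ 0 → ℓ ≤ K u v) (A : α → α → Finset ℕ) (t : ℕ) :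
    (cc K A t : ℝ) ≤ (∑ v, ∑ w, K v w * ((A v w).card : ℝ)) / ℓ := by
  rw [le_div_iff₀ hℓ]
  unfold cc
  rw [Nat.cast_sum, Finset.sum_mul]
  refine Finset.sum_le_sum (fun u _ => ?_)
  rw [Nat.cast_sum, Finset.sum_mul]
  refine Finset.sum_le_sum (fun w _ => ?_)
  by_cases hK : K u w ≠ 0
  · rw [if_pos hK]
    have h1 : (((A u w).filter (fun x => x ≤ t)).card : ℝ) ≤ ((A u w).card : ℝ) := by
      exact_mod_cast Finset.card_filter_le _ _
    calc (((A u w).filter (fun x => x ≤ t)).card : ℝ) * ℓ ≤ ((A u w).card : ℝ) * K u w :=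
          mul_le_mul h1 (hℓK u w hK) hℓ.le (Nat.cast_nonneg _)
      _ = _ := mul_comm _ _
  · rw [if_neg hK, Nat.cast_zero, zero_mul]
    exact mul_nonneg (h0 u w) (Nat.cast_nonneg _)

theorem counting {α : Type} [Fintype α] (K : α → α → ℝ) (hs : ∀ u v, K u v = K v u)
    (h0 : ∀ u v, 0 ≤ K u v) (h1 : ∀ u, ∑ v, K u v = 1) (ℓ : ℝ) (hℓ : 0 < ℓ)
    (hℓK : ∀ u v, K u v ≠ 0 → ℓ ≤ K u v) (N : ℕ) (A : α → α → Finset ℕ)
    (hA : ∀ u v, ∀ t ∈ A u v, 1 ≤ t) (hAlt : ∀ u v, Alt (A u v) (A v u))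
    (D : α → α → α → α → ℝ) (hD0 : ∀ a b c d, 0 ≤ D a b c d)
    (hPS : ∀ a b c d, PS N (A a b) (A b a) (A b c) (A c b) (A c d) (A d c) (D a b c d))
    (W R ns n : ℕ) (hW : 1 ≤ W) (hn : 1 ≤ n) (hSel : Sel W R ns) (δ : ℝ) (hδ0 : 0 ≤ δ)
    (hδ : ∑ a, ∑ b, ∑ c, ∑ d, K a b * K b c * K c d * D a b c d ≤
      δ * ∑ v, ∑ w, K v w * ((A v w).card : ℝ))
    (hns : 16 * ns ≤ n + 1) (hR : 100 * ((W:ℝ)+2) * (Fintype.card α : ℝ) ≤ ℓ * R)
    (hδn : 32 * δ * ((W:ℝ)+2) * ((n:ℝ)^2+1) ≤ 1) :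
    ∑ v, ∑ w, K v w * ((A v w).card : ℝ) ≤ 0 := by
  obtain ⟨z, hz1, hz2⟩ := hSel
  obtain ⟨c, hc⟩ : ∃ c : ℕ → ℕ, c = cc K A := ⟨_, rfl⟩
  have hcm : Monotone c := by rw [hc]; exact cc_mono K A
  have hcs : ∀ v w, K v w ≠ 0 → ∀ t ∈ A v w, ∀ t' < t, c t' < c t := by
    intro v w hK t ht t' h
    rw [hc]
    exact cc_strict K A v w hK t ht t' h
  obtain ⟨U, hU⟩ : ∃ U : ℝ, U = ∑ v, ∑ w, K v w * ((A v w).card : ℝ) := ⟨_, rfl⟩
  have hcC : ∀ t, (c t : ℝ) ≤ U / ℓ := by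
    intro t
    rw [hc, hU]
    exact cc_le K ℓ hℓ h0 hℓK A t
  obtain ⟨ED, hED⟩ : ∃ ED : ℝ, ED = ∑ a, ∑ b, ∑ c, ∑ d, K a b * K b c * K c d * D a b c d :=
    ⟨_, rfl⟩
  rw [← hU, ← hED] at hδ
  rw [← hU]
  have hU0 : 0 ≤ U := by
    rw [hU]
    exact Finset.sum_nonneg (fun v _ => Finset.sum_nonneg (fun w _ =>
      mul_nonneg (h0 v w) (Nat.cast_nonneg _)))
  -- activity
  obtain ⟨act, hact⟩ : ∃ act : α → α → ℝ, ∀ v w, act v w =
      (if (A v w).Nonempty then (1:ℝ) else 0) := ⟨_, fun _ _ => rfl⟩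
  obtain ⟨Act, hAct⟩ : ∃ Act : ℝ, Act = ∑ v, ∑ w, K v w * act v w := ⟨_, rfl⟩
  have hActle : Act ≤ 3 * ED := by
    have h2 := active_le K hs h0 h1 N A (fun u v => (hAlt u v).1) D hD0 hPS
    rw [← hED] at h2
    rw [hAct]
    simp only [hact]
    exact h2
  obtain ⟨F4, hF4⟩ : ∃ F4 : α → α → ℝ, ∀ v w, F4 v w = (((range (A v w).card).filter
      (fun i => i + W + 1 < (A v w).card ∧ c (Nat.nth (· ∈ A v w) i) + R ≤
        c (Nat.nth (· ∈ A v w) (i+W+1)))).card : ℝ) := ⟨_, fun _ _ => rfl⟩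
  obtain ⟨L, hL⟩ : ∃ L : α → α → ℝ, ∀ v w, L v w = (((A v w).card - (W+1) : ℕ) : ℝ) :=
    ⟨_, fun _ _ => rfl⟩
  obtain ⟨D1, hD1⟩ : ∃ D1 : α → α → α → ℝ, ∀ a v u, D1 a v u = ∑ d, K u d * D a v u d :=
    ⟨_, fun _ _ _ => rfl⟩
  obtain ⟨D2, hD2⟩ : ∃ D2 : α → α → ℝ, ∀ v u, D2 v u = ∑ a, K v a * D1 a v u :=
    ⟨_, fun _ _ => rfl⟩
  -- the pointwise inequality
  have hpt : ∀ v u w0 (ω : Fin n → α) w0' (ω' : Fin n → α), K v w0 ≠ 0 → K u w0' ≠ 0 →
      L v w0 ≤ SS A ns n z c v u w0 ω + (SS A ns n z c u v w0' ω' +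
        ((W+2) * 2 * (D w0 v u w0' + ∑ j, ∑ l, D (ω j) v u (ω' l)) +
        ((W+2) * (n^2+1) * act v w0 + F4 v w0))) := by
    intro v u w0 ω w0' ω' hv hu
    have h2 := det_count N W R n ns hW hn z hz1 hz2 c hcm (A v w0) (A u w0') (A v u) (A u v)
      (fun j => A v (ω j)) (fun l => A u (ω' l)) (hAlt v u) (hA v w0) (hcs v w0 hv)
      (hcs u w0' hu) (D w0 v u w0') (fun j l => D (ω j) v u (ω' l)) (hD0 _ _ _ _)
      (fun j l => hD0 _ _ _ _) (PS.toBS (hPS w0 v u w0')) (fun j l => PS.toBS (hPS (ω j) v u (ω' l)))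
    rw [hL, hact, hF4]
    unfold SS
    refine h2.trans (le_of_eq ?_)
    ring
  -- integrate over the side of u
  have hpt2 : ∀ v u w0 (ω : Fin n → α), K v w0 ≠ 0 →
      L v w0 ≤ SS A ns n z c v u w0 ω + (Es K n u (fun w0' ω' => SS A ns n z c u v w0' ω') +
        ((W+2) * 2 * (D1 w0 v u + ∑ j : Fin n, n * D1 (ω j) v u) +
        ((W+2) * (n^2+1) * act v w0 + F4 v w0))) := by
    intro v u w0 ω hv
    have h2 := Es_mono K h0 n u (fun _ _ => L v w0) (fun w0' ω' =>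
      SS A ns n z c v u w0 ω + (SS A ns n z c u v w0' ω' +
        ((W+2) * 2 * (D w0 v u w0' + ∑ j, ∑ l, D (ω j) v u (ω' l)) +
        ((W+2) * (n^2+1) * act v w0 + F4 v w0)))) (fun w0' ω' hu => hpt v u w0 ω w0' ω' hv hu)
    rw [Es_const K h1, Es_add, Es_const K h1, Es_add, Es_add, Es_const K h1, Es_smul, Es_add,
      Es_fst K h1 n u (fun w0' => D w0 v u w0'), ← hD1, Es_sum] at h2
    have h3 : ∀ j, Es K n u (fun w0' ω' => ∑ l, D (ω j) v u (ω' l)) = n * D1 (ω j) v u := by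
      intro j
      rw [Es_sum]
      have h4 : ∀ l ∈ (Finset.univ : Finset (Fin n)),
          Es K n u (fun w0' ω' => D (ω j) v u (ω' l)) = D1 (ω j) v u := by
        intro l _
        rw [Es_snd K h1 n u l (fun d => D (ω j) v u d), hD1]
      rw [Finset.sum_congr rfl h4, Finset.sum_const, Finset.card_univ, Fintype.card_fin,
        nsmul_eq_mul]
    rw [Finset.sum_congr rfl (fun j _ => h3 j)] at h2
    exact h2
  -- integrate over the side of v
  have hpt3 : ∀ v u, ∑ w, K v w * L v w ≤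
      Es K n v (fun w0 ω => SS A ns n z c v u w0 ω) +
      (Es K n u (fun w0' ω' => SS A ns n z c u v w0' ω') +
        ((W+2) * 2 * (D2 v u + n * (n * D2 v u)) +
        ((W+2) * (n^2+1) * (∑ w, K v w * act v w) + ∑ w, K v w * F4 v w))) := by
    intro v u
    have h2 := Es_mono K h0 n v (fun w0 _ => L v w0) (fun w0 ω =>
      SS A ns n z c v u w0 ω + (Es K n u (fun w0' ω' => SS A ns n z c u v w0' ω') +
        ((W+2) * 2 * (D1 w0 v u + ∑ j : Fin n, n * D1 (ω j) v u) +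
        ((W+2) * (n^2+1) * act v w0 + F4 v w0)))) (fun w0 ω hv => hpt2 v u w0 ω hv)
    rw [Es_fst K h1 n v (fun w => L v w), Es_add, Es_add, Es_const K h1, Es_add, Es_smul, Es_add,
      Es_fst K h1 n v (fun w => D1 w v u), ← hD2, Es_sum, Es_add, Es_smul,
      Es_fst K h1 n v (fun w => act v w), Es_fst K h1 n v (fun w => F4 v w)] at h2
    have h4 : ∀ j ∈ (Finset.univ : Finset (Fin n)),
        Es K n v (fun w0 ω => (n : ℝ) * D1 (ω j) v u) = n * D2 v u := by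
      intro j _
      rw [Es_smul, Es_snd K h1 n v j (fun a => D1 a v u), hD2]
    rw [Finset.sum_congr rfl h4, Finset.sum_const, Finset.card_univ, Fintype.card_fin,
        nsmul_eq_mul] at h2
    exact h2
  -- sum over v and u
  have hsum : ∑ v, ∑ u, K v u * (∑ w, K v w * L v w) ≤
      ∑ v, ∑ u, K v u * (Es K n v (fun w0 ω => SS A ns n z c v u w0 ω) +
      (Es K n u (fun w0' ω' => SS A ns n z c u v w0' ω') +
        ((W+2) * 2 * (D2 v u + n * (n * D2 v u)) +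
        ((W+2) * (n^2+1) * (∑ w, K v w * act v w) + ∑ w, K v w * F4 v w)))) :=
    Finset.sum_le_sum (fun v _ => Finset.sum_le_sum (fun u _ =>
      mul_le_mul_of_nonneg_left (hpt3 v u) (h0 v u)))
  have hl : ∀ g : α → ℝ, ∑ v, ∑ u, K v u * g v = ∑ v, g v := by
    intro g
    refine Finset.sum_congr rfl (fun v _ => ?_)
    rw [← Finset.sum_mul, h1, one_mul]
  rw [hl (fun v => ∑ w, K v w * L v w)] at hsum
  have hsplit : ∑ v, ∑ u, K v u * (Es K n v (fun w0 ω => SS A ns n z c v u w0 ω) +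
      (Es K n u (fun w0' ω' => SS A ns n z c u v w0' ω') +
        ((W+2) * 2 * (D2 v u + n * (n * D2 v u)) +
        ((W+2) * (n^2+1) * (∑ w, K v w * act v w) + ∑ w, K v w * F4 v w)))) =
      ∑ v, ∑ u, K v u * Es K n v (fun w0 ω => SS A ns n z c v u w0 ω) +
      (∑ v, ∑ u, K v u * Es K n u (fun w0' ω' => SS A ns n z c u v w0' ω') +
      (((W:ℝ)+2) * 2 * (1 + n^2) * (∑ v, ∑ u, K v u * D2 v u) +
      (((W:ℝ)+2) * (n^2+1) * Act + ∑ v, ∑ w, K v w * F4 v w))) := by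
    rw [hAct, ← hl (fun v => ∑ w, K v w * act v w), ← hl (fun v => ∑ w, K v w * F4 v w)]
    rw [Finset.mul_sum (f := fun v => ∑ u, K v u * D2 v u),
      Finset.mul_sum (f := fun v => ∑ u, K v u * ∑ w, K v w * act v w),
      ← Finset.sum_add_distrib, ← Finset.sum_add_distrib, ← Finset.sum_add_distrib,
      ← Finset.sum_add_distrib]
    refine Finset.sum_congr rfl (fun v _ => ?_)
    rw [Finset.mul_sum (f := fun u => K v u * D2 v u),
      Finset.mul_sum (f := fun u => K v u * ∑ w, K v w * act v w),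
      ← Finset.sum_add_distrib, ← Finset.sum_add_distrib, ← Finset.sum_add_distrib,
      ← Finset.sum_add_distrib]
    refine Finset.sum_congr rfl (fun u _ => ?_)
    ring
  rw [hsplit] at hsum
  -- bounds for the parts
  obtain ⟨ρ, hρ⟩ : ∃ ρ : ℝ, ρ = ns * (2 / (n + 1)) := ⟨_, rfl⟩
  have hρ8 : ρ ≤ 1 / 8 := by
    rw [hρ]
    have h2 : (16 : ℝ) * ns ≤ n + 1 := by exact_mod_cast hns
    have h3 : (0 : ℝ) < n + 1 := by positivity
    rw [← mul_div_assoc, div_le_iff₀ h3]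
    linarith
  have hT1 : ∑ v, ∑ u, K v u * Es K n v (fun w0 ω => SS A ns n z c v u w0 ω) ≤ ρ * U := by
    rw [hU, Finset.mul_sum, hρ]
    exact Finset.sum_le_sum (fun v _ => SS_bound K h0 h1 A ns n z c v)
  have hT2 : ∑ v, ∑ u, K v u * Es K n u (fun w0' ω' => SS A ns n z c u v w0' ω') ≤ ρ * U := by
    rw [Finset.sum_comm]
    refine le_trans (le_of_eq ?_) hT1
    refine Finset.sum_congr rfl (fun v _ => Finset.sum_congr rfl (fun u _ => ?_))
    rw [hs u v]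
  have hEDeq : ∑ v, ∑ u, K v u * D2 v u = ED := by
    rw [hED]
    have h2 : ∀ v u, K v u * D2 v u = ∑ a, ∑ d, K a v * K v u * K u d * D a v u d := by
      intro v u
      rw [hD2, Finset.mul_sum]
      refine Finset.sum_congr rfl (fun a _ => ?_)
      rw [hD1, Finset.mul_sum, Finset.mul_sum]
      refine Finset.sum_congr rfl (fun d _ => ?_)
      rw [hs a v]
      ring
    rw [Finset.sum_congr rfl (fun v _ => Finset.sum_congr rfl (fun u _ => h2 v u))]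
    rw [Finset.sum_congr rfl (fun v _ => Finset.sum_comm), Finset.sum_comm]
  have hLlow : U - (W+1) * Act ≤ ∑ v, ∑ w, K v w * L v w := by
    rw [hU, hAct, Finset.mul_sum, ← Finset.sum_sub_distrib]
    refine Finset.sum_le_sum (fun v _ => ?_)
    rw [Finset.mul_sum, ← Finset.sum_sub_distrib]
    refine Finset.sum_le_sum (fun w _ => ?_)
    have h2 : ((A v w).card : ℝ) - (W+1) * act v w ≤ L v w := by
      rw [hL, hact]
      by_cases hne : (A v w).Nonempty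
      · rw [if_pos hne]
        have h3 : (A v w).card ≤ ((A v w).card - (W+1)) + (W + 1) := by omega
        have h4 : ((A v w).card : ℝ) ≤ (((A v w).card - (W+1) : ℕ) : ℝ) + (W + 1) := by
          exact_mod_cast h3
        linarith
      · rw [if_neg hne, Finset.not_nonempty_iff_eq_empty.1 hne]
        simp
    have h3 := mul_le_mul_of_nonneg_left h2 (h0 v w)
    calc K v w * ((A v w).card : ℝ) - ((W:ℝ)+1) * (K v w * act v w)
        = K v w * (((A v w).card : ℝ) - (W+1) * act v w) := by ring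
      _ ≤ _ := h3
  have hcard : 0 < (Fintype.card α : ℝ) ∨ U = 0 := by
    rcases Nat.eq_zero_or_pos (Fintype.card α) with h2 | h2
    · right
      have : IsEmpty α := Fintype.card_eq_zero_iff.1 h2
      rw [hU]
      exact Finset.sum_of_isEmpty _
    · left
      exact_mod_cast h2
  rcases hcard with hcard | hcard
  swap
  · rw [hcard]
  have hR0 : (0 : ℝ) < R := by
    by_contra hcon
    have h2 : (R : ℝ) ≤ 0 := not_lt.1 hcon
    have h3 : ℓ * (R : ℝ) ≤ 0 := mul_nonpos_of_nonneg_of_nonpos hℓ.le h2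
    have h4 : 0 < 100 * ((W:ℝ)+2) * (Fintype.card α : ℝ) := by positivity
    linarith
  have hF4b : ∑ v, ∑ w, K v w * F4 v w ≤ U / 100 := by
    have h2 : ∀ v w, F4 v w ≤ ((W : ℝ) + 1) * (U / ℓ) / R := by
      intro v w
      rw [le_div_iff₀ hR0, mul_comm, hF4]
      exact F4_bound (A v w) c hcm (U / ℓ) hcC W R
    have h3 : ∑ v, ∑ w, K v w * F4 v w ≤ ∑ v : α, ∑ w, K v w * (((W : ℝ) + 1) * (U / ℓ) / R) :=
      Finset.sum_le_sum (fun v _ => Finset.sum_le_sum (fun w _ =>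
        mul_le_mul_of_nonneg_left (h2 v w) (h0 v w)))
    have h4 : ∑ v : α, ∑ w, K v w * (((W : ℝ) + 1) * (U / ℓ) / R) =
        (Fintype.card α : ℝ) * (((W : ℝ) + 1) * (U / ℓ) / R) := by
      have h5 : ∀ v ∈ (Finset.univ : Finset α), ∑ w, K v w * (((W : ℝ) + 1) * (U / ℓ) / R)
          = ((W : ℝ) + 1) * (U / ℓ) / R := by
        intro v _
        rw [← Finset.sum_mul, h1, one_mul]
      rw [Finset.sum_congr rfl h5, Finset.sum_const, Finset.card_univ, nsmul_eq_mul]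
    rw [h4] at h3
    refine h3.trans ?_
    have h6 : (Fintype.card α : ℝ) * (((W : ℝ) + 1) * (U / ℓ) / R) =
        ((Fintype.card α : ℝ) * ((W : ℝ) + 1) * U) / (ℓ * R) := by
      field_simp
    rw [h6, div_le_iff₀ (mul_pos hℓ hR0)]
    have h7 : U * (100 * ((W:ℝ)+2) * (Fintype.card α : ℝ)) ≤ U * (ℓ * R) :=
      mul_le_mul_of_nonneg_left hR hU0
    have h8 : 0 ≤ U * (Fintype.card α : ℝ) := mul_nonneg hU0 hcard.le
    nlinarith
  rw [hEDeq] at hsum
  have hED0 : 0 ≤ ED := by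
    rw [hED]
    exact Finset.sum_nonneg (fun a _ => Finset.sum_nonneg (fun b _ => Finset.sum_nonneg (fun c _ =>
      Finset.sum_nonneg (fun d _ => mul_nonneg (mul_nonneg (mul_nonneg (h0 _ _) (h0 _ _)) (h0 _ _))
        (hD0 _ _ _ _)))))
  have hq1 : ρ * U ≤ 1 / 8 * U := mul_le_mul_of_nonneg_right hρ8 hU0
  have hw0 : (0 : ℝ) ≤ (W : ℝ) := Nat.cast_nonneg _
  have hnn : (1 : ℝ) ≤ (n : ℝ) ^ 2 + 1 := by nlinarith [sq_nonneg (n : ℝ)]
  have hq2 : ((W:ℝ)+2) * (n^2+1) * Act ≤ ((W:ℝ)+2) * (n^2+1) * (3 * ED) :=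
    mul_le_mul_of_nonneg_left hActle (by positivity)
  have hq3 : ((W:ℝ)+1) * Act ≤ ((W:ℝ)+1) * (3 * ED) :=
    mul_le_mul_of_nonneg_left hActle (by positivity)
  have hq4 : ((W:ℝ)+1) * (3 * ED) ≤ ((W:ℝ)+2) * (n^2+1) * (3 * ED) := by
    refine mul_le_mul_of_nonneg_right ?_ (by positivity)
    nlinarith
  have hq5 : ((W:ℝ)+2) * (n^2+1) * ED ≤ ((W:ℝ)+2) * (n^2+1) * (δ * U) :=
    mul_le_mul_of_nonneg_left hδ (by positivity)
  have hq6 : 32 * (((W:ℝ)+2) * (n^2+1) * (δ * U)) ≤ U := by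
    have := mul_le_mul_of_nonneg_right hδn hU0
    linarith
  have hfin := hLlow.trans hsum
  nlinarith

end Pool.Agent.SR871
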