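import Mathlib
import Pool.Agent.SR871.Defs
set_option autoImplicit false
set_option maxHeartbeats 1000000
namespace Pool.Agent.SR871
open Finset



def dd (x y : ℕ) : ℕ := Nat.findGreatest (fun L => x / 2 ^ L < y / 2 ^ L) y

theorem div_lt_mono {x y L L' : ℕ} (hL : L ≤ L') (h : x / 2 ^ L' < y / 2 ^ L') :
    x / 2 ^ L < y / 2 ^ L := by
  by_contra hcon
  have h1 : y / 2 ^ L ≤ x / 2 ^ L := not_lt.1 hcon
  have e : ∀ u : ℕ, u / 2 ^ L' = u / 2 ^ L / 2 ^ (L' - L) := by
    intro u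
    rw [Nat.div_div_eq_div_mul, ← pow_add, Nat.add_sub_cancel' hL]
  rw [e x, e y] at h
  exact absurd (Nat.div_le_div_right (c := 2 ^ (L' - L)) h1) (not_le.2 h)

theorem dd_iff {x y : ℕ} (hxy : x < y) (L : ℕ) : x / 2 ^ L < y / 2 ^ L ↔ L ≤ dd x y := by
  constructor
  · intro h
    have h1 : L ≤ y := by
      have h2 : 0 < y / 2 ^ L := lt_of_le_of_lt (Nat.zero_le _) h
      have h3 : 2 ^ L ≤ y := (Nat.div_pos_iff.1 h2).2
      have h4 : L < 2 ^ L := Nat.lt_two_pow_self
      omega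
    exact Nat.le_findGreatest h1 h
  · intro h
    have h0 : x / 2 ^ (dd x y) < y / 2 ^ (dd x y) := by
      have := Nat.findGreatest_spec (P := fun L => x / 2 ^ L < y / 2 ^ L) (m := 0) (n := y)
        (Nat.zero_le _) (by simpa using hxy)
      exact this
    exact div_lt_mono h h0

theorem dd_succ {x y : ℕ} (hxy : x < y) :
    y / 2 ^ (dd x y) = x / 2 ^ (dd x y) + 1 ∧ (y / 2 ^ (dd x y)) % 2 = 1 := by
  have h1 := (dd_iff hxy (dd x y)).2 le_rfl
  have h2 : ¬ x / 2 ^ (dd x y + 1) < y / 2 ^ (dd x y + 1) := by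
    rw [dd_iff hxy]
    omega
  rw [pow_succ, ← Nat.div_div_eq_div_mul, ← Nat.div_div_eq_div_mul] at h2
  generalize x / 2 ^ (dd x y) = A at *
  generalize y / 2 ^ (dd x y) = B at *
  omega

theorem dd_max {x y z : ℕ} (hxy : x < y) (hyz : y < z) : dd x z = max (dd x y) (dd y z) := by
  apply eq_of_forall_le_iff
  intro L
  rw [le_max_iff, ← dd_iff hxy, ← dd_iff hyz, ← dd_iff (hxy.trans hyz)]
  have h1 : x / 2 ^ L ≤ y / 2 ^ L := Nat.div_le_div_right hxy.le
  have h2 : y / 2 ^ L ≤ z / 2 ^ L := Nat.div_le_div_right hyz.le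
  omega

theorem dd_ne {x y z : ℕ} (hxy : x < y) (hyz : y < z) : dd x y ≠ dd y z := by
  intro h
  have h1 := dd_succ hxy
  have h2 := dd_succ hyz
  rw [h] at h1
  omega

def pp (x y : ℕ) : ℕ := y / 2 ^ (dd x y) * 2 ^ (dd x y)

theorem lt_mul_of {x m L : ℕ} (h : x / 2 ^ L < m) : x < m * 2 ^ L :=
  (Nat.div_lt_iff_lt_mul (by positivity)).1 h

theorem pp_lt {x y : ℕ} (hxy : x < y) : x < pp x y :=
  lt_mul_of ((dd_iff hxy _).2 le_rfl)

theorem pp_le (x y : ℕ) : pp x y ≤ y := Nat.div_mul_le_self _ _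

theorem pp_eq {x u v y : ℕ} (hxu : x ≤ u) (huv : u < v) (hvy : v ≤ y) (h : dd u v = dd x y) :
    pp u v = pp x y := by
  have hxy : x < y := by omega
  have h1 := (dd_succ hxy).1
  have h2 := (dd_iff huv (dd x y)).2 h.ge
  have h3 : x / 2 ^ (dd x y) ≤ u / 2 ^ (dd x y) := Nat.div_le_div_right hxu
  have h4 : v / 2 ^ (dd x y) ≤ y / 2 ^ (dd x y) := Nat.div_le_div_right hvy
  unfold pp
  rw [h]
  congr 1
  omega

theorem mono_of_lt {f : ℕ → ℕ} {N : ℕ} (h : ∀ k < N, f k < f (k + 1)) :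
    ∀ a b, a ≤ b → b ≤ N → f a ≤ f b := by
  intro a b hab
  induction b, hab using Nat.le_induction with
  | base => intro _; exact le_rfl
  | succ b hab ih =>
    intro hb
    have := h b (by omega)
    have := ih (by omega)
    omega

theorem Sel.of_fintype {W R N : ℕ} {ι : Type} [Fintype ι] (hc : Fintype.card ι = N)
    (z : ι → (ℕ → ℕ) → ℕ)
    (h1 : ∀ i x, (∀ j < W, x j < x (j+1)) → x 0 < z i x ∧ z i x ≤ x W)
    (h2 : ∀ x y : ℕ → ℕ, (∀ j ≤ W, x j < y j) → (∀ j < W, y j < x (j+1)) → y W < x 0 + R →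
      ∃ i j, z i x = z j y) : Sel W R N := by
  let e := Fintype.equivFinOfCardEq hc
  refine ⟨fun i => z (e.symm i), fun i x hx => h1 _ x hx, ?_⟩
  intro x y hxy hyx hR
  obtain ⟨i, j, hij⟩ := h2 x y hxy hyx hR
  exact ⟨e i, e j, by simpa using hij⟩

theorem Sel.base (W : ℕ) : Sel W (2*W+1) 0 := by
  refine ⟨fun i => i.elim0, fun i => i.elim0, ?_⟩
  intro x y h1 h2 h3
  exfalso
  have key : ∀ j, j ≤ W → x 0 + 2 * j + 1 ≤ y j := by
    intro j
    induction j with
    | zero => intro _; have := h1 0 (Nat.zero_le _); omega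
    | succ j ih =>
      intro hj
      have a := ih (by omega)
      have b := h2 j (by omega)
      have c := h1 (j + 1) hj
      omega
  have := key W le_rfl
  omega

def hatD (W : ℕ) (x : ℕ → ℕ) (a : ℕ) : ℕ := dd (x (W + 1 - a)) (x (W + 2 - a))

def hatU (W : ℕ) (x : ℕ → ℕ) (a : ℕ) : ℕ := dd (x (W + 2 + a)) (x (W + 3 + a))

open Classical in
noncomputable def rD (W n : ℕ) (z : Fin n → (ℕ → ℕ) → ℕ) (i : Fin n) (x : ℕ → ℕ) : ℕ :=
  if (∀ a < W, hatD W x a < hatD W x (a + 1)) then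
    x (W + 2) / 2 ^ (z i (hatD W x)) * 2 ^ (z i (hatD W x)) else x (2 * W + 4)

open Classical in
noncomputable def rU (W n : ℕ) (z : Fin n → (ℕ → ℕ) → ℕ) (i : Fin n) (x : ℕ → ℕ) : ℕ :=
  if (∀ a < W, hatU W x a < hatU W x (a + 1)) then
    (x (W + 3) / 2 ^ (z i (hatU W x)) + 1) * 2 ^ (z i (hatU W x)) else x (2 * W + 4)

theorem rD_range (W n : ℕ) (z : Fin n → (ℕ → ℕ) → ℕ) (i : Fin n) (x : ℕ → ℕ)
    (hz : ∀ i x, (∀ j < W, x j < x (j+1)) → x 0 < z i x ∧ z i x ≤ x W)
    (hx : ∀ j < 2 * W + 4, x j < x (j + 1)) : x 0 < rD W n z i x ∧ rD W n z i x ≤ x (2 * W + 4) := by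
  have hm := mono_of_lt hx
  unfold rD
  split_ifs with hc
  · have h1 := (hz i (hatD W x) hc).2
    have h2 : hatD W x W = dd (x 1) (x 2) := by
      unfold hatD
      rw [show W + 1 - W = 1 by omega, show W + 2 - W = 2 by omega]
    rw [h2] at h1
    have h3 := (dd_iff (hx 1 (by omega)) _).2 h1
    have h4 : x 2 / 2 ^ (z i (hatD W x)) ≤ x (W + 2) / 2 ^ (z i (hatD W x)) :=
      Nat.div_le_div_right (hm 2 (W + 2) (by omega) (by omega))
    have h5 := lt_mul_of (lt_of_lt_of_le h3 h4)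
    have h6 := hx 0 (by omega)
    have h7 : x (W + 2) / 2 ^ (z i (hatD W x)) * 2 ^ (z i (hatD W x)) ≤ x (W + 2) :=
      Nat.div_mul_le_self _ _
    have h8 := hm (W + 2) (2 * W + 4) (by omega) le_rfl
    constructor
    · exact lt_trans h6 h5
    · exact h7.trans h8
  · have h6 := hx 0 (by omega)
    have h8 := hm 1 (2 * W + 4) (by omega) le_rfl
    constructor
    · exact lt_of_lt_of_le h6 h8
    · exact le_rfl

theorem rU_range (W n : ℕ) (hW : 1 ≤ W) (z : Fin n → (ℕ → ℕ) → ℕ) (i : Fin n) (x : ℕ → ℕ)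
    (hz : ∀ i x, (∀ j < W, x j < x (j+1)) → x 0 < z i x ∧ z i x ≤ x W)
    (hx : ∀ j < 2 * W + 4, x j < x (j + 1)) : x 0 < rU W n z i x ∧ rU W n z i x ≤ x (2 * W + 4) := by
  have hm := mono_of_lt hx
  unfold rU
  split_ifs with hc
  · have h1 := (hz i (hatU W x) hc).2
    have h2 : hatU W x W = dd (x (2 * W + 2)) (x (2 * W + 2 + 1)) := by
      unfold hatU
      rw [show W + 2 + W = 2 * W + 2 by omega, show W + 3 + W = 2 * W + 2 + 1 by omega]
    rw [h2] at h1
    have h3 := (dd_iff (hx (2 * W + 2) (by omega)) _).2 h1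
    have h4 : x (W + 3) / 2 ^ (z i (hatU W x)) ≤ x (2 * W + 2) / 2 ^ (z i (hatU W x)) :=
      Nat.div_le_div_right (hm (W + 3) (2 * W + 2) (by omega) (by omega))
    have h5 : x (W + 3) < (x (W + 3) / 2 ^ (z i (hatU W x)) + 1) * 2 ^ (z i (hatU W x)) :=
      lt_mul_of (Nat.lt_succ_self _)
    have h6 := hm 0 (W + 3) (by omega) (by omega)
    have h7 : (x (W + 3) / 2 ^ (z i (hatU W x)) + 1) * 2 ^ (z i (hatU W x)) ≤
        x (2 * W + 2 + 1) / 2 ^ (z i (hatU W x)) * 2 ^ (z i (hatU W x)) :=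
      Nat.mul_le_mul_right _ (by omega)
    have h7' : x (2 * W + 2 + 1) / 2 ^ (z i (hatU W x)) * 2 ^ (z i (hatU W x)) ≤ x (2 * W + 2 + 1) :=
      Nat.div_mul_le_self _ _
    have h8 := hm (2 * W + 2 + 1) (2 * W + 4) (by omega) le_rfl
    constructor
    · exact lt_of_le_of_lt h6 h5
    · exact (h7.trans h7').trans h8
  · have h6 := hx 0 (by omega)
    have h8 := hm 1 (2 * W + 4) (by omega) le_rfl
    constructor
    · exact lt_of_lt_of_le h6 h8
    · exact le_rfl

theorem div_eq_of_dd_lt {x y L : ℕ} (hxy : x < y) (h : dd x y < L) : x / 2 ^ L = y / 2 ^ L := by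
  have h1 : ¬ x / 2 ^ L < y / 2 ^ L := by
    rw [dd_iff hxy]
    omega
  have h2 : x / 2 ^ L ≤ y / 2 ^ L := Nat.div_le_div_right hxy.le
  omega

theorem agree (W R n : ℕ) (hW : 1 ≤ W) (z : Fin n → (ℕ → ℕ) → ℕ)
    (hz : ∀ i x, (∀ j < W, x j < x (j+1)) → x 0 < z i x ∧ z i x ≤ x W)
    (ha : ∀ x y : ℕ → ℕ, (∀ j ≤ W, x j < y j) → (∀ j < W, y j < x (j+1)) → y W < x 0 + R →
      ∃ i j, z i x = z j y)
    (x y : ℕ → ℕ) (hxy : ∀ j ≤ 2 * W + 4, x j < y j) (hyx : ∀ j < 2 * W + 4, y j < x (j + 1))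
    (hR : y (2 * W + 4) < x 0 + 2 ^ R) :
    (∃ a b, a < 2 * W + 4 ∧ b < 2 * W + 4 ∧ pp (x a) (x (a + 1)) = pp (y b) (y (b + 1))) ∨
    (∃ i j, rD W n z i x = rD W n z j y) ∨ (∃ i j, rU W n z i x = rU W n z j y) := by
  obtain ⟨w, hwe, hwo⟩ : ∃ w : ℕ → ℕ, (∀ k, w (2 * k) = x k) ∧ (∀ k, w (2 * k + 1) = y k) := by
    refine ⟨fun k => if k % 2 = 0 then x (k / 2) else y (k / 2), ?_, ?_⟩
    · intro k
      simp
    · intro k
      simp only
      rw [if_neg (by omega)]
      congr 1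
      omega
  have hw : ∀ k < 4 * W + 9, w k < w (k + 1) := by
    intro k hk
    rcases Nat.even_or_odd' k with ⟨c, rfl | rfl⟩
    · rw [hwe, hwo]
      exact hxy c (by omega)
    · rw [hwo, show 2 * c + 1 + 1 = 2 * (c + 1) by ring, hwe]
      exact hyx c (by omega)
  have hwm := mono_of_lt hw
  obtain ⟨r, hr⟩ : ∃ r : ℕ → ℕ, ∀ k, r k = dd (w k) (w (k + 1)) := ⟨_, fun _ => rfl⟩
  have hne : ∀ k, k + 1 < 4 * W + 9 → r k ≠ r (k + 1) := by
    intro k hk
    rw [hr, hr]
    exact dd_ne (hw k (by omega)) (hw (k + 1) (by omega))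
  have hmx : ∀ k, k + 1 < 4 * W + 9 → dd (w k) (w (k + 2)) = max (r k) (r (k + 1)) := by
    intro k hk
    rw [hr, hr]
    exact dd_max (hw k (by omega)) (hw (k + 1) (by omega))
  have htwo : ∀ a b, a < b → b + 1 ≤ 4 * W + 9 → R ≤ r a → R ≤ r b → False := by
    intro a b hab hb h1 h2
    rw [hr] at h1 h2
    have h3 := (dd_iff (hw a (by omega)) R).2 h1
    have h4 := (dd_iff (hw b (by omega)) R).2 h2
    have h5 : w 0 / 2 ^ R ≤ w a / 2 ^ R := Nat.div_le_div_right (hwm 0 a (by omega) (by omega))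
    have h6 : w (a + 1) / 2 ^ R ≤ w b / 2 ^ R :=
      Nat.div_le_div_right (hwm (a + 1) b (by omega) (by omega))
    have h7 : w (b + 1) / 2 ^ R ≤ w (4 * W + 9) / 2 ^ R :=
      Nat.div_le_div_right (hwm (b + 1) _ (by omega) le_rfl)
    have e0 : w 0 = x 0 := by simpa using hwe 0
    have eM : w (4 * W + 9) = y (2 * W + 4) := by
      rw [← hwo]
      congr 1
      ring
    rw [e0] at h5
    rw [eM] at h7
    have h8 : x 0 / 2 ^ R + 2 ≤ y (2 * W + 4) / 2 ^ R := by omega
    have h9 : (x 0 / 2 ^ R + 2) * 2 ^ R ≤ y (2 * W + 4) :=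
      (Nat.mul_le_mul_right _ h8).trans (Nat.div_mul_le_self _ _)
    have h10 : x 0 < (x 0 / 2 ^ R + 1) * 2 ^ R := lt_mul_of (Nat.lt_succ_self _)
    have h11 : (x 0 / 2 ^ R + 2) * 2 ^ R = (x 0 / 2 ^ R + 1) * 2 ^ R + 2 ^ R := by ring
    omega
  by_cases hA : ∃ k, k + 2 < 4 * W + 9 ∧ r k < r (k + 1) ∧ r (k + 2) < r (k + 1)
  · obtain ⟨k, hk, h1, h2⟩ := hA
    left
    have e1 : pp (w (k + 1)) (w (k + 2)) = pp (w k) (w (k + 2)) := by
      apply pp_eq (hw k (by omega)).le (hw (k + 1) (by omega)) le_rfl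
      rw [hmx k (by omega), max_eq_right h1.le, hr]
    have e2 : pp (w (k + 1)) (w (k + 2)) = pp (w (k + 1)) (w (k + 3)) := by
      apply pp_eq le_rfl (hw (k + 1) (by omega)) (hw (k + 2) (by omega)).le
      rw [hmx (k + 1) (by omega), max_eq_left h2.le, hr]
    have e3 := e1.symm.trans e2
    rcases Nat.even_or_odd' k with ⟨c, rfl | rfl⟩
    · refine ⟨c, c, by omega, by omega, ?_⟩
      rw [show 2 * c + 2 = 2 * (c + 1) by ring, show 2 * c + 3 = 2 * (c + 1) + 1 by ring, hwe, hwe,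
        hwo, hwo] at e3
      exact e3
    · refine ⟨c + 1, c, by omega, by omega, ?_⟩
      rw [show 2 * c + 1 + 2 = 2 * (c + 1) + 1 by ring, show 2 * c + 1 + 1 = 2 * (c + 1) by ring,
        show 2 * c + 1 + 3 = 2 * (c + 1 + 1) by ring, hwe, hwe, hwo, hwo] at e3
      exact e3.symm
  · right
    push Not at hA
    have hDx : ∀ k, 2 * k + 1 < 4 * W + 9 → dd (x k) (x (k + 1)) = max (r (2 * k)) (r (2 * k + 1)) := by
      intro k hk
      rw [← hmx (2 * k) hk, hwe, show 2 * k + 2 = 2 * (k + 1) by ring, hwe]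
    have hDy : ∀ k, 2 * k + 2 < 4 * W + 9 →
        dd (y k) (y (k + 1)) = max (r (2 * k + 1)) (r (2 * k + 2)) := by
      intro k hk
      rw [← hmx (2 * k + 1) hk, hwo, show 2 * k + 1 + 2 = 2 * (k + 1) + 1 by ring, hwo]
    by_cases hB : ∀ i < 2 * W + 4, r (i + 1) < r i
    · left
      have hx1 : ∀ k ≤ W + 1, dd (x k) (x (k + 1)) = r (2 * k) := by
        intro k hk
        rw [hDx k (by omega), max_eq_left (hB (2 * k) (by omega)).le]
      have hy1 : ∀ k ≤ W + 1, dd (y k) (y (k + 1)) = r (2 * k + 1) := by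
        intro k hk
        rw [hDy k (by omega), max_eq_left (hB (2 * k + 1) (by omega)).le]
      have hhx : ∀ a ≤ W, hatD W x a = r (2 * (W + 1 - a)) := by
        intro a ha
        unfold hatD
        rw [show W + 2 - a = (W + 1 - a) + 1 by omega]
        exact hx1 _ (by omega)
      have hhy : ∀ a ≤ W, hatD W y a = r (2 * (W + 1 - a) + 1) := by
        intro a ha
        unfold hatD
        rw [show W + 2 - a = (W + 1 - a) + 1 by omega]
        exact hy1 _ (by omega)
      have i1 : ∀ j ≤ W, hatD W y j < hatD W x j := by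
        intro j hj
        rw [hhx j hj, hhy j hj]
        exact hB _ (by omega)
      have i2 : ∀ j < W, hatD W x j < hatD W y (j + 1) := by
        intro j hj
        rw [hhx j hj.le, hhy (j + 1) hj]
        have e : 2 * (W + 1 - j) = (2 * (W + 1 - (j + 1)) + 1) + 1 := by omega
        rw [e]
        exact hB _ (by omega)
      have hr1 : r 1 < R := by
        by_contra hcon
        push Not at hcon
        have := hB 0 (by omega)
        exact htwo 0 1 (by omega) (by omega) (by simp only [Nat.zero_add] at this; omega) hcon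
      have hr2 : hatD W x W < R := by
        rw [hhx W le_rfl, show 2 * (W + 1 - W) = 1 + 1 by omega]
        have := hB 1 (by omega)
        omega
      obtain ⟨i, j, hij⟩ := ha (hatD W y) (hatD W x) i1 i2 (by omega)
      have cx : ∀ a < W, hatD W x a < hatD W x (a + 1) := fun a ha' =>
        (i2 a ha').trans (i1 (a + 1) ha')
      have cy : ∀ a < W, hatD W y a < hatD W y (a + 1) := fun a ha' =>
        (i1 a ha'.le).trans (i2 a ha')
      refine ⟨j, i, ?_⟩
      unfold rD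
      rw [if_pos cx, if_pos cy, hij]
      have hL := (hz i (hatD W y) cy).1
      rw [hhy 0 (Nat.zero_le _), hij] at hL
      have hlt : dd (x (W + 2)) (y (W + 2)) < z j (hatD W x) := by
        have e : dd (x (W + 2)) (y (W + 2)) = r (2 * W + 4) := by
          rw [hr, show 2 * W + 4 + 1 = 2 * (W + 2) + 1 by ring, show 2 * W + 4 = 2 * (W + 2) by ring,
            hwe, hwo]
        rw [e]
        have h5 := hB (2 * W + 3) (by omega)
        rw [show 2 * (W + 1 - 0) + 1 = 2 * W + 3 by omega] at hL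
        rw [show 2 * W + 3 + 1 = 2 * W + 4 by ring] at h5
        omega
      rw [div_eq_of_dd_lt (hxy (W + 2) (by omega)) hlt]
    · right
      push Not at hB
      obtain ⟨i0, hi0, hi1⟩ := hB
      have hinc : ∀ i, i0 ≤ i → i + 1 < 4 * W + 9 → r i < r (i + 1) := by
        intro i hi
        induction i, hi using Nat.le_induction with
        | base =>
          intro h
          have := hne i0 h
          omega
        | succ i hi ih =>
          intro h
          have h1 := ih (by omega)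
          have h2 := hA i (by omega) h1
          have h3 := hne (i + 1) h
          rw [show i + 1 + 1 = i + 2 by ring] at h3 ⊢
          omega
      have hC : ∀ i, 2 * W + 4 ≤ i → i + 1 < 4 * W + 9 → r i < r (i + 1) := fun i h1 h2 =>
        hinc i (by omega) h2
      have hx1 : ∀ k, W + 2 ≤ k → k ≤ 2 * W + 2 → dd (x k) (x (k + 1)) = r (2 * k + 1) := by
        intro k hk hk2
        rw [hDx k (by omega), max_eq_right (hC (2 * k) (by omega) (by omega)).le]
      have hy1 : ∀ k, W + 2 ≤ k → k ≤ 2 * W + 2 → dd (y k) (y (k + 1)) = r (2 * k + 2) := by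
        intro k hk hk2
        rw [hDy k (by omega), max_eq_right (hC (2 * k + 1) (by omega) (by omega)).le]
      have hhx : ∀ a ≤ W, hatU W x a = r (2 * (W + 2 + a) + 1) := by
        intro a ha
        unfold hatU
        rw [show W + 3 + a = (W + 2 + a) + 1 by omega]
        exact hx1 _ (by omega) (by omega)
      have hhy : ∀ a ≤ W, hatU W y a = r (2 * (W + 2 + a) + 2) := by
        intro a ha
        unfold hatU
        rw [show W + 3 + a = (W + 2 + a) + 1 by omega]
        exact hy1 _ (by omega) (by omega)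
      have i1 : ∀ j ≤ W, hatU W x j < hatU W y j := by
        intro j hj
        rw [hhx j hj, hhy j hj]
        exact hC _ (by omega) (by omega)
      have i2 : ∀ j < W, hatU W y j < hatU W x (j + 1) := by
        intro j hj
        rw [hhx (j + 1) hj, hhy j hj.le]
        have e : 2 * (W + 2 + (j + 1)) + 1 = (2 * (W + 2 + j) + 2) + 1 := by ring
        rw [e]
        exact hC _ (by omega) (by omega)
      have hr1 : r (4 * W + 7) < R := by
        by_contra hcon
        push Not at hcon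
        have := hC (4 * W + 7) (by omega) (by omega)
        exact htwo (4 * W + 7) (4 * W + 8) (by omega) (by omega) hcon (by
          rw [show 4 * W + 7 + 1 = 4 * W + 8 by ring] at this; omega)
      have hr2 : hatU W y W < R := by
        rw [hhy W le_rfl, show 2 * (W + 2 + W) + 2 = 4 * W + 6 by ring]
        have := hC (4 * W + 6) (by omega) (by omega)
        rw [show 4 * W + 6 + 1 = 4 * W + 7 by ring] at this
        omega
      obtain ⟨i, j, hij⟩ := ha (hatU W x) (hatU W y) i1 i2 (by omega)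
      have cx : ∀ a < W, hatU W x a < hatU W x (a + 1) := fun a ha' =>
        (i1 a ha'.le).trans (i2 a ha')
      have cy : ∀ a < W, hatU W y a < hatU W y (a + 1) := fun a ha' =>
        (i2 a ha').trans (i1 (a + 1) ha')
      refine ⟨i, j, ?_⟩
      unfold rU
      rw [if_pos cx, if_pos cy, hij]
      have hL := (hz j (hatU W y) cy).1
      rw [hhy 0 (Nat.zero_le _)] at hL
      have hlt : dd (x (W + 3)) (y (W + 3)) < z j (hatU W y) := by
        have e : dd (x (W + 3)) (y (W + 3)) = r (2 * W + 6) := by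
          rw [hr, show 2 * W + 6 + 1 = 2 * (W + 3) + 1 by ring, show 2 * W + 6 = 2 * (W + 3) by ring,
            hwe, hwo]
        rw [e]
        rw [show 2 * (W + 2 + 0) + 2 = 2 * W + 6 by ring] at hL
        exact hL
      rw [div_eq_of_dd_lt (hxy (W + 3) (by omega)) hlt]

theorem Sel.step (W R n : ℕ) (hW : 1 ≤ W) (h : Sel W R n) :
    Sel (2*W+4) (2^R) (2*W+4+2*n) := by
  obtain ⟨z, hz, ha⟩ := h
  refine Sel.of_fintype (ι := Fin (2 * W + 4) ⊕ (Fin n ⊕ Fin n)) ?_
    (fun i => match i with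
      | Sum.inl j => fun x => pp (x j) (x (j + 1))
      | Sum.inr (Sum.inl i) => rD W n z i
      | Sum.inr (Sum.inr i) => rU W n z i) ?_ ?_
  · simp only [Fintype.card_sum, Fintype.card_fin]
    ring
  · intro i x hx
    have hm := mono_of_lt hx
    rcases i with j | i | i
    · simp only
      have hj := j.2
      have h1 := pp_lt (hx j hj)
      have h2 := pp_le (x j) (x (j + 1))
      have h3 := hm 0 j (Nat.zero_le _) hj.le
      have h4 := hm (j + 1) (2 * W + 4) (by omega) le_rfl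
      constructor
      · exact lt_of_le_of_lt h3 h1
      · exact h2.trans h4
    · exact rD_range W n z i x hz hx
    · exact rU_range W n hW z i x hz hx
  · intro x y hxy hyx hR
    rcases agree W R n hW z hz ha x y hxy hyx hR with ⟨a, b, ha1, hb1, hab⟩ | ⟨i, j, hij⟩ | ⟨i, j, hij⟩
    · exact ⟨Sum.inl ⟨a, ha1⟩, Sum.inl ⟨b, hb1⟩, hab⟩
    · exact ⟨Sum.inr (Sum.inl i), Sum.inr (Sum.inl j), hij⟩
    · exact ⟨Sum.inr (Sum.inr i), Sum.inr (Sum.inr j), hij⟩

theorem Sel.main (W : ℕ) (hW : 1 ≤ W) :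
    Sel (8*W+28) (2^(2^(2^(2*W+1)))) (24*W+68) := by
  have h1 := Sel.step W (2 * W + 1) 0 hW (Sel.base W)
  have h2 := Sel.step (2 * W + 4) (2 ^ (2 * W + 1)) _ (by omega) h1
  have h3 := Sel.step (2 * (2 * W + 4) + 4) (2 ^ (2 ^ (2 * W + 1))) _ (by omega) h2
  convert h3 using 1 <;> ring

end Pool.Agent.SR871
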