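import Mathlib
set_option autoImplicit false
set_option maxHeartbeats 1000000
namespace Pool.Agent.SR871
open Finset

theorem closed_all {n : ℕ} (G : SimpleGraph (Fin n)) (hG : G.Connected) (S : Set (Fin n))
    (v₀ : Fin n) (h0 : v₀ ∈ S) (hcl : ∀ u ∈ S, ∀ w, G.Adj u w → w ∈ S) (v : Fin n) : v ∈ S := by
  obtain ⟨p⟩ := hG v₀ v
  induction p with
  | nil => exact h0
  | cons h p ih => exact ih (hcl _ h0 _ h)

theorem walk_lip {n : ℕ} (G : SimpleGraph (Fin n)) (f : Fin n → ℂ)
    (hf : ∀ u v, G.Adj u v → ‖f u - f v‖ ≤ 2) {u v : Fin n} (p : G.Walk u v) :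
    ‖f u - f v‖ ≤ 2 * (p.length : ℝ) := by
  induction p with
  | nil => simp
  | @cons a b c h p ih =>
    have h1 : ‖f a - f c‖ ≤ ‖f a - f b‖ + ‖f b - f c‖ := by
      have := norm_add_le (f a - f b) (f b - f c)
      rwa [sub_add_sub_cancel] at this
    have h2 := hf a b h
    rw [SimpleGraph.Walk.length_cons]
    push_cast
    linarith

/-- points on the circle -/
noncomputable def ce (L : ℕ) (i : ℕ) : ℂ :=
  ((L : ℝ) / 4 : ℝ) * Complex.exp (Complex.I * ((2 * Real.pi * i / L : ℝ) : ℂ))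

theorem ce_per (L : ℕ) (hL : 0 < L) (i : ℕ) : ce L (i + L) = ce L i := by
  unfold ce
  have hL0 : (L : ℝ) ≠ 0 := by exact_mod_cast hL.ne'
  have h1 : (2 * Real.pi * ((i + L : ℕ) : ℝ) / L : ℝ) = 2 * Real.pi * i / L + 2 * Real.pi := by
    push_cast
    field_simp
  rw [h1]
  have h2 : Complex.I * ((2 * Real.pi * i / L + 2 * Real.pi : ℝ) : ℂ) =
      Complex.I * ((2 * Real.pi * i / L : ℝ) : ℂ) + 2 * Real.pi * Complex.I := by
    push_cast
    ring
  rw [h2, Complex.exp_add, Complex.exp_two_pi_mul_I, mul_one]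

theorem ce_mod (L : ℕ) (hL : 0 < L) (i : ℕ) : ce L (i % L) = ce L i := by
  have h : ∀ k r : ℕ, ce L (r + k * L) = ce L r := by
    intro k r
    induction k with
    | zero => simp
    | succ k ih =>
      rw [Nat.add_mul, one_mul, ← add_assoc, ce_per L hL, ih]
  have h2 := h (i / L) (i % L)
  rw [mul_comm, Nat.mod_add_div] at h2
  exact h2.symm

theorem ce_chord (L : ℕ) (i m : ℕ) :
    ‖ce L i - ce L (i + m)‖ = (L : ℝ) / 2 * |Real.sin (Real.pi * m / L)| := by
  unfold ce
  have h1 : (2 * Real.pi * ((i + m : ℕ) : ℝ) / L : ℝ) =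
      2 * Real.pi * i / L + 2 * Real.pi * m / L := by
    push_cast
    ring
  rw [h1]
  have h2 : Complex.I * ((2 * Real.pi * i / L + 2 * Real.pi * m / L : ℝ) : ℂ) =
      Complex.I * ((2 * Real.pi * i / L : ℝ) : ℂ) +
        Complex.I * ((2 * Real.pi * m / L : ℝ) : ℂ) := by
    push_cast
    ring
  rw [h2, Complex.exp_add]
  have h3 : (((L : ℝ) / 4 : ℝ) : ℂ) * Complex.exp (Complex.I * ((2 * Real.pi * i / L : ℝ) : ℂ)) -
      (((L : ℝ) / 4 : ℝ) : ℂ) * (Complex.exp (Complex.I * ((2 * Real.pi * i / L : ℝ) : ℂ)) *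
        Complex.exp (Complex.I * ((2 * Real.pi * m / L : ℝ) : ℂ))) =
      -((((L : ℝ) / 4 : ℝ) : ℂ) * Complex.exp (Complex.I * ((2 * Real.pi * i / L : ℝ) : ℂ)) *
        (Complex.exp (Complex.I * ((2 * Real.pi * m / L : ℝ) : ℂ)) - 1)) := by
    ring
  rw [h3, norm_neg, norm_mul, norm_mul, Complex.norm_exp_I_mul_ofReal_sub_one,
    mul_comm Complex.I, Complex.norm_exp_ofReal_mul_I, mul_one, Complex.norm_real, norm_mul,
    Real.norm_of_nonneg (by positivity), Real.norm_eq_abs, Real.norm_eq_abs]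
  have h4 : 2 * Real.pi * m / L / 2 = Real.pi * m / L := by ring
  rw [h4, abs_of_pos (by norm_num : (0 : ℝ) < 2)]
  ring

theorem ce_step (L : ℕ) (hL : 0 < L) (i : ℕ) : ‖ce L i - ce L (i + 1)‖ ≤ 2 := by
  rw [ce_chord]
  have hL0 : (0 : ℝ) < L := by exact_mod_cast hL
  have h1 : |Real.sin (Real.pi * (1 : ℕ) / L)| ≤ Real.pi / L := by
    have h2 := Real.abs_sin_le_abs (x := Real.pi * (1 : ℕ) / L)
    rw [Nat.cast_one, mul_one, abs_of_pos (div_pos Real.pi_pos hL0)] at h2
    rw [Nat.cast_one, mul_one]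
    exact h2
  calc (L : ℝ) / 2 * |Real.sin (Real.pi * (1 : ℕ) / L)| ≤ (L : ℝ) / 2 * (Real.pi / L) :=
        mul_le_mul_of_nonneg_left h1 (by positivity)
    _ = Real.pi / 2 := by field_simp
    _ ≤ 2 := by linarith [Real.pi_le_four]

theorem ce_low (L : ℕ) (hL : 0 < L) (m : ℕ) (hm : 2 * m ≤ L) :
    (m : ℝ) ≤ (L : ℝ) / 2 * |Real.sin (Real.pi * m / L)| := by
  have hL0 : (0 : ℝ) < L := by exact_mod_cast hL
  have hm' : 2 * (m : ℝ) ≤ L := by exact_mod_cast hm
  have hpi := Real.pi_pos
  have h1 : 2 / Real.pi * (Real.pi * m / L) ≤ Real.sin (Real.pi * m / L) := by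
    apply Real.mul_le_sin (by positivity)
    rw [div_le_div_iff₀ hL0 (by norm_num)]
    nlinarith
  have h2 : 2 / Real.pi * (Real.pi * m / L) = 2 * m / L := by
    field_simp
  rw [h2] at h1
  have h3 := le_abs_self (Real.sin (Real.pi * m / L))
  calc (m : ℝ) = (L : ℝ) / 2 * (2 * m / L) := by field_simp
    _ ≤ (L : ℝ) / 2 * |Real.sin (Real.pi * m / L)| :=
        mul_le_mul_of_nonneg_left (h1.trans h3) (by positivity)

theorem circ (n : ℕ) (G : SimpleGraph (Fin n)) (hG : G.Connected)
    (hreg : ∀ v, (G.neighborSet v).ncard = 2) (L : ℕ) (hL : 3 ≤ L) (h : ℕ → Fin n)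
    (hper : ∀ i, h (i + L) = h i) (hadj : ∀ i, G.Adj (h i) (h (i + 1)))
    (hinj : ∀ i < L, ∀ j < L, h i = h j → i = j) (hsurj : ∀ v, ∃ i < L, h i = v) :
    ∃ f : Fin n → ℂ, ∀ u v, (G.dist u v : ℝ) ≤ ‖f u - f v‖ ∧
      ‖f u - f v‖ ≤ 2 * (G.dist u v : ℝ) := by
  have hL0 : 0 < L := by omega
  have hmod : ∀ i, h (i % L) = h i := by
    have h1 : ∀ k r : ℕ, h (r + k * L) = h r := by
      intro k r
      induction k with
      | zero => simp
      | succ k ih => rw [Nat.add_mul, one_mul, ← add_assoc, hper, ih]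
    intro i
    have h2 := h1 (i / L) (i % L)
    rw [mul_comm, Nat.mod_add_div] at h2
    exact h2.symm
  have hinj' : ∀ i j, h i = h j → i % L = j % L := by
    intro i j hij
    rw [← hmod i, ← hmod j] at hij
    exact hinj _ (Nat.mod_lt _ hL0) _ (Nat.mod_lt _ hL0) hij
  choose ix hix hv using hsurj
  have hce : ∀ i v, h i = v → ce L (ix v) = ce L i := by
    intro i v hiv
    have h1 := hinj' i (ix v) (by rw [hiv, hv])
    rw [← ce_mod L hL0 i, h1, ce_mod L hL0]
  have hdist : ∀ i m, G.dist (h i) (h (i + m)) ≤ m := by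
    intro i m
    induction m with
    | zero => simp
    | succ m ih =>
      have h1 := hG.dist_triangle (u := h i) (v := h (i + m)) (w := h (i + (m + 1)))
      have h2 : G.dist (h (i + m)) (h (i + (m + 1))) = 1 :=
        SimpleGraph.dist_eq_one_iff_adj.2 (hadj (i + m))
      omega
  refine ⟨fun v => ce L (ix v), ?_⟩
  have hlow : ∀ u v, ix u ≤ ix v → (G.dist u v : ℝ) ≤ ‖ce L (ix u) - ce L (ix v)‖ := by
    intro u v huv
    obtain ⟨m, hm⟩ := Nat.exists_eq_add_of_le huv
    have hmL : m < L := by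
      have := hix v
      omega
    rw [hm, ce_chord]
    by_cases hm2 : 2 * m ≤ L
    · have h1 := hdist (ix u) m
      rw [hv, ← hm, hv] at h1
      have h2 : (G.dist u v : ℝ) ≤ m := by exact_mod_cast h1
      exact h2.trans (ce_low L hL0 m hm2)
    · have h1 := hdist (ix v) (L - m)
      have h3 : ix v + (L - m) = ix u + L := by omega
      rw [h3, hper, hv, hv, SimpleGraph.dist_comm] at h1
      have h2 : (G.dist u v : ℝ) ≤ ((L - m : ℕ) : ℝ) := by exact_mod_cast h1
      have h4 := ce_low L hL0 (L - m) (by omega)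
      have h5 : Real.sin (Real.pi * ((L - m : ℕ) : ℝ) / L) = Real.sin (Real.pi * m / L) := by
        rw [← Real.sin_pi_sub (Real.pi * m / L)]
        congr 1
        rw [Nat.cast_sub hmL.le]
        have : (L : ℝ) ≠ 0 := by exact_mod_cast hL0.ne'
        field_simp
      rw [h5] at h4
      exact h2.trans h4
  have hup : ∀ u v, G.Adj u v → ‖ce L (ix u) - ce L (ix v)‖ ≤ 2 := by
    intro u v huv
    have hu := hv u
    have hs : h (ix u + 1) ∈ G.neighborSet u := by
      have := hadj (ix u)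
      rwa [hu] at this
    have hp : h (ix u + L - 1) ∈ G.neighborSet u := by
      have h1 := hadj (ix u + L - 1)
      have h2 : ix u + L - 1 + 1 = ix u + L := by omega
      rw [h2, hper, hu] at h1
      exact h1.symm
    have hne : h (ix u + 1) ≠ h (ix u + L - 1) := by
      intro he
      have h1 := hinj' _ _ he
      have h2 : ix u + L - 1 = (ix u + 1) + (L - 2) := by omega
      rw [h2] at h1
      have h3 : (ix u + 1) ≡ (ix u + 1) + (L - 2) [MOD L] := h1
      have h4 : 0 ≡ L - 2 [MOD L] := Nat.ModEq.add_left_cancel' (ix u + 1) (by simpa using h3)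
      have h5 : (0 : ℕ) % L = (L - 2) % L := h4
      rw [Nat.zero_mod, Nat.mod_eq_of_lt (by omega)] at h5
      omega
    have hset : ({h (ix u + 1), h (ix u + L - 1)} : Set (Fin n)) = G.neighborSet u := by
      apply Set.eq_of_subset_of_ncard_le
      · intro x hx
        rcases hx with rfl | rfl
        · exact hs
        · exact hp
      · rw [hreg, Set.ncard_pair hne]
      · exact Set.toFinite _
    have hvm : v ∈ G.neighborSet u := huv
    rw [← hset] at hvm
    rcases hvm with h1 | h1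
    · rw [hce _ v h1.symm]
      exact ce_step L hL0 _
    · rw [hce _ v h1.symm, norm_sub_rev]
      have h2 := ce_step L hL0 (ix u + L - 1)
      have h3 : ix u + L - 1 + 1 = ix u + L := by omega
      rw [h3, ce_per L hL0] at h2
      exact h2
  intro u v
  constructor
  · rcases le_total (ix u) (ix v) with huv | huv
    · exact hlow u v huv
    · have := hlow v u huv
      rw [SimpleGraph.dist_comm, norm_sub_rev]
      exact this
  · obtain ⟨p, hp⟩ := hG.exists_walk_length_eq_dist u v
    have := walk_lip G (fun v => ce L (ix v)) hup p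
    rw [hp] at this
    exact this

theorem embed_small (n k : ℕ) (hk : k ≤ 1) (G : SimpleGraph (Fin n)) (hG : G.Connected)
    (hreg : ∀ v, (G.neighborSet v).ncard = k) :
    ∃ f : Fin n → ℂ, ∀ u v, (G.dist u v : ℝ) ≤ ‖f u - f v‖ ∧ ‖f u - f v‖ ≤ 2 * (G.dist u v : ℝ) := by
  obtain ⟨v₀⟩ := hG.nonempty
  interval_cases k
  · have hno : ∀ u w, ¬ G.Adj u w := by
      intro u w h
      have h1 := hreg u
      rw [Set.ncard_eq_zero] at h1
      have h2 : w ∈ G.neighborSet u := h
      rw [h1] at h2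
      exact h2
    have hall := closed_all G hG {v₀} v₀ rfl (fun u _ w h => absurd h (hno u w))
    refine ⟨fun _ => 0, fun u v => ?_⟩
    have hu : u = v₀ := hall u
    have hv : v = v₀ := hall v
    rw [hu, hv]
    simp
  · have h0 := hreg v₀
    rw [Set.ncard_eq_one] at h0
    obtain ⟨v₁, hv₁⟩ := h0
    have hadj : G.Adj v₀ v₁ := by
      have : v₁ ∈ G.neighborSet v₀ := by rw [hv₁]; rfl
      exact this
    have h1 := hreg v₁
    rw [Set.ncard_eq_one] at h1
    obtain ⟨v₂, hv₂⟩ := h1
    have h02 : v₀ = v₂ := by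
      have : v₀ ∈ G.neighborSet v₁ := hadj.symm
      rw [hv₂] at this
      exact this
    have hall := closed_all G hG {v₀, v₁} v₀ (Or.inl rfl) (by
      intro u hu w h
      rcases hu with rfl | rfl
      · have h2 : w ∈ G.neighborSet u := h
        rw [hv₁] at h2
        exact Or.inr h2
      · have h2 : w ∈ G.neighborSet u := h
        rw [hv₂, ← h02] at h2
        exact Or.inl h2)
    have hd : G.dist v₀ v₁ = 1 := SimpleGraph.dist_eq_one_iff_adj.2 hadj
    have hd' : G.dist v₁ v₀ = 1 := SimpleGraph.dist_eq_one_iff_adj.2 hadj.symm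
    have hne : v₁ ≠ v₀ := hadj.ne'
    refine ⟨fun v => if v = v₀ then 0 else 1, fun u v => ?_⟩
    rcases hall u with rfl | rfl <;> rcases hall v with hv | hv
    · rw [hv]
      simp
    · rw [hv, hd]
      simp [hne]
    · rw [hv, hd']
      simp [hne]
    · rw [Set.mem_singleton_iff] at hv
      rw [hv]
      simp

/-- a connected 2-regular finite graph is a cycle and embeds into the plane with distortion 2 -/
theorem embed_cycle (n : ℕ) (G : SimpleGraph (Fin n)) (hG : G.Connected)
    (hreg : ∀ v, (G.neighborSet v).ncard = 2) :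
    ∃ f : Fin n → ℂ, ∀ u v, (G.dist u v : ℝ) ≤ ‖f u - f v‖ ∧ ‖f u - f v‖ ≤ 2 * (G.dist u v : ℝ) := by
  obtain ⟨v₀⟩ := hG.nonempty
  have hcyc : G.IsCycles := fun v _ => hreg v
  have hne : (G.neighborSet v₀).Nonempty := by
    apply Set.nonempty_of_ncard_ne_zero
    rw [hreg]
    norm_num
  obtain ⟨p, hp, hverts⟩ := hcyc.exists_cycle_toSubgraph_verts_eq_connectedComponentSupp
    (c := G.connectedComponentMk v₀) (v := v₀) rfl hne
  have hall : ∀ v, v ∈ p.support := by
    intro v
    rw [← SimpleGraph.Walk.mem_verts_toSubgraph, hverts,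
      SimpleGraph.ConnectedComponent.mem_supp_iff]
    exact SimpleGraph.ConnectedComponent.sound (hG v v₀)
  have hL : 3 ≤ p.length := hp.three_le_length
  have hL0 : 0 < p.length := by omega
  have hend : p.getVert p.length = p.getVert 0 := by
    rw [SimpleGraph.Walk.getVert_length, SimpleGraph.Walk.getVert_zero]
  apply circ n G hG hreg p.length hL (fun i => p.getVert (i % p.length))
  · intro i
    simp
  · intro i
    have hlt := Nat.mod_lt i hL0
    have h1 := p.adj_getVert_succ hlt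
    by_cases h2 : i % p.length + 1 = p.length
    · have h3 : (i + 1) % p.length = 0 := by
        rw [Nat.add_mod, Nat.mod_eq_of_lt (show 1 < p.length by omega), h2, Nat.mod_self]
      simp only [h3]
      rw [← hend]
      rw [h2] at h1
      exact h1
    · have h3 : (i + 1) % p.length = i % p.length + 1 := by
        rw [Nat.add_mod, Nat.mod_eq_of_lt (show 1 < p.length by omega),
          Nat.mod_eq_of_lt (by omega)]
      simp only [h3]
      exact h1
  · intro i hi j hj hij
    simp only [Nat.mod_eq_of_lt hi, Nat.mod_eq_of_lt hj] at hij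
    exact hp.getVert_injOn' (by change i ≤ p.length - 1; omega)
      (by change j ≤ p.length - 1; omega) hij
  · intro v
    obtain ⟨i, hi, hiL⟩ := SimpleGraph.Walk.mem_support_iff_exists_getVert.1 (hall v)
    refine ⟨i % p.length, Nat.mod_lt _ hL0, ?_⟩
    simp only [Nat.mod_mod]
    rcases hiL.lt_or_eq with h1 | h1
    · rw [Nat.mod_eq_of_lt h1, hi]
    · rw [h1, Nat.mod_self, ← hend, ← h1, hi]

end Pool.Agent.SR871
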