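import Mathlib
set_option autoImplicit false
set_option maxHeartbeats 1000000
namespace Pool.Agent.SR871
open Finset

theorem params_cast (W B R : ℕ) (h : 100 * (8 * W + 28 + 2) * B ^ 2 ≤ R) :
    100 * (((8*W+28 : ℕ) : ℝ) + 2) * ((B : ℕ) : ℝ)^2 ≤ ((R : ℕ) : ℝ) := by
  have h1 : ((100 * (8 * W + 28 + 2) * B ^ 2 : ℕ) : ℝ) ≤ ((R : ℕ) : ℝ) := Nat.cast_le.2 h
  refine le_trans (le_of_eq ?_) h1
  push_cast
  ring

theorem params_nat (J : ℕ) (hJ : 1 ≤ J) :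
    100 * (8 * (Nat.log 2 (J+1) + 3) + 28 + 2) * (2^(2^((J+1)^2)))^2 ≤
      2^(2^(2^(2*(Nat.log 2 (J+1) + 3)+1))) := by
  set L := Nat.log 2 (J+1) with hL
  have h1 : J + 1 < 2 ^ (L + 1) := Nat.lt_pow_succ_log_self (by norm_num) _
  have hLJ : L < J + 1 := Nat.log_lt_self 2 (by omega)
  set a := (J+1)^2 with ha
  have ha4 : 4 ≤ a := by
    rw [ha]
    nlinarith
  have haJ : J + 1 ≤ a := by
    rw [ha]
    nlinarith
  have h2 : a + 3 ≤ 2 ^ (2 * (L + 3) + 1) := by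
    have e1 : (2 : ℕ) ^ (2 * (L + 3) + 1) = 32 * (2 ^ (L + 1) * 2 ^ (L + 1)) := by
      rw [← pow_add]
      have : 2 * (L + 3) + 1 = 5 + (L + 1 + (L + 1)) := by ring
      rw [this, pow_add]
      norm_num
    rw [e1]
    have h3 : (J + 1) * (J + 1) ≤ 2 ^ (L + 1) * 2 ^ (L + 1) := Nat.mul_le_mul h1.le h1.le
    have h4 : a = (J + 1) * (J + 1) := by rw [ha, sq]
    rw [h4]
    nlinarith
  set A := (2 : ℕ) ^ a with hA
  have hA16 : 16 ≤ A := by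
    have : (2 : ℕ) ^ 4 ≤ 2 ^ a := Nat.pow_le_pow_right (by norm_num) ha4
    rw [hA]
    omega
  have hAa : a < A := Nat.lt_two_pow_self
  have h5 : 8 * A ≤ 2 ^ (2 ^ (2 * (L + 3) + 1)) := by
    have h6 : (2 : ℕ) ^ (a + 3) ≤ 2 ^ (2 ^ (2 * (L + 3) + 1)) :=
      Nat.pow_le_pow_right (by norm_num) h2
    refine le_trans (le_of_eq ?_) h6
    rw [pow_add, ← hA]
    ring
  set B := (2 : ℕ) ^ A with hB
  have hBA : A < B := Nat.lt_two_pow_self
  have hBbig : 65536 ≤ B := by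
    have : (2 : ℕ) ^ 16 ≤ 2 ^ A := Nat.pow_le_pow_right (by norm_num) hA16
    rw [hB]
    omega
  have h7 : B ^ 8 ≤ 2 ^ (2 ^ (2 ^ (2 * (L + 3) + 1))) := by
    have h8 : (2 : ℕ) ^ (8 * A) ≤ 2 ^ (2 ^ (2 ^ (2 * (L + 3) + 1))) :=
      Nat.pow_le_pow_right (by norm_num) h5
    refine le_trans (le_of_eq ?_) h8
    rw [hB, ← pow_mul, mul_comm]
  refine le_trans ?_ h7
  have h9 : 100 * (8 * (L + 3) + 28 + 2) ≤ B ^ 2 := by
    have h10 : 65536 * (J + 1) ≤ B * B := Nat.mul_le_mul hBbig (by omega)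
    rw [sq]
    refine le_trans ?_ h10
    omega
  have h11 : B ^ 2 * B ^ 2 ≤ B ^ 8 := by
    rw [← pow_add]
    exact Nat.pow_le_pow_right (by omega) (by norm_num)
  exact le_trans (Nat.mul_le_mul_right _ h9) h11

theorem params_poly (w η : ℝ) (hw : 3 ≤ w) (hη : η = 1 / (2 * 10 ^ 12 * w ^ 3)) :
    32 * (5000 * η) * ((8*w+28) + 2) * ((16*(24*w+68))^2 + 1) ≤ 1 := by
  have hw0 : 0 < w := by linarith
  have h1 : (8 * w + 28) + 2 ≤ 18 * w := by linarith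
  have h2 : (16*(24*w+68))^2 + 1 ≤ 558010 * w ^ 2 := by
    have h3 : 16*(24*w+68) ≤ 747 * w := by linarith
    have h4 : (16*(24*w+68))^2 ≤ (747 * w) ^ 2 := pow_le_pow_left₀ (by positivity) h3 2
    nlinarith
  have h5 : 32 * (5000 * η) * ((8*w+28) + 2) * ((16*(24*w+68))^2 + 1) ≤
      32 * (5000 * η) * (18 * w) * (558010 * w ^ 2) := by
    have hη0 : 0 < η := by rw [hη]; positivity
    have h6 : 32 * (5000 * η) * ((8*w+28) + 2) ≤ 32 * (5000 * η) * (18 * w) :=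
      mul_le_mul_of_nonneg_left h1 (by positivity)
    exact mul_le_mul h6 h2 (by positivity) (by positivity)
  refine h5.trans ?_
  have h7 : 32 * (5000 * η) * (18 * w) * (558010 * w ^ 2) =
      (32 * 5000 * 18 * 558010) * (η * w ^ 3) := by ring
  have h8 : η * w ^ 3 = 1 / (2 * 10 ^ 12) := by
    rw [hη]
    field_simp
  rw [h7, h8]
  norm_num

/-- choice of parameters -/
theorem params (c : ℝ) (hc : 0 < c) : ∃ J₀ : ℕ, ∀ J ≥ J₀, ∃ (W₀ : ℕ) (η : ℝ), 1 ≤ W₀ ∧ 0 < η ∧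
    η ≤ 1/1000 ∧ c / Real.sqrt J ≤ η^3 ∧
    32 * (5000 * η) * (((8*W₀+28 : ℕ) : ℝ) + 2) * (((16*(24*W₀+68) : ℕ) : ℝ)^2 + 1) ≤ 1 ∧
    100 * (((8*W₀+28 : ℕ) : ℝ) + 2) * ((2^(2^((J+1)^2)) : ℕ) : ℝ)^2 ≤
      ((2^(2^(2^(2*W₀+1))) : ℕ) : ℝ) := by
  set K : ℝ := (c * (2 * 10 ^ 12) ^ 3) ^ 2 with hK
  have hK0 : 0 < K := by positivity
  have hlim := tendsto_pow_const_div_const_pow_of_one_lt 18 (one_lt_two : (1 : ℝ) < 2)
  have hev := hlim.eventually_le_const (u := 1 / (16 * (K + 1))) (by positivity)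
  obtain ⟨N, hN⟩ := Filter.eventually_atTop.1 hev
  refine ⟨2 ^ (N + 1), fun J hJ => ?_⟩
  have hJ1 : 1 ≤ J := le_trans Nat.one_le_two_pow hJ
  set L := Nat.log 2 (J+1) with hL
  have hLN : N ≤ L := by
    have h1 : Nat.log 2 (2 ^ (N + 1)) ≤ Nat.log 2 (J + 1) := Nat.log_mono_right (by omega)
    rw [Nat.log_pow (by norm_num)] at h1
    omega
  have hpow : 2 ^ L ≤ J + 1 := Nat.pow_log_le_self 2 (by omega)
  set w : ℝ := ((L + 3 : ℕ) : ℝ) with hw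
  have hw3 : 3 ≤ w := by
    rw [hw]; push_cast
    have : (0 : ℝ) ≤ (L : ℝ) := Nat.cast_nonneg _
    linarith
  have hw0 : 0 < w := by linarith
  have hmain : K * w ^ 18 ≤ J := by
    have h2 := hN (L + 3) (by omega)
    have h3 : (2 : ℝ) ^ (L + 3) = 8 * 2 ^ L := by rw [pow_add]; norm_num; ring
    rw [← hw, h3, div_le_div_iff₀ (by positivity) (by positivity)] at h2
    have h4 : ((2 ^ L : ℕ) : ℝ) ≤ ((J + 1 : ℕ) : ℝ) := Nat.cast_le.2 hpow
    push_cast at h4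
    have h5 : 1 ≤ w ^ 18 := one_le_pow₀ (by linarith)
    nlinarith
  have hJpos : 0 < (J : ℝ) := by positivity
  refine ⟨L + 3, 1 / (2 * 10 ^ 12 * w ^ 3), by omega, by positivity, ?_, ?_, ?_, ?_⟩
  · apply one_div_le_one_div_of_le (by norm_num)
    have : 1 ≤ w ^ 3 := one_le_pow₀ (by linarith)
    nlinarith
  · have h6 : c * (2 * 10 ^ 12) ^ 3 * w ^ 9 ≤ Real.sqrt J := by
      apply Real.le_sqrt_of_sq_le
      refine le_trans (le_of_eq ?_) hmain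
      rw [hK]
      ring
    have hs : 0 < Real.sqrt J := Real.sqrt_pos.2 hJpos
    rw [div_pow, one_pow, div_le_div_iff₀ hs (by positivity)]
    refine le_trans (le_of_eq ?_) (h6.trans (le_of_eq (one_mul _).symm))
    ring
  · have h8 := params_poly w _ hw3 rfl
    have e1 : ((8 * (L + 3) + 28 : ℕ) : ℝ) = 8 * w + 28 := by rw [hw]; push_cast; ring
    have e2 : ((16 * (24 * (L + 3) + 68) : ℕ) : ℝ) = 16 * (24 * w + 68) := by
      rw [hw]; push_cast; ring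
    rw [e1, e2]
    exact h8
  · exact params_cast (L + 3) _ _ (params_nat J hJ1)

end Pool.Agent.SR871
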