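import Mathlib
import Pool.Agent.SR871.B1
set_option autoImplicit false
set_option maxHeartbeats 1000000
namespace Pool.Agent.SR871
open Finset



















/- TO PROVE -/
/-- one coordinate of an l2-sum inherits the almost-extremality -/
theorem component {s : ℕ} (K : Fin s → Fin s → ℝ) (hs : ∀ u v, K u v = K v u)
    (h0 : ∀ u v, 0 ≤ K u v) (h1 : ∀ u, ∑ v, K u v = 1)
    (X : Type) [NormedAddCommGroup X] (φ : ℕ → X → ℕ → ℝ) (hφ0 : ∀ N x, φ N x 0 = 0)
    (hφs : ∀ N x y t, φ N (x - y) t = φ N x t - φ N y t)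
    (hφn : ∀ x, HasSum (fun N => nsq N (φ N x)) (‖x‖^2)) (F : Fin s → X) (q : ℝ)
    (hpos : 0 < ∑ u, ∑ v, K u v * ‖F u - F v‖^2)
    (hq : q * ∑ u, ∑ v, K u v * ‖F u - F v‖^2 ≤
      ∑ u, ∑ a, ∑ b, ∑ v, K u a * K a b * K b v * ‖F u - F v‖^2) :
    ∃ N, 0 < ∑ u, ∑ v, K u v * nsq N (fun t => φ N (F v) t - φ N (F u) t) ∧
      q * ∑ u, ∑ v, K u v * nsq N (fun t => φ N (F v) t - φ N (F u) t) ≤
      ∑ u, ∑ a, ∑ b, ∑ v, K u a * K a b * K b v * nsq N (fun t => φ N (F v) t - φ N (F u) t) := by
  set A : Fin s → Fin s → ℕ → ℝ := fun u v N => nsq N (fun t => φ N (F v) t - φ N (F u) t) with hA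
  have hA0 : ∀ u v N, 0 ≤ A u v N := fun u v N => nsq_nonneg N _
  have hAs : ∀ u v, HasSum (fun N => A u v N) (‖F u - F v‖^2) := by
    intro u v
    have h2 := hφn (F v - F u)
    rw [norm_sub_rev] at h2
    have h3 : (fun N => nsq N (φ N (F v - F u))) = fun N => A u v N := by
      funext N
      have : φ N (F v - F u) = fun t => φ N (F v) t - φ N (F u) t := by
        funext t
        exact hφs N _ _ t
      rw [this]
    rw [h3] at h2
    exact h2
  set E1 : ℕ → ℝ := fun N => ∑ u, ∑ v, K u v * A u v N with hE1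
  set E3 : ℕ → ℝ := fun N => ∑ u, ∑ a, ∑ b, ∑ v, K u a * K a b * K b v * A u v N with hE3
  have hE1s : HasSum E1 (∑ u, ∑ v, K u v * ‖F u - F v‖^2) := by
    apply hasSum_sum
    intro u _
    apply hasSum_sum
    intro v _
    exact (hAs u v).mul_left _
  have hE3s : HasSum E3 (∑ u, ∑ a, ∑ b, ∑ v, K u a * K a b * K b v * ‖F u - F v‖^2) := by
    apply hasSum_sum
    intro u _
    apply hasSum_sum
    intro a _
    apply hasSum_sum
    intro b _
    apply hasSum_sum
    intro v _
    exact (hAs u v).mul_left _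
  have hE10 : ∀ N, 0 ≤ E1 N := by
    intro N
    apply Finset.sum_nonneg
    intro u _
    apply Finset.sum_nonneg
    intro v _
    exact mul_nonneg (h0 u v) (hA0 u v N)
  have htri : ∀ N u a v, A u a N = 0 → A a v N = 0 → A u v N = 0 := by
    intro N u a v h3 h4
    have h5 := nsq_add N (fun t => φ N (F a) t - φ N (F u) t) (fun t => φ N (F v) t - φ N (F a) t)
      (by rw [hφ0, hφ0, sub_zero]) (by rw [hφ0, hφ0, sub_zero])
    have h6 : (fun t => (fun t => φ N (F a) t - φ N (F u) t) t +
        (fun t => φ N (F v) t - φ N (F a) t) t) = fun t => φ N (F v) t - φ N (F u) t := by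
      funext t
      ring
    rw [h6] at h5
    have h7 : nsq N (fun t => φ N (F a) t - φ N (F u) t) = 0 := h3
    have h8 : nsq N (fun t => φ N (F v) t - φ N (F a) t) = 0 := h4
    rw [h7, h8, Real.sqrt_zero, add_zero] at h5
    have h9 : A u v N ≤ 0 := by
      by_contra hcon
      push Not at hcon
      have : 0 < Real.sqrt (nsq N (fun t => φ N (F v) t - φ N (F u) t)) := Real.sqrt_pos.mpr hcon
      linarith
    exact le_antisymm h9 (hA0 u v N)
  have hzero : ∀ N, E1 N = 0 → E3 N = 0 := by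
    intro N hN
    have h3 : ∀ u v, K u v * A u v N = 0 := by
      intro u v
      have h4 := (Finset.sum_eq_zero_iff_of_nonneg (fun u _ =>
        Finset.sum_nonneg (fun v _ => mul_nonneg (h0 u v) (hA0 u v N)))).mp hN u (Finset.mem_univ u)
      exact (Finset.sum_eq_zero_iff_of_nonneg
        (fun v _ => mul_nonneg (h0 u v) (hA0 u v N))).mp h4 v (Finset.mem_univ v)
    apply Finset.sum_eq_zero
    intro u _
    apply Finset.sum_eq_zero
    intro a _
    apply Finset.sum_eq_zero
    intro b _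
    apply Finset.sum_eq_zero
    intro v _
    rcases mul_eq_zero.mp (h3 u a) with h4 | h4
    · rw [h4]; ring
    · rcases mul_eq_zero.mp (h3 a b) with h5 | h5
      · rw [h5]; ring
      · rcases mul_eq_zero.mp (h3 b v) with h6 | h6
        · rw [h6]; ring
        · rw [htri N u b v (htri N u a b h4 h5) h6, mul_zero]
  by_contra hcon
  push Not at hcon
  have hlt : ∀ N, 0 < E1 N → E3 N < q * E1 N := fun N hN => hcon N hN
  have hle : ∀ N, E3 N ≤ q * E1 N := by
    intro N
    rcases lt_or_eq_of_le (hE10 N) with h3 | h3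
    · exact (hlt N h3).le
    · rw [hzero N h3.symm, ← h3, mul_zero]
  have hex : ∃ N, 0 < E1 N := by
    by_contra hno
    push Not at hno
    have h3 : E1 = fun _ => 0 := by
      funext N
      exact le_antisymm (hno N) (hE10 N)
    rw [h3] at hE1s
    have h4 := hE1s.unique hasSum_zero
    linarith
  obtain ⟨N, hN⟩ := hex
  have h5 := hasSum_lt hle (hlt N hN) hE3s (hE1s.mul_left q)
  linarith

end Pool.Agent.SR871
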