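import Mathlib
set_option autoImplicit false
set_option maxHeartbeats 1000000
namespace Pool.Agent.SR871
open Finset

/-- selection of a good scale -/
theorem scale_select (F F3 : ℝ → ℝ) (hF : Continuous F) (hF3 : Continuous F3)
    (hF0 : ∀ r, 0 ≤ F r) (hF30 : ∀ r, 0 ≤ F3 r) (R : ℝ) (hR : ∀ r ≥ R, F r = 0)
    (hR3 : ∀ r ≥ R, F3 r = 0) (hconv : ConvexOn ℝ (Set.Ici 0) F)
    (h3 : ∀ r, 0 < r → F3 (3*r) ≤ 3 * F r) (ε η : ℝ) (hε : 0 < ε) (hη : 0 < η) (hη2 : η ≤ 1/2)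
    (hI : 0 < ∫ r in Set.Ioi (0:ℝ), F r)
    (hint : 9 * (1 - ε) * (∫ r in Set.Ioi (0:ℝ), F r) ≤ ∫ r in Set.Ioi (0:ℝ), F3 r) :
    ∃ r, 0 < r ∧ 0 < F r - F ((1+η)*r) ∧
      F ((1-η)*r) - F r ≤ (1 + 10*η) * (F r - F ((1+η)*r)) ∧
      3 * F r - F3 (3*r) ≤ 10 * (ε/η) * (F r - F ((1+η)*r)) := by
  have hint1 : ∀ (f : ℝ → ℝ), Continuous f → (∀ r ≥ R, f r = 0) →
      MeasureTheory.IntegrableOn f (Set.Ioi 0) := by
    intro f hf hfR
    have h1 : Set.Ioi (0:ℝ) ⊆ Set.Icc 0 (max R 0) ∪ Set.Ioi (max R 0) := by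
      intro x hx
      have hx' : (0:ℝ) < x := hx
      by_cases h : x ≤ max R 0
      · left; exact ⟨hx'.le, h⟩
      · right; exact not_le.1 h
    apply MeasureTheory.IntegrableOn.mono_set _ h1
    apply MeasureTheory.IntegrableOn.union
    · exact hf.integrableOn_Icc
    · have h2 : MeasureTheory.IntegrableOn (fun _ : ℝ => (0:ℝ)) (Set.Ioi (max R 0)) :=
        MeasureTheory.integrableOn_zero
      refine h2.congr_fun (fun x hx => ?_) measurableSet_Ioi
      have hx' : max R 0 < x := hx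
      exact (hfR x ((le_max_left R 0).trans hx'.le)).symm
  have hFi := hint1 F hF hR
  have hF3i := hint1 F3 hF3 hR3
  set I := ∫ r in Set.Ioi (0:ℝ), F r with hIdef
  set I3 := ∫ r in Set.Ioi (0:ℝ), F3 r with hI3def
  have sc : ∀ (f : ℝ → ℝ) (b : ℝ), 0 < b → MeasureTheory.IntegrableOn f (Set.Ioi 0) →
      MeasureTheory.IntegrableOn (fun r => f (b*r)) (Set.Ioi 0) ∧
      ∫ r in Set.Ioi (0:ℝ), f (b*r) = b⁻¹ * ∫ r in Set.Ioi (0:ℝ), f r := by
    intro f b hb hf
    constructor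
    · rw [MeasureTheory.integrableOn_Ioi_comp_mul_left_iff f 0 hb]
      simpa using hf
    · have := MeasureTheory.integral_comp_mul_left_Ioi f 0 hb
      simpa using this
  obtain ⟨i1, e1⟩ := sc F (1+η) (by linarith) hFi
  obtain ⟨i2, e2⟩ := sc F (1-η) (by linarith) hFi
  obtain ⟨i3, e3⟩ := sc F3 3 (by norm_num) hF3i
  by_contra hcon
  push Not at hcon
  have key : ∀ r, 0 < r → 10 * (F r - F ((1+η)*r)) - (1/η) * (F ((1-η)*r) - 2 * F r + F ((1+η)*r))
      - (η/ε) * (3 * F r - F3 (3*r)) ≤ 0 := by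
    intro r hr
    by_contra h
    push Not at h
    have hAB : 0 ≤ F ((1-η)*r) - 2 * F r + F ((1+η)*r) := by
      have m1 : (1-η)*r ∈ Set.Ici (0:ℝ) := mul_nonneg (by linarith) hr.le
      have m2 : (1+η)*r ∈ Set.Ici (0:ℝ) := mul_nonneg (by linarith) hr.le
      have h1 := hconv.2 m1 m2 (by norm_num : (0:ℝ) ≤ 1/2) (by norm_num : (0:ℝ) ≤ 1/2) (by norm_num)
      simp only [smul_eq_mul] at h1
      have h2 : 1/2 * ((1-η)*r) + 1/2 * ((1+η)*r) = r := by ring
      rw [h2] at h1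
      linarith
    have hδ := h3 r hr
    have t1 : 0 ≤ (1/η) * (F ((1-η)*r) - 2 * F r + F ((1+η)*r)) := by positivity
    have t2 : 0 ≤ (η/ε) * (3 * F r - F3 (3*r)) := mul_nonneg (by positivity) (by linarith)
    have hB : 0 < F r - F ((1+η)*r) := by linarith
    have hA : F ((1-η)*r) - F r ≤ (1 + 10*η) * (F r - F ((1+η)*r)) := by
      have h4 : (1/η) * (F ((1-η)*r) - 2 * F r + F ((1+η)*r)) ≤ 10 * (F r - F ((1+η)*r)) := by
        linarith
      rw [one_div, inv_mul_le_iff₀ hη] at h4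
      linarith
    have h5 := hcon r hr hB hA
    have h6 : (η/ε) * (3 * F r - F3 (3*r)) ≤ 10 * (F r - F ((1+η)*r)) := by linarith
    have h7 : (η/ε) * (10 * (ε/η) * (F r - F ((1+η)*r))) = 10 * (F r - F ((1+η)*r)) := by
      field_simp
    have h8 : (η/ε) * (10 * (ε/η) * (F r - F ((1+η)*r))) < (η/ε) * (3 * F r - F3 (3*r)) :=
      mul_lt_mul_of_pos_left h5 (by positivity)
    linarith
  have hle := MeasureTheory.setIntegral_nonpos (μ := MeasureTheory.volume)
    (measurableSet_Ioi (a := (0:ℝ))) (fun x hx => key x hx)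
  have j1 : MeasureTheory.IntegrableOn (fun r => 10 * (F r - F ((1+η)*r))) (Set.Ioi 0) :=
    (hFi.sub i1).const_mul 10
  have j2 : MeasureTheory.IntegrableOn (fun r => (1/η) * (F ((1-η)*r) - 2 * F r + F ((1+η)*r)))
      (Set.Ioi 0) := ((i2.sub (hFi.const_mul 2)).add i1).const_mul _
  have j3 : MeasureTheory.IntegrableOn (fun r => (η/ε) * (3 * F r - F3 (3*r))) (Set.Ioi 0) :=
    ((hFi.const_mul 3).sub i3).const_mul _
  have j2a : MeasureTheory.IntegrableOn (fun r => F ((1-η)*r) - 2 * F r) (Set.Ioi 0) :=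
    i2.sub (hFi.const_mul 2)
  have j12 : MeasureTheory.IntegrableOn (fun r => 10 * (F r - F ((1+η)*r)) -
    (1/η) * (F ((1-η)*r) - 2 * F r + F ((1+η)*r))) (Set.Ioi 0) := j1.sub j2
  rw [MeasureTheory.integral_sub j12 j3, MeasureTheory.integral_sub j1 j2,
    MeasureTheory.integral_const_mul, MeasureTheory.integral_const_mul,
    MeasureTheory.integral_const_mul, MeasureTheory.integral_sub hFi i1,
    MeasureTheory.integral_add j2a i1, MeasureTheory.integral_sub i2 (hFi.const_mul 2),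
    MeasureTheory.integral_sub (hFi.const_mul 3) i3, MeasureTheory.integral_const_mul,
    MeasureTheory.integral_const_mul, e1, e2, e3, ← hIdef, ← hI3def] at hle
  have a1 : 10 * (I - (1+η)⁻¹ * I) ≥ 20/3 * (η * I) := by
    have : 10 * (I - (1+η)⁻¹ * I) = 10 * (η * I) * (1+η)⁻¹ := by
      field_simp
      ring
    rw [this]
    have h1 : (2:ℝ)/3 ≤ (1+η)⁻¹ := by
      rw [le_inv_comm₀ (by norm_num) (by linarith)]
      norm_num
      linarith
    have : 0 < η * I := by positivity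
    nlinarith
  have a2 : (1/η) * ((1-η)⁻¹ * I - 2 * I + (1+η)⁻¹ * I) ≤ 8/3 * (η * I) := by
    have hne : (1 - η) ≠ 0 := by linarith
    have hne2 : (1 + η) ≠ 0 := by linarith
    have hne3 : (1 - η^2) ≠ 0 := by nlinarith
    have : (1/η) * ((1-η)⁻¹ * I - 2 * I + (1+η)⁻¹ * I) = 2 * (η * I) * (1-η^2)⁻¹ := by
      have h9 : (1 - η^2) = (1-η)*(1+η) := by ring
      rw [h9]
      field_simp
      ring
    rw [this]
    have h1 : (1-η^2)⁻¹ ≤ 4/3 := by
      rw [inv_le_comm₀ (by nlinarith) (by norm_num)]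
      nlinarith
    have : 0 < η * I := by positivity
    nlinarith
  have a3 : (η/ε) * (3 * I - 3⁻¹ * I3) ≤ 3 * (η * I) := by
    have h1 : 3 * I - 3⁻¹ * I3 ≤ 3 * (ε * I) := by linarith
    calc (η/ε) * (3 * I - 3⁻¹ * I3) ≤ (η/ε) * (3 * (ε * I)) :=
          mul_le_mul_of_nonneg_left h1 (by positivity)
      _ = 3 * (η * I) := by field_simp
  have : 0 < η * I := by positivity
  linarith


end Pool.Agent.SR871
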