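import Mathlib
import Pool.Agent.SR871.B1
import Pool.Agent.SR871.C1
set_option autoImplicit false
set_option maxHeartbeats 1000000
namespace Pool.Agent.SR871
open Finset























/- TO PROVE -/
theorem es_S1 {α : Type} [Fintype α] (K : α → α → ℝ) (h1 : ∀ u, ∑ v, K u v = 1)
    (D : α → α → ℝ) :
    ∑ u, ∑ a, ∑ b, ∑ v, K u a * K a b * K b v * D u a = ∑ u, ∑ v, K u v * D u v := by
  refine Finset.sum_congr rfl fun u _ => Finset.sum_congr rfl fun a _ => ?_
  have e1 : ∀ b, ∑ v, K u a * K a b * K b v * D u a = K a b * (K u a * D u a) := by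
    intro b
    have : ∀ v, K u a * K a b * K b v * D u a = K b v * (K u a * K a b * D u a) := fun v => by ring
    simp only [this]
    rw [← Finset.sum_mul, h1]
    ring
  simp only [e1]
  rw [← Finset.sum_mul, h1, one_mul]

theorem es_S2 {α : Type} [Fintype α] (K : α → α → ℝ) (hs : ∀ u v, K u v = K v u)
    (h1 : ∀ u, ∑ v, K u v = 1) (D : α → α → ℝ) :
    ∑ u, ∑ a, ∑ b, ∑ v, K u a * K a b * K b v * D a b = ∑ u, ∑ v, K u v * D u v := by
  rw [Finset.sum_comm]
  refine Finset.sum_congr rfl fun a _ => ?_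
  have e1 : ∀ u, ∑ b, ∑ v, K u a * K a b * K b v * D a b = K a u * ∑ b, K a b * D a b := by
    intro u
    rw [Finset.mul_sum]
    refine Finset.sum_congr rfl fun b _ => ?_
    have : ∀ v, K u a * K a b * K b v * D a b = K b v * (K a u * (K a b * D a b)) := fun v => by
      rw [hs u a]; ring
    simp only [this]
    rw [← Finset.sum_mul, h1, one_mul]
  simp only [e1]
  rw [← Finset.sum_mul, h1, one_mul]

theorem es_S3 {α : Type} [Fintype α] (K : α → α → ℝ) (hs : ∀ u v, K u v = K v u)
    (h1 : ∀ u, ∑ v, K u v = 1) (D : α → α → ℝ) :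
    ∑ u, ∑ a, ∑ b, ∑ v, K u a * K a b * K b v * D b v = ∑ u, ∑ v, K u v * D u v := by
  rw [Finset.sum_comm]
  have e1 : ∀ a, ∑ u, ∑ b, ∑ v, K u a * K a b * K b v * D b v =
      ∑ b, K a b * ∑ v, K b v * D b v := by
    intro a
    have e2 : ∀ u, ∑ b, ∑ v, K u a * K a b * K b v * D b v =
        K a u * ∑ b, K a b * ∑ v, K b v * D b v := by
      intro u
      rw [Finset.mul_sum]
      refine Finset.sum_congr rfl fun b _ => ?_
      rw [Finset.mul_sum, Finset.mul_sum]
      refine Finset.sum_congr rfl fun v _ => ?_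
      rw [hs u a]; ring
    simp only [e2]
    rw [← Finset.sum_mul, h1, one_mul]
  simp only [e1]
  rw [Finset.sum_comm]
  refine Finset.sum_congr rfl fun b _ => ?_
  rw [← Finset.sum_mul]
  have : ∑ a, K a b = 1 := by
    rw [← h1 b]
    exact Finset.sum_congr rfl fun a _ => hs a b
  rw [this, one_mul]

theorem es_F1_int {α : Type} [Fintype α] (K : α → α → ℝ) (f : α → ℕ → ℝ) (N : ℕ) :
    ∫ r in Set.Ioi (0:ℝ), F1 K f N r = ∑ u, ∑ v, K u v * nsq N (fun t => f v t - f u t) := by
  unfold F1 nsq
  rw [MeasureTheory.integral_finset_sum]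
  · refine Finset.sum_congr rfl fun u _ => ?_
    rw [MeasureTheory.integral_finset_sum]
    · refine Finset.sum_congr rfl fun v _ => ?_
      rw [MeasureTheory.integral_const_mul]
    · intro v _
      exact (V_integrable N _).const_mul _
  · intro u _
    refine MeasureTheory.integrable_finset_sum _ fun v _ => ?_
    exact (V_integrable N _).const_mul _

theorem es_F3_int {α : Type} [Fintype α] (K : α → α → ℝ) (f : α → ℕ → ℝ) (N : ℕ) :
    ∫ r in Set.Ioi (0:ℝ), F3 K f N r =
      ∑ u, ∑ a, ∑ b, ∑ v, K u a * K a b * K b v * nsq N (fun t => f v t - f u t) := by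
  unfold F3 nsq
  have h4 : ∀ u a b v, MeasureTheory.Integrable
      (fun r => K u a * K a b * K b v * V N r (fun t => f v t - f u t))
      (MeasureTheory.volume.restrict (Set.Ioi (0:ℝ))) := fun u a b v =>
    (V_integrable N _).const_mul _
  have h3 : ∀ u a b, MeasureTheory.Integrable
      (fun r => ∑ v, K u a * K a b * K b v * V N r (fun t => f v t - f u t))
      (MeasureTheory.volume.restrict (Set.Ioi (0:ℝ))) := fun u a b =>
    MeasureTheory.integrable_finset_sum _ fun v _ => h4 u a b v
  have h2 : ∀ u a, MeasureTheory.Integrable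
      (fun r => ∑ b, ∑ v, K u a * K a b * K b v * V N r (fun t => f v t - f u t))
      (MeasureTheory.volume.restrict (Set.Ioi (0:ℝ))) := fun u a =>
    MeasureTheory.integrable_finset_sum _ fun b _ => h3 u a b
  have h1 : ∀ u, MeasureTheory.Integrable
      (fun r => ∑ a, ∑ b, ∑ v, K u a * K a b * K b v * V N r (fun t => f v t - f u t))
      (MeasureTheory.volume.restrict (Set.Ioi (0:ℝ))) := fun u =>
    MeasureTheory.integrable_finset_sum _ fun a _ => h2 u a
  rw [MeasureTheory.integral_finset_sum _ (fun u _ => h1 u)]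
  refine Finset.sum_congr rfl fun u _ => ?_
  rw [MeasureTheory.integral_finset_sum _ (fun a _ => h2 u a)]
  refine Finset.sum_congr rfl fun a _ => ?_
  rw [MeasureTheory.integral_finset_sum _ (fun b _ => h3 u a b)]
  refine Finset.sum_congr rfl fun b _ => ?_
  rw [MeasureTheory.integral_finset_sum _ (fun v _ => h4 u a b v)]
  refine Finset.sum_congr rfl fun v _ => ?_
  rw [MeasureTheory.integral_const_mul]

theorem es_three {α : Type} [Fintype α] (K : α → α → ℝ) (hs : ∀ u v, K u v = K v u)
    (h0 : ∀ u v, 0 ≤ K u v) (h1 : ∀ u, ∑ v, K u v = 1) (f : α → ℕ → ℝ) (hf : ∀ u, f u 0 = 0)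
    (N : ℕ) (r : ℝ) (hr : 0 < r) : F3 K f N (3 * r) ≤ 3 * F1 K f N r := by
  have hV : ∀ u a b v, V N (3 * r) (fun t => f v t - f u t) ≤
      V N r (fun t => f a t - f u t) + V N r (fun t => f b t - f a t) +
        V N r (fun t => f v t - f b t) := by
    intro u a b v
    have e1 := V_add N r r hr.le hr.le (fun t => f a t - f u t) (fun t => f b t - f a t)
      (by simp [hf]) (by simp [hf])
    have e2 := V_add N (r + r) r (by linarith) hr.le
      (fun t => (f a t - f u t) + (f b t - f a t)) (fun t => f v t - f b t)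
      (by simp [hf]) (by simp [hf])
    have e3 : (fun t => (f a t - f u t) + (f b t - f a t) + (f v t - f b t)) =
        fun t => f v t - f u t := by
      funext t; ring
    simp only [e3] at e2
    have e4 : r + r + r = 3 * r := by ring
    rw [e4] at e2
    linarith
  have key : F3 K f N (3 * r) ≤
      ∑ u, ∑ a, ∑ b, ∑ v, (K u a * K a b * K b v * V N r (fun t => f a t - f u t) +
        K u a * K a b * K b v * V N r (fun t => f b t - f a t) +
        K u a * K a b * K b v * V N r (fun t => f v t - f b t)) := by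
    unfold F3
    refine Finset.sum_le_sum fun u _ => Finset.sum_le_sum fun a _ =>
      Finset.sum_le_sum fun b _ => Finset.sum_le_sum fun v _ => ?_
    have hk : 0 ≤ K u a * K a b * K b v :=
      mul_nonneg (mul_nonneg (h0 _ _) (h0 _ _)) (h0 _ _)
    have := mul_le_mul_of_nonneg_left (hV u a b v) hk
    linarith
  refine key.trans (le_of_eq ?_)
  simp only [Finset.sum_add_distrib]
  rw [es_S1 K h1 (fun u a => V N r (fun t => f a t - f u t)),
    es_S2 K hs h1 (fun u a => V N r (fun t => f a t - f u t)),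
    es_S3 K hs h1 (fun u a => V N r (fun t => f a t - f u t))]
  unfold F1
  ring

theorem exists_scale {α : Type} [Fintype α] (K : α → α → ℝ) (hs : ∀ u v, K u v = K v u)
    (h0 : ∀ u v, 0 ≤ K u v) (h1 : ∀ u, ∑ v, K u v = 1) (f : α → ℕ → ℝ) (hf : ∀ u, f u 0 = 0)
    (N : ℕ) (ε η : ℝ) (hε : 0 < ε) (hη : 0 < η) (hη2 : η ≤ 1/2)
    (hI : 0 < ∑ u, ∑ v, K u v * nsq N (fun t => f v t - f u t))
    (hint : 9 * (1 - ε) * ∑ u, ∑ v, K u v * nsq N (fun t => f v t - f u t) ≤
      ∑ u, ∑ a, ∑ b, ∑ v, K u a * K a b * K b v * nsq N (fun t => f v t - f u t)) :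
    ∃ r, 0 < r ∧ 0 < F1 K f N r - F1 K f N ((1+η)*r) ∧
      F1 K f N ((1-η)*r) - F1 K f N r ≤ (1 + 10*η) * (F1 K f N r - F1 K f N ((1+η)*r)) ∧
      3 * F1 K f N r - F3 K f N (3*r) ≤ 10 * (ε/η) * (F1 K f N r - F1 K f N ((1+η)*r)) := by
  rw [← es_F1_int] at hI
  rw [← es_F1_int, ← es_F3_int] at hint
  have hR : ∀ r ≥ ∑ u, ∑ v, ∑ t ∈ range (N + 1), |f v t - f u t|, ∀ u v,
      V N r (fun t => f v t - f u t) = 0 := by
    intro r hr u v
    apply V_zero
    intro t ht
    refine le_trans ?_ hr
    have e1 : |f v t - f u t| ≤ ∑ t ∈ range (N + 1), |f v t - f u t| :=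
      Finset.single_le_sum (f := fun t => |f v t - f u t|) (fun t _ => abs_nonneg _)
        (Finset.mem_range.2 (Nat.lt_succ_of_le ht))
    have e2 : ∑ t ∈ range (N + 1), |f v t - f u t| ≤
        ∑ v, ∑ t ∈ range (N + 1), |f v t - f u t| :=
      Finset.single_le_sum (f := fun v => ∑ t ∈ range (N + 1), |f v t - f u t|)
        (fun v _ => Finset.sum_nonneg fun t _ => abs_nonneg _) (Finset.mem_univ v)
    have e3 : ∑ v, ∑ t ∈ range (N + 1), |f v t - f u t| ≤
        ∑ u, ∑ v, ∑ t ∈ range (N + 1), |f v t - f u t| :=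
      Finset.single_le_sum (f := fun u => ∑ v, ∑ t ∈ range (N + 1), |f v t - f u t|)
        (fun u _ => Finset.sum_nonneg fun v _ => Finset.sum_nonneg fun t _ => abs_nonneg _)
        (Finset.mem_univ u)
    linarith
  refine scale_select (F1 K f N) (F3 K f N) ?_ ?_ ?_ ?_
    (∑ u, ∑ v, ∑ t ∈ range (N + 1), |f v t - f u t|) ?_ ?_ ?_
    (fun r hr => es_three K hs h0 h1 f hf N r hr) ε η hε hη hη2 hI hint
  · unfold F1
    refine continuous_finset_sum _ fun u _ => continuous_finset_sum _ fun v _ => ?_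
    exact continuous_const.mul (V_cont N _)
  · unfold F3
    refine continuous_finset_sum _ fun u _ => continuous_finset_sum _ fun a _ =>
      continuous_finset_sum _ fun b _ => continuous_finset_sum _ fun v _ => ?_
    exact continuous_const.mul (V_cont N _)
  · intro r
    unfold F1
    exact Finset.sum_nonneg fun u _ => Finset.sum_nonneg fun v _ =>
      mul_nonneg (h0 _ _) (V_nonneg _ _ _)
  · intro r
    unfold F3
    exact Finset.sum_nonneg fun u _ => Finset.sum_nonneg fun a _ =>
      Finset.sum_nonneg fun b _ => Finset.sum_nonneg fun v _ =>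
      mul_nonneg (mul_nonneg (mul_nonneg (h0 _ _) (h0 _ _)) (h0 _ _)) (V_nonneg _ _ _)
  · intro r hr
    unfold F1
    exact Finset.sum_eq_zero fun u _ => Finset.sum_eq_zero fun v _ => by
      rw [hR r hr, mul_zero]
  · intro r hr
    unfold F3
    exact Finset.sum_eq_zero fun u _ => Finset.sum_eq_zero fun a _ =>
      Finset.sum_eq_zero fun b _ => Finset.sum_eq_zero fun v _ => by
      rw [hR r hr, mul_zero]
  · refine ⟨convex_Ici 0, ?_⟩
    intro x hx y hy a b ha hb hab
    unfold F1
    simp only [smul_eq_mul, Finset.mul_sum]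
    rw [← Finset.sum_add_distrib]
    refine Finset.sum_le_sum fun u _ => ?_
    rw [← Finset.sum_add_distrib]
    refine Finset.sum_le_sum fun v _ => ?_
    have h2 := (V_convex N (fun t => f v t - f u t) (by simp [hf])).2 hx hy ha hb hab
    simp only [smul_eq_mul] at h2
    have h3 := mul_le_mul_of_nonneg_left h2 (h0 u v)
    linarith

end Pool.Agent.SR871
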