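import Mathlib
import Pool.Agent.SR871.A1
set_option autoImplicit false
set_option maxHeartbeats 1000000
namespace Pool.Agent.SR871
open Finset

















/- TO PROVE -/
theorem sc_fam_congr (m : ℕ) (s s' : ℕ → ℕ) (e : ℝ) (x : ℕ → ℝ) (h : ∀ i ≤ m, s i = s' i) :
    fam m s e x = fam m s' e x := by
  unfold fam
  refine Finset.sum_congr rfl fun i hi => ?_
  have := Finset.mem_range.1 hi
  rw [h (i+1) (by omega), h i (by omega)]

theorem sc_fam_succ (m : ℕ) (s : ℕ → ℕ) (e : ℝ) (x : ℕ → ℝ) :
    fam (m+1) s e x = fam m s e x + e * (-1)^m * (x (s (m+1)) - x (s m)) := by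
  unfold fam
  rw [Finset.sum_range_succ]

theorem sc_tv_succ (N : ℕ) (g : ℕ → ℝ) : tv (N+1) g = tv N g + |g (N+1) - g N| := by
  unfold tv
  rw [Finset.sum_range_succ]

theorem sc_play_step (r : ℝ) (hr : 0 ≤ r) (x : ℕ → ℝ) (t : ℕ) :
    (play r x t < play r x (t+1) → x (t+1) - play r x (t+1) = r) ∧
    (play r x (t+1) < play r x t → x (t+1) - play r x (t+1) = -r) := by
  have h : play r x (t+1) = max (x (t+1) - r) (min (x (t+1) + r) (play r x t)) := rfl
  rw [h]
  generalize play r x t = g
  generalize x (t+1) = y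
  constructor
  · intro h1
    rcases le_total (y - r) (min (y + r) g) with h2 | h2
    · rw [max_eq_right h2] at h1
      exact absurd (min_le_right (y + r) g) (not_le.2 h1)
    · rw [max_eq_left h2]
      ring
  · intro h1
    rcases le_total (y + r) g with h2 | h2
    · rw [min_eq_left h2, max_eq_right (by linarith)]
      ring
    · rw [min_eq_right h2] at h1
      exact absurd (le_max_right (y - r) g) (not_le.2 h1)

theorem sc_card_up (N : ℕ) (r θ : ℝ) (x : ℕ → ℝ) :
    (Up (N+1) r θ x).card = (Up N r θ x).card +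
      if st r θ x (N+1) = 1 ∧ st r θ x N ≠ 1 then 1 else 0 := by
  unfold Up
  have h : Icc 1 (N+1) = insert (N+1) (Icc 1 N) := by
    ext t
    simp only [Finset.mem_Icc, Finset.mem_insert]
    omega
  rw [h, Finset.filter_insert, Nat.add_sub_cancel]
  split_ifs with h1
  · rw [Finset.card_insert_of_notMem]
    intro h2
    have := (Finset.mem_Icc.1 (Finset.mem_filter.1 h2).1).2
    omega
  · rfl

theorem sc_step (N cnt : ℕ) (θ : ℝ) (x g : ℕ → ℝ) (qN σ : ℤ) (hσ : σ = 1 ∨ σ = -1)
    (hg0 : g 0 = 0) (hd : θ ≤ (σ : ℝ) * (x (N+1) - g (N+1)))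
    (habs : |g (N+1) - g N| = (σ : ℝ) * (g (N+1) - g N))
    (h : (cnt = 0 ∧ qN = 0 ∧ g N = 0 ∧ tv N g = 0) ∨
      (∃ (k : ℕ) (s : ℕ → ℕ) (e : ℤ), cnt = k + 1 ∧ (e = 1 ∨ e = -1) ∧ IsFam N (k+1) s ∧
        e * (-1)^k = qN ∧
        (∀ i < k+1, θ ≤ (e:ℝ) * (-1)^i * (x (s (i+1)) - g (s (i+1)))) ∧
        g N = g (s (k+1)) ∧ tv N g = fam (k+1) s e g)) :
    ∃ (k : ℕ) (s : ℕ → ℕ) (e : ℤ), cnt + (if qN = σ then 0 else 1) = k + 1 ∧
      (e = 1 ∨ e = -1) ∧ IsFam (N+1) (k+1) s ∧ e * (-1)^k = σ ∧
      (∀ i < k+1, θ ≤ (e:ℝ) * (-1)^i * (x (s (i+1)) - g (s (i+1)))) ∧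
      g (N+1) = g (s (k+1)) ∧ tv (N+1) g = fam (k+1) s e g := by
  rcases h with ⟨h1, h2, h3, h4⟩ | ⟨k, s, e, h1, he, hs, hq, hθ, hgN, htv⟩
  · refine ⟨0, fun i => if i = 0 then 0 else N+1, σ, ?_, hσ, ?_, by simp, ?_, by simp, ?_⟩
    · rw [h1, h2, if_neg (by rcases hσ with h | h <;> rw [h] <;> norm_num)]
    · refine ⟨by simp, fun i hi => ?_, by simp⟩
      have : i = 0 := by omega
      subst this
      simp
    · intro i hi
      have : i = 0 := by omega
      subst this
      simpa using hd
    · rw [sc_tv_succ, h4, habs, h3]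
      simp [fam, hg0]
  · by_cases hqσ : qN = σ
    · have heσ : (e:ℝ) * (-1)^k = (σ : ℝ) := by
        have : e * (-1)^k = σ := hq.trans hqσ
        exact_mod_cast this
      refine ⟨k, Function.update s (k+1) (N+1), e, ?_, he, ?_, ?_, ?_, ?_, ?_⟩
      · rw [if_pos hqσ, h1]
      · refine ⟨?_, ?_, ?_⟩
        · rw [Function.update_of_ne (by omega)]; exact hs.1
        · intro i hi
          rw [Function.update_of_ne (show i ≠ k+1 by omega)]
          by_cases hik : i = k
          · subst hik
            rw [Function.update_self]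
            have h5 := hs.2.1 i (by omega)
            have h6 := hs.2.2
            omega
          · rw [Function.update_of_ne (by omega)]; exact hs.2.1 i hi
        · rw [Function.update_self]
      · exact hq.trans hqσ
      · intro i hi
        by_cases hik : i = k
        · subst hik
          rw [Function.update_self, heσ]
          exact hd
        · rw [Function.update_of_ne (by omega)]; exact hθ i hi
      · rw [Function.update_self]
      · rw [sc_tv_succ, htv, habs, sc_fam_succ, sc_fam_succ, Function.update_self,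
          Function.update_of_ne (show k ≠ k+1 by omega),
          sc_fam_congr k s (Function.update s (k+1) (N+1)) e g (fun i hi => by
            rw [Function.update_of_ne (show i ≠ k+1 by omega)]), heσ, hgN]
        ring
    · have hqv : qN = 1 ∨ qN = -1 := by
        rw [← hq]
        rcases he with h | h <;> rcases neg_one_pow_eq_or ℤ k with h' | h' <;> rw [h, h'] <;>
          norm_num
      have hqn : qN = -σ := by
        rcases hqv with h | h <;> rcases hσ with h' | h' <;> rw [h, h'] <;>
          first
          | (exfalso; exact hqσ (h.trans h'.symm))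
          | norm_num
      have heZ : e * (-1)^(k+1) = σ := by
        rw [pow_succ]
        linear_combination -(hq.trans hqn)
      have heσ : (e:ℝ) * (-1)^(k+1) = (σ : ℝ) := by
        exact_mod_cast heZ
      refine ⟨k+1, Function.update s (k+2) (N+1), e, ?_, he, ?_, heZ, ?_, ?_, ?_⟩
      · rw [if_neg hqσ, h1]
      · refine ⟨?_, ?_, ?_⟩
        · rw [Function.update_of_ne (by omega)]; exact hs.1
        · intro i hi
          rw [Function.update_of_ne (show i ≠ k+2 by omega)]
          by_cases hik : i = k+1
          · subst hik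
            rw [Function.update_self]
            have h6 := hs.2.2
            omega
          · rw [Function.update_of_ne (by omega)]; exact hs.2.1 i (by omega)
        · rw [Function.update_self]
      · intro i hi
        by_cases hik : i = k+1
        · subst hik
          rw [Function.update_self, heσ]
          exact hd
        · rw [Function.update_of_ne (by omega)]; exact hθ i (by omega)
      · rw [Function.update_self]
      · rw [sc_tv_succ, htv, habs, sc_fam_succ (k+1), Function.update_self,
          Function.update_of_ne (show k+1 ≠ k+2 by omega),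
          sc_fam_congr (k+1) s (Function.update s (k+2) (N+1)) e g (fun i hi => by
            rw [Function.update_of_ne (show i ≠ k+2 by omega)]), heσ, hgN]

theorem sc_ind (N : ℕ) (r θ : ℝ) (h2 : θ ≤ r) (h0 : 0 < θ) (x : ℕ → ℝ) :
    ((Up N r θ x).card + (Up N r θ (fun u => - x u)).card = 0 ∧ st r θ x N = 0 ∧
      play r x N = 0 ∧ tv N (play r x) = 0) ∨
    (∃ (k : ℕ) (s : ℕ → ℕ) (e : ℤ),
      (Up N r θ x).card + (Up N r θ (fun u => - x u)).card = k + 1 ∧
      (e = 1 ∨ e = -1) ∧ IsFam N (k+1) s ∧ e * (-1)^k = st r θ x N ∧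
      (∀ i < k+1, θ ≤ (e:ℝ) * (-1)^i * (x (s (i+1)) - play r x (s (i+1)))) ∧
      play r x N = play r x (s (k+1)) ∧ tv N (play r x) = fam (k+1) s e (play r x)) := by
  have hr : 0 ≤ r := by linarith
  induction N with
  | zero =>
    left
    refine ⟨by simp [Up], rfl, rfl, by simp [tv]⟩
  | succ N ih =>
    have hq : st r θ x (N+1) = if θ ≤ x (N+1) - play r x (N+1) then 1
           else if x (N+1) - play r x (N+1) ≤ -θ then -1 else st r θ x N := rfl
    have hn1 := st_neg r θ hr h0 x (N+1)
    have hn0 := st_neg r θ hr h0 x N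
    obtain ⟨p1, p2⟩ := sc_play_step r hr x N
    rw [sc_card_up N r θ x, sc_card_up N r θ (fun u => - x u), hn1, hn0]
    by_cases hA : θ ≤ x (N+1) - play r x (N+1)
    · rw [if_pos hA] at hq
      right
      have hge : play r x N ≤ play r x (N+1) := by
        by_contra hcon
        have := p2 (not_le.1 hcon)
        linarith
      obtain ⟨k, s, e, k1, k2, k3, k4, k5, k6, k7⟩ := sc_step N _ θ x (play r x)
        (st r θ x N) 1 (Or.inl rfl) rfl (by simpa using hA)
        (by rw [abs_of_nonneg (by linarith)]; simp) ih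
      refine ⟨k, s, e, ?_, k2, k3, ?_, k5, k6, k7⟩
      · rw [← k1, hq]
        by_cases h5 : st r θ x N = 1
        · simp [h5]
        · simp [h5]
          omega
      · rw [hq]; exact k4
    · rw [if_neg hA] at hq
      by_cases hB : x (N+1) - play r x (N+1) ≤ -θ
      · rw [if_pos hB] at hq
        right
        have hle : play r x (N+1) ≤ play r x N := by
          by_contra hcon
          have := p1 (not_le.1 hcon)
          linarith
        obtain ⟨k, s, e, k1, k2, k3, k4, k5, k6, k7⟩ := sc_step N _ θ x (play r x)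
          (st r θ x N) (-1) (Or.inr rfl) rfl (by push_cast; linarith)
          (by rw [abs_of_nonpos (by linarith)]; push_cast; ring) ih
        refine ⟨k, s, e, ?_, k2, k3, ?_, k5, k6, k7⟩
        · rw [← k1, hq]
          by_cases h5 : st r θ x N = -1
          · simp [h5]
          · have h6 : ¬ (- st r θ x N = 1) := fun h => h5 (by omega)
            simp [h5, h6]
            omega
        · rw [hq]; exact k4
      · rw [if_neg hB] at hq
        have heq : play r x (N+1) = play r x N := by
          rcases lt_trichotomy (play r x (N+1)) (play r x N) with h | h | h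
          · have := p2 h
            exfalso
            apply hB
            linarith
          · exact h
          · have := p1 h
            exfalso
            apply hA
            linarith
        have hc1 : ¬ (st r θ x (N+1) = 1 ∧ st r θ x N ≠ 1) := by
          rw [hq]; tauto
        have hc2 : ¬ (- st r θ x (N+1) = 1 ∧ - st r θ x N ≠ 1) := by
          rw [hq]; tauto
        rw [if_neg hc1, if_neg hc2, add_zero, add_zero, hq, heq, sc_tv_succ, heq, sub_self,
          abs_zero, add_zero]
        rcases ih with h | ⟨k, s, e, k1, k2, k3, k4, k5, k6, k7⟩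
        · left; exact h
        · right
          exact ⟨k, s, e, k1, k2, ⟨k3.1, k3.2.1, k3.2.2.trans (Nat.le_succ N)⟩, k4, k5, k6, k7⟩

theorem sc_fam_d (s : ℕ → ℕ) (e θ : ℝ) (d : ℕ → ℝ) (hd0 : d (s 0) = 0) (m : ℕ)
    (h : ∀ i < m+1, θ ≤ e * (-1)^i * d (s (i+1))) :
    ((2 * m + 1 : ℕ) : ℝ) * θ ≤ fam (m+1) s e d := by
  induction m with
  | zero =>
    have := h 0 (by omega)
    rw [sc_fam_succ, hd0]
    simp only [fam, Finset.range_zero, Finset.sum_empty]
    push_cast
    linarith
  | succ m ih =>
    have h1 := ih (fun i hi => h i (by omega))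
    have h2 := h (m+1) (by omega)
    have h3 := h m (by omega)
    rw [sc_fam_succ (m+1)]
    have h4 : e * (-1)^(m+1) * (d (s (m+1+1)) - d (s (m+1))) =
        e * (-1)^(m+1) * d (s (m+1+1)) + e * (-1)^m * d (s (m+1)) := by
      rw [pow_succ]; ring
    rw [h4]
    push_cast at h1 ⊢
    linarith

/-- number of flips of the trigger is controlled by the increase of `V` for smaller `r` -/
theorem st_count (N : ℕ) (r θ r' : ℝ) (hr' : 0 ≤ r') (h1 : r' ≤ θ) (h2 : θ ≤ r) (h0 : 0 < θ)
    (x : ℕ → ℝ) (hx : x 0 = 0) :
    V N r x + (θ - r') * ((2 * ((Up N r θ x).card + (Up N r θ (fun u => - x u)).card) - 1 : ℕ) : ℝ)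
      ≤ V N r' x := by
  rcases sc_ind N r θ h2 h0 x with ⟨c1, _, _, c4⟩ | ⟨k, s, e, c1, c2, c3, _, c5, _, c7⟩
  · rw [c1]
    have hV : V N r x = 0 := c4
    rw [hV]
    have : 0 ≤ V N r' x := by
      unfold V tv
      exact Finset.sum_nonneg fun _ _ => abs_nonneg _
    simpa using this
  · rw [c1]
    have hV : V N r x = fam (k+1) s e (play r x) := c7
    have h3 := V_fam_le N r' hr' x hx (k+1) s e c3 (by
      rcases c2 with h | h
      · left; rw [h]; norm_num
      · right; rw [h]; norm_num)
    have h4 : fam (k+1) s e x = fam (k+1) s e (play r x) +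
        fam (k+1) s e (fun t => x t - play r x t) := by
      unfold fam
      rw [← Finset.sum_add_distrib]
      refine Finset.sum_congr rfl fun i _ => ?_
      ring
    have h5 := sc_fam_d s e θ (fun t => x t - play r x t) (by
      rw [c3.1, hx]
      simp [play]) k c5
    have h6 : 2 * (k+1) - 1 = 2 * k + 1 := by omega
    rw [h6] at h3 ⊢
    rw [hV]
    rw [h4] at h3
    nlinarith

end Pool.Agent.SR871
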