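import Mathlib
import Pool.Agent.SR871.Defs
set_option autoImplicit false
set_option maxHeartbeats 1000000
namespace Pool.Agent.SR871
open Finset







theorem aux_flip_pos (N : ℕ) (q : ℕ → ℤ) (a b : ℕ) (hab : a ≤ b) (hb : b ≤ N)
    (h : q a ≠ q b) : 1 ≤ (flips N q ∩ Ioc a b).card := by
  rw [Nat.one_le_iff_ne_zero, Ne, Finset.card_eq_zero]
  intro hem
  apply h
  have key : ∀ k, a + k ≤ b → q (a + k) = q a := by
    intro k
    induction k with
    | zero => intro _; rfl
    | succ k ih =>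
      intro hk
      rw [← ih (by omega)]
      by_contra hne
      have : a + (k + 1) ∈ flips N q ∩ Ioc a b := by
        rw [mem_inter, mem_Ioc]
        refine ⟨?_, by omega, hk⟩
        unfold flips
        rw [mem_filter, mem_Icc]
        refine ⟨⟨by omega, by omega⟩, ?_⟩
        rw [show a + (k + 1) - 1 = a + k by omega]
        exact hne
      rw [hem] at this
      exact absurd this (notMem_empty _)
  have := key (b - a) (by omega)
  rw [show a + (b - a) = b by omega] at this
  exact this.symm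

theorem aux_mono {N m : ℕ} {s : ℕ → ℕ} (hs : IsFam N m s) (i j : ℕ) (hij : i ≤ j)
    (hj : j ≤ m) : s i ≤ s j := by
  induction j, hij using Nat.le_induction with
  | base => exact le_rfl
  | succ j hij ih => exact (ih (by omega)).trans (hs.2.1 j (by omega)).le

theorem aux_card_bi {N m : ℕ} {s : ℕ → ℕ} (q : ℕ → ℤ) (hs : IsFam N m s) (S : Finset ℕ)
    (hS : S ⊆ range m) :
    (S.biUnion (fun i => flips N q ∩ Ioc (s i) (s (i+1)))).card =
      ∑ i ∈ S, (flips N q ∩ Ioc (s i) (s (i+1))).card := by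
  apply Finset.card_biUnion
  have key : ∀ i j : ℕ, i < j → j < m →
      Disjoint (flips N q ∩ Ioc (s i) (s (i+1))) (flips N q ∩ Ioc (s j) (s (j+1))) := by
    intro i j hij hj
    rw [Finset.disjoint_left]
    intro t ht ht'
    rw [mem_inter, mem_Ioc] at ht ht'
    have := aux_mono hs (i + 1) j (by omega) (by omega)
    omega
  intro i hi j hj hij
  have hi' := mem_range.1 (hS hi)
  have hj' := mem_range.1 (hS hj)
  rcases lt_or_gt_of_ne hij with h | h
  · exact key i j h hj'
  · exact (key j i h hi').symm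

theorem aux_sum_le {N m : ℕ} {s : ℕ → ℕ} (q : ℕ → ℤ) (hs : IsFam N m s) :
    ∑ i ∈ range m, (flips N q ∩ Ioc (s i) (s (i+1))).card ≤ (flips N q).card := by
  rw [← aux_card_bi q hs _ (Subset.refl _)]
  apply card_le_card
  intro t ht
  rw [mem_biUnion] at ht
  obtain ⟨i, _, hi⟩ := ht
  exact (mem_inter.1 hi).1

theorem aux_pos {N m : ℕ} {s : ℕ → ℕ} (q : ℕ → ℤ) (h0 : q 0 = 0) (hs : IsFam N m s) (e : ℤ)
    (he : e = 1 ∨ e = -1) (i : ℕ) (hi : i < m) (h1 : q (s (i+1)) = e * (-1)^i)
    (h2 : i = 0 ∨ q (s i) = e * (-1)^(i-1)) :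
    1 ≤ (flips N q ∩ Ioc (s i) (s (i+1))).card := by
  have hle : s (i+1) ≤ N := (aux_mono hs (i+1) m (by omega) le_rfl).trans hs.2.2
  apply aux_flip_pos N q _ _ (hs.2.1 i hi).le hle
  have hpm : ((-1 : ℤ))^i = 1 ∨ ((-1 : ℤ))^i = -1 := neg_one_pow_eq_or ℤ i
  rcases Nat.eq_zero_or_pos i with h | h
  · subst h
    rw [hs.1, h0, h1]
    rcases he with rfl | rfl <;> simp
  · rcases h2 with h2 | h2
    · omega
    · rw [h1, h2]
      obtain ⟨k, rfl⟩ : ∃ k, i = k + 1 := ⟨i - 1, by omega⟩
      rw [Nat.add_sub_cancel, pow_succ]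
      rcases he with rfl | rfl <;> rcases neg_one_pow_eq_or ℤ k with h | h <;> rw [h] <;> norm_num

theorem aux_shift (m : ℕ) (b : ℕ → ℕ) :
    ∑ i ∈ range m, (if i = 0 then 0 else b (i - 1)) ≤ ∑ i ∈ range m, b i := by
  rcases Nat.eq_zero_or_pos m with h | h
  · subst h
    simp
  · obtain ⟨k, rfl⟩ : ∃ k, m = k + 1 := ⟨m - 1, by omega⟩
    rw [Finset.sum_range_succ' _ k, Finset.sum_range_succ _ k]
    simp

open Classical in
theorem aux_two (N : ℕ) (q : ℕ → ℤ) (h0 : q 0 = 0) (m : ℕ) (s : ℕ → ℕ) (hs : IsFam N m s) (e : ℤ)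
    (he : e = 1 ∨ e = -1) :
    2 * m ≤ (flips N q).card +
      ((range m).filter (fun i => GoodI N q (s i) (s (i+1)) (e * (-1)^i))).card +
      4 * ((range m).filter (fun i => q (s (i+1)) ≠ e * (-1)^i)).card := by
  have h1 := aux_sum_le q hs
  have h2 := aux_shift m (fun i => if q (s (i+1)) ≠ e * (-1)^i then 1 else 0)
  rw [Finset.card_filter, Finset.card_filter]
  have h3 : ∀ i ∈ range m, 2 ≤ (flips N q ∩ Ioc (s i) (s (i+1))).card +
      (if GoodI N q (s i) (s (i+1)) (e * (-1)^i) then 1 else 0) +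
      2 * (if q (s (i+1)) ≠ e * (-1)^i then 1 else 0) +
      2 * (if i = 0 then 0 else (if q (s (i-1+1)) ≠ e * (-1)^(i-1) then 1 else 0)) := by
    intro i hi
    rw [mem_range] at hi
    by_cases hb : q (s (i+1)) = e * (-1)^i
    · by_cases hb' : i = 0 ∨ q (s i) = e * (-1)^(i-1)
      · have h4 := aux_pos q h0 hs e he i hi hb hb'
        by_cases hg : GoodI N q (s i) (s (i+1)) (e * (-1)^i)
        · rw [if_pos hg]
          omega
        · have h5 : (flips N q ∩ Ioc (s i) (s (i+1))).card ≠ 1 := fun h => hg ⟨h, hb⟩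
          omega
      · push Not at hb'
        have hi0 : i ≠ 0 := hb'.1
        have hii : i - 1 + 1 = i := by omega
        rw [if_neg hi0, hii, if_pos hb'.2]
        omega
    · rw [if_pos hb]
      omega
  have h4 := Finset.sum_le_sum h3
  rw [Finset.sum_const, card_range, Finset.sum_add_distrib, Finset.sum_add_distrib,
    Finset.sum_add_distrib, ← Finset.mul_sum, ← Finset.mul_sum] at h4
  simp only [smul_eq_mul] at h4
  beta_reduce at h2
  omega

open Classical in
theorem aux_m_le (N : ℕ) (q : ℕ → ℤ) (h0 : q 0 = 0) (hq : ∀ t, q t = 0 ∨ q t = 1 ∨ q t = -1)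
    (hq' : ∀ t, q t ≠ 0 → q (t+1) ≠ 0) (m : ℕ) (s : ℕ → ℕ) (hs : IsFam N m s) (e : ℤ)
    (he : e = 1 ∨ e = -1) :
    m ≤ (flips N q).card + 2 * ((range m).filter (fun i => q (s (i+1)) ≠ e * (-1)^i)).card := by
  have h1 := aux_sum_le q hs
  have h2 := aux_shift m (fun i => if q (s (i+1)) ≠ e * (-1)^i then 1 else 0)
  rw [Finset.card_filter]
  have h3 : ∀ i ∈ range m, 1 ≤ (flips N q ∩ Ioc (s i) (s (i+1))).card +
      (if q (s (i+1)) ≠ e * (-1)^i then 1 else 0) +
      (if i = 0 then 0 else (if q (s (i-1+1)) ≠ e * (-1)^(i-1) then 1 else 0)) := by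
    intro i hi
    rw [mem_range] at hi
    by_cases hb : q (s (i+1)) = e * (-1)^i
    · by_cases hb' : i = 0 ∨ q (s i) = e * (-1)^(i-1)
      · have h4 := aux_pos q h0 hs e he i hi hb hb'
        omega
      · push Not at hb'
        have hi0 : i ≠ 0 := hb'.1
        have hii : i - 1 + 1 = i := by omega
        rw [if_neg hi0, hii, if_pos hb'.2]
        omega
    · rw [if_pos hb]
      omega
  have h4 := Finset.sum_le_sum h3
  rw [Finset.sum_const, card_range, Finset.sum_add_distrib, Finset.sum_add_distrib] at h4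
  simp only [smul_eq_mul, mul_one] at h4
  beta_reduce at h2
  omega

open Classical in
theorem block_count (N : ℕ) (q : ℕ → ℤ) (h0 : q 0 = 0) (hq : ∀ t, q t = 0 ∨ q t = 1 ∨ q t = -1)
    (hq' : ∀ t, q t ≠ 0 → q (t+1) ≠ 0) (m : ℕ) (s : ℕ → ℕ) (hs : IsFam N m s) (e : ℤ)
    (he : e = 1 ∨ e = -1) :
    (((range m).filter (fun i => ¬ GoodI N q (s i) (s (i+1)) (e * (-1)^i))).card : ℝ) +
      (((flips N q).filter (fun t => ∀ i < m, GoodI N q (s i) (s (i+1)) (e * (-1)^i) →
          t ∉ Ioc (s i) (s (i+1)))).card : ℝ)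
      ≤ (3/2) * (((2 * (flips N q).card - 1 : ℕ) : ℝ) - ((2 * m - 1 : ℕ) : ℝ)) +
        8 * (((range m).filter (fun i => q (s (i+1)) ≠ e * (-1)^i)).card : ℝ) := by
  have hT : (((flips N q).filter (fun t => ∀ i < m, GoodI N q (s i) (s (i+1)) (e * (-1)^i) →
          t ∉ Ioc (s i) (s (i+1))))).card +
      ((range m).filter (fun i => GoodI N q (s i) (s (i+1)) (e * (-1)^i))).card ≤
      (flips N q).card := by
    have h1 := aux_card_bi q hs ((range m).filter
      (fun i => GoodI N q (s i) (s (i+1)) (e * (-1)^i))) (filter_subset _ _)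
    have h2 : ∑ i ∈ (range m).filter (fun i => GoodI N q (s i) (s (i+1)) (e * (-1)^i)),
        (flips N q ∩ Ioc (s i) (s (i+1))).card =
        ((range m).filter (fun i => GoodI N q (s i) (s (i+1)) (e * (-1)^i))).card := by
      rw [Finset.card_eq_sum_ones]
      refine Finset.sum_congr rfl ?_
      intro i hi
      exact (mem_filter.1 hi).2.1
    rw [← h2, ← h1, ← Finset.card_union_of_disjoint]
    · apply card_le_card
      intro t ht
      rcases mem_union.1 ht with h | h
      · exact (mem_filter.1 h).1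
      · rw [mem_biUnion] at h
        obtain ⟨i, _, hi⟩ := h
        exact (mem_inter.1 hi).1
    · rw [Finset.disjoint_left]
      intro t ht ht'
      rw [mem_biUnion] at ht'
      obtain ⟨i, hi, hti⟩ := ht'
      rw [mem_filter] at ht hi
      exact ht.2 i (mem_range.1 hi.1) hi.2 (mem_inter.1 hti).2
  have hN : ((range m).filter (fun i => ¬ GoodI N q (s i) (s (i+1)) (e * (-1)^i))).card +
      ((range m).filter (fun i => GoodI N q (s i) (s (i+1)) (e * (-1)^i))).card = m := by
    have := Finset.card_filter_add_card_filter_not (s := range m)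
      (fun i => GoodI N q (s i) (s (i+1)) (e * (-1)^i))
    rw [card_range] at this
    omega
  have h2 := aux_two N q h0 m s hs e he
  have h1 := aux_m_le N q h0 hq hq' m s hs e he
  generalize ((range m).filter (fun i => ¬ GoodI N q (s i) (s (i+1)) (e * (-1)^i))).card = A at *
  generalize (((flips N q).filter (fun t => ∀ i < m, GoodI N q (s i) (s (i+1)) (e * (-1)^i) →
          t ∉ Ioc (s i) (s (i+1))))).card = T at *
  generalize ((range m).filter (fun i => GoodI N q (s i) (s (i+1)) (e * (-1)^i))).card = G at *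
  generalize ((range m).filter (fun i => q (s (i+1)) ≠ e * (-1)^i)).card = B at *
  generalize (flips N q).card = n at *
  have e1 : (T : ℝ) + G ≤ n := by exact_mod_cast hT
  have e2 : (A : ℝ) + G = m := by exact_mod_cast hN
  have e3 : 2 * (m : ℝ) ≤ n + G + 4 * B := by exact_mod_cast h2
  have e4 : (m : ℝ) ≤ n + 2 * B := by exact_mod_cast h1
  have g0 : (0 : ℝ) ≤ G := Nat.cast_nonneg _
  have b0 : (0 : ℝ) ≤ B := Nat.cast_nonneg _
  rcases Nat.eq_zero_or_pos m with hm | hm
  · subst hm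
    rcases Nat.eq_zero_or_pos n with hn | hn
    · subst hn
      norm_num at e1 e2 ⊢
      linarith
    · rw [Nat.cast_sub (by omega : 1 ≤ 2 * n)]
      have : (1 : ℝ) ≤ n := by exact_mod_cast hn
      norm_num at e1 e2 ⊢
      linarith
  · rcases Nat.eq_zero_or_pos n with hn | hn
    · subst hn
      rw [Nat.cast_sub (by omega : 1 ≤ 2 * m)]
      have : (1 : ℝ) ≤ m := by exact_mod_cast hm
      norm_num at e1 e2 e4 ⊢
      linarith
    · rw [Nat.cast_sub (by omega : 1 ≤ 2 * m), Nat.cast_sub (by omega : 1 ≤ 2 * n)]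
      push_cast
      linarith


open Classical in
theorem m_le (N : ℕ) (q : ℕ → ℤ) (h0 : q 0 = 0) (hq : ∀ t, q t = 0 ∨ q t = 1 ∨ q t = -1)
    (hq' : ∀ t, q t ≠ 0 → q (t+1) ≠ 0) (m : ℕ) (s : ℕ → ℕ) (hs : IsFam N m s) (e : ℤ)
    (he : e = 1 ∨ e = -1) :
    m ≤ (flips N q).card + 2 * ((range m).filter (fun i => q (s (i+1)) ≠ e * (-1)^i)).card := by
  exact aux_m_le N q h0 hq hq' m s hs e he

end Pool.Agent.SR871
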