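import Mathlib
import Pool.Agent.SR871.A1
import Pool.Agent.SR871.A6
import Pool.Agent.SR871.DefsE
set_option autoImplicit false
set_option maxHeartbeats 1000000
namespace Pool.Agent.SR871
open Finset



























/- TO PROVE -/

theorem sp_st_cases (r θ : ℝ) (x : ℕ → ℝ) (t : ℕ) :
    st r θ x t = 0 ∨ st r θ x t = 1 ∨ st r θ x t = -1 := by
  induction t with
  | zero => left; rfl
  | succ t ih =>
    rw [st]
    split_ifs
    · right; left; rfl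
    · right; right; rfl
    · exact ih

theorem sp_st_ne (r θ : ℝ) (x : ℕ → ℝ) (t : ℕ) (h : st r θ x t ≠ 0) :
    st r θ x (t + 1) ≠ 0 := by
  rw [st]
  split_ifs
  · norm_num
  · norm_num
  · exact h

theorem sp_st_ne_of_le (r θ : ℝ) (x : ℕ → ℝ) {a b : ℕ} (hab : a ≤ b)
    (h : st r θ x a ≠ 0) : st r θ x b ≠ 0 := by
  induction b, hab using Nat.le_induction with
  | base => exact h
  | succ n hn ih => exact sp_st_ne r θ x n ih

theorem sp_mem (N : ℕ) (r θ : ℝ) (x : ℕ → ℝ) (t : ℕ) : t ∈ Up N r θ x ↔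
    (1 ≤ t ∧ t ≤ N) ∧ st r θ x t = 1 ∧ st r θ x (t-1) ≠ 1 := by
  unfold Up
  rw [mem_filter, mem_Icc]

theorem sp_mem_neg (N : ℕ) (r θ : ℝ) (hr : 0 ≤ r) (hθ : 0 < θ) (x : ℕ → ℝ) (t : ℕ) :
    t ∈ Up N r θ (fun u => - x u) ↔
    (1 ≤ t ∧ t ≤ N) ∧ st r θ x t = -1 ∧ st r θ x (t-1) ≠ -1 := by
  rw [sp_mem, st_neg r θ hr hθ x t, st_neg r θ hr hθ x (t-1)]
  constructor
  · rintro ⟨h1, h2, h3⟩
    exact ⟨h1, by omega, by omega⟩
  · rintro ⟨h1, h2, h3⟩
    exact ⟨h1, by omega, by omega⟩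

theorem sp_mem_flips (N : ℕ) (q : ℕ → ℤ) (t : ℕ) : t ∈ flips N q ↔
    (1 ≤ t ∧ t ≤ N) ∧ q t ≠ q (t-1) := by
  unfold flips
  rw [mem_filter, mem_Icc]

theorem sp_between (N : ℕ) (r θ : ℝ) (hr : 0 ≤ r) (hθ : 0 < θ) (x : ℕ → ℝ) (y y' : ℕ)
    (hy : y ∈ Up N r θ x) (hy' : y' ∈ Up N r θ x) (hlt : y < y') :
    ∃ w ∈ Up N r θ (fun u => - x u), y < w ∧ w < y' := by
  classical
  rw [sp_mem] at hy hy'
  obtain ⟨⟨hy1, hyN⟩, hq, hq'⟩ := hy
  obtain ⟨⟨hy1', hyN'⟩, hp, hp'⟩ := hy'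
  have h1 : st r θ x (y'-1) ≠ 0 :=
    sp_st_ne_of_le r θ x (show y ≤ y'-1 by omega) (by rw [hq]; norm_num)
  have h2 : st r θ x (y'-1) = -1 := by
    rcases sp_st_cases r θ x (y'-1) with h | h | h
    · exact absurd h h1
    · exact absurd h hp'
    · exact h
  have h3 : ∃ w, y < w ∧ st r θ x w = -1 := by
    refine ⟨y'-1, ?_, h2⟩
    rcases Nat.lt_or_ge y (y'-1) with h | h
    · exact h
    · exfalso
      have h4 : y'-1 = y := by omega
      rw [h4, hq] at h2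
      norm_num at h2
  obtain ⟨w, hw⟩ : ∃ w, w = Nat.find h3 := ⟨_, rfl⟩
  have hw1 : y < w ∧ st r θ x w = -1 := by rw [hw]; exact Nat.find_spec h3
  have hwmin : ∀ v, v < w → ¬ (y < v ∧ st r θ x v = -1) := by
    intro v hv
    rw [hw] at hv
    exact Nat.find_min h3 hv
  have hwle : w ≤ y'-1 := by
    by_contra hcon
    refine hwmin (y'-1) (by omega) ⟨?_, h2⟩
    rcases Nat.lt_or_ge y (y'-1) with h | h
    · exact h
    · exfalso
      have h4 : y'-1 = y := by omega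
      rw [h4, hq] at h2
      norm_num at h2
  refine ⟨w, ?_, hw1.1, by omega⟩
  rw [sp_mem_neg N r θ hr hθ]
  refine ⟨by omega, hw1.2, ?_⟩
  intro hcon
  by_cases hyw : y < w - 1
  · exact hwmin (w-1) (by omega) ⟨hyw, hcon⟩
  · have h5 : w - 1 = y := by omega
    rw [h5, hq] at hcon
    norm_num at hcon

theorem sp_negneg (x : ℕ → ℝ) : (fun u => - (fun u => - x u) u) = x := by
  funext u
  simp

theorem Alt_Up (N : ℕ) (r θ : ℝ) (hr : 0 ≤ r) (hθ : 0 < θ) (x : ℕ → ℝ) :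
    Alt (Up N r θ x) (Up N r θ (fun u => - x u)) := by
  refine ⟨?_, fun y hy y' hy' h => sp_between N r θ hr hθ x y y' hy hy' h, ?_⟩
  · rw [Finset.disjoint_left]
    intro t h1 h2
    rw [sp_mem] at h1
    rw [sp_mem_neg N r θ hr hθ] at h2
    have := h1.2.1.symm.trans h2.2.1
    norm_num at this
  · intro y hy y' hy' h
    have := sp_between N r θ hr hθ (fun u => - x u) y y' hy hy' h
    rw [sp_negneg] at this
    exact this

theorem sp_flips_eq (N : ℕ) (r θ : ℝ) (hr : 0 ≤ r) (hθ : 0 < θ) (x : ℕ → ℝ) (t : ℕ) :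
    t ∈ flips N (st r θ x) ↔ t ∈ Up N r θ x ∨ t ∈ Up N r θ (fun u => - x u) := by
  rw [sp_mem_flips, sp_mem, sp_mem_neg N r θ hr hθ]
  constructor
  · rintro ⟨⟨h1, h2⟩, h3⟩
    have h4 : st r θ x t ≠ 0 := by
      intro h0
      apply h3
      rw [h0]
      by_contra h5
      have h6 := sp_st_ne r θ x (t-1) (fun h => h5 h.symm)
      rw [Nat.sub_add_cancel h1] at h6
      exact h6 h0
    rcases sp_st_cases r θ x t with h | h | h
    · exact absurd h h4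
    · left
      exact ⟨⟨h1, h2⟩, h, fun h7 => h3 (h.trans h7.symm)⟩
    · right
      exact ⟨⟨h1, h2⟩, h, fun h7 => h3 (h.trans h7.symm)⟩
  · rintro (⟨h1, h2, h3⟩ | ⟨h1, h2, h3⟩)
    · exact ⟨h1, fun h => h3 (h.symm.trans h2)⟩
    · exact ⟨h1, fun h => h3 (h.symm.trans h2)⟩

theorem flips_card (N : ℕ) (r θ : ℝ) (hr : 0 ≤ r) (hθ : 0 < θ) (x : ℕ → ℝ) :
    (flips N (st r θ x)).card = (Up N r θ x).card + (Up N r θ (fun u => - x u)).card := by
  classical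
  have h1 : flips N (st r θ x) = Up N r θ x ∪ Up N r θ (fun u => - x u) := by
    ext t
    rw [sp_flips_eq N r θ hr hθ, Finset.mem_union]
  rw [h1, Finset.card_union_of_disjoint (Alt_Up N r θ hr hθ x).1]



theorem sp_good (N : ℕ) (r θ : ℝ) (hr : 0 ≤ r) (hθ : 0 < θ) (x : ℕ → ℝ) (lo hi : ℕ)
    (hhi : hi ≤ N) (h : GoodI N (st r θ x) lo hi 1) :
    One (Up N r θ x) (Up N r θ (fun u => - x u)) lo hi := by
  obtain ⟨h1, h2⟩ := h
  obtain ⟨t0, ht0⟩ := Finset.card_eq_one.1 h1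
  have hmem : ∀ t, t ∈ flips N (st r θ x) → lo < t → t ≤ hi → t = t0 := by
    intro t h3 h4 h5
    have : t ∈ flips N (st r θ x) ∩ Ioc lo hi := by
      rw [Finset.mem_inter, Finset.mem_Ioc]
      exact ⟨h3, h4, h5⟩
    rw [ht0, Finset.mem_singleton] at this
    exact this
  have h0 : t0 ∈ flips N (st r θ x) ∩ Ioc lo hi := by
    rw [ht0]
    exact Finset.mem_singleton_self _
  rw [Finset.mem_inter, Finset.mem_Ioc] at h0
  obtain ⟨h0f, h0l, h0h⟩ := h0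
  have hconst : ∀ t, t0 ≤ t → t ≤ hi → st r θ x t = st r θ x t0 := by
    intro t ht
    induction t, ht using Nat.le_induction with
    | base => intro _; rfl
    | succ n hn ih =>
      intro h6
      have h7 := ih (by omega)
      rw [← h7]
      by_contra hcon
      have h8 : n + 1 ∈ flips N (st r θ x) := by
        rw [sp_mem_flips]
        exact ⟨⟨by omega, by omega⟩, hcon⟩
      have h9 := hmem (n+1) h8 (by omega) h6
      omega
  have hq0 : st r θ x t0 = 1 := by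
    rw [← hconst hi h0h le_rfl]
    exact h2
  have hU : t0 ∈ Up N r θ x := by
    rw [sp_mem_flips] at h0f
    rw [sp_mem]
    exact ⟨h0f.1, hq0, fun h => h0f.2 (hq0.trans h.symm)⟩
  constructor
  · rw [Finset.card_eq_one]
    refine ⟨t0, ?_⟩
    ext t
    rw [Finset.mem_inter, Finset.mem_Ioc, Finset.mem_singleton]
    constructor
    · rintro ⟨h3, h4, h5⟩
      exact hmem t ((sp_flips_eq N r θ hr hθ x t).2 (Or.inl h3)) h4 h5
    · rintro rfl
      exact ⟨hU, h0l, h0h⟩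
  · rw [Finset.eq_empty_iff_forall_notMem]
    intro t ht
    rw [Finset.mem_inter, Finset.mem_Ioc] at ht
    have h3 := hmem t ((sp_flips_eq N r θ hr hθ x t).2 (Or.inr ht.1)) ht.2.1 ht.2.2
    rw [sp_mem_neg N r θ hr hθ] at ht
    have h4 := ht.1.2.1
    rw [h3, hq0] at h4
    norm_num at h4

theorem sp_good_neg (N : ℕ) (r θ : ℝ) (hr : 0 ≤ r) (hθ : 0 < θ) (x : ℕ → ℝ) (lo hi : ℕ)
    (hhi : hi ≤ N) (h : GoodI N (st r θ x) lo hi (-1)) :
    One (Up N r θ (fun u => - x u)) (Up N r θ x) lo hi := by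
  have h1 : GoodI N (st r θ (fun u => - x u)) lo hi 1 := by
    obtain ⟨h2, h3⟩ := h
    refine ⟨?_, ?_⟩
    · have h4 : flips N (st r θ (fun u => - x u)) = flips N (st r θ x) := by
        ext t
        rw [sp_mem_flips, sp_mem_flips, st_neg r θ hr hθ x t, st_neg r θ hr hθ x (t-1)]
        constructor
        · rintro ⟨h5, h6⟩
          exact ⟨h5, fun h => h6 (by rw [h])⟩
        · rintro ⟨h5, h6⟩
          exact ⟨h5, fun h => h6 (by omega)⟩
      rw [h4]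
      exact h2
    · rw [st_neg r θ hr hθ, h3]
      norm_num
  have h2 := sp_good N r θ hr hθ (fun u => - x u) lo hi hhi h1
  rw [sp_negneg] at h2
  exact h2

theorem sp_val (r θ : ℝ) (hθ : 0 < θ) (x : ℕ → ℝ) (t : ℕ) (ht : 1 ≤ t) (σ : ℤ)
    (hσ : σ = 1 ∨ σ = -1) (h : θ ≤ (σ : ℝ) * (x t - play r x t)) : st r θ x t = σ := by
  obtain ⟨u, rfl⟩ : ∃ u, t = u + 1 := ⟨t-1, by omega⟩
  rcases hσ with rfl | rfl
  · have h1 : θ ≤ x (u+1) - play r x (u+1) := by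
      push_cast at h
      linarith
    rw [st, if_pos h1]
  · have h2 : x (u+1) - play r x (u+1) ≤ -θ := by
      push_cast at h
      linarith
    rw [st, if_neg (by linarith), if_pos h2]

theorem sp_sign (e : ℤ) (he : e = 1 ∨ e = -1) (i : ℕ) :
    e * (-1)^i = 1 ∨ e * (-1)^i = -1 := by
  rcases he with rfl | rfl <;> rcases neg_one_pow_eq_or ℤ i with h | h <;> rw [h] <;> norm_num

theorem sp_chain (N m : ℕ) (s : ℕ → ℕ) (hs : IsFam N m s) (i : ℕ) (hi : i < m) :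
    s (i+1) ≤ N := by
  have h1 : ∀ k, i + 1 ≤ k → k ≤ m → s (i+1) ≤ s k := by
    intro k hk
    induction k, hk using Nat.le_induction with
    | base => intro _; exact le_rfl
    | succ n hn ih =>
      intro h2
      exact (ih (by omega)).trans (hs.2.1 n (by omega)).le
  exact (h1 m hi le_rfl).trans hs.2.2

theorem sp_edge (N : ℕ) (r θ : ℝ) (hθ : 0 < θ) (hr : θ < r) (x : ℕ → ℝ) (hx : x 0 = 0)
    (m : ℕ) (s : ℕ → ℕ) (hs : IsFam N m s) (e : ℝ) (he : e = 1 ∨ e = -1) (e' : ℤ)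
    (he' : e' = 1 ∨ e' = -1) (hee : (e' : ℝ) = e) :
    ∃ (BJ FJ : Finset ℕ) (bad : ℝ),
      (∀ i, i ∈ BJ ↔ i < m ∧ ¬ GoodI N (st r θ x) (s i) (s (i+1)) (e' * (-1)^i)) ∧
      (∀ t, t ∈ FJ ↔ t ∈ flips N (st r θ x) ∧ ∀ i < m,
        GoodI N (st r θ x) (s i) (s (i+1)) (e' * (-1)^i) → t ∉ Ioc (s i) (s (i+1))) ∧
      (BJ.card : ℝ) + FJ.card ≤ (3/2) * (nfl N r θ x - ((2*m-1 : ℕ):ℝ)) + 8 * bad ∧
      (r - θ) * bad ≤ V N r x - (fam m s e x - r * ((2*m-1:ℕ):ℝ)) ∧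
      (m : ℝ) ≤ (Up N r θ x).card + (Up N r θ (fun u => - x u)).card + 2 * bad := by
  classical
  have hr0 : 0 ≤ r := by linarith
  have hb := block_count N (st r θ x) rfl (sp_st_cases r θ x) (sp_st_ne r θ x) m s hs e' he'
  have hm := m_le N (st r θ x) rfl (sp_st_cases r θ x) (sp_st_ne r θ x) m s hs e' he'
  rw [flips_card N r θ hr0 hθ x] at hb hm
  refine ⟨_, _, (((range m).filter
    (fun i => st r θ x (s (i+1)) ≠ e' * (-1)^i)).card : ℝ), ?_, ?_, hb, ?_, ?_⟩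
  · intro i
    rw [mem_filter, mem_range]
  · intro t
    rw [mem_filter]
  · refine le_trans ?_ (weak_loss N r θ hr.le x (play r x) hx rfl
      (fun t _ => play_near' r hr0 x hx t) m s e hs he)
    refine mul_le_mul_of_nonneg_left ?_ (by linarith)
    refine Nat.cast_le.2 (Finset.card_le_card ?_)
    intro i hi
    rw [mem_filter, mem_range] at hi ⊢
    refine ⟨hi.1, ?_⟩
    by_contra hcon
    push Not at hcon
    apply hi.2
    refine sp_val r θ hθ x (s (i+1)) ?_ (e' * (-1)^i) (sp_sign e' he' i) ?_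
    · have := hs.2.1 i hi.1
      omega
    · push_cast
      rw [hee]
      exact hcon
  · have h1 : (m : ℝ) ≤ (((Up N r θ x).card + (Up N r θ (fun u => - x u)).card +
        2 * ((range m).filter (fun i => st r θ x (s (i+1)) ≠ e' * (-1)^i)).card : ℕ) : ℝ) :=
      Nat.cast_le.2 hm
    push_cast at h1
    exact h1

open Classical in
theorem sp_outside (N m : ℕ) (s : ℕ → ℕ) (q : ℕ → ℤ) (σ : ℕ → ℤ) (B FJ : Finset ℕ)
    (hF : ∀ t, t ∈ FJ ↔ t ∈ flips N q ∧ ∀ i < m,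
        GoodI N q (s i) (s (i+1)) (σ i) → t ∉ Ioc (s i) (s (i+1))) :
    ((flips N q).filter (fun t => ∀ i < m, i ∉ B → t ∉ Ioc (s i) (s (i+1)))).card ≤
      FJ.card + B.card := by
  have h1 : (flips N q).filter (fun t => ∀ i < m, i ∉ B → t ∉ Ioc (s i) (s (i+1))) ⊆
      FJ ∪ (B.filter (fun i => GoodI N q (s i) (s (i+1)) (σ i))).biUnion
        (fun i => flips N q ∩ Ioc (s i) (s (i+1))) := by
    intro t ht
    rw [mem_filter] at ht
    rw [mem_union]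
    by_cases hin : t ∈ FJ
    · exact Or.inl hin
    · right
      rw [hF] at hin
      push Not at hin
      obtain ⟨i, him, hg, hti⟩ := hin ht.1
      rw [mem_biUnion]
      refine ⟨i, ?_, ?_⟩
      · rw [mem_filter]
        refine ⟨?_, hg⟩
        by_contra hiB
        exact ht.2 i him hiB hti
      · rw [mem_inter]
        exact ⟨ht.1, hti⟩
  refine (Finset.card_le_card h1).trans ((Finset.card_union_le _ _).trans ?_)
  refine Nat.add_le_add_left ?_ _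
  refine (Finset.card_biUnion_le).trans ?_
  calc ∑ i ∈ B.filter (fun i => GoodI N q (s i) (s (i+1)) (σ i)),
        (flips N q ∩ Ioc (s i) (s (i+1))).card
      = ∑ i ∈ B.filter (fun i => GoodI N q (s i) (s (i+1)) (σ i)), 1 := by
        refine Finset.sum_congr rfl fun i hi => ?_
        exact (mem_filter.1 hi).2.1
    _ = (B.filter (fun i => GoodI N q (s i) (s (i+1)) (σ i))).card := by simp
    _ ≤ B.card := Finset.card_le_card (Finset.filter_subset _ _)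

theorem path_PS (N : ℕ) (r θ : ℝ) (hθ : 0 < θ) (hr : θ < r) (x₁ x₂ x₃ : ℕ → ℝ)
    (h1 : x₁ 0 = 0) (h2 : x₂ 0 = 0) (h3 : x₃ 0 = 0) :
    ∃ cst D : ℝ, 0 ≤ cst ∧ 0 ≤ D ∧
      PS N (Up N r θ x₁) (Up N r θ (fun u => - x₁ u)) (Up N r θ x₂) (Up N r θ (fun u => - x₂ u))
        (Up N r θ x₃) (Up N r θ (fun u => - x₃ u)) D ∧
      D ≤ 6 * ((nfl N r θ x₁ - cst) + (nfl N r θ x₂ - cst) + (nfl N r θ x₃ - cst)) +
        32 * ((V N r x₁ + V N r x₂ + V N r x₃ - V N (3*r) (fun t => x₁ t + x₂ t + x₃ t)) / (r - θ)) ∧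
      (∀ r₂ ≥ r, V N (3*r) (fun t => x₁ t + x₂ t + x₃ t) - V N (3*r₂) (fun t => x₁ t + x₂ t + x₃ t)
        ≤ 3 * (r₂ - r) * cst) ∧
      cst ≤ 2 * (((Up N r θ x₁).card : ℝ) + ((Up N r θ (fun u => - x₁ u)).card : ℝ)) +
        4 * ((V N r x₁ + V N r x₂ + V N r x₃ - V N (3*r) (fun t => x₁ t + x₂ t + x₃ t)) / (r - θ)) := by
  classical
  have hr0 : 0 ≤ r := by linarith
  have hrθ : 0 < r - θ := by linarith
  obtain ⟨m, s, e, hs, he, hV⟩ := strong N (3*r) (by linarith) (fun t => x₁ t + x₂ t + x₃ t)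
    (by simp [h1, h2, h3])
  obtain ⟨e', he', hee⟩ : ∃ e' : ℤ, (e' = 1 ∨ e' = -1) ∧ (e' : ℝ) = e := by
    rcases he with h | h
    · exact ⟨1, Or.inl rfl, by rw [h]; norm_num⟩
    · exact ⟨-1, Or.inr rfl, by rw [h]; norm_num⟩
  obtain ⟨B1, F1, b1, hB1, hF1, hc1, hL1, hm1⟩ :=
    sp_edge N r θ hθ hr x₁ h1 m s hs e he e' he' hee
  obtain ⟨B2, F2, b2, hB2, hF2, hc2, hL2, hm2⟩ :=
    sp_edge N r θ hθ hr x₂ h2 m s hs e he e' he' hee
  obtain ⟨B3, F3, b3, hB3, hF3, hc3, hL3, hm3⟩ :=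
    sp_edge N r θ hθ hr x₃ h3 m s hs e he e' he' hee
  obtain ⟨cst, hcst⟩ : ∃ c : ℝ, c = ((2*m-1 : ℕ) : ℝ) := ⟨_, rfl⟩
  rw [← hcst] at hV hc1 hL1 hc2 hL2 hc3 hL3
  have hcst0 : 0 ≤ cst := by rw [hcst]; exact Nat.cast_nonneg _
  have hfam : fam m s e (fun t => x₁ t + x₂ t + x₃ t) =
      fam m s e x₁ + fam m s e x₂ + fam m s e x₃ := by
    unfold fam
    rw [← Finset.sum_add_distrib, ← Finset.sum_add_distrib]
    refine Finset.sum_congr rfl fun i _ => ?_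
    ring
  have hN1 := V_fam_le N r hr0 x₁ h1 m s e hs he
  have hN2 := V_fam_le N r hr0 x₂ h2 m s e hs he
  have hN3 := V_fam_le N r hr0 x₃ h3 m s e hs he
  rw [← hcst] at hN1 hN2 hN3
  obtain ⟨Λ, hΛ⟩ : ∃ Λ : ℝ, Λ = V N r x₁ + V N r x₂ + V N r x₃ -
      V N (3*r) (fun t => x₁ t + x₂ t + x₃ t) := ⟨_, rfl⟩
  rw [← hΛ]
  have hsum : (r - θ) * (b1 + b2 + b3) ≤ Λ := by
    rw [hΛ, hV, hfam]
    linarith
  have hsum' : b1 + b2 + b3 ≤ Λ / (r - θ) := by
    rw [le_div_iff₀ hrθ]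
    linarith
  have hb1 : b1 ≤ Λ / (r - θ) := by
    rw [le_div_iff₀ hrθ, hΛ, hV, hfam]
    linarith
  obtain ⟨O, hO⟩ : ∃ O : Finset ℕ, O = ((Up N r θ x₁ ∪ Up N r θ (fun u => - x₁ u) ∪
      Up N r θ x₂ ∪ Up N r θ (fun u => - x₂ u) ∪ Up N r θ x₃ ∪
      Up N r θ (fun u => - x₃ u)).filter
      (fun t => ∀ i < m, i ∉ B1 ∪ B2 ∪ B3 → t ∉ Ioc (s i) (s (i+1)))) := ⟨_, rfl⟩
  have hOcard : (O.card : ℝ) ≤ (F1.card : ℝ) + F2.card + F3.card +
      3 * ((B1 ∪ B2 ∪ B3).card : ℝ) := by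
    have hsub : O ⊆ ((flips N (st r θ x₁)).filter
          (fun t => ∀ i < m, i ∉ B1 ∪ B2 ∪ B3 → t ∉ Ioc (s i) (s (i+1)))) ∪
        (((flips N (st r θ x₂)).filter
          (fun t => ∀ i < m, i ∉ B1 ∪ B2 ∪ B3 → t ∉ Ioc (s i) (s (i+1)))) ∪
        ((flips N (st r θ x₃)).filter
          (fun t => ∀ i < m, i ∉ B1 ∪ B2 ∪ B3 → t ∉ Ioc (s i) (s (i+1))))) := by
      intro t ht
      rw [hO, mem_filter] at ht
      obtain ⟨ht1, ht2⟩ := ht
      simp only [mem_union] at ht1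
      rw [mem_union, mem_union, mem_filter, mem_filter, mem_filter]
      rcases ht1 with ((((h | h) | h) | h) | h) | h
      · exact Or.inl ⟨(sp_flips_eq N r θ hr0 hθ x₁ t).2 (Or.inl h), ht2⟩
      · exact Or.inl ⟨(sp_flips_eq N r θ hr0 hθ x₁ t).2 (Or.inr h), ht2⟩
      · exact Or.inr (Or.inl ⟨(sp_flips_eq N r θ hr0 hθ x₂ t).2 (Or.inl h), ht2⟩)
      · exact Or.inr (Or.inl ⟨(sp_flips_eq N r θ hr0 hθ x₂ t).2 (Or.inr h), ht2⟩)
      · exact Or.inr (Or.inr ⟨(sp_flips_eq N r θ hr0 hθ x₃ t).2 (Or.inl h), ht2⟩)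
      · exact Or.inr (Or.inr ⟨(sp_flips_eq N r θ hr0 hθ x₃ t).2 (Or.inr h), ht2⟩)
    have h4 := sp_outside N m s (st r θ x₁) (fun i => e' * (-1)^i) (B1 ∪ B2 ∪ B3) F1 hF1
    have h5 := sp_outside N m s (st r θ x₂) (fun i => e' * (-1)^i) (B1 ∪ B2 ∪ B3) F2 hF2
    have h6 := sp_outside N m s (st r θ x₃) (fun i => e' * (-1)^i) (B1 ∪ B2 ∪ B3) F3 hF3
    have h7 := (Finset.card_le_card hsub).trans ((Finset.card_union_le _ _).trans
      (Nat.add_le_add_left (Finset.card_union_le _ _) _))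
    have h8 : O.card ≤ F1.card + F2.card + F3.card + 3 * (B1 ∪ B2 ∪ B3).card := by
      refine h7.trans ?_
      refine (Nat.add_le_add ?_ (Nat.add_le_add ?_ ?_)).trans
        (le_of_eq (show (F1.card + (B1 ∪ B2 ∪ B3).card) + ((F2.card + (B1 ∪ B2 ∪ B3).card) +
          (F3.card + (B1 ∪ B2 ∪ B3).card)) = _ by ring))
      · convert h4
      · convert h5
      · convert h6
    exact_mod_cast h8
  have hBcard : ((B1 ∪ B2 ∪ B3).card : ℝ) ≤ (B1.card : ℝ) + B2.card + B3.card := by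
    have := (Finset.card_union_le (B1 ∪ B2) B3).trans
      (Nat.add_le_add_right (Finset.card_union_le B1 B2) _)
    exact_mod_cast this
  refine ⟨cst, ((B1 ∪ B2 ∪ B3).card : ℝ) + (O.card : ℝ), hcst0, by positivity, ?_, ?_, ?_, ?_⟩
  · -- PS
    refine ⟨m, s, fun i => decide (e' * (-1)^i = 1), B1 ∪ B2 ∪ B3, hs, ?_, ?_, ?_, ?_⟩
    · intro i
      have h4 := sp_sign e' he' i
      have h5 : e' * (-1)^(i+1) = -(e' * (-1)^i) := by ring
      rcases h4 with h | h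
      · simp only [h5, h]
        decide
      · simp only [h5, h]
        decide
    · intro i hi
      rw [mem_range]
      simp only [mem_union] at hi
      rcases hi with (h | h) | h
      · exact ((hB1 i).1 h).1
      · exact ((hB2 i).1 h).1
      · exact ((hB3 i).1 h).1
    · intro i him hiB
      simp only [mem_union, not_or] at hiB
      have g1 : GoodI N (st r θ x₁) (s i) (s (i+1)) (e' * (-1)^i) := by
        by_contra hcon
        exact hiB.1.1 ((hB1 i).2 ⟨him, hcon⟩)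
      have g2 : GoodI N (st r θ x₂) (s i) (s (i+1)) (e' * (-1)^i) := by
        by_contra hcon
        exact hiB.1.2 ((hB2 i).2 ⟨him, hcon⟩)
      have g3 : GoodI N (st r θ x₃) (s i) (s (i+1)) (e' * (-1)^i) := by
        by_contra hcon
        exact hiB.2 ((hB3 i).2 ⟨him, hcon⟩)
      have hN := sp_chain N m s hs i him
      constructor
      · intro hτ
        have hσ : e' * (-1)^i = 1 := of_decide_eq_true hτ
        rw [hσ] at g1 g2 g3
        exact ⟨sp_good N r θ hr0 hθ x₁ _ _ hN g1, sp_good N r θ hr0 hθ x₂ _ _ hN g2,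
          sp_good N r θ hr0 hθ x₃ _ _ hN g3⟩
      · intro hτ
        have hσ' : ¬ e' * (-1)^i = 1 := of_decide_eq_false hτ
        have hσ : e' * (-1)^i = -1 := (sp_sign e' he' i).resolve_left hσ'
        rw [hσ] at g1 g2 g3
        exact ⟨sp_good_neg N r θ hr0 hθ x₁ _ _ hN g1, sp_good_neg N r θ hr0 hθ x₂ _ _ hN g2,
          sp_good_neg N r θ hr0 hθ x₃ _ _ hN g3⟩
    · rw [hO]
  · have h9 : (0 : ℝ) ≤ (F1.card : ℝ) := Nat.cast_nonneg _
    have h10 : (0 : ℝ) ≤ (F2.card : ℝ) := Nat.cast_nonneg _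
    have h11 : (0 : ℝ) ≤ (F3.card : ℝ) := Nat.cast_nonneg _
    linarith
  · intro r₂ hr₂
    have h4 := V_fam_le N (3*r₂) (by linarith) (fun t => x₁ t + x₂ t + x₃ t)
      (by simp [h1, h2, h3]) m s e hs he
    rw [← hcst] at h4
    rw [hV]
    linarith
  · have h4 : cst ≤ 2 * (m : ℝ) := by
      rw [hcst]
      have : (2*m-1 : ℕ) ≤ 2 * m := Nat.sub_le _ _
      exact_mod_cast this
    linarith

end Pool.Agent.SR871
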