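import Mathlib
import Pool.Agent.SR871.P1
import Pool.Agent.SR871.A5
set_option autoImplicit false
set_option maxHeartbeats 1000000
namespace Pool.Agent.SR871
open Finset



























/- TO PROVE -/
/-- expectation over paths -/
noncomputable def fsE {α : Type} [Fintype α] (K : α → α → ℝ) (g : α → α → α → α → ℝ) : ℝ :=
  ∑ a, ∑ b, ∑ c, ∑ d, K a b * K b c * K c d * g a b c d

theorem fsE_add {α : Type} [Fintype α] (K : α → α → ℝ) (g h : α → α → α → α → ℝ) :
    fsE K (fun a b c d => g a b c d + h a b c d) = fsE K g + fsE K h := by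
  unfold fsE
  simp only [mul_add, Finset.sum_add_distrib]

theorem fsE_smul {α : Type} [Fintype α] (K : α → α → ℝ) (k : ℝ) (g : α → α → α → α → ℝ) :
    fsE K (fun a b c d => k * g a b c d) = k * fsE K g := by
  unfold fsE
  simp only [Finset.mul_sum]
  refine Finset.sum_congr rfl fun a _ => Finset.sum_congr rfl fun b _ =>
    Finset.sum_congr rfl fun c _ => Finset.sum_congr rfl fun d _ => ?_
  ring

theorem fsE_mono {α : Type} [Fintype α] (K : α → α → ℝ) (h0 : ∀ u v, 0 ≤ K u v)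
    (g h : α → α → α → α → ℝ) (hgh : ∀ a b c d, g a b c d ≤ h a b c d) : fsE K g ≤ fsE K h := by
  unfold fsE
  refine Finset.sum_le_sum fun a _ => Finset.sum_le_sum fun b _ =>
    Finset.sum_le_sum fun c _ => Finset.sum_le_sum fun d _ => ?_
  exact mul_le_mul_of_nonneg_left (hgh a b c d) (mul_nonneg (mul_nonneg (h0 _ _) (h0 _ _)) (h0 _ _))

theorem fsE_nest {α : Type} [Fintype α] (K : α → α → ℝ) (g : α → α → α → α → ℝ) :
    fsE K g = ∑ a, ∑ b, K a b * ∑ c, K b c * ∑ d, K c d * g a b c d := by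
  unfold fsE
  simp only [Finset.mul_sum, mul_assoc]

theorem fsE_m1 {α : Type} [Fintype α] (K : α → α → ℝ) (h1 : ∀ u, ∑ v, K u v = 1)
    (g : α → α → ℝ) : fsE K (fun a b _ _ => g a b) = ∑ a, ∑ b, K a b * g a b := by
  rw [fsE_nest]
  simp only [← Finset.sum_mul, h1, one_mul]

theorem fs_col {α : Type} [Fintype α] (K : α → α → ℝ) (hs : ∀ u v, K u v = K v u)
    (h1 : ∀ u, ∑ v, K u v = 1) (φ : α → ℝ) : ∑ a, ∑ b, K a b * φ b = ∑ b, φ b := by
  rw [Finset.sum_comm]
  refine Finset.sum_congr rfl fun b _ => ?_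
  rw [← Finset.sum_mul]
  have : ∑ a, K a b = 1 := by
    rw [← h1 b]
    exact Finset.sum_congr rfl fun a _ => hs a b
  rw [this, one_mul]

theorem fsE_m2 {α : Type} [Fintype α] (K : α → α → ℝ) (hs : ∀ u v, K u v = K v u)
    (h1 : ∀ u, ∑ v, K u v = 1)
    (g : α → α → ℝ) : fsE K (fun _ b c _ => g b c) = ∑ b, ∑ c, K b c * g b c := by
  rw [fsE_nest]
  simp only [← Finset.sum_mul, h1, one_mul]
  exact fs_col K hs h1 (fun b => ∑ c, K b c * g b c)

theorem fsE_m3 {α : Type} [Fintype α] (K : α → α → ℝ) (hs : ∀ u v, K u v = K v u)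
    (h1 : ∀ u, ∑ v, K u v = 1)
    (g : α → α → ℝ) : fsE K (fun _ _ c d => g c d) = ∑ c, ∑ d, K c d * g c d := by
  rw [fsE_nest]
  rw [fs_col K hs h1 (fun b => ∑ c, K b c * ∑ d, K c d * g c d)]
  exact fs_col K hs h1 (fun c => ∑ d, K c d * g c d)

theorem fs_path {α : Type} (f : α → ℕ → ℝ) (hf : ∀ u, f u 0 = 0) (N : ℕ) (r θ : ℝ) (hθ : 0 < θ)
    (hr : θ < r) (a b c d : α) :
    ∃ cst D : ℝ, 0 ≤ cst ∧ 0 ≤ D ∧
      PS N (Up N r θ (fun t => f b t - f a t)) (Up N r θ (fun t => f a t - f b t))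
        (Up N r θ (fun t => f c t - f b t)) (Up N r θ (fun t => f b t - f c t))
        (Up N r θ (fun t => f d t - f c t)) (Up N r θ (fun t => f c t - f d t)) D ∧
      D ≤ 6 * ((nfl N r θ (fun t => f b t - f a t) - cst) + (nfl N r θ (fun t => f c t - f b t) - cst)
        + (nfl N r θ (fun t => f d t - f c t) - cst)) +
        32 * ((V N r (fun t => f b t - f a t) + V N r (fun t => f c t - f b t) +
          V N r (fun t => f d t - f c t) - V N (3*r) (fun t => f d t - f a t)) / (r - θ)) ∧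
      (∀ r₂ ≥ r, V N (3*r) (fun t => f d t - f a t) - V N (3*r₂) (fun t => f d t - f a t)
        ≤ 3 * (r₂ - r) * cst) ∧
      cst ≤ 2 * (((Up N r θ (fun t => f b t - f a t)).card : ℝ) +
        ((Up N r θ (fun t => f a t - f b t)).card : ℝ)) +
        4 * ((V N r (fun t => f b t - f a t) + V N r (fun t => f c t - f b t) +
          V N r (fun t => f d t - f c t) - V N (3*r) (fun t => f d t - f a t)) / (r - θ)) := by
  have h := path_PS N r θ hθ hr (fun t => f b t - f a t) (fun t => f c t - f b t)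
    (fun t => f d t - f c t) (by simp [hf]) (by simp [hf]) (by simp [hf])
  have e4 : (fun t => f b t - f a t + (f c t - f b t) + (f d t - f c t)) =
      fun t => f d t - f a t := by
    funext t; ring
  simp only [neg_sub, e4] at h
  exact h

theorem fs_F3_le {α : Type} [Fintype α] (K : α → α → ℝ) (hs : ∀ u v, K u v = K v u)
    (h0 : ∀ u v, 0 ≤ K u v) (h1 : ∀ u, ∑ v, K u v = 1) (f : α → ℕ → ℝ) (hf : ∀ u, f u 0 = 0)
    (N : ℕ) (ρ : ℝ) (hρ : 0 ≤ ρ) : F3 K f N (3 * ρ) ≤ 3 * F1 K f N ρ := by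
  have key : fsE K (fun a _ _ d => V N (3 * ρ) (fun t => f d t - f a t)) ≤
      fsE K (fun a b c d => (V N ρ (fun t => f b t - f a t) + V N ρ (fun t => f c t - f b t)) +
        V N ρ (fun t => f d t - f c t)) := by
    refine fsE_mono K h0 _ _ fun a b c d => ?_
    have a1 := V_add N ρ ρ hρ hρ (fun t => f b t - f a t) (fun t => f c t - f b t)
      (by simp [hf]) (by simp [hf])
    have a2 := V_add N (ρ + ρ) ρ (by linarith) hρ
      (fun t => (fun t => f b t - f a t) t + (fun t => f c t - f b t) t) (fun t => f d t - f c t)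
      (by simp [hf]) (by simp [hf])
    have e4 : (fun t => (fun t => (fun t => f b t - f a t) t + (fun t => f c t - f b t) t) t +
        (fun t => f d t - f c t) t) = fun t => f d t - f a t := by
      funext t; simp only []; ring
    rw [e4] at a2
    have e5 : ρ + ρ + ρ = 3 * ρ := by ring
    rw [e5] at a2
    change V N (3 * ρ) (fun t => f d t - f a t) ≤ _
    linarith
  have e1 : fsE K (fun a _ _ d => V N (3 * ρ) (fun t => f d t - f a t)) = F3 K f N (3 * ρ) := rfl
  rw [e1, fsE_add, fsE_add, fsE_m1 K h1 (fun a b => V N ρ (fun t => f b t - f a t)),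
    fsE_m2 K hs h1 (fun b c => V N ρ (fun t => f c t - f b t)),
    fsE_m3 K hs h1 (fun c d => V N ρ (fun t => f d t - f c t))] at key
  have e2 : ∑ a, ∑ b, K a b * V N ρ (fun t => f b t - f a t) = F1 K f N ρ := rfl
  rw [e2] at key
  linarith

/-- flip sets `A u v = Up (f v - f u)` have small total defect relative to their total number -/
theorem flip_system {α : Type} [Fintype α] (K : α → α → ℝ) (hs : ∀ u v, K u v = K v u)
    (h0 : ∀ u v, 0 ≤ K u v) (h1 : ∀ u, ∑ v, K u v = 1) (f : α → ℕ → ℝ) (hf : ∀ u, f u 0 = 0)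
    (N : ℕ) (ε η r : ℝ) (hε : 0 < ε) (hη : 0 < η) (hη2 : η ≤ 1/1000) (hεη : ε ≤ η^3) (hr : 0 < r)
    (hB : 0 < F1 K f N r - F1 K f N ((1+η)*r))
    (hA : F1 K f N ((1-η)*r) - F1 K f N r ≤ (1 + 10*η) * (F1 K f N r - F1 K f N ((1+η)*r)))
    (hδ : 3 * F1 K f N r - F3 K f N (3*r) ≤ 10 * (ε/η) * (F1 K f N r - F1 K f N ((1+η)*r))) :
    ∃ D : α → α → α → α → ℝ, (∀ a b c d, 0 ≤ D a b c d) ∧
      (∀ a b c d, PS N (Up N r ((1-η^2)*r) (fun t => f b t - f a t))
        (Up N r ((1-η^2)*r) (fun t => f a t - f b t))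
        (Up N r ((1-η^2)*r) (fun t => f c t - f b t)) (Up N r ((1-η^2)*r) (fun t => f b t - f c t))
        (Up N r ((1-η^2)*r) (fun t => f d t - f c t)) (Up N r ((1-η^2)*r) (fun t => f c t - f d t))
        (D a b c d)) ∧
      0 < ∑ u, ∑ v, K u v * ((Up N r ((1-η^2)*r) (fun t => f v t - f u t)).card : ℝ) ∧
      ∑ a, ∑ b, ∑ c, ∑ d, K a b * K b c * K c d * D a b c d ≤
        5000 * η * ∑ u, ∑ v, K u v * ((Up N r ((1-η^2)*r) (fun t => f v t - f u t)).card : ℝ) := by
  obtain ⟨θ, hθe⟩ : ∃ θ : ℝ, θ = (1 - η^2) * r := ⟨_, rfl⟩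
  rw [← hθe]
  have hη2' : η^2 ≤ 1/1000 * η := by nlinarith
  have hrθ : r - θ = η^2 * r := by rw [hθe]; ring
  have hθ : 0 < θ := by rw [hθe]; exact mul_pos (by nlinarith) hr
  have hθr : θ < r := by
    have : 0 < η^2 * r := by positivity
    linarith
  choose cst D hc0 hD0 hPS hDle hcr hcle using fs_path f hf N r θ hθ hθr
  obtain ⟨B, hBe⟩ : ∃ B : ℝ, B = F1 K f N r - F1 K f N ((1+η)*r) := ⟨_, rfl⟩
  rw [← hBe] at hB hA hδ
  obtain ⟨U', hU'⟩ : ∃ U' : ℝ, U' = B / (η * r) := ⟨_, rfl⟩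
  have hηr : 0 < η * r := by positivity
  have hBU : B = η * r * U' := by rw [hU']; field_simp
  have hU'0 : 0 < U' := by rw [hU']; positivity
  obtain ⟨Sn, hSn⟩ : ∃ Sn : ℝ, Sn = ∑ u, ∑ v, K u v * nfl N r θ (fun t => f v t - f u t) := ⟨_, rfl⟩
  obtain ⟨U, hU⟩ : ∃ U : ℝ, U = ∑ u, ∑ v, K u v * ((Up N r θ (fun t => f v t - f u t)).card : ℝ) :=
    ⟨_, rfl⟩
  rw [← hU]
  -- (1)
  have s1 : F1 K f N r + (θ - (1-η)*r) * Sn ≤ F1 K f N ((1-η)*r) := by
    have : F1 K f N r + (θ - (1-η)*r) * Sn = ∑ u, ∑ v, K u v *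
        (V N r (fun t => f v t - f u t) + (θ - (1-η)*r) * nfl N r θ (fun t => f v t - f u t)) := by
      rw [hSn]
      unfold F1
      simp only [mul_add, Finset.sum_add_distrib, Finset.mul_sum]
      congr 1
      refine Finset.sum_congr rfl fun u _ => Finset.sum_congr rfl fun v _ => ?_
      ring
    rw [this]
    unfold F1
    refine Finset.sum_le_sum fun u _ => Finset.sum_le_sum fun v _ => ?_
    refine mul_le_mul_of_nonneg_left ?_ (h0 u v)
    refine st_count N r θ ((1-η)*r) (mul_nonneg (by linarith) hr.le) ?_ hθr.le hθ _ (by simp [hf])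
    rw [hθe]
    exact mul_le_mul_of_nonneg_right (by nlinarith) hr.le
  have s1' : (1 - η) * Sn ≤ (1 + 10*η) * U' := by
    have e : θ - (1-η)*r = (η * r) * (1 - η) := by rw [hθe]; ring
    rw [e] at s1
    have : (η * r) * ((1 - η) * Sn) ≤ (η * r) * ((1 + 10*η) * U') := by
      calc (η * r) * ((1 - η) * Sn) ≤ F1 K f N ((1-η)*r) - F1 K f N r := by linarith
        _ ≤ (1 + 10*η) * B := hA
        _ = (η * r) * ((1 + 10*η) * U') := by rw [hBU]; ring
    exact le_of_mul_le_mul_left this hηr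
  have hSn12 : Sn ≤ (1 + 12*η) * U' := by
    have h3 : (1 + 10*η) * U' ≤ (1 - η) * ((1 + 12*η) * U') := by
      have : (1 + 10*η) ≤ (1 - η) * (1 + 12*η) := by nlinarith
      nlinarith
    exact le_of_mul_le_mul_left (s1'.trans h3) (by linarith)
  -- (2)
  obtain ⟨L, hL⟩ : ∃ L : ℝ, L = fsE K (fun a b c d => (V N r (fun t => f b t - f a t) +
    V N r (fun t => f c t - f b t) + V N r (fun t => f d t - f c t) -
    V N (3*r) (fun t => f d t - f a t)) / (r - θ)) := ⟨_, rfl⟩
  have hLe : (η^2 * r) * L = 3 * F1 K f N r - F3 K f N (3*r) := by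
    have e : (fun a b c d => (V N r (fun t => f b t - f a t) +
      V N r (fun t => f c t - f b t) + V N r (fun t => f d t - f c t) -
      V N (3*r) (fun t => f d t - f a t)) / (r - θ)) = (fun a b c d => (1 / (η^2 * r)) *
        ((V N r (fun t => f b t - f a t) + V N r (fun t => f c t - f b t)) +
        V N r (fun t => f d t - f c t) + (-1) * V N (3*r) (fun t => f d t - f a t)) :
          α → α → α → α → ℝ) := by
      funext a b c d
      rw [hrθ]
      ring
    have e1 : fsE K (fun a _ _ d => V N (3 * r) (fun t => f d t - f a t)) = F3 K f N (3 * r) := rfl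
    have e2 : ∑ a, ∑ b, K a b * V N r (fun t => f b t - f a t) = F1 K f N r := rfl
    rw [hL, e, fsE_smul, fsE_add, fsE_add, fsE_add, fsE_smul,
      fsE_m1 K h1 (fun a b => V N r (fun t => f b t - f a t)),
      fsE_m2 K hs h1 (fun b c => V N r (fun t => f c t - f b t)),
      fsE_m3 K hs h1 (fun c d => V N r (fun t => f d t - f c t)), e1, e2]
    field_simp
    ring
  have hεη2 : ε / η ≤ η^2 := by
    rw [div_le_iff₀ hη]
    calc ε ≤ η^3 := hεη
      _ = η^2 * η := by ring
  have hδ2 : 3 * F1 K f N r - F3 K f N (3*r) ≤ 10 * η^2 * B := by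
    refine hδ.trans ?_
    exact mul_le_mul_of_nonneg_right (by linarith) hB.le
  have hL10 : L ≤ 10 * η * U' := by
    have h3 : (η^2 * r) * L ≤ (η^2 * r) * (10 * η * U') := by
      rw [hLe]
      refine hδ2.trans (le_of_eq ?_)
      rw [hBU]; ring
    exact le_of_mul_le_mul_left h3 (by positivity)
  -- (3)
  obtain ⟨C, hC⟩ : ∃ C : ℝ, C = fsE K cst := ⟨_, rfl⟩
  have hC1 : (1 - η) * U' ≤ C := by
    have k1 : fsE K (fun a _ _ d => V N (3 * r) (fun t => f d t - f a t)) ≤
        fsE K (fun a b c d => (3 * (η * r)) * cst a b c d +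
          V N (3 * ((1+η)*r)) (fun t => f d t - f a t)) := by
      refine fsE_mono K h0 _ _ fun a b c d => ?_
      have := hcr a b c d ((1+η)*r) (by nlinarith)
      have e : 3 * ((1+η)*r - r) = 3 * (η * r) := by ring
      rw [e] at this
      change V N (3 * r) (fun t => f d t - f a t) ≤ _
      linarith
    have e1 : fsE K (fun a _ _ d => V N (3 * r) (fun t => f d t - f a t)) = F3 K f N (3 * r) := rfl
    have e2 : fsE K (fun a _ _ d => V N (3 * ((1+η)*r)) (fun t => f d t - f a t)) =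
      F3 K f N (3 * ((1+η)*r)) := rfl
    rw [fsE_add, fsE_smul, e1, e2, ← hC] at k1
    have k2 := fs_F3_le K hs h0 h1 f hf N ((1+η)*r) (by positivity)
    have k3 : 3 * B - 10 * η^2 * B ≤ 3 * (η * r) * C := by
      rw [hBe] at hδ2 ⊢
      linarith
    have k4 : (η * r) * ((1 - η) * U') ≤ (η * r) * C := by
      have : (η * r) * ((1 - η) * U') = (1 - η) * B := by rw [hBU]; ring
      rw [this]
      have h5 : (1 - η) * B ≤ (3 - 10 * η^2) / 3 * B :=
        mul_le_mul_of_nonneg_right (by nlinarith) hB.le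
      nlinarith
    exact le_of_mul_le_mul_left k4 hηr
  -- (4)
  have hED : fsE K D ≤ 18 * (Sn - C) + 32 * L := by
    have k1 : fsE K D ≤ fsE K (fun a b c d => 6 * (((nfl N r θ (fun t => f b t - f a t)) +
        (nfl N r θ (fun t => f c t - f b t))) + (nfl N r θ (fun t => f d t - f c t))) +
        (-18) * cst a b c d +
        32 * ((V N r (fun t => f b t - f a t) + V N r (fun t => f c t - f b t) +
          V N r (fun t => f d t - f c t) - V N (3*r) (fun t => f d t - f a t)) / (r - θ))) := by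
      refine fsE_mono K h0 _ _ fun a b c d => ?_
      have := hDle a b c d
      linarith
    rw [fsE_add, fsE_add, fsE_smul, fsE_smul, fsE_smul, fsE_add, fsE_add,
      fsE_m1 K h1 (fun a b => nfl N r θ (fun t => f b t - f a t)),
      fsE_m2 K hs h1 (fun b c => nfl N r θ (fun t => f c t - f b t)),
      fsE_m3 K hs h1 (fun c d => nfl N r θ (fun t => f d t - f c t)), ← hL, ← hSn] at k1
    rw [hC]
    linarith
  -- (5)
  have hCU : C ≤ 2 * (U + U) + 4 * L := by
    have k1 : fsE K cst ≤ fsE K (fun a b c d =>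
        2 * (((Up N r θ (fun t => f b t - f a t)).card : ℝ) +
        ((Up N r θ (fun t => f a t - f b t)).card : ℝ)) +
        4 * ((V N r (fun t => f b t - f a t) + V N r (fun t => f c t - f b t) +
          V N r (fun t => f d t - f c t) - V N (3*r) (fun t => f d t - f a t)) / (r - θ))) :=
      fsE_mono K h0 _ _ fun a b c d => hcle a b c d
    have e3 : ∑ a, ∑ b, K a b * ((Up N r θ (fun t => f a t - f b t)).card : ℝ) = U := by
      rw [hU, Finset.sum_comm]
      refine Finset.sum_congr rfl fun u _ => Finset.sum_congr rfl fun v _ => ?_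
      rw [hs]
    rw [fsE_add, fsE_smul, fsE_smul, fsE_add,
      fsE_m1 K h1 (fun a b => ((Up N r θ (fun t => f b t - f a t)).card : ℝ)),
      fsE_m1 K h1 (fun a b => ((Up N r θ (fun t => f a t - f b t)).card : ℝ)), ← hL, e3,
      ← hU, ← hC] at k1
    exact k1
  have hU'U : U' ≤ 5 * U := by nlinarith
  have hU0 : 0 < U := by linarith
  refine ⟨D, hD0, hPS, hU0, ?_⟩
  change fsE K D ≤ _
  have : 18 * (Sn - C) + 32 * L ≤ 554 * (η * U') := by nlinarith
  have h6 : η * U' ≤ η * (5 * U) := mul_le_mul_of_nonneg_left hU'U hη.le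
  nlinarith [mul_pos hη hU0]

end Pool.Agent.SR871
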