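import Mathlib
import Pool.Agent.SR871.D7
import Pool.Agent.SR871.E4
import Pool.Agent.SR871.P2a
import Pool.Agent.SR871.P2b
import Pool.Agent.SR871.H1
import Pool.Agent.SR871.I1
import Pool.Agent.SR871.G1
import Pool.Agent.SR871.F
import Pool.Agent.SR871.B2

set_option autoImplicit false
namespace Pool.Agent.SR871
open Finset

theorem no_extremal (c : ℝ) (hc : 0 < c) : ∃ J₀ : ℕ, ∀ J ≥ J₀, ∀ (s : ℕ) (K : Fin s → Fin s → ℝ),
    s ≤ 2^(2^((J+1)^2)) → (∀ u v, K u v = K v u) → (∀ u v, 0 ≤ K u v) → (∀ u, ∑ v, K u v = 1) →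
    (∀ u v, K u v ≠ 0 → 1 ≤ (s:ℝ) * K u v) → ∀ (f : Fin s → ℕ → ℝ), (∀ u, f u 0 = 0) → ∀ N : ℕ,
    0 < ∑ u, ∑ v, K u v * nsq N (fun t => f v t - f u t) →
    ¬ (9 * (1 - c / Real.sqrt J) * ∑ u, ∑ v, K u v * nsq N (fun t => f v t - f u t) ≤
      ∑ u, ∑ a, ∑ b, ∑ v, K u a * K a b * K b v * nsq N (fun t => f v t - f u t)) := by
  obtain ⟨J₀, hJ₀⟩ := params c hc
  refine ⟨max J₀ 1, ?_⟩
  intro J hJ s K hs2 hs h0 h1 hK f hf N hpos hbig
  have hJ1 : 1 ≤ J := le_trans (le_max_right _ _) hJ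
  obtain ⟨W₀, η, hW₀, hη, hη2, hεη, hprod, hR⟩ := hJ₀ J (le_trans (le_max_left _ _) hJ)
  have hε : 0 < c / Real.sqrt J := by
    apply div_pos hc
    apply Real.sqrt_pos.mpr
    exact_mod_cast hJ1
  obtain ⟨r, hr, hB, hA, hδ⟩ := exists_scale K hs h0 h1 f hf N (c / Real.sqrt J) η hε hη
    (by linarith) hpos hbig
  obtain ⟨D, hD0, hPS, hU, hDU⟩ := flip_system K hs h0 h1 f hf N (c / Real.sqrt J) η r hε hη hη2
    hεη hr hB hA hδ
  have hη1 : η^2 < 1 := by nlinarith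
  have hθ : 0 < (1 - η^2) * r := mul_pos (by linarith) hr
  have hs0 : 0 < s := by
    rcases Nat.eq_zero_or_pos s with h | h
    · subst h
      simp at hU
    · exact h
  have hsR : (0:ℝ) < s := by exact_mod_cast hs0
  have hcount := counting K hs h0 h1 (1 / (s:ℝ)) (by positivity)
    (by
      intro u v huv
      have := hK u v huv
      rw [div_le_iff₀ hsR]
      linarith [mul_comm (K u v) (s:ℝ)])
    N (fun u v => Up N r ((1-η^2)*r) (fun t => f v t - f u t))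
    (by
      intro u v t ht
      simp only [Up, mem_filter, mem_Icc] at ht
      exact ht.1.1)
    (by
      intro u v
      have h := Alt_Up N r ((1-η^2)*r) hr.le hθ (fun t => f v t - f u t)
      have he : (fun t => -(fun t => f v t - f u t) t) = (fun t => f u t - f v t) := by
        funext t
        ring
      rw [he] at h
      exact h)
    D hD0 hPS (8*W₀+28) (2^(2^(2^(2*W₀+1)))) (24*W₀+68) (16*(24*W₀+68)) (by omega) (by omega)
    (Sel.main W₀ hW₀) (5000 * η) (by positivity) hDU (by omega)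
    (by
      rw [Fintype.card_fin]
      have h1 : (s:ℝ) ≤ ((2^(2^((J+1)^2)) : ℕ) : ℝ) := by exact_mod_cast hs2
      have h2 : (s:ℝ)^2 ≤ ((2^(2^((J+1)^2)) : ℕ) : ℝ)^2 := by
        apply pow_le_pow_left₀ hsR.le h1
      have h3 : 100 * (((8*W₀+28 : ℕ) : ℝ) + 2) * (s:ℝ)^2 ≤ ((2^(2^(2^(2*W₀+1))) : ℕ) : ℝ) := by
        refine le_trans ?_ hR
        apply mul_le_mul_of_nonneg_left h2
        positivity
      rw [div_mul_eq_mul_div, one_mul, le_div_iff₀ hsR]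
      calc 100 * (((8*W₀+28 : ℕ) : ℝ) + 2) * (s:ℝ) * (s:ℝ)
          = 100 * (((8*W₀+28 : ℕ) : ℝ) + 2) * (s:ℝ)^2 := by ring
        _ ≤ _ := h3)
    hprod
  exact absurd hU (not_lt.mpr hcount)

theorem main_big (k : ℕ) (hk : 3 ≤ k) (N : ℕ → ℕ) (G : ∀ n, SimpleGraph (Fin (N n)))
    (hconn : ∀ n, (G n).Connected) (hreg : ∀ n, ∀ v, ((G n).neighborSet v).ncard = k)
    (hgirth : ∀ M : ℕ, ∃ n, (M : ℕ∞) < (G n).egirth)
    (X : Type) [NormedAddCommGroup X] (φ : ℕ → X → ℕ → ℝ)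
    (hφ0 : ∀ N x, φ N x 0 = 0) (hφs : ∀ N x y t, φ N (x - y) t = φ N x t - φ N y t)
    (hφn : ∀ x, HasSum (fun N => nsq N (φ N x)) (‖x‖^2)) (C : ℝ) (hC : 1 ≤ C)
    (hemb : ∀ n, ∃ f : Fin (N n) → X, ∀ u v,
            (((G n).dist u v : ℕ) : ℝ) ≤ ‖f u - f v‖ ∧
              ‖f u - f v‖ ≤ C * (((G n).dist u v : ℕ) : ℝ)) : False := by
  obtain ⟨c, hc, hw⟩ := walk_main k hk C hC
  obtain ⟨J₀, hJ₀⟩ := no_extremal c hc
  obtain ⟨M, hM⟩ := hw J₀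
  obtain ⟨n, hn⟩ := hgirth M
  obtain ⟨f, hf⟩ := hemb n
  obtain ⟨J, s, K, ι, hJ, hs2, hs, h0, h1, hK, hpos, hbig⟩ :=
    hM (N n) (G n) (hconn n) (hreg n) hn X f hf
  obtain ⟨N', hN1, hN2⟩ := component K hs h0 h1 X φ hφ0 hφs hφn (fun u => f (ι u))
    (9 * (1 - c / Real.sqrt J)) hpos hbig
  exact hJ₀ J hJ s K hs2 hs h0 h1 hK (fun u => φ N' (f (ι u))) (fun u => hφ0 _ _) N' hN1 hN2

end Pool.Agent.SR871
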